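import Pool.Agent.VeeC.Pairs

set_option autoImplicit false

namespace Pool.Agent.VeeC

open Arr

variable {V N : Type*} [Fintype V] [Fintype N] {K : Arr V N} (L : Lab K)

namespace Lab

section aux

variable {L}

open Classical in
theorem Parity_mem_KC {C : Finset V} {d : K.D} :
    d ∈ L.KC C ↔ L.Z (src d) ∧ L.Z (tg d) ∧ src (F d) ∈ C := by
  unfold KC
  rw [Finset.mem_filter]
  exact ⟨fun h => h.2, fun h => ⟨Finset.mem_univ _, h⟩⟩

open Classical in
theorem Parity_mem_XC {C : Finset V} {d : K.D} :
    d ∈ L.XC C ↔ L.Z (src d) ∧ tg d ∈ C ∧ L.chg d := by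
  unfold XC
  rw [Finset.mem_filter]
  exact ⟨fun h => h.2, fun h => ⟨Finset.mem_univ _, h⟩⟩

end aux

open Classical in
/-- The number of pairs (chamber with exactly two vertices in `Z` and third vertex in `C`, edge of
it from `Z` to `C` with label `true`) is even. -/
theorem parity {u : V} (hu : ¬ L.Z u) :
    Even (((L.KC (L.comp u)).filter fun k => L.e (rot k) = true).card +
      ((L.KC (L.comp u)).filter fun k => L.e (F (F k)) = true).card) := by
  set C := L.comp u with hC
  set A : Finset K.D := Finset.univ.filter fun d =>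
    L.Z (src d) ∧ tg d ∈ C ∧ L.e d = true with hA
  have memA : ∀ d, d ∈ A ↔ L.Z (src d) ∧ tg d ∈ C ∧ L.e d = true := by
    intro d
    simp [hA]
  have h1 : ((L.KC C).filter fun k => L.e (rot k) = true).card =
      (A.filter fun d => L.Z (tg (rotI d))).card := by
    apply Finset.card_bij (fun k _ => rot k)
    · intro k hk
      rw [Finset.mem_filter, Parity_mem_KC] at hk
      rw [Finset.mem_filter, memA]
      refine ⟨⟨hk.1.1, ?_, hk.2⟩, ?_⟩
      · exact hk.1.2.2
      · rw [rotI_rot]
        exact hk.1.2.1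
    · intro k _ k' _ h
      exact rot_injective h
    · intro d hd
      rw [Finset.mem_filter, memA] at hd
      refine ⟨rotI d, ?_, rot_rotI d⟩
      rw [Finset.mem_filter, Parity_mem_KC]
      refine ⟨⟨?_, hd.2, ?_⟩, ?_⟩
      · rw [src_rotI]
        exact hd.1.1
      · rw [F_rotI, src_rev]
        exact hd.1.2.1
      · rw [rot_rotI]
        exact hd.1.2.2
  have h2 : ((L.KC C).filter fun k => L.e (F (F k)) = true).card =
      (A.filter fun d => L.Z (tg (rot d))).card := by
    apply Finset.card_bij (fun k _ => F (F k))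
    · intro k hk
      rw [Finset.mem_filter, Parity_mem_KC] at hk
      rw [Finset.mem_filter, memA]
      refine ⟨⟨?_, ?_, hk.2⟩, ?_⟩
      · rw [src_F2]
        exact hk.1.2.1
      · rw [tg_F2]
        exact hk.1.2.2
      · rw [rot_F2, tg_rev]
        exact hk.1.1
    · intro k _ k' _ h
      exact F_injective (F_injective h)
    · intro d hd
      rw [Finset.mem_filter, memA] at hd
      refine ⟨F d, ?_, F3 d⟩
      rw [Finset.mem_filter, Parity_mem_KC]
      refine ⟨⟨?_, ?_, ?_⟩, ?_⟩
      · exact hd.2
      · rw [tg_F]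
        exact hd.1.1
      · rw [src_F2]
        exact hd.1.2.1
      · rw [F3]
        exact hd.1.2.2
  have h3 : (A.filter fun d => ¬ L.Z (tg (rot d))).card =
      (A.filter fun d => ¬ L.Z (tg (rotI d))).card := by
    apply Finset.card_bij (fun k _ => rot k)
    · intro d hd
      rw [Finset.mem_filter, memA] at hd
      rw [Finset.mem_filter, memA]
      have hd2 : ¬ L.Z (tg d) := not_Z_of_mem hu hd.1.2.1
      obtain ⟨e1, e2, -⟩ := s_eq_e hd.1.1 hd2 hd.2
      refine ⟨⟨hd.1.1, third_mem hu hd.1.2.1 hd.2, ?_⟩, ?_⟩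
      · rw [← e2, e1]
        exact hd.1.2.2
      · rw [rotI_rot]
        exact hd2
    · intro k _ k' _ h
      exact rot_injective h
    · intro d hd
      rw [Finset.mem_filter, memA] at hd
      refine ⟨rotI d, ?_, rot_rotI d⟩
      rw [Finset.mem_filter, memA]
      have hd2 : ¬ L.Z (tg d) := not_Z_of_mem hu hd.1.2.1
      have hs : L.Z (src (rotI d)) := by
        rw [src_rotI]
        exact hd.1.1
      have ht : ¬ L.Z (tg (rot (rotI d))) := by
        rw [rot_rotI]
        exact hd2
      obtain ⟨e1, e2, -⟩ := s_eq_e hs hd.2 ht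
      rw [rot_rotI] at e2
      refine ⟨⟨hs, third_mem' hu hd.1.2.1 hd.2, ?_⟩, ht⟩
      rw [← e1, e2]
      exact hd.1.2.2
  have h4 := Finset.card_filter_add_card_filter_not (s := A) (fun d => L.Z (tg (rotI d)))
  have h5 := Finset.card_filter_add_card_filter_not (s := A) (fun d => L.Z (tg (rot d)))
  rw [h1, h2, Nat.even_iff]
  omega

theorem seven {u : V} (hu : ¬ L.Z u) (h7 : (L.KC (L.comp u)).card = 7) :
    (L.XC (L.comp u)).card ≤ 13 := by
  classical
  by_contra hcon
  push Not at hcon
  set C := L.comp u with hC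
  set T : Finset (K.D × Bool) := (L.KC C) ×ˢ Finset.univ with hT
  let g : K.D → K.D × Bool := fun d =>
    if L.Z (tg (rot d)) then (F d, false) else (rotI d, true)
  have hgmem : ∀ d ∈ L.XC C, g d ∈ T := by
    intro d hd
    rw [Parity_mem_XC] at hd
    have hd2 : ¬ L.Z (tg d) := not_Z_of_mem hu hd.2.1
    rw [hT, Finset.mem_product]
    refine ⟨?_, Finset.mem_univ _⟩
    rw [Parity_mem_KC]
    by_cases h : L.Z (tg (rot d))
    · have e : (g d).1 = F d := by simp [g, h]
      rw [e]
      refine ⟨h, ?_, ?_⟩
      · rw [tg_F]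
        exact hd.1
      · rw [src_F2]
        exact hd.2.1
    · have e : (g d).1 = rotI d := by simp [g, h]
      rw [e]
      refine ⟨?_, ?_, ?_⟩
      · rw [src_rotI]
        exact hd.1
      · rcases chg_third hd.1 hd2 hd.2.2 with h' | h'
        · exact absurd h' h
        · exact h'
      · rw [F_rotI, src_rev]
        exact hd.2.1
  have hginj : Set.InjOn g (L.XC C : Set K.D) := by
    intro d _ d' _ h
    by_cases h1 : L.Z (tg (rot d)) <;> by_cases h2 : L.Z (tg (rot d'))
    · simp only [g, h1, h2, if_true, Prod.mk.injEq, and_true] at h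
      exact F_injective h
    · simp [g, h1, h2] at h
    · simp [g, h1, h2] at h
    · simp only [g, h1, h2, if_false, Prod.mk.injEq, and_true] at h
      exact rotI_injective h
  have hTcard : T.card = 14 := by
    rw [hT, Finset.card_product, h7]
    rfl
  have himg : (L.XC C).image g = T := by
    apply Finset.eq_of_subset_of_card_le
    · intro x hx
      rw [Finset.mem_image] at hx
      obtain ⟨d, hd, rfl⟩ := hx
      exact hgmem d hd
    · rw [Finset.card_image_of_injOn hginj, hTcard]
      omega
  have htrue : ∀ k ∈ L.KC C, L.chg (rot k) ∧ ¬ L.Z (tg (rot (rot k))) := by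
    intro k hk
    have h1 : (k, true) ∈ (L.XC C).image g := by
      rw [himg, hT, Finset.mem_product]
      exact ⟨hk, Finset.mem_univ _⟩
    rw [Finset.mem_image] at h1
    obtain ⟨d, hd, hgd⟩ := h1
    by_cases h : L.Z (tg (rot d))
    · simp [g, h] at hgd
    · simp only [g, h, if_false, Prod.mk.injEq, and_true] at hgd
      have e : d = rot k := by rw [← hgd, rot_rotI]
      rw [Parity_mem_XC] at hd
      rw [← e]
      exact ⟨hd.2.2, h⟩
  have hfalse : ∀ k ∈ L.KC C, L.chg (F (F k)) := by
    intro k hk
    have h1 : (k, false) ∈ (L.XC C).image g := by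
      rw [himg, hT, Finset.mem_product]
      exact ⟨hk, Finset.mem_univ _⟩
    rw [Finset.mem_image] at h1
    obtain ⟨d, hd, hgd⟩ := h1
    by_cases h : L.Z (tg (rot d))
    · simp only [g, h, if_true, Prod.mk.injEq, and_true] at hgd
      have e : d = F (F k) := by rw [← hgd, F3]
      rw [Parity_mem_XC] at hd
      rw [← e]
      exact hd.2.2
    · simp [g, h] at hgd
  have hthird : ∀ k ∈ L.KC C, ¬ L.Z (tg (rotI (F (F k)))) := by
    intro k hk h
    have hk0 := hk
    rw [Parity_mem_KC] at hk
    have hmem : rotI (F (F k)) ∈ L.KC C := by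
      rw [Parity_mem_KC]
      refine ⟨?_, h, ?_⟩
      · rw [src_rotI, src_F2]
        exact hk.2.1
      · rw [F_rotI, src_rev, tg_F2]
        exact hk.2.2
    have h2 := (htrue _ hmem).2
    rw [rot_rotI, rot_F2, tg_rev] at h2
    exact h2 hk.1
  have hne : ∀ k ∈ L.KC C, (L.e (rot k) = true ↔ ¬ L.e (F (F k)) = true) := by
    intro k hk
    have hk0 := hk
    rw [Parity_mem_KC] at hk
    have hCk : ¬ L.Z (tg (rot k)) := not_Z_of_mem hu hk.2.2
    obtain ⟨hc1, hz1⟩ := htrue k hk0
    have hc2 := hfalse k hk0
    have hz2 := hthird k hk0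
    -- first corner
    obtain ⟨e1, -, -⟩ := s_eq_e (d := rot k) (L := L) hk.1 hCk hz1
    have hs1 : L.s k = !L.e (rot k) := by
      unfold chg at hc1
      rw [rotI_rot, e1] at hc1
      revert hc1
      cases L.s k <;> cases L.e (rot k) <;> simp
    -- second corner
    have hsrc : L.Z (src (rotI (F (F k)))) := by
      rw [src_rotI, src_F2]
      exact hk.2.1
    have htg : ¬ L.Z (tg (rot (rotI (F (F k))))) := by
      rw [rot_rotI, tg_F2]
      exact hCk
    obtain ⟨-, e2, -⟩ := s_eq_e hsrc hz2 htg
    rw [rot_rotI] at e2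
    have hs2 : L.s (F (F k)) = !L.e (F (F k)) := by
      unfold chg at hc2
      rw [e2] at hc2
      revert hc2
      cases L.s (F (F k)) <;> cases L.e (F (F k)) <;> simp
    by_contra hcon2
    have heq : L.e (rot k) = L.e (F (F k)) := by
      revert hcon2
      cases L.e (rot k) <;> cases L.e (F (F k)) <;> simp
    exact not_both hk.1 hk.2.1 hCk (t := L.e (rot k)) (Or.inl rfl) ⟨hs1, by rw [hs2, heq]⟩
  have hp := L.parity hu
  have h8 : ((L.KC C).filter fun k => L.e (F (F k)) = true).card =
      ((L.KC C).filter fun k => ¬ L.e (rot k) = true).card := by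
    congr 1
    apply Finset.filter_congr
    intro k hk
    have := hne k hk
    tauto
  have h9 := Finset.card_filter_add_card_filter_not (s := L.KC C)
    (fun k => L.e (rot k) = true)
  rw [← hC, h8, h9, h7] at hp
  exact absurd hp (by decide)

end Lab

end Pool.Agent.VeeC
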