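import Pool.Agent.VeeC.LabBasic

set_option autoImplicit false

namespace Pool.Agent.VeeC

open Arr

namespace Rank

section Orb

variable {α : Type*}

/-- orbits of a map of finite order -/
def orbS (f : α → α) (n : ℕ) (hn : 0 < n) (h : ∀ a, f^[n] a = a) : Setoid α where
  r a b := ∃ k, f^[k] a = b
  iseqv :=
    { refl := fun a => ⟨0, rfl⟩
      symm := by
        rintro a b ⟨k, rfl⟩
        refine ⟨n * k - k, ?_⟩
        rw [← Function.iterate_add_apply]
        have h1 : n * k - k + k = n * k := by
          have : k ≤ n * k := Nat.le_mul_of_pos_left k hn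
          omega
        rw [h1, Function.iterate_mul]
        have h2 : f^[n] = id := funext h
        rw [h2, Function.iterate_id]
        rfl
      trans := by
        rintro a b c ⟨k, rfl⟩ ⟨l, rfl⟩
        exact ⟨l + k, Function.iterate_add_apply _ _ _ _⟩ }

theorem orb_inv {β : Type*} {f : α → α} (g : α → β) (hg : ∀ a, g (f a) = g a) (k : ℕ) (a : α) :
    g (f^[k] a) = g a := by
  induction k generalizing a with
  | zero => rfl
  | succ k ih => rw [Function.iterate_succ_apply, ih, hg]

theorem orb_iter_mod {f : α → α} {n : ℕ} (h : ∀ a, f^[n] a = a) (k : ℕ) (a : α) :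
    f^[k] a = f^[k % n] a := by
  conv_lhs => rw [← Nat.mod_add_div k n]
  rw [Function.iterate_add_apply, Function.iterate_mul]
  have h2 : f^[n] = id := funext h
  rw [h2, Function.iterate_id]
  rfl

theorem orb_card [Fintype α] {f : α → α} {n : ℕ} (hn : 0 < n) (h : ∀ a, f^[n] a = a)
    (h2 : ∀ a k, 0 < k → k < n → f^[k] a ≠ a) [Fintype (Quotient (orbS f n hn h))] :
    Fintype.card α = n * Fintype.card (Quotient (orbS f n hn h)) := by
  classical
  have h3 : Fintype.card α = ∑ q : Quotient (orbS f n hn h),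
      (Finset.univ.filter fun a : α => (Quotient.mk _ a : Quotient (orbS f n hn h)) = q).card := by
    rw [← Finset.card_univ]
    exact Finset.card_eq_sum_card_fiberwise (fun a _ => Finset.mem_coe.2 (Finset.mem_univ _))
  rw [h3]
  have h4 : ∀ q : Quotient (orbS f n hn h),
      (Finset.univ.filter fun a : α => (Quotient.mk _ a : Quotient (orbS f n hn h)) = q).card
        = n := by
    intro q
    induction q using Quotient.inductionOn with
    | h a =>
      have h5 : (Finset.univ.filter fun b : α =>
          (Quotient.mk _ b : Quotient (orbS f n hn h)) = Quotient.mk _ a) =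
          (Finset.range n).image fun k => f^[k] a := by
        ext b
        simp only [Finset.mem_filter, Finset.mem_univ, true_and, Finset.mem_image,
          Finset.mem_range]
        constructor
        · intro hb
          obtain ⟨k, hk⟩ := Quotient.exact hb.symm
          exact ⟨k % n, Nat.mod_lt _ hn, by rw [← orb_iter_mod h, hk]⟩
        · rintro ⟨k, -, hk⟩
          exact (Quotient.sound (s := orbS f n hn h) ⟨k, hk⟩).symm
      rw [h5, Finset.card_image_of_injOn, Finset.card_range]
      intro i hi j hj hij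
      simp only [Finset.coe_range, Set.mem_Iio] at hi hj
      simp only at hij
      wlog hlt : i ≤ j generalizing i j
      · exact (this hij.symm hj hi (by omega)).symm
      by_contra hne
      have h1 : j = (j - i) + i := by omega
      rw [h1, Function.iterate_add_apply] at hij
      exact h2 (f^[i] a) (j - i) (by omega) (by omega) hij.symm
  rw [Finset.sum_congr rfl fun q _ => h4 q, Finset.sum_const, Finset.card_univ, smul_eq_mul,
    mul_comm]

end Orb

variable {V N : Type*} [Fintype V] [Fintype N] {K : Arr V N} (L : Lab K)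

/-- the darts outside of `Z` -/
abbrev DN : Type _ := {d : K.D // ¬ (L.Z (src d) ∧ L.Z (tg d))}
/-- the darts of the chambers inside of `Z` -/
abbrev DZ : Type _ := {d : K.D // L.Z (src d) ∧ L.Z (tg d) ∧ L.Z (tg (rot d))}

noncomputable instance : Fintype (DN L) := by classical exact Subtype.fintype _
noncomputable instance : Fintype (DZ L) := by classical exact Subtype.fintype _

variable {L}

/-- a dart outside of `Z` -/
def mkN (d : K.D) (hd : ¬ (L.Z (src d) ∧ L.Z (tg d))) : DN L := ⟨d, hd⟩

/-- reversal -/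
def fN (d : DN L) : DN L := ⟨rev d.1, by rw [src_rev, tg_rev, and_comm]; exact d.2⟩
/-- the rotation of a chamber -/
def fZ (d : DZ L) : DZ L := ⟨F d.1, by
  have h := src_F (F d.1)
  rw [src_F2] at h
  rw [src_F, tg_F, ← h]
  exact ⟨d.2.2.2, d.2.1, d.2.2.1⟩⟩

theorem hF (d : K.D) : F^[3] d = d := F3 d
theorem hN (d : DN L) : fN^[2] d = d := Subtype.ext (rev_rev d.1)
theorem hZ3 (d : DZ L) : fZ^[3] d = d := Subtype.ext (F3 d.1)

theorem F_ne (d : K.D) : F d ≠ d := by
  intro h
  have h1 : src (F d) = src d := by rw [h]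
  rw [src_F] at h1
  exact tg_ne_src (rot d) h1

theorem F2_ne (d : K.D) : F (F d) ≠ d := by
  intro h
  have h1 := F3 d
  rw [h] at h1
  exact F_ne d h1

theorem rev_ne (d : K.D) : rev d ≠ d := by
  intro h
  have h1 : src (rev d) = src d := by rw [h]
  exact tg_ne_src d h1

theorem hF_ne (d : K.D) (k : ℕ) (h0 : 0 < k) (h1 : k < 3) : F^[k] d ≠ d := by
  interval_cases k
  · exact F_ne d
  · exact F2_ne d

theorem hN_ne (d : DN L) (k : ℕ) (h0 : 0 < k) (h1 : k < 2) : fN^[k] d ≠ d := by
  interval_cases k
  intro h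
  exact rev_ne d.1 (congrArg Subtype.val h)

theorem hZ_ne (d : DZ L) (k : ℕ) (h0 : 0 < k) (h1 : k < 3) : fZ^[k] d ≠ d := by
  interval_cases k
  · intro h
    exact F_ne d.1 (congrArg Subtype.val h)
  · intro h
    exact F2_ne d.1 (congrArg Subtype.val h)

variable (K L) in
/-- chambers -/
abbrev QF := Quotient (orbS (F : K.D → K.D) 3 (by norm_num) hF)
variable (L) in
/-- edges outside of `Z` -/
abbrev QN := Quotient (orbS (fN : DN L → DN L) 2 (by norm_num) hN)
variable (L) in
/-- chambers in `Z` -/
abbrev QZ := Quotient (orbS (fZ : DZ L → DZ L) 3 (by norm_num) hZ3)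

/-- the class of a dart -/
def mF (d : K.D) : QF K := Quotient.mk _ d
/-- the class of a dart -/
def mN (d : DN L) : QN L := Quotient.mk _ d
/-- the class of a dart -/
def mZ (d : DZ L) : QZ L := Quotient.mk _ d

theorem mF_F (d : K.D) : mF (F d) = mF d :=
  (Quotient.sound (s := orbS (F : K.D → K.D) 3 (by norm_num) hF) ⟨1, rfl⟩).symm

theorem mN_f (d : DN L) : mN (fN d) = mN d :=
  (Quotient.sound (s := orbS (fN : DN L → DN L) 2 (by norm_num) hN) ⟨1, rfl⟩).symm

theorem mN_eq {d d' : DN L} : mN d = mN d' ↔ d.1 = d'.1 ∨ d.1 = rev d'.1 := by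
  constructor
  · intro h
    obtain ⟨k, hk⟩ := Quotient.exact h.symm
    rw [orb_iter_mod hN] at hk
    have : k % 2 = 0 ∨ k % 2 = 1 := by omega
    rcases this with h | h
    · rw [h] at hk
      exact Or.inl (congrArg Subtype.val hk).symm
    · rw [h] at hk
      exact Or.inr (congrArg Subtype.val hk).symm
  · rintro (h | h)
    · have : d = d' := Subtype.ext h
      rw [this]
    · have : d = fN d' := Subtype.ext h
      rw [this, mN_f]

theorem mF_rev (d : K.D) : mF (rev d) = mF (rotI d) := by
  rw [← F_rotI, mF_F]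

noncomputable instance : Fintype (QF K) := Fintype.ofFinite _
noncomputable instance : Fintype (QN L) := Fintype.ofFinite _
noncomputable instance : Fintype (QZ L) := Fintype.ofFinite _
noncomputable instance : DecidableEq (QN L) := Classical.decEq _
noncomputable instance : DecidableEq (DN L) := Classical.decEq _

/-- the coboundary -/
noncomputable def dl : (QF K → ZMod 2) →ₗ[ZMod 2] (QN L → ZMod 2) where
  toFun φ q := Quotient.lift (fun d : DN L => φ (mF d.1) + φ (mF (rev d.1))) (by
    rintro a b ⟨k, rfl⟩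
    refine (orb_inv (f := fN) (fun d : DN L => φ (mF d.1) + φ (mF (rev d.1))) ?_ k a).symm
    intro d
    change φ (mF (rev d.1)) + φ (mF (rev (rev d.1))) = φ (mF d.1) + φ (mF (rev d.1))
    rw [rev_rev, add_comm]) q
  map_add' φ ψ := by
    funext q
    induction q using Quotient.inductionOn with
    | h d =>
      change (φ + ψ) (mF d.1) + (φ + ψ) (mF (rev d.1)) = (φ (mF d.1) + φ (mF (rev d.1)))
        + (ψ (mF d.1) + ψ (mF (rev d.1)))
      simp only [Pi.add_apply]
      ring
  map_smul' c φ := by
    funext q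
    induction q using Quotient.inductionOn with
    | h d =>
      change (c • φ) (mF d.1) + (c • φ) (mF (rev d.1)) = c • (φ (mF d.1) + φ (mF (rev d.1)))
      simp only [Pi.smul_apply, smul_eq_mul]
      ring

theorem dl_mk (φ : QF K → ZMod 2) (d : DN L) :
    dl (L := L) φ (mN d) = φ (mF d.1) + φ (mF (rev d.1)) := rfl

open Classical in
/-- extension by zero -/
noncomputable def ex (h : QN L → ZMod 2) (d : K.D) : ZMod 2 :=
  if hd : ¬ (L.Z (src d) ∧ L.Z (tg d)) then h (mN (mkN d hd)) else 0

variable (L) in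
/-- the vertices outside of `Z` -/
abbrev UU := {v : V // ¬ L.Z v}

noncomputable instance : Fintype (UU L) := Fintype.ofFinite _
noncomputable instance : DecidableEq (UU L) := Classical.decEq _

open Classical in
/-- the stars -/
noncomputable def bt : (QN L → ZMod 2) →ₗ[ZMod 2] (UU L → ZMod 2) where
  toFun h u := ∑ d : K.D, if src d = u.1 then ex h d else 0
  map_add' h h' := by
    funext u
    simp only [Pi.add_apply]
    rw [← Finset.sum_add_distrib]
    refine Finset.sum_congr rfl fun d _ => ?_
    by_cases h1 : src d = u.1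
    · rw [if_pos h1, if_pos h1, if_pos h1]
      by_cases h2 : ¬ (L.Z (src d) ∧ L.Z (tg d))
      · rw [ex, ex, ex, dif_pos h2, dif_pos h2, dif_pos h2, Pi.add_apply]
      · rw [ex, ex, ex, dif_neg h2, dif_neg h2, dif_neg h2, add_zero]
    · rw [if_neg h1, if_neg h1, if_neg h1, add_zero]
  map_smul' c h := by
    funext u
    simp only [Pi.smul_apply, RingHom.id_apply, smul_eq_mul]
    rw [Finset.mul_sum]
    refine Finset.sum_congr rfl fun d _ => ?_
    by_cases h1 : src d = u.1
    · rw [if_pos h1, if_pos h1]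
      by_cases h2 : ¬ (L.Z (src d) ∧ L.Z (tg d))
      · rw [ex, ex, dif_pos h2, dif_pos h2, Pi.smul_apply, smul_eq_mul]
      · rw [ex, ex, dif_neg h2, dif_neg h2, mul_zero]
    · rw [if_neg h1, if_neg h1, mul_zero]

open Classical in
theorem bt_dl (φ : QF K → ZMod 2) : bt (dl (L := L) φ) = 0 := by
  funext u
  change (∑ d : K.D, if src d = u.1 then ex (dl (L := L) φ) d else 0) = 0
  have h1 : ∀ d : K.D, (if src d = u.1 then ex (dl (L := L) φ) d else 0) =
      (if src d = u.1 then φ (mF d) else 0) + (if src (rotI d) = u.1 then φ (mF (rotI d)) else 0) := by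
    intro d
    rw [src_rotI]
    by_cases h : src d = u.1
    · simp only [h, if_true]
      have h2 : ¬ (L.Z (src d) ∧ L.Z (tg d)) := fun h3 => u.2 (h ▸ h3.1)
      rw [ex, dif_pos h2, dl_mk]
      change φ (mF d) + φ (mF (rev d)) = _
      rw [mF_rev]
    · simp [h]
  rw [Finset.sum_congr rfl fun d _ => h1 d, Finset.sum_add_distrib]
  have h2 : (∑ d : K.D, if src (rotI d) = u.1 then φ (mF (rotI d)) else 0) =
      ∑ d : K.D, if src d = u.1 then φ (mF d) else 0 := by
    refine Function.Bijective.sum_comp (e := (rotI : K.D → K.D)) ?_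
      (fun d => if src d = u.1 then φ (mF d) else 0)
    exact Finite.injective_iff_bijective.1 rotI_injective
  rw [h2]
  exact CharTwo.add_self_eq_zero _

open Classical in
theorem bt_single (d : DN L) (u : UU L) : bt (Pi.single (mN d) (1 : ZMod 2)) u =
    (if src d.1 = u.1 then 1 else 0) + (if tg d.1 = u.1 then 1 else 0) := by
  change (∑ d' : K.D, if src d' = u.1 then ex (Pi.single (mN d) (1 : ZMod 2)) d' else 0) = _
  have h1 : ∀ d' : K.D, (if src d' = u.1 then ex (Pi.single (mN d) (1 : ZMod 2)) d' else 0) =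
      (if d' = d.1 then (if src d.1 = u.1 then 1 else 0) else 0) +
      (if d' = rev d.1 then (if tg d.1 = u.1 then 1 else 0) else 0) := by
    intro d'
    by_cases h2 : d' = d.1
    · subst h2
      have h3 : d.1 ≠ rev d.1 := fun h => rev_ne d.1 h.symm
      simp only [if_true, h3, if_false, add_zero]
      have h4 : ex (Pi.single (mN d) (1 : ZMod 2)) d.1 = 1 := by
        rw [ex, dif_pos d.2]
        exact Pi.single_eq_same _ _
      rw [h4]
    · by_cases h3 : d' = rev d.1
      · subst h3
        simp only [h2, if_false, if_true, zero_add, src_rev]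
        have h4 : ex (Pi.single (mN d) (1 : ZMod 2)) (rev d.1) = 1 := by
          have h6 : ¬ (L.Z (src (rev d.1)) ∧ L.Z (tg (rev d.1))) := (fN d).2
          rw [ex, dif_pos h6]
          have h5 : mN (mkN (rev d.1) h6) = mN d := mN_f d
          rw [h5]
          exact Pi.single_eq_same _ _
        simp only [h4]
      · simp only [h2, h3, if_false, add_zero]
        by_cases h5 : ¬ (L.Z (src d') ∧ L.Z (tg d'))
        · have h6 : mN (mkN d' h5) ≠ mN d := by
            intro h7
            rcases mN_eq.1 h7 with h | h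
            · exact h2 h
            · exact h3 h
          rw [ex, dif_pos h5, Pi.single_eq_of_ne h6]
          simp
        · rw [ex, dif_neg h5]
          simp
  rw [Finset.sum_congr rfl fun d _ => h1 d, Finset.sum_add_distrib, Finset.sum_ite_eq',
    Finset.sum_ite_eq']
  simp

open Classical in
theorem bt_surj (hZ : ∃ v, L.Z v) : LinearMap.range (bt (L := L)) = ⊤ := by
  have key : ∀ v : V, ∀ h : ¬ L.Z v,
      (Pi.single (⟨v, h⟩ : UU L) (1 : ZMod 2)) ∈ LinearMap.range (bt (L := L)) := by
    by_contra hcon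
    push Not at hcon
    obtain ⟨v0, hv0, hv1⟩ := hcon
    obtain ⟨z, hz⟩ := hZ
    let S : Set V := {v | ∀ h : ¬ L.Z v,
      (Pi.single (⟨v, h⟩ : UU L) (1 : ZMod 2)) ∈ LinearMap.range (bt (L := L))}
    obtain ⟨v, n, hinc, hvS, hwS⟩ := K.conn S ⟨z, fun h => absurd hz h⟩
      ⟨v0, fun h => hv1 (h hv0)⟩
    have hwS' : ∃ h : ¬ L.Z (K.ny n v),
        (Pi.single (⟨K.ny n v, h⟩ : UU L) (1 : ZMod 2)) ∉ LinearMap.range (bt (L := L)) := by
      by_contra h
      push Not at h
      exact hwS h
    obtain ⟨hw, hw2⟩ := hwS'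
    set d0 : K.D := ⟨(v, n), hinc⟩ with hd0
    have hd : ¬ (L.Z (src d0) ∧ L.Z (tg d0)) := fun h => hw h.2
    have h1 := LinearMap.mem_range_self (bt (L := L)) (Pi.single (mN (mkN d0 hd)) (1 : ZMod 2))
    by_cases hv : L.Z v
    · have h2 : bt (L := L) (Pi.single (mN (mkN d0 hd)) (1 : ZMod 2)) =
          Pi.single (⟨K.ny n v, hw⟩ : UU L) (1 : ZMod 2) := by
        funext u
        rw [bt_single]
        have h3 : src (mkN d0 hd).1 ≠ u.1 := fun h => u.2 (h ▸ hv)
        have h4 : tg (mkN d0 hd).1 = K.ny n v := rfl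
        rw [h4, if_neg h3, zero_add]
        by_cases h5 : K.ny n v = u.1
        · have h6 : (⟨K.ny n v, hw⟩ : UU L) = u := Subtype.ext h5
          rw [if_pos h5, h6, Pi.single_eq_same]
        · have h6 : u ≠ (⟨K.ny n v, hw⟩ : UU L) := fun h => h5 (by rw [h])
          rw [if_neg h5, Pi.single_eq_of_ne h6]
      rw [h2] at h1
      exact hw2 h1
    · have h2 : Pi.single (⟨K.ny n v, hw⟩ : UU L) (1 : ZMod 2) =
          bt (L := L) (Pi.single (mN (mkN d0 hd)) (1 : ZMod 2)) -
            Pi.single (⟨v, hv⟩ : UU L) (1 : ZMod 2) := by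
        rw [eq_sub_iff_add_eq, add_comm]
        funext u
        rw [bt_single, Pi.add_apply]
        have h3 : src (mkN d0 hd).1 = v := rfl
        have h4 : tg (mkN d0 hd).1 = K.ny n v := rfl
        rw [h3, h4]
        congr 1
        · by_cases h5 : v = u.1
          · have h6 : (⟨v, hv⟩ : UU L) = u := Subtype.ext h5
            rw [if_pos h5, h6, Pi.single_eq_same]
          · have h6 : u ≠ (⟨v, hv⟩ : UU L) := fun h => h5 (by rw [h])
            rw [if_neg h5, Pi.single_eq_of_ne h6]
        · by_cases h5 : K.ny n v = u.1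
          · have h6 : (⟨K.ny n v, hw⟩ : UU L) = u := Subtype.ext h5
            rw [if_pos h5, h6, Pi.single_eq_same]
          · have h6 : u ≠ (⟨K.ny n v, hw⟩ : UU L) := fun h => h5 (by rw [h])
            rw [if_neg h5, Pi.single_eq_of_ne h6]
      apply hw2
      rw [h2]
      exact Submodule.sub_mem _ h1 (hvS hv)
  rw [eq_top_iff]
  intro f _
  have h1 : f = ∑ u : UU L, f u • (Pi.single u (1 : ZMod 2) : UU L → ZMod 2) := by
    funext w
    rw [Finset.sum_apply]
    simp [Pi.single_apply]
  rw [h1]
  exact Submodule.sum_mem _ fun u _ => Submodule.smul_mem _ _ (key u.1 u.2)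

theorem ker_rev {φ : QF K → ZMod 2} (h : dl (L := L) φ = 0) {d : K.D}
    (hd : ¬ (L.Z (src d) ∧ L.Z (tg d))) : φ (mF (rev d)) = φ (mF d) := by
  have h1 := congrFun h (mN (mkN d hd))
  rw [dl_mk] at h1
  have h2 : φ (mF d) + φ (mF (rev d)) = 0 := h1
  exact (CharTwo.add_eq_zero.1 h2).symm

theorem ker_rot {φ : QF K → ZMod 2} (h : dl (L := L) φ = 0) {d : K.D}
    (hd : ¬ L.Z (src d)) (k : ℕ) : φ (mF (rot^[k] d)) = φ (mF d) := by
  induction k with
  | zero => rfl
  | succ k ih =>
    rw [Function.iterate_succ_apply']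
    have h1 : ¬ (L.Z (src (rot (rot^[k] d))) ∧ L.Z (tg (rot (rot^[k] d)))) := by
      rw [src_rot, src_rot_iter]
      exact fun h => hd h.1
    have h2 := ker_rev h h1
    rw [mF_rev, rotI_rot] at h2
    rw [← h2, ih]

theorem ker_src {φ : QF K → ZMod 2} (h : dl (L := L) φ = 0) {d d' : K.D}
    (hd : ¬ L.Z (src d)) (h' : src d = src d') : φ (mF d') = φ (mF d) := by
  obtain ⟨k, -, rfl⟩ := rot_trans h'
  exact ker_rot h hd k

theorem ker_comp {φ : QF K → ZMod 2} (h : dl (L := L) φ = 0) {u v : V} (hu : ¬ L.Z u)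
    (huv : Relation.ReflTransGen L.UAdj u v) :
    ∀ d d' : K.D, src d = u → src d' = v → φ (mF d') = φ (mF d) := by
  induction huv with
  | refl =>
    intro d d' h1 h2
    exact ker_src h (h1 ▸ hu) (h1.trans h2.symm)
  | tail _ hvw ih =>
    intro d d' h1 h2
    obtain ⟨hv, hw, d0, h3, h4⟩ := hvw
    have h5 := ih d d0 h1 h3
    have h6 : φ (mF (rev d0)) = φ (mF d0) := ker_rev h fun h => hv (h3 ▸ h.1)
    have h7 : φ (mF d') = φ (mF (rev d0)) :=
      ker_src h (by rw [src_rev, h4]; exact hw) (by rw [src_rev, h4, h2])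
    rw [h7, h6, h5]

open Classical in
theorem ker_le : Module.finrank (ZMod 2) (LinearMap.ker (dl (K := K) (L := L))) ≤
    Fintype.card (QZ L) + L.comps.card := by
  have hex : ∀ C : {C // C ∈ L.comps}, ∃ d : K.D, ¬ L.Z (src d) ∧ L.comp (src d) = C.1 := by
    rintro ⟨C, hC⟩
    rw [Lab.comps, Finset.mem_image] at hC
    obtain ⟨u, hu, rfl⟩ := hC
    obtain ⟨d, rfl⟩ := exists_dart (K := K) u
    exact ⟨d, (Finset.mem_filter.1 hu).2, rfl⟩
  choose dC hdC hdC2 using hex
  let toF : QZ L → QF K := Quotient.map' (s₁ := orbS (fZ : DZ L → DZ L) 3 (by norm_num) hZ3)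
    (s₂ := orbS (F : K.D → K.D) 3 (by norm_num) hF) Subtype.val (by
      rintro a b ⟨k, rfl⟩
      refine ⟨k, ?_⟩
      induction k with
      | zero => rfl
      | succ k ih => rw [Function.iterate_succ_apply', Function.iterate_succ_apply', ih]; rfl)
  have htoF : ∀ d : DZ L, toF (mZ d) = mF d.1 := fun d => rfl
  let γ0 : (QF K → ZMod 2) →ₗ[ZMod 2] ((QZ L → ZMod 2) × ({C // C ∈ L.comps} → ZMod 2)) :=
    { toFun := fun φ => (fun q => φ (toF q), fun C => φ (mF (dC C)))
      map_add' := fun φ ψ => rfl
      map_smul' := fun c φ => rfl }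
  let γ := γ0.comp (LinearMap.ker (dl (K := K) (L := L))).subtype
  have hinj : Function.Injective γ := by
    rw [← LinearMap.ker_eq_bot, LinearMap.ker_eq_bot']
    rintro ⟨φ, hφ⟩ h
    have hφ' : dl (L := L) φ = 0 := hφ
    have h1 : ∀ d : DZ L, φ (mF d.1) = 0 := by
      intro d
      have := congrFun (congrArg Prod.fst h) (mZ d)
      exact this
    have h2 : ∀ C, φ (mF (dC C)) = 0 := by
      intro C
      have := congrFun (congrArg Prod.snd h) C
      exact this
    have h3 : ∀ d : K.D, ¬ L.Z (src d) → φ (mF d) = 0 := by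
      intro d hd
      have hC : L.comp (src d) ∈ L.comps := by
        rw [Lab.comps, Finset.mem_image]
        exact ⟨src d, by simp [hd], rfl⟩
      have h4 := hdC2 ⟨_, hC⟩
      have h5 : src d ∈ L.comp (src (dC ⟨_, hC⟩)) := by
        rw [h4]
        exact Lab.self_mem_comp _
      have h6 := ker_comp hφ' (hdC ⟨_, hC⟩) (Lab.mem_comp.1 h5) (dC ⟨_, hC⟩) d rfl rfl
      rw [h6, h2]
    apply Subtype.ext
    change φ = 0
    funext q
    induction q using Quotient.inductionOn with
    | h d =>
      change φ (mF d) = 0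
      by_cases ha : L.Z (src d)
      · by_cases hb : L.Z (src (F d))
        · by_cases hc : L.Z (src (F (F d)))
          · rw [src_F2] at hc
            rw [src_F] at hb
            exact h1 ⟨d, ha, hc, hb⟩
          · have := h3 _ hc
            rwa [mF_F, mF_F] at this
        · have := h3 _ hb
          rwa [mF_F] at this
      · exact h3 d ha
  have h5 := LinearMap.finrank_le_finrank_of_injective hinj
  rw [Module.finrank_prod, Module.finrank_fintype_fun_eq_card, Module.finrank_fintype_fun_eq_card,
    Fintype.card_coe] at h5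
  exact h5

theorem main_ineq (hZ : ∃ v, L.Z v) : Fintype.card (QF K) + Fintype.card (UU L) ≤
    Fintype.card (QN L) + (Fintype.card (QZ L) + L.comps.card) := by
  have h1 := LinearMap.finrank_range_add_finrank_ker (dl (K := K) (L := L))
  have h2 := LinearMap.finrank_range_add_finrank_ker (bt (L := L))
  rw [Module.finrank_fintype_fun_eq_card] at h1 h2
  rw [bt_surj hZ, finrank_top, Module.finrank_fintype_fun_eq_card] at h2
  have h3 : LinearMap.range (dl (K := K) (L := L)) ≤ LinearMap.ker (bt (L := L)) := by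
    rintro _ ⟨φ, rfl⟩
    exact bt_dl φ
  have h4 := Submodule.finrank_mono h3
  have h5 := ker_le (K := K) (L := L)
  omega

end Rank

variable {V N : Type*} [Fintype V] [Fintype N] {K : Arr V N} (L : Lab K)

namespace Lab

open Classical in
/-- Euler's inequality for the graph `Z`: it has `V_Z` vertices, `E_Z` edges, and the faces are the
chambers with three vertices in `Z` and the components of the other vertices:
`V_Z + F_ZZZ + c ≥ E_Z + 2`, multiplied by six. -/
theorem rank_ineq (hZ : ∃ v, L.Z v) :
    3 * (Finset.univ.filter fun d : K.D => L.Z (src d) ∧ L.Z (tg d)).card + 12 ≤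
      6 * (Finset.univ.filter fun v => L.Z v).card +
      2 * (Finset.univ.filter fun d : K.D => L.Z (src d) ∧ L.Z (tg d) ∧
        L.Z (tg (rot d))).card + 6 * L.comps.card := by
  have h1 := Rank.main_ineq (L := L) hZ
  have hF : Fintype.card K.D = 3 * Fintype.card (Rank.QF K) :=
    Rank.orb_card _ Rank.hF (Rank.hF_ne (K := K))
  have hN : Fintype.card (Rank.DN L) = 2 * Fintype.card (Rank.QN L) :=
    Rank.orb_card _ Rank.hN (Rank.hN_ne (L := L))
  have hZ' : Fintype.card (Rank.DZ L) = 3 * Fintype.card (Rank.QZ L) :=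
    Rank.orb_card _ Rank.hZ3 (Rank.hZ_ne (L := L))
  have hE : Fintype.card K.D + 12 = 6 * Fintype.card V := by
    rw [← K.euler]
    congr 1
    exact Fintype.card_subtype _
  have hDN : Fintype.card (Rank.DN L) =
      (Finset.univ.filter fun d : K.D => ¬ (L.Z (src d) ∧ L.Z (tg d))).card :=
    by convert Fintype.card_subtype _
  have hDZ : Fintype.card (Rank.DZ L) =
      (Finset.univ.filter fun d : K.D => L.Z (src d) ∧ L.Z (tg d) ∧ L.Z (tg (rot d))).card := by
    convert Fintype.card_subtype _
  have hU : Fintype.card (Rank.UU L) = (Finset.univ.filter fun v : V => ¬ L.Z v).card := by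
    convert Fintype.card_subtype _
  have h2 := Finset.card_filter_add_card_filter_not (s := (Finset.univ : Finset K.D))
    (fun d : K.D => L.Z (src d) ∧ L.Z (tg d))
  have h3 := Finset.card_filter_add_card_filter_not (s := (Finset.univ : Finset V))
    (fun v : V => L.Z v)
  rw [Finset.card_univ] at h2 h3
  rw [← hDZ]
  omega

end Lab

end Pool.Agent.VeeC
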