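import Pool.Agent.VeeC.Six
import Pool.Agent.VeeC.Parity
import Pool.Agent.VeeC.Rank

set_option autoImplicit false

namespace Pool.Agent.VeeC

open Arr

variable {V N : Type*} [Fintype V] [Fintype N] {K : Arr V N} (L : Lab K)

namespace Lab

theorem six_le_KC (hZ : ∃ v, L.Z v) {u : V} (hu : ¬ L.Z u) (h : 2 ≤ (L.comp u).card) :
    6 ≤ (L.KC (L.comp u)).card := by
  obtain ⟨v, hv, hm⟩ := exists_triple (L := L) hu h
  have h1 := L.card_AZ_le hu
  by_cases hA : ∀ d : K.D, src d = v → L.Act d
  · have h2 := L.two_m_le hu hv hA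
    omega
  · push Not at hA
    obtain ⟨d, hd, hna⟩ := hA
    have h2 := L.eight_le_of_inactive hZ hu (d := d) (by rw [hd]; exact hv) hna
    omega

/-- the inequality for one component -/
theorem comp_ineq (hZ : ∃ v, L.Z v) {u : V} (hu : ¬ L.Z u) :
    (L.XC (L.comp u)).card + 8 ≤ 3 * (L.KC (L.comp u)).card := by
  have h1 := L.card_XC_le hu
  rcases Nat.lt_or_ge (L.comp u).card 2 with h | h
  · have h2 : 0 < (L.comp u).card := Finset.card_pos.mpr ⟨u, self_mem_comp u⟩
    exact L.single hu (by omega)
  · have h2 := L.six_le_KC hZ hu h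
    rcases Nat.lt_or_ge (L.KC (L.comp u)).card 8 with h8 | h8
    · rcases Nat.lt_or_ge (L.KC (L.comp u)).card 7 with h7 | h7
      · have h6 : (L.KC (L.comp u)).card = 6 := by omega
        have h3 := L.six hZ hu h6
        omega
      · have h6 : (L.KC (L.comp u)).card = 7 := by omega
        have h3 := L.seven hu h6
        omega
    · omega

open Classical in
theorem NoLab_chg : 8 * (Finset.univ.filter fun v => L.Z v).card ≤
    (Finset.univ.filter fun d : K.D => L.Z (src d) ∧ L.Z (tg d)).card +
      ∑ C ∈ L.comps, (L.XC C).card := by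
  have h1 : 8 * (Finset.univ.filter fun v => L.Z v).card ≤
      (Finset.univ.filter fun d : K.D => L.Z (src d) ∧ L.chg d).card := by
    have e1 : (Finset.univ.filter fun d : K.D => L.Z (src d) ∧ L.chg d) =
        (Finset.univ.filter fun v => L.Z v).biUnion fun v =>
          Finset.univ.filter fun d : K.D => src d = v ∧ L.chg d := by
      ext d
      simp only [Finset.mem_filter, Finset.mem_univ, true_and, Finset.mem_biUnion]
      constructor
      · rintro ⟨h1, h2⟩
        exact ⟨src d, h1, rfl, h2⟩
      · rintro ⟨v, h1, h2, h3⟩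
        exact ⟨by rw [h2]; exact h1, h3⟩
    rw [e1, Finset.card_biUnion]
    · have h2 : ∑ _v ∈ (Finset.univ.filter fun v => L.Z v), 8 ≤
          ∑ v ∈ (Finset.univ.filter fun v => L.Z v),
            (Finset.univ.filter fun d : K.D => src d = v ∧ L.chg d).card := by
        apply Finset.sum_le_sum
        intro v hv
        rw [Finset.mem_filter] at hv
        exact eight_le_chg (L := L) hv.2
      rw [Finset.sum_const, smul_eq_mul] at h2
      omega
    · intro v _ w _ hvw
      rw [Function.onFun, Finset.disjoint_left]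
      intro d hd hd'
      simp only [Finset.mem_filter, Finset.mem_univ, true_and] at hd hd'
      exact hvw (hd.1.symm.trans hd'.1)
  have h2 : (Finset.univ.filter fun d : K.D => L.Z (src d) ∧ L.chg d) ⊆
      (Finset.univ.filter fun d : K.D => L.Z (src d) ∧ L.Z (tg d)) ∪
        L.comps.biUnion fun C => L.XC C := by
    intro d hd
    simp only [Finset.mem_filter, Finset.mem_univ, true_and] at hd
    rw [Finset.mem_union]
    by_cases ht : L.Z (tg d)
    · left
      simp only [Finset.mem_filter, Finset.mem_univ, true_and]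
      exact ⟨hd.1, ht⟩
    · right
      rw [Finset.mem_biUnion]
      refine ⟨L.comp (tg d), ?_, ?_⟩
      · unfold comps
        apply Finset.mem_image_of_mem
        simp only [Finset.mem_filter, Finset.mem_univ, true_and]
        exact ht
      · unfold XC
        simp only [Finset.mem_filter, Finset.mem_univ, true_and]
        exact ⟨hd.1, self_mem_comp _, hd.2⟩
  have h3 := Finset.card_le_card h2
  have h4 := Finset.card_union_le
    (Finset.univ.filter fun d : K.D => L.Z (src d) ∧ L.Z (tg d))
    (L.comps.biUnion fun C => L.XC C)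
  have h5 : (L.comps.biUnion fun C => L.XC C).card ≤ ∑ C ∈ L.comps, (L.XC C).card :=
    Finset.card_biUnion_le
  omega

open Classical in
theorem NoLab_KC : ∑ C ∈ L.comps, (L.KC C).card +
    (Finset.univ.filter fun d : K.D => L.Z (src d) ∧ L.Z (tg d) ∧ L.Z (tg (rot d))).card ≤
    (Finset.univ.filter fun d : K.D => L.Z (src d) ∧ L.Z (tg d)).card := by
  have hcomp : ∀ C ∈ L.comps, ∀ x ∈ C, L.comp x = C ∧ ¬ L.Z x := by
    intro C hC x hx
    unfold comps at hC
    obtain ⟨u, hu, rfl⟩ := Finset.mem_image.1 hC
    rw [Finset.mem_filter] at hu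
    exact ⟨comp_eq hu.2 hx, not_Z_of_mem hu.2 hx⟩
  rw [← Finset.card_biUnion, ← Finset.card_union_of_disjoint]
  · apply Finset.card_le_card
    intro d hd
    rw [Finset.mem_union] at hd
    simp only [Finset.mem_filter, Finset.mem_univ, true_and]
    rcases hd with hd | hd
    · rw [Finset.mem_biUnion] at hd
      obtain ⟨C, -, hd⟩ := hd
      unfold KC at hd
      simp only [Finset.mem_filter, Finset.mem_univ, true_and] at hd
      exact ⟨hd.1, hd.2.1⟩
    · simp only [Finset.mem_filter, Finset.mem_univ, true_and] at hd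
      exact ⟨hd.1, hd.2.1⟩
  · rw [Finset.disjoint_left]
    intro d hd hd'
    rw [Finset.mem_biUnion] at hd
    obtain ⟨C, hC, hd⟩ := hd
    unfold KC at hd
    simp only [Finset.mem_filter, Finset.mem_univ, true_and] at hd hd'
    exact (hcomp C hC _ hd.2.2).2 hd'.2.2
  · intro C hC C' hC' hne
    rw [Function.onFun, Finset.disjoint_left]
    intro d hd hd'
    unfold KC at hd hd'
    simp only [Finset.mem_filter, Finset.mem_univ, true_and] at hd hd'
    exact hne ((hcomp C hC _ hd.2.2).1.symm.trans (hcomp C' hC' _ hd'.2.2).1)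

/-- **There is no labelling.** -/
theorem no_lab (v : V) : ¬ L.Z v := by
  classical
  intro hv
  have hZ : ∃ v, L.Z v := ⟨v, hv⟩
  have h1 := L.rank_ineq hZ
  have h2 := L.NoLab_chg
  have h3 := L.NoLab_KC
  have h4 : ∑ C ∈ L.comps, (L.XC C).card + 8 * L.comps.card ≤
      3 * ∑ C ∈ L.comps, (L.KC C).card := by
    have h5 : ∑ C ∈ L.comps, ((L.XC C).card + 8) ≤ ∑ C ∈ L.comps, 3 * (L.KC C).card := by
      apply Finset.sum_le_sum
      intro C hC
      unfold comps at hC
      obtain ⟨u, hu, rfl⟩ := Finset.mem_image.1 hC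
      rw [Finset.mem_filter] at hu
      exact L.comp_ineq hZ hu.2
    rw [Finset.sum_add_distrib, Finset.sum_const, smul_eq_mul, ← Finset.mul_sum] at h5
    omega
  omega

end Lab

end Pool.Agent.VeeC
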