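import Pool.Agent.VeeC.LabMk
import Pool.Agent.VeeC.NoLab

set_option autoImplicit false

/-!
Rigidity in space.
-/

namespace Pool.Agent.VeeC

open Matrix Arr ComplexConjugate

variable {κ : Type*} [Fintype κ] {a b : κ → R3}

theorem Core3_normSq (z : ℂ) : (conj z * z).re = Complex.normSq z := by
  rw [mul_comm, Complex.mul_conj, Complex.ofReal_re]

theorem Core3_mulNormSq (z w t : ℂ) : (Complex.normSq t : ℂ) * (conj z * w) =
    (conj z * t) * (conj t * w) := by
  rw [← Complex.mul_conj]
  ring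

theorem Core3_step {m : ℕ} (hm : 2 ≤ m) {u w : ℕ → ℂ}
    (hu : ∀ k l, k < l → l < k + m → 0 < (conj (u k) * u l).im)
    (hw : ∀ k l, k < l → l < k + m → 0 < (conj (w k) * w l).im)
    (hn : ∀ k, Complex.normSq (u k) = Complex.normSq (w k))
    (hr : ∀ k, (conj (u k) * u (k + 1)).re = (conj (w k) * w (k + 1)).re) (k : ℕ) :
    conj (u k) * u (k + 1) = conj (w k) * w (k + 1) := by
  apply Complex.ext (hr k)
  have h1 := hu k (k + 1) (by omega) (by omega)
  have h2 := hw k (k + 1) (by omega) (by omega)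
  have h3 : Complex.normSq (conj (u k) * u (k + 1)) = Complex.normSq (conj (w k) * w (k + 1)) := by
    rw [Complex.normSq_mul, Complex.normSq_mul, Complex.normSq_conj, Complex.normSq_conj, hn, hn]
  rw [Complex.normSq_apply, Complex.normSq_apply, hr k] at h3
  have h4 : (conj (u k) * u (k + 1)).im * (conj (u k) * u (k + 1)).im =
      (conj (w k) * w (k + 1)).im * (conj (w k) * w (k + 1)).im := by linarith
  exact (mul_self_inj h1.le h2.le).mp h4

theorem Core3_all {m : ℕ} (hm : 2 ≤ m) {u w : ℕ → ℂ}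
    (hu : ∀ k l, k < l → l < k + m → 0 < (conj (u k) * u l).im)
    (hw : ∀ k l, k < l → l < k + m → 0 < (conj (w k) * w l).im)
    (hn : ∀ k, Complex.normSq (u k) = Complex.normSq (w k))
    (hr : ∀ k, (conj (u k) * u (k + 1)).re = (conj (w k) * w (k + 1)).re) (l : ℕ) :
    conj (u 0) * u l = conj (w 0) * w l := by
  induction l with
  | zero =>
    rw [mul_comm, Complex.mul_conj, mul_comm, Complex.mul_conj, hn]
  | succ l ih =>
    have h1 := Core3_step hm hu hw hn hr l
    have h2 : Complex.normSq (u l) ≠ 0 := by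
      intro h0
      rw [Complex.normSq_eq_zero] at h0
      have := hu l (l + 1) (by omega) (by omega)
      rw [h0] at this
      simp at this
    have h3 := Core3_mulNormSq (u 0) (u (l + 1)) (u l)
    have h4 := Core3_mulNormSq (w 0) (w (l + 1)) (w l)
    rw [ih, h1, ← h4, ← hn] at h3
    exact mul_left_cancel₀ (by exact_mod_cast h2) h3

theorem Core3_iter {ha : Sys3 a} {v : VT (LL a)} {n : κ × Bool} (hn : Inc v n) (k : ℕ) :
    Inc v ((nx a v)^[k] n) := by
  induction k with
  | zero => exact hn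
  | succ k ih =>
    rw [Function.iterate_succ_apply']
    exact (nx_spec ha v _ ih).1

theorem Core3_nv (h : Pair3 a b) (n : κ × Bool) : nv b n ⬝ᵥ nv b n = nv a n ⬝ᵥ nv a n := by
  unfold nv
  simp only [smul_dotProduct, dotProduct_smul, h.hn n.1]

/-- if no angle changes at a vertex then all scalar products there agree -/
theorem dot_eq_of_not_ZZ (h : Pair3 a b) {v : VT (LL a)} (hv : ¬ ZZ a b v) {i j : κ}
    (hi : v.1 i = 0) (hj : v.1 j = 0) : b i ⬝ᵥ b j = a i ⬝ᵥ a j := by
  have hin : Inc v (i, true) := hi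
  have hjn : Inc v (j, true) := hj
  obtain ⟨u, -, hu, hur, -⟩ := vertex_planar h.ha h.hb h.hL h.hor v (i, true) hin
  obtain ⟨w, -, hw, hwr, -⟩ := vertex_planar h.ha h.ha rfl (fun _ _ _ _ _ => rfl) v (i, true) hin
  have hn : ∀ k, Complex.normSq (u k) = Complex.normSq (w k) := by
    intro k
    rw [← Core3_normSq, ← Core3_normSq, hur, hwr, Core3_nv h]
  have hr : ∀ k, (conj (u k) * u (k + 1)).re = (conj (w k) * w (k + 1)).re := by
    intro k
    rw [hur, hwr, Function.iterate_succ_apply']
    exact gg_eq_of_not_ZZ h hv (Core3_iter (ha := h.ha) hin k)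
  obtain ⟨l, -, hl⟩ := nx_trans h.ha v (i, true) (j, true) hin hjn
  have key := congrArg Complex.re (Core3_all (two_le_mm v) hu hw hn hr l)
  rw [hur, hwr, hl] at key
  simpa [nv, sgn] using key

theorem core_pair (h : Pair3 a b) (i j : κ) : b i ⬝ᵥ b j = a i ⬝ᵥ a j := by
  obtain ⟨v, hi, hj⟩ := exists_vert h.ha (i, true) (j, true)
  exact dot_eq_of_not_ZZ h ((lab h).no_lab v) hi hj

/-- **Families with the same sign vectors and norms are isometric.** -/
theorem core3 (ha : Sys3 a) (hb : Sys3 b) (hL : LL b = LL a)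
    (hn : ∀ i, b i ⬝ᵥ b i = a i ⬝ᵥ a i) (i j : κ) : b i ⬝ᵥ b j = a i ⬝ᵥ a j := by
  obtain ⟨η, h0, hη⟩ := exists_eta ha hb hL
  have hcase : η = 1 ∨ η = -1 := by
    cases η with
    | zero => exact absurd rfl h0
    | neg => exact Or.inr rfl
    | pos => exact Or.inl rfl
  rcases hcase with h1 | h1
  · exact core_pair ⟨ha, hb, hL, hor_of_det ha hb hL fun i j k => by
      rw [hη i j k, h1, one_mul], hn⟩ i j
  · have hb' := sys3_neg hb
    have hL' : LL (fun i => - b i) = LL a := by rw [LL_neg, hL]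
    have h2 := core_pair ⟨ha, hb', hL', hor_of_det ha hb' hL' fun i j k => ?_, fun i => ?_⟩ i j
    · simpa using h2
    · have h3 : det3 (- b i) (- b j) (- b k) = - det3 (b i) (b j) (b k) := by
        have e1 := det3_smul1 (-1) (b i) (- b j) (- b k)
        have e2 := det3_smul2 (-1) (b i) (b j) (- b k)
        have e3 := det3_smul3 (-1) (b i) (b j) (b k)
        simp only [neg_smul, one_smul] at e1 e2 e3
        rw [e1, e2, e3]
        ring
      show SignType.sign (det3 (- b i) (- b j) (- b k)) = _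
      rw [h3, Left.sign_neg, hη i j k, h1]
      simp
    · show (- b i) ⬝ᵥ (- b i) = _
      rw [neg_dotProduct_neg, hn]

end Pool.Agent.VeeC
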