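import Pool.Agent.VeeC.OriDefs

set_option linter.unusedSectionVars false

namespace Pool.Agent.VeeC

open Module Submodule Pool.Agent.MP_de770b_mp

variable {ι : Type*} [Fintype ι] {V : Type*} [AddCommGroup V] [Module ℝ V]
  [FiniteDimensional ℝ V] {α β : ι → Dual ℝ V}

theorem OriMat_surj (α : ι → Dual ℝ V) (s : Set ι) (h : LinearIndepOn ℝ α s) (f : ι → ℝ) :
    ∃ x : V, ∀ i ∈ s, α i x = f i := by
  classical
  let A : V →ₗ[ℝ] (s → ℝ) := LinearMap.pi fun i => α i
  have hsurj : LinearMap.range A = ⊤ := by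
    by_contra hne
    obtain ⟨F, hF, hle⟩ := Submodule.exists_le_ker_of_lt_top _ (lt_top_iff_ne_top.mpr hne)
    apply hF
    have hli : LinearIndependent ℝ (fun i : s => α i) := h
    rw [Fintype.linearIndependent_iff] at hli
    have hz : ∑ i : s, F (Pi.single i 1) • α i = 0 := by
      ext x
      have h1 : F (A x) = 0 := hle ⟨x, rfl⟩
      have h2 : A x = ∑ i : s, (α i x) • (Pi.single i 1 : s → ℝ) := by
        ext j
        simp [A, Finset.sum_apply, Pi.single_apply]
      rw [h2, map_sum] at h1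
      simp only [map_smul, smul_eq_mul] at h1
      simp only [LinearMap.sum_apply, LinearMap.smul_apply, smul_eq_mul, LinearMap.zero_apply]
      rw [← h1]
      exact Finset.sum_congr rfl fun i _ => mul_comm _ _
    have h3 := hli _ hz
    apply LinearMap.pi_ext'
    intro i
    ext
    simpa using h3 i
  have hmem : (fun i : s => f i) ∈ LinearMap.range A := by rw [hsurj]; trivial
  obtain ⟨x, hx⟩ := hmem
  exact ⟨x, fun i hi => congrFun hx ⟨i, hi⟩⟩

/-- independence in terms of sign vectors -/
theorem linearIndepOn_iff_signs (α : ι → Dual ℝ V) (s : Set ι) :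
    LinearIndepOn ℝ α s ↔ ∀ f : ι → SignType, ∃ x : V, ∀ i ∈ s, SignType.sign (α i x) = f i := by
  classical
  constructor
  · intro h f
    obtain ⟨x, hx⟩ := OriMat_surj α s h fun i => ((f i : SignType) : ℝ)
    refine ⟨x, fun i hi => ?_⟩
    rw [hx i hi]
    cases f i <;> simp
  · intro h
    show LinearIndependent ℝ (fun i : s => α i)
    rw [Fintype.linearIndependent_iff]
    intro g hg
    by_contra hne
    push Not at hne
    obtain ⟨i0, hi0⟩ := hne
    obtain ⟨x, hx⟩ := h fun i => if hi : i ∈ s then SignType.sign (g ⟨i, hi⟩) else 0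
    have hx' : ∀ i : s, SignType.sign (α i x) = SignType.sign (g i) := by
      intro i
      rw [hx i i.2, dif_pos i.2]
    have hsum : ∑ i : s, g i * α i x = 0 := by
      have := congrArg (fun φ : Dual ℝ V => φ x) hg
      simpa [LinearMap.sum_apply] using this
    have hnn : ∀ i : s, 0 ≤ g i * α i x := by
      intro i
      rcases lt_trichotomy (g i) 0 with h1 | h1 | h1
      · have h2 := hx' i
        rw [sign_neg h1, sign_eq_neg_one_iff] at h2
        exact (mul_pos_of_neg_of_neg h1 h2).le
      · rw [h1, zero_mul]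
      · have h2 := hx' i
        rw [sign_pos h1, sign_eq_one_iff] at h2
        exact (mul_pos h1 h2).le
    have hz := (Finset.sum_eq_zero_iff_of_nonneg fun i _ => hnn i).mp hsum i0 (Finset.mem_univ _)
    rcases mul_eq_zero.mp hz with h1 | h1
    · exact hi0 h1
    · have h2 := hx' i0
      rw [h1, sign_zero] at h2
      exact hi0 (sign_eq_zero_iff.mp h2.symm)

theorem SameOriented.sameMatroid (h : SameOriented α β) : SameMatroid α β := by
  have key : ∀ {α β : ι → Dual ℝ V}, SameOriented α β → ∀ s : Set ι,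
      LinearIndepOn ℝ α s → LinearIndepOn ℝ β s := by
    intro α β h s hs
    rw [linearIndepOn_iff_signs] at hs ⊢
    intro f
    obtain ⟨x, hx⟩ := hs f
    obtain ⟨y, hy⟩ := (h fun i => SignType.sign (α i x)).mp ⟨x, fun i => rfl⟩
    exact ⟨y, fun i hi => by rw [hy i, hx i hi]⟩
  intro s
  exact ⟨key h _, key h.symm _⟩

theorem OriMat_transpose (g : Dual ℝ V ≃ₗ[ℝ] Dual ℝ V) (y : V) :
    ∃ x : V, ∀ φ : Dual ℝ V, g φ y = φ x := by
  refine ⟨(evalEquiv ℝ V).symm (g.toLinearMap.dualMap (evalEquiv ℝ V y)), fun φ => ?_⟩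
  have h1 : evalEquiv ℝ V ((evalEquiv ℝ V).symm (g.toLinearMap.dualMap (evalEquiv ℝ V y))) =
      g.toLinearMap.dualMap (evalEquiv ℝ V y) := LinearEquiv.apply_symm_apply _ _
  have h2 := congrArg (fun F : Dual ℝ (Dual ℝ V) => F φ) h1
  simpa using h2.symm

/-- positive factors and linear maps do not change the oriented matroid -/
theorem sameOriented_of_equiv (g : Dual ℝ V ≃ₗ[ℝ] Dual ℝ V) {c : ι → ℝ} (hc : ∀ i, 0 < c i)
    (h : ∀ i, β i = c i • g (α i)) : SameOriented α β := by
  have hs : ∀ (i : ι) (r : ℝ), SignType.sign (c i * r) = SignType.sign r := by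
    intro i r
    rw [sign_mul, sign_pos (hc i), one_mul]
  intro s
  constructor
  · rintro ⟨x, hx⟩
    obtain ⟨y, hy⟩ := OriMat_transpose g.symm x
    refine ⟨y, fun i => ?_⟩
    rw [h i, LinearMap.smul_apply, smul_eq_mul, hs, ← hy, LinearEquiv.symm_apply_apply, hx]
  · rintro ⟨y, hy⟩
    obtain ⟨x, hx⟩ := OriMat_transpose g y
    refine ⟨x, fun i => ?_⟩
    rw [← hy i, h i, LinearMap.smul_apply, smul_eq_mul, hs, hx]

theorem SameOriented.smul (h : SameOriented α β) {t : ι → ℝ} (ht : ∀ i, 0 < t i) :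
    SameOriented α (fun i => t i • β i) := by
  intro s
  rw [h s]
  have hs : ∀ (i : ι) (y : V), SignType.sign ((t i • β i) y) = SignType.sign (β i y) := by
    intro i y
    rw [LinearMap.smul_apply, smul_eq_mul, sign_mul, sign_pos (ht i), one_mul]
  simp only [hs]

end Pool.Agent.VeeC
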