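import Pool.Agent.VeeC.FlatB
import Pool.Agent.VeeC.OriMat
import Pool.Agent.VeeC.Core3

set_option linter.unusedSectionVars false

/-!
Oriented vee-systems with the same norms are equivalent.
-/

namespace Pool.Agent.VeeC

open Module Submodule Pool.Agent.MP_de770b_mp Matrix

variable {ι : Type*} [Fintype ι] [DecidableEq ι] {V : Type*} [AddCommGroup V] [Module ℝ V]
  [FiniteDimensional ℝ V] {α β : ι → Dual ℝ V}

/-- every plane with at least three covectors lies in a suitable three-dimensional flat -/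
theorem exists_kl (hn : 3 ≤ finrank ℝ V) (hα : IsVeeSystem α) (hirr : IsIrreducible α) {i j : ι} :
    ∃ k l, k ∈ fl α i j ∧ l ∉ fl α i j ∧ 3 ≤ (fl α k l).card := by
  classical
  have hs := hα.spans
  have hne : ((fl α i j : Set ι))ᶜ.Nonempty := by
    by_contra hcon
    rw [Set.not_nonempty_iff_eq_empty, Set.compl_empty_iff] at hcon
    have h1 : span ℝ (Set.range α) ≤ span ℝ {α i, α j} := by
      rw [span_le]
      rintro _ ⟨m, rfl⟩
      have : m ∈ (fl α i j : Set ι) := by rw [hcon]; trivial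
      exact mem_fl.mp this
    rw [hs] at h1
    have h2 : finrank ℝ (Dual ℝ V) ≤ 2 := by
      rw [← finrank_top ℝ (Dual ℝ V)]
      refine (Submodule.finrank_mono h1).trans ?_
      have h3 := finrank_span_finset_le_card (R := ℝ) ({α i, α j} : Finset (Dual ℝ V))
      have h4 : ((({α i, α j} : Finset (Dual ℝ V)) : Set (Dual ℝ V))) = {α i, α j} := by simp
      rw [Set.finrank, h4] at h3
      exact h3.trans Finset.card_le_two
    rw [Subspace.dual_finrank_eq] at h2
    omega
  obtain ⟨k, hk, l, hl, hkl⟩ := irr_gram hs hirr (fl α i j : Set ι) ⟨i, left_mem_fl α i j⟩ hne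
  refine ⟨k, l, hk, hl, ?_⟩
  by_contra h3
  push Not at h3
  have hkl' : k ≠ l := by
    rintro rfl
    exact hl hk
  exact hkl (gram_two hα hkl' h3)

/-- membership in the span of an independent set in terms of independence -/
theorem FlatC_mem_iff {κ W : Type*} [AddCommGroup W] [Module ℝ W] {x : κ → W} {s : Set κ}
    (hs : LinearIndepOn ℝ x s) (m : κ) :
    x m ∈ span ℝ (x '' s) ↔ m ∈ s ∨ ¬ LinearIndepOn ℝ x (insert m s) := by
  by_cases hm : m ∈ s
  · exact ⟨fun _ => Or.inl hm, fun _ => subset_span ⟨m, hm, rfl⟩⟩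
  · rw [linearIndepOn_insert hm]
    constructor
    · intro h
      exact Or.inr fun h' => h'.2 h
    · rintro (h | h)
      · exact absurd h hm
      · by_contra h'
        exact h ⟨hs, h'⟩

/-- three-dimensional flats only depend on the matroid -/
theorem mem_span3_iff (hα : IsVeeSystem α) (hm : SameMatroid α β) {i j l : ι} (hij : i ≠ j)
    (hl : l ∉ fl α i j) (m : ι) :
    β m ∈ span ℝ {β i, β j, β l} ↔ α m ∈ span ℝ {α i, α j, α l} := by
  have e : ∀ x : ι → Dual ℝ V, ({x i, x j, x l} : Set (Dual ℝ V)) = x '' {i, j, l} := by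
    intro x
    rw [Set.image_insert_eq, Set.image_pair]
  have hli : l ≠ i := fun h => hl (h ▸ left_mem_fl α i j)
  have hlj : l ≠ j := fun h => hl (h ▸ right_mem_fl α i j)
  have h2 : LinearIndepOn ℝ α ({i, j} : Set ι) := by
    have h := hα.noncollinear i j hij
    rw [LinearIndependent.pair_iff] at h
    rw [LinearIndepOn.pair_iff α hij]
    exact h
  have h3 : LinearIndepOn ℝ α ({i, j, l} : Set ι) := by
    have e2 : ({i, j, l} : Set ι) = insert l {i, j} := by
      ext x
      simp only [Set.mem_insert_iff, Set.mem_singleton_iff]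
      tauto
    rw [e2, linearIndepOn_insert (by
      simp only [Set.mem_insert_iff, Set.mem_singleton_iff]; tauto)]
    refine ⟨h2, ?_⟩
    rw [Set.image_pair]
    exact fun h => hl (mem_fl.mpr h)
  rw [e, e, FlatC_mem_iff h3, FlatC_mem_iff ((hm _).mp h3), hm]

/-- the sign vectors of the restrictions -/
theorem LL_eq {X : Finset ι} {a b : {m // m ∈ X} → R3} {P Q : V →ₗ[ℝ] R3}
    (hP : Function.Surjective P) (hQ : Function.Surjective Q)
    (ha : ∀ m v, a m ⬝ᵥ P v = α m.1 v) (hb : ∀ m v, b m ⬝ᵥ Q v = β m.1 v)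
    (h : SameOriented α β) : LL b = LL a := by
  ext s
  constructor
  · rintro ⟨z, rfl⟩
    obtain ⟨v, rfl⟩ := hQ z
    obtain ⟨w, hw⟩ := (h _).mpr ⟨v, fun i => rfl⟩
    refine ⟨P w, ?_⟩
    funext m
    simp only [sv]
    rw [ha, hb, hw]
  · rintro ⟨z, rfl⟩
    obtain ⟨v, rfl⟩ := hP z
    obtain ⟨w, hw⟩ := (h _).mp ⟨v, fun i => rfl⟩
    refine ⟨Q w, ?_⟩
    funext m
    simp only [sv]
    rw [ha, hb, hw]

theorem gram_eq_of_sameOriented (hn : 3 ≤ finrank ℝ V) (hα : IsVeeSystem α)
    (hirr : IsIrreducible α) (hβ : IsVeeSystem β) (h : SameOriented α β)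
    (hr : ∀ i, gram α i i = gram β i i) (i j : ι) : gram β i j = gram α i j := by
  have hm := h.sameMatroid
  by_cases hij : i = j
  · subst hij
    exact (hr i).symm
  have hfl := fl_eq_of_sameMatroid hα hβ hm hij
  by_cases h3 : 3 ≤ (fl α i j).card
  · obtain ⟨k, l, hk, hl, h3'⟩ := exists_kl hn hα hirr (i := i) (j := j)
    have hkl : k ≠ l := by
      rintro rfl
      exact hl hk
    obtain ⟨X, hX⟩ : ∃ X : Finset ι, ∀ m, m ∈ X ↔ α m ∈ span ℝ {α i, α j, α l} := by
      classical
      exact ⟨Finset.univ.filter fun m => α m ∈ span ℝ {α i, α j, α l}, fun m => by simp⟩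
    have hX' : ∀ m, m ∈ X ↔ β m ∈ span ℝ {β i, β j, β l} := fun m => by
      rw [hX, mem_span3_iff hα hm hij hl]
    obtain ⟨a, ha, hag, P, hP, haP⟩ := exists_flat hα hij h3 hk hl h3' X hX
    obtain ⟨b, hb, hbg, Q, hQ, hbQ⟩ := exists_flat hβ hij (by rw [hfl]; exact h3)
      (by rw [hfl]; exact hk) (by rw [hfl]; exact hl)
      (by rw [fl_eq_of_sameMatroid hα hβ hm hkl]; exact h3') X hX'
    have hi : i ∈ X := (hX i).mpr (subset_span (by simp))
    have hj : j ∈ X := (hX j).mpr (subset_span (by simp))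
    have h1 := core3 ha hb (LL_eq hP hQ haP hbQ h) (fun m => by rw [hag, hbg, hr]) ⟨i, hi⟩ ⟨j, hj⟩
    rw [hag, hbg] at h1
    exact h1
  · push Not at h3
    rw [gram_two hα hij h3, gram_two hβ hij (by rw [hfl]; exact h3)]

theorem glEquiv_of_sameOriented (hn : 3 ≤ finrank ℝ V) (hα : IsVeeSystem α)
    (hirr : IsIrreducible α) (hβ : IsVeeSystem β) (h : SameOriented α β)
    (hnu : SameNu α β) : GLEquiv α β := by
  have hr := norms_of_sameNu hn hα hirr hβ h.sameMatroid hnu
  exact glEquiv_of_gram_eq hα.spans hβ.spans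
    (by ext i j; exact (gram_eq_of_sameOriented hn hα hirr hβ h hr i j).symm)

theorem rescale_of_sameOriented (hn : 3 ≤ finrank ℝ V) (hα : IsVeeSystem α)
    (hirr : IsIrreducible α) (h : SameOriented α β) :
    ∃ (g : Dual ℝ V ≃ₗ[ℝ] Dual ℝ V) (c : ι → ℝ), (∀ i, 0 < c i) ∧ ∀ i, β i = c i • g (α i) := by
  obtain ⟨t, ht, hv, hnu, -⟩ := realisation_rescales hn hα hirr h.sameMatroid
  obtain ⟨g, hg⟩ := glEquiv_of_sameOriented hn hα hirr hv (h.smul ht) hnu
  refine ⟨g, fun i => (t i)⁻¹, fun i => inv_pos.mpr (ht i), fun i => ?_⟩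
  rw [← hg i, smul_smul, inv_mul_cancel₀ (ht i).ne', one_smul]

theorem determined_iff_orientation (hn : 3 ≤ finrank ℝ V) (hα : IsVeeSystem α)
    (hirr : IsIrreducible α) : DeterminedByNu α ↔ UniqueOrientation α := by
  rw [determined_iff hn hα hirr]
  constructor
  · intro h β hm
    obtain ⟨τ, h1, h2, g, c, hc, h3⟩ := h β hm
    refine ⟨τ, fun i => if 0 < c i then 1 else -1, h1, h2, fun i => by
      by_cases hci : 0 < c i <;> simp [hci], ?_⟩
    apply sameOriented_of_equiv g (c := fun i => |c i|) (fun i => abs_pos.mpr (hc i))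
    intro i
    show (if 0 < c i then (1 : ℝ) else -1) • β (τ i) = |c i| • g (α i)
    have h3i : β (τ i) = c i • g (α i) := h3 i
    rw [h3i, smul_smul]
    congr 1
    by_cases hci : 0 < c i
    · simp [hci, abs_of_pos hci]
    · have : c i < 0 := lt_of_le_of_ne (not_lt.mp hci) (hc i)
      simp [hci, abs_of_neg this]
  · intro h β hm
    obtain ⟨τ, ε, h1, h2, h3, h4⟩ := h β hm
    obtain ⟨g, c, hc, h5⟩ := rescale_of_sameOriented hn hα hirr h4
    refine ⟨τ, h1, h2, g, fun i => ε i * c i, fun i => ?_, fun i => ?_⟩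
    · rcases h3 i with h | h <;> simp [h, (hc i).ne']
    · have h6 : ε i • β (τ i) = c i • g (α i) := h5 i
      show β (τ i) = (ε i * c i) • g (α i)
      rw [mul_smul, ← h6, smul_smul]
      rcases h3 i with h | h <;> simp [h]

end Pool.Agent.VeeC
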