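import Pool.Agent.VeeC.Geo2

set_option autoImplicit false

/-!
The angles at a vertex are at most right angles, and acute if at least three great circles meet.
-/

namespace Pool.Agent.VeeC

open Matrix ComplexConjugate

theorem Acute_sum_shift {m : ℕ} (g : ℕ → ℂ) (hg : ∀ k, g (k + m) = g k) (k : ℕ) :
    ∑ j ∈ Finset.range m, g (k + j) = ∑ j ∈ Finset.range m, g j := by
  induction k with
  | zero => simp
  | succ k ih =>
    rw [← ih]
    have h1 := Finset.sum_range_succ (fun j => g (k + j)) m
    have h2 := Finset.sum_range_succ' (fun j => g (k + j)) m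
    simp only [add_zero] at h2
    rw [hg k] at h1
    rw [h1] at h2
    have h3 := add_right_cancel h2
    rw [h3]
    apply Finset.sum_congr rfl
    intro j _
    rw [show k + 1 + j = k + (j + 1) by ring]

/-- a centrally symmetric set of directions with scalar operator -/
theorem acute_planar {m : ℕ} (hm : 3 ≤ m) (u : ℕ → ℂ) (hu : ∀ k, u (k + m) = - u k)
    (hcr : ∀ k l, k < l → l < k + m → 0 < (conj (u k) * u l).im)
    (hcl : ∑ k ∈ Finset.range m, u k ^ 2 = 0) (k : ℕ) : 0 < (conj (u k) * u (k + 1)).re := by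
  by_contra hcon
  push Not at hcon
  have hsum : ∑ j ∈ Finset.range m, (conj (u (k + 1)) * u (k + 1 + j)) ^ 2 = 0 := by
    have h1 := Acute_sum_shift (m := m) (fun k => u k ^ 2)
      (fun k => by simp only [hu]; ring) (k + 1)
    simp only [mul_pow]
    rw [← Finset.mul_sum, h1, hcl, mul_zero]
  have hlast : u (k + 1 + (m - 1)) = - u k := by
    rw [show k + 1 + (m - 1) = k + m by omega, hu]
  have hk1 := hcr k (k + 1) (by omega) (by omega)
  have hall : ∀ j, 0 < j → j < m - 1 → 0 < ((conj (u (k + 1)) * u (k + 1 + j)) ^ 2).im := by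
    intro j hj hj2
    have h1 := hcr (k + 1) (k + 1 + j) (by omega) (by omega)
    have h2 := hcr (k + 1 + j) (k + 1 + (m - 1)) (by omega) (by omega)
    rw [hlast] at h2
    set a := u k with ha
    set b := u (k + 1) with hb
    set c := u (k + 1 + j) with hc
    have hb0 : 0 < b.re ^ 2 + b.im ^ 2 := by
      have : b.re ≠ 0 ∨ b.im ≠ 0 := by
        by_contra hcon2
        push Not at hcon2
        simp [hcon2.1, hcon2.2] at hk1
      rcases this with h | h
      · positivity
      · positivity
    simp only [Complex.mul_im, Complex.mul_re, Complex.conj_re, Complex.conj_im,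
      Complex.neg_re, Complex.neg_im, pow_two] at h1 h2 hk1 hcon ⊢
    -- w = conj b * c = (W, Y)
    set W : ℝ := b.re * c.re - -b.im * c.im with hW
    set Y : ℝ := b.re * c.im + -b.im * c.re with hY
    have e1 : (b.re ^ 2 + b.im ^ 2) * (c.re * -a.im + -c.im * -a.re) =
        W * (a.re * b.im + -a.im * b.re) + Y * (a.re * b.re - -a.im * b.im) := by
      rw [hW, hY]; ring
    have e2 : 0 < (b.re ^ 2 + b.im ^ 2) * (c.re * -a.im + -c.im * -a.re) := mul_pos hb0 h2
    have e3 : Y * (a.re * b.re - -a.im * b.im) ≤ 0 :=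
      mul_nonpos_of_nonneg_of_nonpos h1.le hcon
    have e4 : 0 < W * (a.re * b.im + -a.im * b.re) := by linarith
    have e5 : 0 < W := (pos_iff_pos_of_mul_pos e4).mpr hk1
    have e6 := mul_pos e5 h1
    linarith
  have him : 0 < (∑ j ∈ Finset.range m, (conj (u (k + 1)) * u (k + 1 + j)) ^ 2).im := by
    rw [Complex.im_sum]
    apply Finset.sum_pos'
    · intro j hj
      rw [Finset.mem_range] at hj
      rcases Nat.eq_zero_or_pos j with h0 | h0
      · subst h0
        simp only [add_zero, pow_two, Complex.mul_im, Complex.mul_re, Complex.conj_re,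
          Complex.conj_im]
        apply le_of_eq
        ring
      · rcases Nat.lt_or_ge j (m - 1) with h1 | h1
        · exact (hall j h0 h1).le
        · have h2 : j = m - 1 := by omega
          rw [h2, hlast]
          simp only [pow_two, Complex.mul_im, Complex.mul_re, Complex.conj_re,
            Complex.conj_im, Complex.neg_re, Complex.neg_im] at hk1 hcon ⊢
          have h3 := mul_nonneg hk1.le (neg_nonneg.mpr hcon)
          have e : (((u (k + 1)).re * -(u k).re - -(u (k + 1)).im * -(u k).im) *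
              ((u (k + 1)).re * -(u k).im + -(u (k + 1)).im * -(u k).re) +
            ((u (k + 1)).re * -(u k).im + -(u (k + 1)).im * -(u k).re) *
              ((u (k + 1)).re * -(u k).re - -(u (k + 1)).im * -(u k).im)) =
            2 * (((u k).re * (u (k + 1)).im + -(u k).im * (u (k + 1)).re) *
              -((u k).re * (u (k + 1)).re - -(u k).im * (u (k + 1)).im)) := by ring
          rw [e]
          linarith
    · exact ⟨1, by rw [Finset.mem_range]; omega, hall 1 (by omega) (by omega)⟩
  rw [hsum] at him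
  simp at him

variable {κ : Type*} [Fintype κ] {a : κ → R3}

theorem Acute_inc (ha : Sys3 a) (v : VT (LL a)) (n : κ × Bool) (h : Inc v n) (k : ℕ) :
    Inc v ((nx a v)^[k] n) := by
  induction k with
  | zero => exact h
  | succ k ih =>
    rw [Function.iterate_succ_apply']
    exact (nx_spec ha v _ ih).1

theorem Acute_sgn_sq (b : Bool) : sgn b * sgn b = 1 := by
  cases b <;> simp [sgn]

omit [Fintype κ] in
theorem Acute_ngN_of_eq {n n' : κ × Bool} (h : n.1 = n'.1) : n' = n ∨ n' = ngN n := by
  obtain ⟨i, s⟩ := n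
  obtain ⟨j, t⟩ := n'
  simp only at h
  subst h
  cases s <;> cases t <;> simp [ngN]

/-- the scalar operator in complex coordinates -/
theorem Acute_scalar {ι : Type*} (s : Finset ι) (f : ι → ℂ) (ν : ℝ) (z : ℂ)
    (h : ∑ l ∈ s, (((conj (f l) * z).re : ℝ) : ℂ) * f l = (ν : ℂ) * z) :
    (∑ l ∈ s, f l ^ 2) * conj z = ((2 * ν - ∑ l ∈ s, ((f l).re ^ 2 + (f l).im ^ 2) : ℝ) : ℂ) * z := by
  have h1 : ∀ l, f l ^ 2 * conj z = 2 * ((((conj (f l) * z).re : ℝ) : ℂ) * f l) -
      (((f l).re ^ 2 + (f l).im ^ 2 : ℝ) : ℂ) * z := by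
    intro l
    apply Complex.ext
    · simp [pow_two]
      ring
    · simp [pow_two]
      ring
  rw [Finset.sum_mul, Finset.sum_congr rfl (fun l _ => h1 l), Finset.sum_sub_distrib,
    ← Finset.mul_sum, h, ← Finset.sum_mul]
  push_cast
  ring

theorem Acute_zero {S : ℂ} {c : ℝ} {z₁ z₂ : ℂ} (h1 : S * conj z₁ = (c : ℂ) * z₁)
    (h2 : S * conj z₂ = (c : ℂ) * z₂) (h : 0 < (conj z₁ * z₂).im) : S = 0 := by
  have h3 : (c : ℂ) * (conj z₁ * z₂ - z₁ * conj z₂) = 0 := by
    have e1 : S * conj z₁ * conj z₂ = (c : ℂ) * z₁ * conj z₂ := by rw [h1]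
    have e2 : S * conj z₂ * conj z₁ = (c : ℂ) * z₂ * conj z₁ := by rw [h2]
    linear_combination e1 - e2
  have h4 : (conj z₁ * z₂ - z₁ * conj z₂) ≠ 0 := by
    intro h5
    have h6 := congrArg Complex.im h5
    simp only [Complex.sub_im, Complex.mul_im, Complex.conj_re, Complex.conj_im,
      Complex.zero_im] at h6 h
    linarith
  have h5 : (c : ℂ) = 0 := by
    rcases mul_eq_zero.mp h3 with h6 | h6
    · exact h6
    · exact absurd h6 h4
  rw [h5, zero_mul] at h1
  rcases mul_eq_zero.mp h1 with h6 | h6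
  · exact h6
  · exfalso
    rw [h6] at h
    simp at h

/-- The normals at a vertex in the complex plane: `b` is a second family with the same sign vectors
and the same orientations at the vertices (in particular `b = a`). -/
theorem vertex_planar {b : κ → R3} (ha : Sys3 a) (hb : Sys3 b) (hL : LL b = LL a)
    (hor : ∀ (v : VT (LL a)) (n n' : κ × Bool), Inc v n → Inc v n' →
      SignType.sign (det3 (pt b v) (nv b n) (nv b n')) =
        SignType.sign (det3 (pt a v) (nv a n) (nv a n')))
    (v : VT (LL a)) (n : κ × Bool) (h : Inc v n) :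
    ∃ u : ℕ → ℂ, (∀ k, u (k + mm v) = - u k) ∧
      (∀ k l, k < l → l < k + mm v → 0 < (conj (u k) * u l).im) ∧
      (∀ k l, (conj (u k) * u l).re = nv b ((nx a v)^[k] n) ⬝ᵥ nv b ((nx a v)^[l] n)) ∧
      (3 ≤ mm v → ∑ k ∈ Finset.range (mm v), u k ^ 2 = 0) := by
  classical
  have hx := pt_ne hL v
  obtain ⟨ζ, hζ⟩ := exists_zeta hx
  have hinc := Acute_inc ha v n h
  have horth : ∀ k, nv b ((nx a v)^[k] n) ⬝ᵥ pt b v = 0 := fun k =>
    (inc_iff hL v _).mp (hinc k)
  have hpos : ∀ k l, k < l → l < k + mm v →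
      0 < det3 (pt a v) (nv a ((nx a v)^[k] n)) (nv a ((nx a v)^[l] n)) := by
    intro k l hkl hl
    have h1 := nx_pos ha v _ (hinc k) (l - k) (by omega) (by omega)
    rw [← Function.iterate_add_apply, show l - k + k = l by omega] at h1
    exact h1
  have him : ∀ k l, k < l → l < k + mm v →
      0 < (conj (ζ (nv b ((nx a v)^[k] n))) * ζ (nv b ((nx a v)^[l] n))).im := by
    intro k l hkl hl
    have h1 := (hζ _ _ (horth k) (horth l)).2
    have h2 := hor v _ _ (hinc k) (hinc l)
    rw [sign_pos (hpos k l hkl hl), sign_eq_one_iff, ← h1] at h2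
    have h5 : 0 < Real.sqrt (pt b v ⬝ᵥ pt b v) := by
      rcases (Real.sqrt_nonneg (pt b v ⬝ᵥ pt b v)).lt_or_eq with h6 | h6
      · exact h6
      · exfalso
        rw [← h6, zero_mul] at h2
        exact lt_irrefl _ h2
    exact (pos_iff_pos_of_mul_pos h2).mp h5
  refine ⟨fun k => ζ (nv b ((nx a v)^[k] n)), ?_, him, ?_, ?_⟩
  · intro k
    show ζ (nv b ((nx a v)^[k + mm v] n)) = - ζ (nv b ((nx a v)^[k] n))
    rw [add_comm, Function.iterate_add_apply, nx_iter ha v _ (hinc k), nv_ngN, map_neg]
  · intro k l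
    exact (hζ _ _ (horth k) (horth l)).1
  · intro h3
    show ∑ k ∈ Finset.range (mm v), ζ (nv b ((nx a v)^[k] n)) ^ 2 = 0
    have hinj : Set.InjOn (fun k => ((nx a v)^[k] n).1) (Finset.range (mm v) : Set ℕ) := by
      intro k hk l hl hkl
      simp only [Finset.coe_range, Set.mem_Iio] at hk hl
      simp only at hkl
      wlog hlt : k ≤ l generalizing k l
      · exact (this hkl.symm hl hk (by omega)).symm
      by_contra hne
      have h1 := hpos k l (by omega) (by omega)
      rw [(det3_eq_zero_iff ha (hinc k) (hinc l)).mpr (Acute_ngN_of_eq hkl)] at h1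
      exact lt_irrefl _ h1
    have himg : (Finset.range (mm v)).image (fun k => ((nx a v)^[k] n).1) =
        Finset.univ.filter fun i => v.1 i = 0 := by
      apply Finset.eq_of_subset_of_card_le
      · intro i hi
        rw [Finset.mem_image] at hi
        obtain ⟨k, -, rfl⟩ := hi
        simp only [Finset.mem_filter, Finset.mem_univ, true_and]
        exact hinc k
      · rw [Finset.card_image_of_injOn hinj, Finset.card_range]
        exact le_of_eq rfl
    have hsq : ∀ i : κ × Bool, ζ (nv b i) ^ 2 = ζ (b i.1) ^ 2 := by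
      intro i
      unfold nv
      rw [map_smul]
      have := Acute_sgn_sq i.2
      rw [Complex.real_smul, mul_pow]
      have h4 : ((sgn i.2 : ℝ) : ℂ) ^ 2 = 1 := by
        rw [pow_two]
        exact_mod_cast this
      rw [h4, one_mul]
    have hS : ∑ k ∈ Finset.range (mm v), ζ (nv b ((nx a v)^[k] n)) ^ 2 =
        ∑ i ∈ Finset.univ.filter (fun i => v.1 i = 0), ζ (b i) ^ 2 := by
      rw [← himg, Finset.sum_image hinj]
      exact Finset.sum_congr rfl fun k _ => hsq _
    rw [hS]
    have hzero : ∀ i, v.1 i = 0 ↔ b i ⬝ᵥ pt b v = 0 := by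
      intro i
      rw [← sv_zero_iff, pt_spec hL]
    -- three distinct members
    have h3' : 2 < (Finset.univ.filter fun i => v.1 i = 0).card := h3
    obtain ⟨i, j, k, hi, hj, hk, hij, hik, hjk⟩ := Finset.two_lt_card_iff.mp h3'
    simp only [Finset.mem_filter, Finset.mem_univ, true_and] at hi hj hk
    obtain ⟨ν, hν⟩ := hb.clos (pt b v) i j k hx hij hik hjk ((hzero i).mp hi) ((hzero j).mp hj)
      ((hzero k).mp hk)
    have hkey : ∀ w : R3, w ⬝ᵥ pt b v = 0 →
        ∑ l ∈ Finset.univ.filter (fun i => v.1 i = 0),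
          (((conj (ζ (b l)) * ζ w).re : ℝ) : ℂ) * ζ (b l) = (ν : ℂ) * ζ w := by
      intro w hw
      have h4 := congrArg ζ (hν w hw)
      rw [map_sum, map_smul, Complex.real_smul] at h4
      rw [← h4, Finset.sum_filter]
      apply Finset.sum_congr rfl
      intro l _
      by_cases hl : v.1 l = 0
      · have hl' := (hzero l).mp hl
        rw [if_pos hl, if_pos hl', map_smul, Complex.real_smul, (hζ _ _ hl' hw).1]
      · have hl' : ¬ (b l ⬝ᵥ pt b v = 0) := fun hc => hl ((hzero l).mpr hc)
        rw [if_neg hl, if_neg hl', map_zero]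
    have k0 := Acute_scalar _ _ _ _ (hkey _ (horth 0))
    have k1 := Acute_scalar _ _ _ _ (hkey _ (horth 1))
    exact Acute_zero k0 k1 (him 0 1 (by omega) (by omega))

theorem acute {b : κ → R3} (ha : Sys3 a) (hb : Sys3 b) (hL : LL b = LL a)
    (hor : ∀ (v : VT (LL a)) (n n' : κ × Bool), Inc v n → Inc v n' →
      SignType.sign (det3 (pt b v) (nv b n) (nv b n')) =
        SignType.sign (det3 (pt a v) (nv a n) (nv a n')))
    (v : VT (LL a)) (n : κ × Bool) (h : Inc v n) (h3 : 3 ≤ mm v) :
    0 < nv b n ⬝ᵥ nv b (nx a v n) := by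
  obtain ⟨u, h1, h2, h4, h5⟩ := vertex_planar ha hb hL hor v n h
  have h6 := acute_planar h3 u h1 h2 (h5 h3) 0
  rw [h4] at h6
  exact h6

theorem right {b : κ → R3} (ha : Sys3 a) (hb : Sys3 b) (hL : LL b = LL a)
    (v : VT (LL a)) (n n' : κ × Bool) (h : Inc v n) (h' : Inc v n') (h2 : mm v = 2)
    (h3 : n' ≠ n) (h4 : n' ≠ ngN n) :
    nv b n ⬝ᵥ nv b n' = 0 := by
  classical
  have hne : n.1 ≠ n'.1 := by
    intro hc
    rcases Acute_ngN_of_eq hc with h5 | h5
    · exact h3 h5
    · exact h4 h5
  have hzero : ∀ i, v.1 i = 0 ↔ b i ⬝ᵥ pt b v = 0 := by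
    intro i
    rw [← sv_zero_iff, pt_spec hL]
  have hset : (Finset.univ.filter fun i => v.1 i = 0) = {n.1, n'.1} := by
    symm
    apply Finset.eq_of_subset_of_card_le
    · intro i hi
      rw [Finset.mem_insert, Finset.mem_singleton] at hi
      simp only [Finset.mem_filter, Finset.mem_univ, true_and]
      rcases hi with rfl | rfl
      · exact h
      · exact h'
    · rw [Finset.card_pair hne]
      exact le_of_eq h2
  have h5 := hb.orth (pt b v) n.1 n'.1 hne (fun k => by
    rw [← hzero]
    have h6 : k ∈ (Finset.univ.filter fun i => v.1 i = 0) ↔ k ∈ ({n.1, n'.1} : Finset κ) := by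
      rw [hset]
    simpa using h6)
  unfold nv
  rw [smul_dotProduct, dotProduct_smul, h5, smul_zero, smul_zero]

end Pool.Agent.VeeC
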