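import Pool.Agent.VeeC.ArrDefs

set_option autoImplicit false

/-!
Basic identities for darts.
-/

namespace Pool.Agent.VeeC

namespace Arr

variable {V N : Type*} [Fintype V] [Fintype N] {K : Arr V N}

theorem dext {d d' : K.D} (h : src d = src d') (h' : sd d = sd d') : d = d' :=
  Subtype.ext (Prod.ext h h')

@[simp] theorem src_rot (d : K.D) : src (rot d) = src d := rfl
@[simp] theorem src_opp (d : K.D) : src (opp d) = src d := rfl
@[simp] theorem sd_st (d : K.D) : sd (st d) = sd d := rfl
@[simp] theorem sd_ant (d : K.D) : sd (ant d) = sd d := rfl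
@[simp] theorem src_ant (d : K.D) : src (ant d) = K.ngV (src d) := rfl
@[simp] theorem sd_opp (d : K.D) : sd (opp d) = K.ngN (sd d) := rfl
@[simp] theorem src_rev (d : K.D) : src (rev d) = tg d := rfl
@[simp] theorem sd_rev (d : K.D) : sd (rev d) = K.ngN (sd d) := rfl
@[simp] theorem src_st (d : K.D) : src (st d) = tg d := rfl
@[simp] theorem src_F (d : K.D) : src (F d) = tg (rot d) := rfl
theorem sd_F (d : K.D) : sd (F d) = K.ngN (sd (rot d)) := rfl

theorem opp_opp (d : K.D) : opp (opp d) = d := dext rfl (K.ngN_ngN _)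
theorem ant_ant (d : K.D) : ant (ant d) = d := dext (K.ngV_ngV _) rfl
theorem opp_ant (d : K.D) : opp (ant d) = ant (opp d) := rfl

theorem nx_ngN {v : V} {n : N} (h : K.Inc v n) : K.nx v (K.ngN n) = K.ngN (K.nx v n) := by
  rw [← K.nx_iter v n h, ← K.nx_iter v _ (K.inc_nx v n h),
    ← Function.iterate_succ_apply (K.nx v), ← Function.iterate_succ_apply' (K.nx v)]

theorem ny_ngV {v : V} {n : N} (h : K.Inc v n) : K.ny n (K.ngV v) = K.ngV (K.ny n v) := by
  rw [← K.ny_iter v n h, ← K.ny_iter _ n (K.inc_ny v n h),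
    ← Function.iterate_succ_apply (K.ny n), ← Function.iterate_succ_apply' (K.ny n)]

theorem rot_opp (d : K.D) : rot (opp d) = opp (rot d) := dext rfl (nx_ngN d.2)
theorem st_ant (d : K.D) : st (ant d) = ant (st d) := dext (ny_ngV d.2) rfl
theorem st_eq (d : K.D) : st d = opp (rev d) := (opp_opp _).symm

@[simp] theorem rev_rev (d : K.D) : rev (rev d) = d := by
  apply dext
  · exact K.ny_rev _ _ d.2
  · exact K.ngN_ngN _

@[simp] theorem tg_rev (d : K.D) : tg (rev d) = src d := by
  rw [← src_rev, rev_rev]

theorem rev_ant (d : K.D) : rev (ant d) = ant (rev d) := by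
  show opp (st (ant d)) = ant (opp (st d))
  rw [st_ant, opp_ant]

theorem tg_ant (d : K.D) : tg (ant d) = K.ngV (tg d) := by
  rw [← src_rev, rev_ant, src_ant, src_rev]

/-- the inverse of the rotation -/
def rotI (d : K.D) : K.D := ant (rot (ant d))

@[simp] theorem src_rotI (d : K.D) : src (rotI d) = src d := K.ngV_ngV _

@[simp] theorem rotI_rot (d : K.D) : rotI (rot d) = d := by
  apply dext
  · exact K.ngV_ngV _
  · exact K.nx_rev _ _ d.2

@[simp] theorem rot_rotI (d : K.D) : rot (rotI d) = d := by
  have h := rotI_rot (ant d)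
  unfold rotI at h ⊢
  have h2 := congrArg ant h
  rw [ant_ant, ant_ant] at h2
  exact h2

theorem rot_injective : Function.Injective (rot : K.D → K.D) := fun d d' h => by
  rw [← rotI_rot d, h, rotI_rot]
theorem rotI_injective : Function.Injective (rotI : K.D → K.D) := fun d d' h => by
  rw [← rot_rotI d, h, rot_rotI]
theorem rev_injective : Function.Injective (rev : K.D → K.D) := fun d d' h => by
  rw [← rev_rev d, h, rev_rev]

@[simp] theorem F3 (d : K.D) : F (F (F d)) = d := Subtype.ext (K.tri _ _ d.2)

theorem F_injective : Function.Injective (F : K.D → K.D) := fun d d' h => by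
  rw [← F3 d, h, F3]

theorem rot_F2 (d : K.D) : rot (F (F d)) = rev d := by
  have h := F3 d
  have h1 : rev (rot (F (F d))) = d := h
  rw [← h1, rev_rev, h1]

theorem src_F2 (d : K.D) : src (F (F d)) = tg d := by
  rw [← src_rot, rot_F2, src_rev]

theorem tg_F (d : K.D) : tg (F d) = src d := tg_rev (rot d)

theorem tg_F2 (d : K.D) : tg (F (F d)) = tg (rot d) := by
  rw [tg_F, src_F]

theorem F_rotI (d : K.D) : F (rotI d) = rev d := by
  show rev (rot (rotI d)) = rev d
  rw [rot_rotI]

theorem rotI_rev (d : K.D) : rotI (rev d) = F (F d) := by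
  rw [← rot_F2, rotI_rot]

theorem rot_iter_val (d : K.D) (k : ℕ) :
    (rot^[k] d).1 = (src d, (K.nx (src d))^[k] (sd d)) := by
  induction k with
  | zero => rfl
  | succ k ih =>
    rw [Function.iterate_succ_apply', Function.iterate_succ_apply']
    have h1 : src (rot^[k] d) = src d := by
      show (rot^[k] d).1.1 = _; rw [ih]
    have h2 : sd (rot^[k] d) = (K.nx (src d))^[k] (sd d) := by
      show (rot^[k] d).1.2 = _; rw [ih]
    show (src (rot^[k] d), K.nx (src (rot^[k] d)) (sd (rot^[k] d))) = _
    rw [h1, h2]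

theorem src_rot_iter (d : K.D) (k : ℕ) : src (rot^[k] d) = src d := by
  show (rot^[k] d).1.1 = _; rw [rot_iter_val]

theorem rot_iter_m (d : K.D) : rot^[K.m (src d)] d = opp d := by
  apply Subtype.ext
  have h := K.nx_iter _ _ d.2
  rw [rot_iter_val]
  exact Prod.ext rfl h

theorem rot_iter_ne (d : K.D) {k : ℕ} (h0 : 0 < k) (hk : k < 2 * K.m (src d)) :
    rot^[k] d ≠ d := by
  intro h
  have h1 : (rot^[k] d).1.2 = d.1.2 := by rw [h]
  rw [rot_iter_val] at h1
  exact K.nx_ne _ _ d.2 k h0 hk h1

theorem rot_iter_2m (d : K.D) : rot^[2 * K.m (src d)] d = d := by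
  rw [two_mul, Function.iterate_add_apply, rot_iter_m]
  have h := rot_iter_m (opp d)
  rw [src_opp] at h
  rw [h, opp_opp]

theorem rot_trans {d d' : K.D} (h : src d = src d') : ∃ k, k < 2 * K.m (src d) ∧
    rot^[k] d = d' := by
  obtain ⟨k, hk, hk2⟩ := K.nx_trans (src d) (sd d) (sd d') d.2 (h ▸ d'.2)
  refine ⟨k, hk, Subtype.ext ?_⟩
  rw [rot_iter_val, hk2]
  exact Prod.ext h rfl

theorem st_iter_val (d : K.D) (k : ℕ) :
    (st^[k] d).1 = ((K.ny (sd d))^[k] (src d), sd d) := by
  induction k with
  | zero => rfl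
  | succ k ih =>
    rw [Function.iterate_succ_apply', Function.iterate_succ_apply']
    have h1 : src (st^[k] d) = (K.ny (sd d))^[k] (src d) := by
      show (st^[k] d).1.1 = _; rw [ih]
    have h2 : sd (st^[k] d) = sd d := by
      show (st^[k] d).1.2 = _; rw [ih]
    show (K.ny (sd (st^[k] d)) (src (st^[k] d)), sd (st^[k] d)) = _
    rw [h1, h2]

theorem sd_st_iter (d : K.D) (k : ℕ) : sd (st^[k] d) = sd d := by
  show (st^[k] d).1.2 = _; rw [st_iter_val]

theorem src_st_iter (d : K.D) (k : ℕ) : src (st^[k] d) = (K.ny (sd d))^[k] (src d) := by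
  show (st^[k] d).1.1 = _; rw [st_iter_val]

theorem st_iter_p (d : K.D) : st^[K.p (sd d)] d = ant d := by
  apply Subtype.ext
  have h := K.ny_iter _ _ d.2
  rw [st_iter_val]
  exact Prod.ext h rfl

theorem src_st_iter_ne (d : K.D) {k : ℕ} (h0 : 0 < k) (hk : k < 2 * K.p (sd d)) :
    src (st^[k] d) ≠ src d := by
  rw [src_st_iter]
  exact K.ny_ne _ _ d.2 k h0 hk

theorem st_iter_2p (d : K.D) : st^[2 * K.p (sd d)] d = d := by
  rw [two_mul, Function.iterate_add_apply, st_iter_p]
  have h := st_iter_p (ant d)
  rw [sd_ant] at h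
  rw [h, ant_ant]

theorem st_trans {d d' : K.D} (h : sd d = sd d') : ∃ k, k < 2 * K.p (sd d) ∧
    st^[k] d = d' := by
  obtain ⟨k, hk, hk2⟩ := K.ny_trans (sd d) (src d) (src d') d.2 (h ▸ d'.2)
  refine ⟨k, hk, Subtype.ext ?_⟩
  rw [st_iter_val, hk2]
  exact Prod.ext rfl h

theorem st_injective : Function.Injective (st : K.D → K.D) := fun d d' h => by
  have h1 : rev d = rev d' := by
    show opp (st d) = opp (st d')
    rw [h]
  exact rev_injective h1

theorem src_st_iter_ne_ng (d : K.D) {k : ℕ} (h0 : 0 < k) (hk : k < K.p (sd d)) :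
    src (st^[k] d) ≠ K.ngV (src d) := by
  intro h
  have h1 : src (st^[k] d) = src (st^[K.p (sd d)] d) := by rw [st_iter_p, h]; rfl
  have h2 : st^[k] d = st^[K.p (sd d)] d := dext h1 (by rw [sd_st_iter, sd_st_iter])
  have h3 : K.p (sd d) = (K.p (sd d) - k) + k := by omega
  rw [h3, Function.iterate_add_apply] at h2
  have h4 := congrArg src h2
  have h5 := src_st_iter_ne (st^[k] d) (k := K.p (sd d) - k) (by omega)
    (by rw [sd_st_iter]; omega)
  exact h5 h4.symm

theorem tg_ne_src (d : K.D) : tg d ≠ src d := by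
  have hp := K.three_le_p (sd d)
  exact src_st_iter_ne d (k := 1) one_pos (by omega)

theorem tg_ne_ng (d : K.D) : tg d ≠ K.ngV (src d) := by
  have hp := K.three_le_p (sd d)
  exact src_st_iter_ne_ng d (k := 1) one_pos (by omega)

theorem tg_st_ne_src (d : K.D) : tg (st d) ≠ src d := by
  have hp := K.three_le_p (sd d)
  exact src_st_iter_ne d (k := 2) (by norm_num) (by omega)

theorem tg_st_ne_ng (d : K.D) : tg (st d) ≠ K.ngV (src d) := by
  have hp := K.three_le_p (sd d)
  exact src_st_iter_ne_ng d (k := 2) (by norm_num) (by omega)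

theorem inc_src (d : K.D) : K.Inc (src d) (sd d) := d.2
theorem inc_tg (d : K.D) : K.Inc (tg d) (sd d) := (st d).2

theorem exists_dart (v : V) : ∃ d : K.D, src d = v := by
  obtain ⟨n, hn⟩ := K.inc_ex v
  exact ⟨⟨(v, n), hn⟩, rfl⟩

theorem exists_dart_line (n : N) : ∃ d : K.D, sd d = n := by
  obtain ⟨v, hv, -⟩ := K.meet n n
  exact ⟨⟨(v, n), hv⟩, rfl⟩

theorem ngV_ne (v : V) : K.ngV v ≠ v := by
  obtain ⟨d, rfl⟩ := exists_dart (K := K) v
  have h := src_st_iter_ne d (k := K.p (sd d)) (by have := K.three_le_p (sd d); omega)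
    (by have := K.three_le_p (sd d); omega)
  rw [st_iter_p] at h
  exact h

/-- Darts with the same source on the same great circle. -/
theorem eq_or_opp_of_line {d d' : K.D} (h : src d = src d') (h' : sd d' = sd d ∨
    sd d' = K.ngN (sd d)) : d' = d ∨ d' = opp d := by
  rcases h' with h' | h'
  · exact Or.inl (dext h.symm h')
  · exact Or.inr (dext h.symm h')

/-- Two great circles through two vertices which are not antipodal are equal. -/
theorem line_eq {n n' : N} {u v : V} (h1 : K.Inc u n) (h2 : K.Inc u n') (h3 : K.Inc v n)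
    (h4 : K.Inc v n') (h5 : v ≠ u) (h6 : v ≠ K.ngV u) : n' = n ∨ n' = K.ngN n := by
  by_contra hcon
  push Not at hcon
  rcases K.meet_eq n n' u v h1 h2 h3 h4 hcon.1 hcon.2 with h | h
  · exact h5 h
  · exact h6 h

/-- There is at most one edge between two vertices. -/
theorem simple {d d' : K.D} (h : src d = src d') (h' : tg d = tg d') : d = d' := by
  have h1 := line_eq (K := K) (inc_src d) (h ▸ inc_src d') (inc_tg d) (h' ▸ inc_tg d')
    (tg_ne_src d) (tg_ne_ng d)
  rcases h1 with h1 | h1
  · exact dext h h1.symm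
  · exfalso
    have h2 : d' = opp d := dext h.symm h1
    have h3 : tg (opp d) = tg d := by rw [← h2, h']
    -- the opposite dart has the same target
    have h4 : rev (opp d) = st d := by
      apply dext
      · rw [src_rev, h3]; rfl
      · rw [sd_rev, sd_opp, K.ngN_ngN]; rfl
    have h5 : opp d = rev (st d) := by rw [← h4, rev_rev]
    have h6 : src (opp d) = tg (st d) := by rw [h5, src_rev]
    exact tg_st_ne_src d h6.symm

open Classical in
theorem card_darts (v : V) : (Finset.univ.filter fun d : K.D => src d = v).card = 2 * K.m v := by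
  obtain ⟨d, hd⟩ := exists_dart (K := K) v
  have h : (Finset.univ.filter fun d' : K.D => src d' = v) =
      (Finset.range (2 * K.m v)).image fun k => rot^[k] d := by
    ext d'
    simp only [Finset.mem_filter, Finset.mem_univ, true_and, Finset.mem_image, Finset.mem_range]
    constructor
    · intro h
      obtain ⟨k, hk, hk2⟩ := rot_trans (d := d) (d' := d') (by rw [hd, h])
      exact ⟨k, by rw [← hd]; exact hk, hk2⟩
    · rintro ⟨k, -, rfl⟩
      rw [src_rot_iter, hd]
  rw [h, Finset.card_image_of_injOn, Finset.card_range]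
  intro i hi j hj hij
  simp only [Finset.coe_range, Set.mem_Iio] at hi hj
  simp only at hij
  wlog hlt : i ≤ j generalizing i j
  · exact (this hij.symm hj hi (by omega)).symm
  by_contra hne
  have h1 : j = (j - i) + i := by omega
  rw [h1, Function.iterate_add_apply] at hij
  exact rot_iter_ne (rot^[i] d) (k := j - i) (by omega)
    (by rw [src_rot_iter, hd]; omega) hij.symm

open Classical in
theorem card_darts_line (n : N) : (Finset.univ.filter fun d : K.D => sd d = n).card = 2 * K.p n := by
  obtain ⟨d, hd⟩ := exists_dart_line (K := K) n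
  have h : (Finset.univ.filter fun d' : K.D => sd d' = n) =
      (Finset.range (2 * K.p n)).image fun k => st^[k] d := by
    ext d'
    simp only [Finset.mem_filter, Finset.mem_univ, true_and, Finset.mem_image, Finset.mem_range]
    constructor
    · intro h
      obtain ⟨k, hk, hk2⟩ := st_trans (d := d) (d' := d') (by rw [hd, h])
      exact ⟨k, by rw [← hd]; exact hk, hk2⟩
    · rintro ⟨k, -, rfl⟩
      rw [sd_st_iter, hd]
  rw [h, Finset.card_image_of_injOn, Finset.card_range]
  intro i hi j hj hij
  simp only [Finset.coe_range, Set.mem_Iio] at hi hj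
  simp only at hij
  wlog hlt : i ≤ j generalizing i j
  · exact (this hij.symm hj hi (by omega)).symm
  by_contra hne
  have h1 : j = (j - i) + i := by omega
  rw [h1, Function.iterate_add_apply] at hij
  exact src_st_iter_ne (st^[i] d) (k := j - i) (by omega)
    (by rw [sd_st_iter, hd]; omega) (congrArg src hij.symm)

theorem m_ngV (v : V) : K.m (K.ngV v) = K.m v := by
  classical
  have h1 := card_darts (K := K) v
  have h2 := card_darts (K := K) (K.ngV v)
  have h3 : (Finset.univ.filter fun d : K.D => src d = v).card =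
      (Finset.univ.filter fun d : K.D => src d = K.ngV v).card := by
    apply Finset.card_bij (fun d _ => ant d)
    · intro d hd
      simp only [Finset.mem_filter, Finset.mem_univ, true_and] at hd ⊢
      rw [src_ant, hd]
    · intro d _ d' _ h
      rw [← ant_ant d, h, ant_ant]
    · intro d hd
      simp only [Finset.mem_filter, Finset.mem_univ, true_and] at hd
      exact ⟨ant d, by simp [hd, K.ngV_ngV], ant_ant d⟩
  omega

theorem p_ngN (n : N) : K.p (K.ngN n) = K.p n := by
  classical
  have h1 := card_darts_line (K := K) n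
  have h2 := card_darts_line (K := K) (K.ngN n)
  have h3 : (Finset.univ.filter fun d : K.D => sd d = n).card =
      (Finset.univ.filter fun d : K.D => sd d = K.ngN n).card := by
    apply Finset.card_bij (fun d _ => opp d)
    · intro d hd
      simp only [Finset.mem_filter, Finset.mem_univ, true_and] at hd ⊢
      rw [sd_opp, hd]
    · intro d _ d' _ h
      rw [← opp_opp d, h, opp_opp]
    · intro d hd
      simp only [Finset.mem_filter, Finset.mem_univ, true_and] at hd
      exact ⟨opp d, by simp [hd, K.ngN_ngN], opp_opp d⟩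
  omega

end Arr

end Pool.Agent.VeeC
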