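import Mathlib

set_option autoImplicit false

/-!
# Spherical simplicial arrangements, combinatorially

`V`: the vertices on the sphere, `N`: the signed normals of the great circles (each great circle
has two). A flag is a pair of incident elements; it is a dart: the edge which starts at the vertex
`v` and runs along the great circle `n^⊥` in the direction `n × v`, so that `n` points to its left.
`nx v n` is the next normal at `v` in counterclockwise direction, `ny n v` is the next vertex on the
great circle.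
-/

namespace Pool.Agent.VeeC

/-- The left chamber of the dart `(v, n)` is also the left chamber of `stepF (v, n)`. -/
def stepF {V N : Type*} (ngN : N → N) (nx : V → N → N) (ny : N → V → V) (q : V × N) : V × N :=
  (ny (nx q.1 q.2) q.1, ngN (nx q.1 q.2))

open Classical in
/-- Spherical simplicial arrangements. -/
structure Arr (V N : Type*) [Fintype V] [Fintype N] where
  ngV : V → V
  ngN : N → N
  Inc : V → N → Prop
  nx : V → N → N
  ny : N → V → V
  m : V → ℕ
  p : N → ℕ
  side : N → V → SignType
  ngV_ngV : ∀ v, ngV (ngV v) = v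
  ngN_ngN : ∀ n, ngN (ngN n) = n
  inc_ngV : ∀ v n, Inc (ngV v) n ↔ Inc v n
  inc_ngN : ∀ v n, Inc v (ngN n) ↔ Inc v n
  inc_ex : ∀ v, ∃ n, Inc v n
  two_le_m : ∀ v, 2 ≤ m v
  three_le_p : ∀ n, 3 ≤ p n
  inc_nx : ∀ v n, Inc v n → Inc v (nx v n)
  inc_ny : ∀ v n, Inc v n → Inc (ny n v) n
  /-- half a turn around a vertex -/
  nx_iter : ∀ v n, Inc v n → (nx v)^[m v] n = ngN n
  nx_ne : ∀ v n, Inc v n → ∀ k, 0 < k → k < 2 * m v → (nx v)^[k] n ≠ n
  nx_trans : ∀ v n n', Inc v n → Inc v n' → ∃ k, k < 2 * m v ∧ (nx v)^[k] n = n'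
  /-- half a turn on a great circle -/
  ny_iter : ∀ v n, Inc v n → (ny n)^[p n] v = ngV v
  ny_ne : ∀ v n, Inc v n → ∀ k, 0 < k → k < 2 * p n → (ny n)^[k] v ≠ v
  ny_trans : ∀ n v v', Inc v n → Inc v' n → ∃ k, k < 2 * p n ∧ (ny n)^[k] v = v'
  nx_rev : ∀ v n, Inc v n → nx (ngV v) (nx v n) = n
  ny_rev : ∀ v n, Inc v n → ny (ngN n) (ny n v) = v
  meet : ∀ n n', ∃ v, Inc v n ∧ Inc v n'
  meet_eq : ∀ n n' u v, Inc u n → Inc u n' → Inc v n → Inc v n' → n' ≠ n → n' ≠ ngN n →
    v = u ∨ v = ngV u
  /-- the side of a great circle on which a vertex lies -/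
  side_zero : ∀ n v, side n v = 0 ↔ Inc v n
  side_ng : ∀ n v, side n (ngV v) = - side n v
  side_ny : ∀ n v n', Inc v n' → side n v ≠ 0 → side n (ny n' v) ≠ 0 →
    side n (ny n' v) = side n v
  /-- all chambers are triangles -/
  tri : ∀ v n, Inc v n → stepF ngN nx ny (stepF ngN nx ny (stepF ngN nx ny (v, n))) = (v, n)
  euler : (Finset.univ.filter fun q : V × N => Inc q.1 q.2).card + 12 = 6 * Fintype.card V
  conn : ∀ S : Set V, S.Nonempty → Sᶜ.Nonempty → ∃ v n, Inc v n ∧ v ∈ S ∧ ny n v ∉ S
  /-- double points are not adjacent -/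
  dbl : ∀ v n, Inc v n → m v = 2 → m (ny n v) ≠ 2

namespace Arr

variable {V N : Type*} [Fintype V] [Fintype N] (K : Arr V N)

/-- darts -/
def D : Type _ := {q : V × N // K.Inc q.1 q.2}

noncomputable instance : Fintype K.D := by
  classical
  exact Subtype.fintype _

noncomputable instance : DecidableEq K.D := Classical.decEq _

variable {K}

/-- the source of a dart -/
def src (d : K.D) : V := d.1.1
/-- the normal of a dart -/
def sd (d : K.D) : N := d.1.2

/-- rotation about the source -/
def rot (d : K.D) : K.D := ⟨(src d, K.nx (src d) (sd d)), K.inc_nx _ _ d.2⟩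
/-- the next dart on the great circle -/
def st (d : K.D) : K.D := ⟨(K.ny (sd d) (src d), sd d), K.inc_ny _ _ d.2⟩
/-- the opposite dart with the same source -/
def opp (d : K.D) : K.D := ⟨(src d, K.ngN (sd d)), (K.inc_ngN _ _).mpr d.2⟩
/-- the antipodal dart -/
def ant (d : K.D) : K.D := ⟨(K.ngV (src d), sd d), (K.inc_ngV _ _).mpr d.2⟩
/-- the reversed dart -/
def rev (d : K.D) : K.D := opp (st d)
/-- the target of a dart -/
def tg (d : K.D) : V := K.ny (sd d) (src d)
/-- the previous dart of the chamber to the left -/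
def F (d : K.D) : K.D := rev (rot d)

end Arr

open Classical in
/-- A labelling of the corners (the corner of the dart `d` lies between `d` and `rot d`) at the
vertices in `Z`, and of the edges, as it comes from two spherical realisations of the arrangement
with nonobtuse triangles: `s d = true` if the angle of the corner does not decrease, `e d = true`
if the length of the edge does not decrease, `Z`: the vertices at which some angle changes. -/
structure Lab {V N : Type*} [Fintype V] [Fintype N] (K : Arr V N) where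
  Z : V → Prop
  s : K.D → Bool
  e : K.D → Bool
  Z_ng : ∀ v, Z (K.ngV v) ↔ Z v
  e_rev : ∀ d, e (Arr.rev d) = e d
  pos : ∀ d, (∀ k < 3, Z (Arr.src (Arr.F^[k] d)) → s (Arr.F^[k] d) = true) → e d = true
  neg : ∀ d, (∃ k < 3, Z (Arr.src (Arr.F^[k] d))) →
    (∀ k < 3, Z (Arr.src (Arr.F^[k] d)) → s (Arr.F^[k] d) = false) → e d = false
  cauchy : ∀ v, Z v → 8 ≤ (Finset.univ.filter fun d : K.D =>
    Arr.src d = v ∧ s d ≠ s (Arr.rot d)).card

end Pool.Agent.VeeC
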