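import Pool.Agent.VeeC.Geo5

set_option autoImplicit false

namespace Pool.Agent.VeeC

open Matrix

variable {κ : Type*} [Fintype κ] {a : κ → R3}

theorem conn (ha : Sys3 a) (S : Set (VT (LL a))) (h : S.Nonempty) (h' : Sᶜ.Nonempty) :
    ∃ v n, Inc v n ∧ v ∈ S ∧ ny a n v ∉ S := by
  by_contra hcon
  push Not at hcon
  obtain ⟨v, hv⟩ := h
  obtain ⟨w, hw⟩ := h'
  have hit : ∀ (n : κ × Bool) (u : VT (LL a)), Inc u n → u ∈ S → ∀ k, Inc ((ny a n)^[k] u) n ∧
      (ny a n)^[k] u ∈ S := by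
    intro n u hu huS k
    induction k with
    | zero => exact ⟨hu, huS⟩
    | succ k ih =>
      rw [Function.iterate_succ_apply']
      exact ⟨(ny_spec ha n _ ih.1).1, hcon _ n ih.1 ih.2⟩
  obtain ⟨i, _, _, hi, _⟩ := v.2.2.2
  obtain ⟨j, _, _, hj, _⟩ := w.2.2.2
  obtain ⟨u, hu1, hu2⟩ := exists_vert ha (i, true) (j, true)
  obtain ⟨k, _, hk⟩ := ny_trans ha (i, true) v u hi hu1
  have huS : u ∈ S := by
    rw [← hk]
    exact (hit (i, true) v hi hv k).2
  obtain ⟨l, _, hl⟩ := ny_trans ha (j, true) u w hu2 hj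
  apply hw
  rw [← hl]
  exact (hit (j, true) u hu2 huS l).2

lemma Geo7_sw (x y z : R3) : det3 y x z = - det3 x y z := by
  rw [← det3_cyc y x z, det3_swap]

lemma Geo7_dot_cross (x y z : R3) : x ⬝ᵥ crossProduct y z = det3 x y z := rfl

lemma Geo7_ne (ha : Sys3 a) (i : κ) : a i ≠ 0 := by
  have := nv_ne ha (i, true)
  simpa [nv, sgn] using this

lemma Geo7_cross_ne {x y z : R3} (h : det3 z x y ≠ 0) : crossProduct x y ≠ 0 := by
  intro e
  apply h
  unfold det3
  rw [e, dotProduct_zero]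

/-- Two planes through `a i`. -/
lemma Geo7_li {x y z : R3} (h : det3 z x y ≠ 0) :
    LinearIndependent ℝ ![crossProduct x y, crossProduct x z] := by
  rw [LinearIndependent.pair_iff]
  intro s t hst
  have h1 : z ⬝ᵥ (s • crossProduct x y + t • crossProduct x z) = 0 := by
    rw [hst, dotProduct_zero]
  have h2 : y ⬝ᵥ (s • crossProduct x y + t • crossProduct x z) = 0 := by
    rw [hst, dotProduct_zero]
  rw [dotProduct_add, dotProduct_smul, dotProduct_smul, smul_eq_mul, smul_eq_mul,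
    Geo7_dot_cross, Geo7_dot_cross] at h1 h2
  have e1 : det3 z x z = 0 := by rw [Geo7_sw, det3_self, neg_zero]
  have e2 : det3 y x y = 0 := by rw [Geo7_sw, det3_self, neg_zero]
  have e3 : det3 y x z = - det3 z x y := by rw [Geo7_sw, det3_cyc]
  constructor
  · rw [e1] at h1
    simp only [mul_zero, add_zero, mul_eq_zero] at h1
    rcases h1 with h1 | h1
    · exact h1
    · exact absurd h1 h
  · rw [e2, e3] at h2
    simp only [mul_zero, zero_add, mul_neg, neg_eq_zero, mul_eq_zero] at h2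
    rcases h2 with h2 | h2
    · exact h2
    · exact absurd h2 h

/-- A member in both planes. -/
lemma Geo7_both (ha : Sys3 a) {i j k l : κ} (hd : det3 (a k) (a i) (a j) ≠ 0) (hl : l ≠ i)
    (h1 : a l ⬝ᵥ crossProduct (a i) (a j) = 0) (h2 : a l ⬝ᵥ crossProduct (a i) (a k) = 0) :
    False := by
  have hli := Geo7_li hd
  obtain ⟨c, hc⟩ := eq_smul_cross hli (by rw [dotProduct_comm]; exact h1)
    (by rw [dotProduct_comm]; exact h2)
  obtain ⟨c', hc'⟩ := eq_smul_cross hli (z := a i) (by rw [dotProduct_comm, dot_self_cross])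
    (by rw [dotProduct_comm, dot_self_cross])
  have hli2 := ha.li l i hl
  rw [LinearIndependent.pair_iff] at hli2
  generalize crossProduct (crossProduct (a i) (a j)) (crossProduct (a i) (a k)) = X at hc hc'
  have h3 := hli2 c' (-c) (by rw [hc, hc']; module)
  have h4 : c = 0 := by linarith [h3.2]
  apply Geo7_ne ha l
  rw [hc, h4, zero_smul]

/-- A vector orthogonal to two members of a plane is proportional to its normal. -/
lemma Geo7_plane (ha : Sys3 a) {k k' : κ} (hk : k' ≠ k) {x y z : R3} (hx : x ≠ 0)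
    (h1 : a k ⬝ᵥ x = 0) (h2 : a k' ⬝ᵥ x = 0) (h3 : a k ⬝ᵥ y = 0) (h4 : a k' ⬝ᵥ y = 0)
    (h5 : z ⬝ᵥ x = 0) : z ⬝ᵥ y = 0 := by
  obtain ⟨c, hc⟩ := eq_smul_cross (ha.li k k' hk.symm) h1 h2
  obtain ⟨c', hc'⟩ := eq_smul_cross (ha.li k k' hk.symm) h3 h4
  have hc0 : c ≠ 0 := by
    intro e
    apply hx
    rw [hc, e, zero_smul]
  rw [hc, dotProduct_smul, smul_eq_mul, mul_eq_zero] at h5
  rcases h5 with h5 | h5
  · exact absurd h5 hc0
  · rw [hc', dotProduct_smul, smul_eq_mul, h5, mul_zero]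

/-- Members of different planes are orthogonal. -/
lemma Geo7_orth (ha : Sys3 a) {i j k : κ} (hd : det3 (a k) (a i) (a j) ≠ 0)
    (H : ∀ l, a l ⬝ᵥ crossProduct (a i) (a j) = 0 ∨ a l ⬝ᵥ crossProduct (a i) (a k) = 0)
    {j' k' : κ} (hj : j' ≠ i) (hk : k' ≠ i) (hj1 : a j' ⬝ᵥ crossProduct (a i) (a j) = 0)
    (hk1 : a k' ⬝ᵥ crossProduct (a i) (a k) = 0) : a j' ⬝ᵥ a k' = 0 := by
  have hd' : det3 (a j) (a i) (a k) ≠ 0 := by
    rw [Geo7_sw, det3_cyc]
    exact neg_ne_zero.2 hd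
  have hX1 : crossProduct (a i) (a j) ≠ 0 := Geo7_cross_ne hd
  have hX2 : crossProduct (a i) (a k) ≠ 0 := Geo7_cross_ne hd'
  have hne : j' ≠ k' := by
    intro e
    rw [← e] at hk1
    exact Geo7_both ha hd hj hj1 hk1
  apply ha.orth (crossProduct (a j') (a k')) j' k' hne
  intro l
  constructor
  · intro hl
    by_contra hcon
    push Not at hcon
    obtain ⟨hlj, hlk⟩ := hcon
    rw [Geo7_dot_cross] at hl
    rcases H l with h1 | h1
    · obtain ⟨c, hc⟩ := eq_smul_cross (ha.li l j' hlj) h1 hj1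
      apply Geo7_both ha hd hk _ hk1
      rw [hc, dotProduct_smul, Geo7_dot_cross, ← det3_cyc, hl, smul_zero]
    · obtain ⟨c, hc⟩ := eq_smul_cross (ha.li l k' hlk) h1 hk1
      apply Geo7_both ha hd hj hj1
      rw [hc, dotProduct_smul, Geo7_dot_cross, Geo7_sw, hl, neg_zero, smul_zero]
  · rintro (h1 | h1)
    · rw [h1, dot_self_cross]
    · rw [h1, dot_cross_self]

/-- The second plane contains a third member. -/
lemma Geo7_third (ha : Sys3 a) {i j k : κ} (hd : det3 (a k) (a i) (a j) ≠ 0)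
    (H : ∀ l, a l ⬝ᵥ crossProduct (a i) (a j) = 0 ∨ a l ⬝ᵥ crossProduct (a i) (a k) = 0)
    (hk : k ≠ i) : ∃ k', k' ≠ k ∧ k' ≠ i ∧ a k' ⬝ᵥ crossProduct (a i) (a k) = 0 := by
  by_contra hcon
  push Not at hcon
  have hik : a i ⬝ᵥ a k = 0 := by
    apply ha.orth (crossProduct (a i) (a k)) i k hk.symm
    intro l
    constructor
    · intro hl
      by_contra h1
      push Not at h1
      exact hcon l h1.2 h1.1 hl
    · rintro (h1 | h1)
      · rw [h1, dot_self_cross]
      · rw [h1, dot_cross_self]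
  obtain ⟨k₁, hk₁, l, hl, hne⟩ := ha.irr {k} ⟨k, rfl⟩ ⟨i, fun e => hk e.symm⟩
  have e1 : k₁ = k := hk₁
  have e2 : l ≠ k := hl
  rw [e1] at hne
  apply hne
  by_cases hli : l = i
  · rw [hli, dotProduct_comm]
    exact hik
  · rcases H l with h1 | h1
    · rw [dotProduct_comm]
      exact Geo7_orth ha hd H hli hk h1 (dot_cross_self _ _)
    · exact absurd h1 (hcon l e2 hli)

/-- There are at least three planes through a member. -/
lemma Geo7_three (ha : Sys3 a) {i j k : κ} (hd : det3 (a k) (a i) (a j) ≠ 0) (hj : j ≠ i)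
    (hk : k ≠ i) :
    ∃ l, a l ⬝ᵥ crossProduct (a i) (a j) ≠ 0 ∧ a l ⬝ᵥ crossProduct (a i) (a k) ≠ 0 := by
  by_contra hcon
  push Not at hcon
  have H : ∀ l, a l ⬝ᵥ crossProduct (a i) (a j) = 0 ∨ a l ⬝ᵥ crossProduct (a i) (a k) = 0 := by
    intro l
    by_cases h1 : a l ⬝ᵥ crossProduct (a i) (a j) = 0
    · left; exact h1
    · right; exact hcon l h1
  have hd' : det3 (a j) (a i) (a k) ≠ 0 := by
    rw [Geo7_sw, det3_cyc]
    exact neg_ne_zero.2 hd
  have hX1 : crossProduct (a i) (a j) ≠ 0 := Geo7_cross_ne hd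
  have hX2 : crossProduct (a i) (a k) ≠ 0 := Geo7_cross_ne hd'
  obtain ⟨k', hk'1, hk'2, hk'3⟩ := Geo7_third ha hd H hk
  obtain ⟨j', hj'1, hj'2, hj'3⟩ := Geo7_third ha hd' (fun l => (H l).symm) hj
  have hj0 : a j ⬝ᵥ crossProduct (a i) (a j) = 0 := dot_cross_self _ _
  have hk0 : a k ⬝ᵥ crossProduct (a i) (a k) = 0 := dot_cross_self _ _
  have horth : ∀ {j₁ k₁ : κ}, j₁ ≠ i → k₁ ≠ i → a j₁ ⬝ᵥ crossProduct (a i) (a j) = 0 →
      a k₁ ⬝ᵥ crossProduct (a i) (a k) = 0 → a j₁ ⬝ᵥ a k₁ = 0 :=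
    fun h1 h2 h3 h4 => Geo7_orth ha hd H h1 h2 h3 h4
  -- `a i` is orthogonal to the members of the first plane
  have hij : ∀ {j₁ : κ}, j₁ ≠ i → a j₁ ⬝ᵥ crossProduct (a i) (a j) = 0 → a i ⬝ᵥ a j₁ = 0 := by
    intro j₁ h1 h2
    apply Geo7_plane ha hk'1 hX2 hk0 hk'3
    · rw [dotProduct_comm]
      exact horth h1 hk h2 hk0
    · rw [dotProduct_comm]
      exact horth h1 hk'2 h2 hk'3
    · exact dot_self_cross _ _
  have hii : a i ⬝ᵥ a i = 0 := by
    apply Geo7_plane ha hj'1 hX1 hj0 hj'3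
    · rw [dotProduct_comm]
      exact hij hj hj0
    · rw [dotProduct_comm]
      exact hij hj'2 hj'3
    · exact dot_self_cross _ _
  exact Geo7_ne ha i (dotProduct_self_eq_zero.1 hii)

/-- There are two members in general position with a given one. -/
lemma Geo7_two (ha : Sys3 a) (i : κ) : ∃ j k, j ≠ i ∧ k ≠ i ∧ det3 (a k) (a i) (a j) ≠ 0 := by
  classical
  -- a second member
  have h1 : ∃ j, j ≠ i := by
    by_contra hcon
    push Not at hcon
    obtain ⟨i₁, _, j₁, _, hne⟩ := ha.irr {i} ⟨i, rfl⟩ (by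
      by_contra hc
      rw [Set.not_nonempty_iff_eq_empty, Set.compl_empty_iff] at hc
      have h2 : Submodule.span ℝ (Set.range a) ≤ Submodule.span ℝ {a i} := by
        apply Submodule.span_mono
        rintro x ⟨l, rfl⟩
        rw [hcon l]
        rfl
      rw [ha.sp] at h2
      have h3 : Module.finrank ℝ (Submodule.span ℝ ({a i} : Set R3)) ≤ 1 := by
        have := finrank_span_le_card (R := ℝ) ({a i} : Set R3)
        simpa using this
      have h4 : Module.finrank ℝ (⊤ : Submodule ℝ R3) ≤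
          Module.finrank ℝ (Submodule.span ℝ ({a i} : Set R3)) := Submodule.finrank_mono h2
      rw [finrank_top] at h4
      simp at h4
      omega)
    rename_i h5
    exact h5 (hcon j₁)
  obtain ⟨j, hj⟩ := h1
  by_contra hcon
  push Not at hcon
  have h2 : ∀ k, a k ⬝ᵥ crossProduct (a i) (a j) = 0 := by
    intro k
    by_cases hk : k = i
    · rw [hk]; exact dot_self_cross _ _
    · exact hcon j k hj hk
  have h3 : ∀ x : R3, x ⬝ᵥ crossProduct (a i) (a j) = 0 := by
    intro x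
    have hx : x ∈ Submodule.span ℝ (Set.range a) := by rw [ha.sp]; trivial
    induction hx using Submodule.span_induction with
    | mem y hy =>
      obtain ⟨l, rfl⟩ := hy
      exact h2 l
    | zero => exact zero_dotProduct _
    | add y z _ _ hy hz => rw [add_dotProduct, hy, hz, add_zero]
    | smul c y _ hy => rw [smul_dotProduct, hy, smul_zero]
  have h4 : crossProduct (a i) (a j) = 0 := dotProduct_self_eq_zero.1 (h3 _)
  have h5 := ha.li i j hj.symm
  rw [← crossProduct_ne_zero_iff_linearIndependent] at h5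
  exact h5 h4

lemma Geo7_neg_zero : ∀ s : SignType, - s = 0 ↔ s = 0 := by decide

theorem three_le_pp (ha : Sys3 a) (n : κ × Bool) : 3 ≤ pp (LL a) n := by
  classical
  obtain ⟨i, b⟩ := n
  obtain ⟨j, k, hj, hk, hd⟩ := Geo7_two ha i
  obtain ⟨l, hl1, hl2⟩ := Geo7_three ha hd hj hk
  have hl : l ≠ i := by
    intro e
    apply hl1
    rw [e]
    exact dot_self_cross _ _
  have hd' : det3 (a j) (a i) (a k) ≠ 0 := by
    rw [Geo7_sw, det3_cyc]
    exact neg_ne_zero.2 hd
  -- the three directions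
  set w : Fin 3 → κ := ![j, k, l] with hw
  have hwi : ∀ m, w m ≠ i := by
    intro m
    fin_cases m
    · exact hj
    · exact hk
    · exact hl
  have hdet : ∀ m m', a (w m') ⬝ᵥ crossProduct (a i) (a (w m)) = 0 ↔ m = m' := by
    have e0 : ∀ x y : κ, a x ⬝ᵥ crossProduct (a i) (a y) =
        - (a y ⬝ᵥ crossProduct (a i) (a x)) := by
      intro x y
      rw [Geo7_dot_cross, Geo7_dot_cross, Geo7_sw, det3_cyc]
    have hself : ∀ x : κ, a x ⬝ᵥ crossProduct (a i) (a x) = 0 := fun x => dot_cross_self _ _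
    have hkj : a k ⬝ᵥ crossProduct (a i) (a j) ≠ 0 := hd
    have hjk : a j ⬝ᵥ crossProduct (a i) (a k) ≠ 0 := hd'
    have hjl : a j ⬝ᵥ crossProduct (a i) (a l) ≠ 0 := by
      rw [e0]; exact neg_ne_zero.2 hl1
    have hkl : a k ⬝ᵥ crossProduct (a i) (a l) ≠ 0 := by
      rw [e0]; exact neg_ne_zero.2 hl2
    intro m m'
    fin_cases m <;> fin_cases m' <;> simp [hw, hself, hkj, hjk, hjl, hkl, hl1, hl2]
  have hX : ∀ m, crossProduct (a i) (a (w m)) ≠ 0 := by
    intro m e
    have h1 := ha.li i (w m) (hwi m).symm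
    rw [← crossProduct_ne_zero_iff_linearIndependent] at h1
    exact h1 e
  set V : Fin 3 → VT (LL a) := fun m => ⟨sv a (crossProduct (a i) (a (w m))),
    isVert_of ha (hX m) (hwi m).symm (dot_self_cross _ _) (dot_cross_self _ _)⟩ with hV
  have hV0 : ∀ m m', (V m).1 (w m') = 0 ↔ m = m' := by
    intro m m'
    rw [← hdet m m']
    exact sv_zero_iff _ _
  have hVi : ∀ m, (V m).1 i = 0 := by
    intro m
    exact (sv_zero_iff _ _).2 (dot_self_cross _ _)
  set g : Fin 3 × Bool → VT (LL a) := fun q => if q.2 then V q.1 else ngV (V q.1) with hg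
  have hng : ∀ (v : VT (LL a)) (x : κ), (ngV v).1 x = - v.1 x := fun v x => rfl
  have hg0 : ∀ m c m', (g (m, c)).1 (w m') = 0 ↔ m = m' := by
    intro m c m'
    rw [← hV0 m m']
    cases c
    · simp only [hg, Bool.false_eq_true, if_false]
      rw [hng]
      exact Geo7_neg_zero _
    · simp only [hg, if_true]
  have hgi : ∀ q, (g q).1 i = 0 := by
    rintro ⟨m, c⟩
    cases c
    · simp only [hg, Bool.false_eq_true, if_false]
      rw [hng]
      exact (Geo7_neg_zero _).2 (hVi m)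
    · simp only [hg, if_true]
      exact hVi m
  have hinj : Function.Injective g := by
    rintro ⟨m, c⟩ ⟨m', c'⟩ e
    have h1 : m = m' := by
      rw [← hg0 m c m', e, hg0]
    subst h1
    have h2 : ∃ m', m ≠ m' := by
      fin_cases m
      · exact ⟨1, by simp⟩
      · exact ⟨0, by simp⟩
      · exact ⟨0, by simp⟩
    obtain ⟨m', hm'⟩ := h2
    have h3 : (V m).1 (w m') ≠ 0 := fun h => hm' ((hV0 m m').1 h)
    have h4 : (V m).1 (w m') ≠ - (V m).1 (w m') := by
      generalize (V m).1 (w m') = z at h3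
      cases z
      · exact absurd rfl h3
      · decide
      · decide
    have h5 := congrArg (fun v : VT (LL a) => v.1 (w m')) e
    cases c <;> cases c'
    · rfl
    · exfalso
      simp only [hg, Bool.false_eq_true, if_false, if_true] at h5
      rw [hng] at h5
      exact h4 h5.symm
    · exfalso
      simp only [hg, Bool.false_eq_true, if_false, if_true] at h5
      rw [hng] at h5
      exact h4 h5
    · rfl
  have hcard : 6 ≤ (Finset.univ.filter fun v : VT (LL a) => Inc v (i, b)).card := by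
    have h1 : (Finset.univ : Finset (Fin 3 × Bool)).card = 6 := by
      rw [Finset.card_univ]
      rfl
    rw [← h1]
    apply Finset.card_le_card_of_injOn g
    · intro q _
      rw [Finset.coe_filter]
      exact ⟨Finset.mem_univ _, hgi q⟩
    · exact hinj.injOn
  unfold pp
  have h2 : (Finset.univ.filter fun v : VT (LL a) => Inc v (i, b)).card / 2 ≥ 3 := by omega
  convert h2

omit [Fintype κ] in
lemma Geo7_eq_or (n n' : κ × Bool) (h : n'.1 = n.1) : n' = n ∨ n' = ngN n := by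
  obtain ⟨i, b⟩ := n
  obtain ⟨i', b'⟩ := n'
  simp only at h
  subst h
  cases b <;> cases b' <;> simp [ngN]

lemma Geo7_mm_two {v : VT (LL a)} (h2 : mm v = 2) {i j : κ} (hij : i ≠ j) (hi : v.1 i = 0)
    (hj : v.1 j = 0) : ∀ k, v.1 k = 0 → k = i ∨ k = j := by
  classical
  intro k hk
  by_contra hcon
  push Not at hcon
  have h1 : ({i, j, k} : Finset κ) ⊆ Finset.univ.filter fun i => v.1 i = 0 := by
    intro l hl
    simp only [Finset.mem_insert, Finset.mem_singleton] at hl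
    rw [Finset.mem_filter]
    refine ⟨Finset.mem_univ _, ?_⟩
    rcases hl with h3 | h3 | h3 <;> rw [h3] <;> assumption
  have h3 := Finset.card_le_card h1
  have h4 : ({i, j, k} : Finset κ).card = 3 := by
    rw [Finset.card_insert_of_notMem, Finset.card_insert_of_notMem, Finset.card_singleton]
    · rw [Finset.mem_singleton]
      exact fun e => hcon.2 e.symm
    · rw [Finset.mem_insert, Finset.mem_singleton]
      rintro (e | e)
      · exact hij e
      · exact hcon.1 e.symm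
  unfold mm at h2
  have h5 : (Finset.univ.filter fun i => v.1 i = 0).card = 2 := by
    convert h2
  omega

omit [Fintype κ] in
lemma Geo7_side_ng {L : Set (κ → SignType)} (n : κ × Bool) (v : VT L) :
    side (ngN n) v = - side n v := by
  obtain ⟨i, b⟩ := n
  cases b
  · simp [side, ngN]
  · simp [side, ngN]

omit [Fintype κ] in
lemma Geo7_ngN_ngN (n : κ × Bool) : ngN (ngN n) = n := by
  obtain ⟨i, b⟩ := n
  simp [ngN]

omit [Fintype κ] in
/-- equality of two normals on the same great circle, with the same side -/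
lemma Geo7_eq_of_side {L : Set (κ → SignType)} {n n' : κ × Bool} {v : VT L} (h : n'.1 = n.1)
    (h1 : side n v = 1) (h2 : side n' v = 1) : n' = n := by
  rcases Geo7_eq_or n n' h with h3 | h3
  · exact h3
  · rw [h3, Geo7_side_ng, h1] at h2
    exact absurd h2 (by decide)

omit [Fintype κ] in
lemma Geo7_det_nv (a : κ → R3) (A B C : κ × Bool) : det3 (nv a A) (nv a B) (nv a C) =
    sgn A.2 * (sgn B.2 * (sgn C.2 * det3 (a A.1) (a B.1) (a C.1))) := by
  unfold nv
  rw [det3_smul1, det3_smul2, det3_smul3]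

lemma Geo7_det_self12 (x z : R3) : det3 x x z = 0 := by
  have := Geo7_sw x x z
  linarith

lemma Geo7_det_self13 (x z : R3) : det3 x z x = 0 := by
  rw [det3_swap, Geo7_det_self12, neg_zero]

omit [Fintype κ] in
lemma Geo7_fst_ne {A B C : κ × Bool} (h : det3 (nv a A) (nv a B) (nv a C) ≠ 0) :
    A.1 ≠ B.1 ∧ A.1 ≠ C.1 ∧ B.1 ≠ C.1 := by
  rw [Geo7_det_nv] at h
  refine ⟨fun e => h ?_, fun e => h ?_, fun e => h ?_⟩
  · rw [e, Geo7_det_self12]; ring
  · rw [e, Geo7_det_self13]; ring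
  · rw [e, det3_self]; ring

omit [Fintype κ] in
lemma Geo7_ne_of_fst {A B : κ × Bool} (h : A.1 ≠ B.1) : B ≠ A ∧ B ≠ ngN A :=
  ⟨fun e => h (by rw [e]), fun e => h (by rw [e]; rfl)⟩

/-- The chamber to the left of a dart. -/
lemma Geo7_chamber (ha : Sys3 a) (v : VT (LL a)) (n : κ × Bool) (h : Inc v n) :
    ∃ (N : Fin 3 → κ × Bool) (w : VT (LL a)), Simple a N ∧ N 0 = n ∧ Inc v (N 1) ∧
      side (N 2) v = 1 ∧ ny a n v = w ∧ Inc w (N 2) ∧ Inc w n ∧ side (N 1) w = 1 := by
  obtain ⟨N, hN, hN0, hv1, hs2⟩ := exists_simple_of_dart ha v n h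
  have hM : Simple a ![N 2, N 0, N 1] := by
    have := hN.rotate.rotate
    simpa using this
  obtain ⟨w, hw0, hw1, hw2⟩ := hM.exists_vert ha
  simp only [Matrix.cons_val_zero, Matrix.cons_val_one, Matrix.cons_val_two, Matrix.head_cons,
    Matrix.tail_cons] at hw0 hw1 hw2
  have hny : ny a (ngN n) w = v := by
    have h3 := hM.ny_eq ha (v := w) (w := v) hw0 hw1 hw2 (by simpa [hN0] using h) hv1 hs2
    simpa [hN0] using h3
  have hwn : Inc w n := by
    have h3 := hw1
    rw [hN0] at h3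
    exact h3
  have hw : ny a n v = w := by
    have h5 := ny_rev ha (ngN n) w hwn
    rw [hny, Geo7_ngN_ngN] at h5
    exact h5
  exact ⟨N, w, hN, hN0, hv1, hs2, hw, hw0, hwn, hw2⟩

lemma Geo7_sgn_ne (b : Bool) : sgn b ≠ 0 := by
  cases b <;> simp [sgn]

theorem dbl (ha : Sys3 a) (v : VT (LL a)) (n : κ × Bool) (h : Inc v n) (h2 : mm v = 2) :
    mm (ny a n v) ≠ 2 := by
  obtain ⟨N, w, hN, hN0, hv1, hv2, hw, hw0, hwn, hw2⟩ := Geo7_chamber ha v n h
  rw [hw]
  intro hw22
  obtain ⟨N', u, hN', hN'0, hw1', hw2', hu, hu0, hun, hu2⟩ := Geo7_chamber ha w (ngN n) hwn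
  have huv : u = v := by
    have h3 := ny_rev ha n v h
    rw [hw] at h3
    rw [← hu, h3]
  subst huv
  have hdet : det3 (nv a n) (nv a (N 1)) (nv a (N 2)) ≠ 0 := by
    have := hN.det.ne
    rwa [hN0] at this
  have hdet' : det3 (nv a (ngN n)) (nv a (N' 1)) (nv a (N' 2)) ≠ 0 := by
    have := hN'.det.ne
    rwa [hN'0] at this
  obtain ⟨hn1, hn2, hn12⟩ := Geo7_fst_ne hdet
  obtain ⟨hn1', hn2', hn12'⟩ := Geo7_fst_ne hdet'
  have hN'1 : N' 1 = N 2 := by
    apply Geo7_eq_of_side _ hv2 hu2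
    rcases Geo7_mm_two hw22 hn2 hwn hw0 (N' 1).1 hw1' with h3 | h3
    · exact absurd h3.symm hn1'
    · exact h3
  have hN'2 : N' 2 = N 1 := by
    apply Geo7_eq_of_side _ hw2 hw2'
    rcases Geo7_mm_two h2 hn1 h hv1 (N' 2).1 hu0 with h3 | h3
    · exact absurd h3.symm hn2'
    · exact h3
  have ho1 : nv a n ⬝ᵥ nv a (N 1) = 0 :=
    right ha ha rfl u n (N 1) h hv1 h2 (Geo7_ne_of_fst hn1).1 (Geo7_ne_of_fst hn1).2
  have ho2 : nv a n ⬝ᵥ nv a (N 2) = 0 :=
    right ha ha rfl w n (N 2) hwn hw0 hw22 (Geo7_ne_of_fst hn2).1 (Geo7_ne_of_fst hn2).2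
  have hli := (det3_ne_zero_iff _ _ _).1 hdet
  have hnn : nv a n ⬝ᵥ nv a n ≠ 0 := fun e => nv_ne ha n (dotProduct_self_eq_zero.1 e)
  -- all the other members are orthogonal to `n`
  have hall : ∀ i, i ≠ n.1 → a i ⬝ᵥ nv a n = 0 := by
    intro i hi
    obtain ⟨c, hc0, hc⟩ := hN.comb i
    obtain ⟨c', hc0', hc'⟩ := hN'.comb i
    obtain ⟨ε, hε, hce⟩ : ∃ ε : ℝ, (ε = 1 ∨ ε = -1) ∧
        a i = ε • (c 0 • nv a n + c 1 • nv a (N 1) + c 2 • nv a (N 2)) := by
      rcases hc with hc | hc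
      · exact ⟨1, Or.inl rfl, by rw [hc, Fin.sum_univ_three, hN0]; module⟩
      · exact ⟨-1, Or.inr rfl, by rw [hc, Fin.sum_univ_three, hN0]; module⟩
    obtain ⟨ε', hε', hce'⟩ : ∃ ε' : ℝ, (ε' = 1 ∨ ε' = -1) ∧
        a i = ε' • (-(c' 0) • nv a n + c' 2 • nv a (N 1) + c' 1 • nv a (N 2)) := by
      rcases hc' with hc' | hc'
      · exact ⟨1, Or.inl rfl, by
          rw [hc', Fin.sum_univ_three, hN'0, hN'1, hN'2, nv_ngN]; module⟩
      · exact ⟨-1, Or.inr rfl, by
          rw [hc', Fin.sum_univ_three, hN'0, hN'1, hN'2, nv_ngN]; module⟩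
    have hlin : ∀ x y z : ℝ, x • nv a n + y • nv a (N 1) + z • nv a (N 2) = 0 →
        x = 0 ∧ y = 0 ∧ z = 0 := by
      intro x y z hxyz
      rw [Fintype.linearIndependent_iff] at hli
      have h4 := hli ![x, y, z] (by
        rw [Fin.sum_univ_three]
        simpa using hxyz)
      exact ⟨h4 0, h4 1, h4 2⟩
    have h5 : (ε * c 0 + ε' * c' 0) • nv a n + (ε * c 1 - ε' * c' 2) • nv a (N 1) +
        (ε * c 2 - ε' * c' 1) • nv a (N 2) = 0 := by
      have h6 : ε • (c 0 • nv a n + c 1 • nv a (N 1) + c 2 • nv a (N 2)) -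
          ε' • (-(c' 0) • nv a n + c' 2 • nv a (N 1) + c' 1 • nv a (N 2)) = 0 := by
        rw [← hce, ← hce', sub_self]
      rw [← h6]
      module
    obtain ⟨h7, h8, h9⟩ := hlin _ _ _ h5
    have hc00 := hc0 0
    have hc01 := hc0 1
    have hc02 := hc0 2
    have hc00' := hc0' 0
    have hc01' := hc0' 1
    have hc02' := hc0' 2
    have hz : c 0 = 0 := by
      by_contra hcz
      have hcpos : 0 < c 0 := lt_of_le_of_ne hc00 (Ne.symm hcz)
      have h10 : c 1 = 0 ∧ c 2 = 0 := by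
        rcases hε with rfl | rfl <;> rcases hε' with rfl | rfl
        · exfalso; linarith
        · constructor <;> linarith
        · constructor <;> linarith
        · exfalso; linarith
      rw [h10.1, h10.2] at hce
      have h11 := ha.li i n.1 hi
      rw [LinearIndependent.pair_iff] at h11
      have h12 := h11 1 (-(ε * c 0 * sgn n.2)) (by
        rw [hce]
        unfold nv
        module)
      exact absurd h12.1 one_ne_zero
    rw [hce, hz, smul_dotProduct, add_dotProduct, add_dotProduct, smul_dotProduct,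
      smul_dotProduct, smul_dotProduct, dotProduct_comm (nv a (N 1)), ho1,
      dotProduct_comm (nv a (N 2)), ho2]
    simp
  obtain ⟨i₁, hi₁, j₁, hj₁, hne⟩ := ha.irr {n.1} ⟨n.1, rfl⟩ ⟨(N 1).1, fun e => hn1 (Eq.symm e)⟩
  have e1 : i₁ = n.1 := hi₁
  have e2 : j₁ ≠ n.1 := hj₁
  apply hne
  have h3 := hall j₁ e2
  unfold nv at h3
  rw [dotProduct_smul, smul_eq_mul, mul_eq_zero] at h3
  rcases h3 with h3 | h3
  · exact absurd h3 (Geo7_sgn_ne _)
  · rw [e1, dotProduct_comm]
    exact h3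

end Pool.Agent.VeeC
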