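import Pool.Agent.VeeC.Geo6
import Pool.Agent.VeeC.Geo7

set_option autoImplicit false

namespace Pool.Agent.VeeC

open Matrix

variable {κ : Type*} [Fintype κ]

/-- the arrangement of a family -/
noncomputable def arr (a : κ → R3) (ha : Sys3 a) : Arr (VT (LL a)) (κ × Bool) where
  ngV := ngV
  ngN := ngN
  Inc := Inc
  nx := nx a
  ny := ny a
  m := mm
  p := pp (LL a)
  side := side
  ngV_ngV := fun v => vert_ext (neg_neg v.1)
  ngN_ngN := fun n => by simp [ngN]
  inc_ngV := fun v n => by
    show - v.1 n.1 = 0 ↔ v.1 n.1 = 0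
    simp
  inc_ngN := fun v n => Iff.rfl
  inc_ex := fun v => by
    obtain ⟨i, j, -, hi, -⟩ := v.2.2.2
    exact ⟨(i, true), hi⟩
  two_le_m := two_le_mm
  three_le_p := three_le_pp ha
  inc_nx := fun v n h => (nx_spec ha v n h).1
  inc_ny := fun v n h => (ny_spec ha n v h).1
  nx_iter := nx_iter ha
  nx_ne := fun v n h k h0 hk => nx_ne ha v n h k h0 hk
  nx_trans := fun v n n' h h' => nx_trans ha v n n' h h'
  ny_iter := fun v n h => ny_iter ha n v h
  ny_ne := fun v n h k h0 hk => ny_ne ha n v h k h0 hk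
  ny_trans := fun n v v' h h' => ny_trans ha n v v' h h'
  nx_rev := nx_rev ha
  ny_rev := fun v n h => ny_rev ha n v h
  meet := exists_vert ha
  meet_eq := fun n n' u v h1 h2 h3 h4 h5 h6 => vert_eq ha h1 h2 h3 h4 h5 h6
  side_zero := fun n v => by
    unfold side Inc
    split_ifs <;> simp
  side_ng := fun n v => by
    unfold side
    show (if n.2 then - v.1 n.1 else - - v.1 n.1) = _
    split_ifs <;> simp
  side_ny := side_ny ha
  tri := tri ha
  euler := euler ha
  conn := conn ha
  dbl := dbl ha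

end Pool.Agent.VeeC
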