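import Mathlib

set_option autoImplicit false

/-!
Angles of a half period of directions.
-/

namespace Pool.Agent.VeeC

open ComplexConjugate Real

theorem CauA_arg {z : ℂ} (hz : 0 < z.im) : 0 < Complex.arg z ∧ Complex.arg z < π := by
  constructor
  · rcases (Complex.arg_nonneg_iff.mpr hz.le).lt_or_eq with h | h
    · exact h
    · have := (Complex.arg_eq_zero_iff.mp h.symm).2
      exact absurd this hz.ne'
  · exact Complex.arg_lt_pi_iff.mpr (Or.inr hz.ne')

/-- Directions in counterclockwise order have increasing angles. -/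
theorem exists_angles {m : ℕ} (hm : 2 ≤ m) {u : ℕ → ℂ} (hu : ∀ k, u (k + m) = - u k)
    (hcr : ∀ k l, k < l → l < k + m → 0 < (conj (u k) * u l).im) :
    ∃ φ : ℕ → ℝ, (∀ k, φ (k + m) = φ k + π) ∧ (∀ k l, k < l → l < k + m → φ l - φ k < π) ∧
      StrictMono φ ∧ ∀ k, u k = ‖u k‖ * Complex.exp (φ k * Complex.I) := by
  have hne : ∀ k, u k ≠ 0 := by
    intro k h0
    have := hcr k (k + 1) (by omega) (by omega)
    rw [h0] at this
    simp at this
  set δ : ℕ → ℝ := fun j => Complex.arg (conj (u j) * u (j + 1)) with hδ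
  have hδp : ∀ j, 0 < δ j ∧ δ j < π := fun j => CauA_arg (hcr j (j + 1) (by omega) (by omega))
  set φ : ℕ → ℝ := fun k => Complex.arg (u 0) + ∑ j ∈ Finset.range k, δ j with hφ
  have hφs : ∀ k, φ (k + 1) = φ k + δ k := by
    intro k
    simp only [hφ, Finset.sum_range_succ]
    ring
  have hpol : ∀ k, u k = ‖u k‖ * Complex.exp (φ k * Complex.I) := by
    intro k
    induction k with
    | zero =>
      have : φ 0 = Complex.arg (u 0) := by simp [hφ]
      rw [this]
      exact (Complex.norm_mul_exp_arg_mul_I (u 0)).symm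
    | succ k ih =>
      have h1 : conj (u k) = ‖u k‖ * Complex.exp (-(φ k * Complex.I)) := by
        conv_lhs => rw [ih]
        rw [map_mul, Complex.conj_ofReal, ← Complex.exp_conj, map_mul, Complex.conj_ofReal,
          Complex.conj_I, mul_neg]
      have h2 : conj (u k) * u (k + 1) = ‖conj (u k) * u (k + 1)‖ * Complex.exp (δ k * Complex.I) :=
        (Complex.norm_mul_exp_arg_mul_I _).symm
      have hk : (‖u k‖ : ℂ) ≠ 0 := by
        exact_mod_cast (norm_pos_iff.mpr (hne k)).ne'
      have he : Complex.exp (φ k * Complex.I) * Complex.exp (-(φ k * Complex.I)) = 1 := by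
        rw [← Complex.exp_add, add_neg_cancel, Complex.exp_zero]
      rw [norm_mul, Complex.norm_conj, h1] at h2
      push_cast at h2
      have h3 : Complex.exp (-(φ k * Complex.I)) * u (k + 1) =
          ‖u (k + 1)‖ * Complex.exp (δ k * Complex.I) := by
        apply mul_left_cancel₀ hk
        rw [← mul_assoc, h2]
        ring
      rw [hφs k]
      push_cast
      rw [add_mul, Complex.exp_add]
      calc u (k + 1) = (Complex.exp (φ k * Complex.I) * Complex.exp (-(φ k * Complex.I))) *
          u (k + 1) := by rw [he, one_mul]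
        _ = Complex.exp (φ k * Complex.I) * (Complex.exp (-(φ k * Complex.I)) * u (k + 1)) := by ring
        _ = _ := by rw [h3]; ring
  have hmul : ∀ k l, conj (u k) * u l = (‖u k‖ * ‖u l‖ : ℝ) *
      Complex.exp ((φ l - φ k : ℝ) * Complex.I) := by
    intro k l
    conv_lhs => rw [hpol k, hpol l]
    rw [map_mul, Complex.conj_ofReal, ← Complex.exp_conj, map_mul, Complex.conj_ofReal,
      Complex.conj_I]
    have : Complex.exp (((φ l - φ k : ℝ) : ℂ) * Complex.I) =
        Complex.exp (φ k * -Complex.I) * Complex.exp (φ l * Complex.I) := by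
      rw [← Complex.exp_add]
      congr 1
      push_cast
      ring
    rw [this]
    push_cast
    ring
  have him : ∀ k l, (conj (u k) * u l).im = ‖u k‖ * ‖u l‖ * sin (φ l - φ k) := by
    intro k l
    rw [hmul, Complex.im_ofReal_mul, Complex.exp_ofReal_mul_I_im]
  have hre : ∀ k l, (conj (u k) * u l).re = ‖u k‖ * ‖u l‖ * cos (φ l - φ k) := by
    intro k l
    rw [hmul, Complex.re_ofReal_mul, Complex.exp_ofReal_mul_I_re]
  have hnp : ∀ k, 0 < ‖u k‖ := fun k => norm_pos_iff.mpr (hne k)
  have hlt : ∀ k j, j < m → φ (k + j) - φ k < π ∧ 0 ≤ φ (k + j) - φ k := by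
    intro k j
    induction j with
    | zero => intro _; simp [pi_pos]
    | succ j ih =>
      intro hj
      obtain ⟨h1, h2⟩ := ih (by omega)
      have h3 := hφs (k + j)
      have h4 := hδp (k + j)
      have h5 : φ (k + (j + 1)) = φ (k + j) + δ (k + j) := h3
      have h6 := hcr k (k + (j + 1)) (by omega) (by omega)
      rw [him] at h6
      have h7 : 0 < sin (φ (k + (j + 1)) - φ k) := by
        have := mul_pos (hnp k) (hnp (k + (j + 1)))
        exact (pos_iff_pos_of_mul_pos h6).mp this
      refine ⟨?_, by linarith [h4.1]⟩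
      by_contra hge
      push Not at hge
      have h8 : sin (φ (k + (j + 1)) - φ k) ≤ 0 := by
        have e : sin (φ (k + (j + 1)) - φ k) = - sin ((φ (k + (j + 1)) - φ k) - π) := by
          rw [sin_sub_pi]; ring
        rw [e]
        have := sin_nonneg_of_nonneg_of_le_pi (x := (φ (k + (j + 1)) - φ k) - π) (by linarith)
          (by linarith [h4.2])
        linarith
      linarith
  refine ⟨φ, ?_, ?_, ?_, hpol⟩
  · intro k
    obtain ⟨h1, h2⟩ := hlt k (m - 1) (by omega)
    have h3 := hφs (k + (m - 1))
    have e : k + (m - 1) + 1 = k + m := by omega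
    rw [e] at h3
    have h4 := hδp (k + (m - 1))
    set θ := φ (k + m) - φ k with hθ
    have hθ0 : 0 < θ := by linarith [h4.1]
    have hθ1 : θ < 2 * π := by linarith [h4.2]
    have hk2 : conj (u k) * u (k + m) = - (conj (u k) * u k) := by rw [hu k]; ring
    have hsin : sin θ = 0 := by
      have h5 := him k (k + m)
      rw [hk2, Complex.neg_im, him k k] at h5
      simp only [sub_self, sin_zero, mul_zero, neg_zero] at h5
      have := mul_pos (hnp k) (hnp (k + m))
      rcases mul_eq_zero.mp h5.symm with h | h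
      · exact absurd h this.ne'
      · exact h
    obtain ⟨n, hn⟩ := sin_eq_zero_iff.mp hsin
    have hn0 : (0 : ℝ) < n := by
      by_contra hc
      push Not at hc
      have := mul_nonpos_of_nonpos_of_nonneg hc pi_pos.le
      linarith
    have hn2 : (n : ℝ) < 2 := by
      by_contra hc
      push Not at hc
      have := mul_le_mul_of_nonneg_right hc pi_pos.le
      linarith
    have hn0' : (0 : ℤ) < n := by exact_mod_cast hn0
    have hn2' : n < (2 : ℤ) := by exact_mod_cast hn2
    have hn1 : n = 1 := by omega
    rw [hn1] at hn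
    push_cast at hn
    linarith
  · intro k l hkl hl
    obtain ⟨j, rfl⟩ := Nat.exists_eq_add_of_le hkl.le
    exact (hlt k j (by omega)).1
  · exact strictMono_nat_of_lt_succ fun k => by rw [hφs k]; linarith [(hδp k).1]

end Pool.Agent.VeeC
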