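import Mathlib

set_option autoImplicit false

/-!
The unimodal case is impossible.
-/

namespace Pool.Agent.VeeC

open Real

/-- two arcs shorter than a half circle are separated by a diameter -/
theorem exists_xi {x₁ x₂ y₁ y₂ : ℝ} (h1 : x₁ ≤ x₂) (h2 : x₂ < y₁) (h3 : y₁ ≤ y₂)
    (h4 : y₂ < x₁ + 2 * π) (h5 : x₂ - x₁ < π) (h6 : y₂ - y₁ < π) :
    ∃ ξ : ℝ, (∀ x, x₁ ≤ x → x ≤ x₂ → 0 < cos (x - ξ)) ∧
      ∀ y, y₁ ≤ y → y ≤ y₂ → cos (y - ξ) < 0 := by
  obtain ⟨ξ, hξ1, hξ2⟩ : ∃ ξ, max (x₂ - π / 2) (y₂ - 3 * π / 2) < ξ ∧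
      ξ < min (x₁ + π / 2) (y₁ - π / 2) := by
    apply exists_between
    rw [max_lt_iff, lt_min_iff, lt_min_iff]
    refine ⟨⟨?_, ?_⟩, ?_, ?_⟩ <;> linarith
  rw [max_lt_iff] at hξ1
  rw [lt_min_iff] at hξ2
  refine ⟨ξ, fun x hx1 hx2 => ?_, fun y hy1 hy2 => ?_⟩
  · apply cos_pos_of_mem_Ioo
    constructor <;> linarith
  · apply cos_neg_of_pi_div_two_lt_of_lt <;> linarith

theorem CauB_sum_shift {m : ℕ} (g : ℕ → ℂ) (hg : ∀ k, g (k + m) = g k) (k : ℕ) :
    ∑ j ∈ Finset.range m, g (k + j) = ∑ j ∈ Finset.range m, g j := by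
  induction k with
  | zero => simp
  | succ k ih =>
    rw [← ih]
    have h1 := Finset.sum_range_succ (fun j => g (k + j)) m
    have h2 := Finset.sum_range_succ' (fun j => g (k + j)) m
    simp only [add_zero] at h2
    rw [hg k] at h1
    rw [h1] at h2
    have h3 := add_right_cancel h2
    rw [h3]
    apply Finset.sum_congr rfl
    intro j _
    rw [show k + 1 + j = k + (j + 1) by ring]

theorem CauB_sum_sin {m : ℕ} {ψ r : ℕ → ℝ} (pψ : ∀ k, ψ (k + m) = ψ k + π)
    (pr : ∀ k, r (k + m) = r k)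
    (cψ : ∑ k ∈ Finset.range m, ((r k : ℂ) * Complex.exp (ψ k * Complex.I)) ^ 2 = 0)
    (c : ℝ) (l : ℕ) :
    ∑ k ∈ Finset.Ico l (l + m), r k ^ 2 * sin (2 * ψ k - c) = 0 := by
  have hper : ∀ k, ((r (k + m) : ℂ) * Complex.exp (ψ (k + m) * Complex.I)) ^ 2 =
      ((r k : ℂ) * Complex.exp (ψ k * Complex.I)) ^ 2 := by
    intro k
    rw [pψ, pr]
    push_cast
    rw [add_mul, Complex.exp_add, Complex.exp_pi_mul_I]
    ring
  have h1 := CauB_sum_shift (m := m)
    (fun k => ((r k : ℂ) * Complex.exp (ψ k * Complex.I)) ^ 2) hper l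
  rw [cψ] at h1
  have h2 : ∀ k, r k ^ 2 * sin (2 * ψ k - c) =
      (Complex.exp (-c * Complex.I) * ((r k : ℂ) * Complex.exp (ψ k * Complex.I)) ^ 2).im := by
    intro k
    have h3 : Complex.exp (-c * Complex.I) * ((r k : ℂ) * Complex.exp (ψ k * Complex.I)) ^ 2 =
        ((r k ^ 2 : ℝ) : ℂ) * Complex.exp (((2 * ψ k - c : ℝ) : ℂ) * Complex.I) := by
      rw [mul_pow, ← Complex.exp_nat_mul]
      push_cast
      rw [show (2 * (ψ k : ℂ) - c) * Complex.I = -c * Complex.I + 2 * (ψ k * Complex.I) by ring,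
        Complex.exp_add]
      ring
    rw [h3, Complex.im_ofReal_mul, Complex.exp_ofReal_mul_I_im]
  rw [Finset.sum_Ico_eq_sum_range, show l + m - l = m by omega,
    Finset.sum_congr rfl (fun k _ => h2 (l + k)), ← Complex.im_sum, ← Finset.mul_sum, h1]
  simp

/-- the identity behind the argument -/
theorem sum_identity {m : ℕ} {φ ψ r : ℕ → ℝ} (pφ : ∀ k, φ (k + m) = φ k + π)
    (pψ : ∀ k, ψ (k + m) = ψ k + π) (pr : ∀ k, r (k + m) = r k)
    (cφ : ∑ k ∈ Finset.range m, ((r k : ℂ) * Complex.exp (φ k * Complex.I)) ^ 2 = 0)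
    (cψ : ∑ k ∈ Finset.range m, ((r k : ℂ) * Complex.exp (ψ k * Complex.I)) ^ 2 = 0)
    (h ξ : ℝ) (l : ℕ) :
    ∑ k ∈ Finset.Ico l (l + m), r k ^ 2 * (sin (ψ k - φ k - h) * cos (φ k + ψ k - ξ)) = 0 := by
  have h1 := CauB_sum_sin pψ pr cψ (h + ξ) l
  have h2 := CauB_sum_sin pφ pr cφ (ξ - h) l
  have h3 : ∀ k, r k ^ 2 * (sin (ψ k - φ k - h) * cos (φ k + ψ k - ξ)) =
      (r k ^ 2 * sin (2 * ψ k - (h + ξ)) - r k ^ 2 * sin (2 * φ k - (ξ - h))) / 2 := by
    intro k
    rw [show 2 * ψ k - (h + ξ) = (ψ k - φ k - h) + (φ k + ψ k - ξ) by ring,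
      show 2 * φ k - (ξ - h) = -((ψ k - φ k - h) - (φ k + ψ k - ξ)) by ring, sin_neg,
      sin_add (ψ k - φ k - h) (φ k + ψ k - ξ), sin_sub (ψ k - φ k - h) (φ k + ψ k - ξ)]
    ring
  rw [Finset.sum_congr rfl (fun k _ => h3 k), ← Finset.sum_div, Finset.sum_sub_distrib, h1, h2]
  simp

theorem CauB_mono_le {w : ℕ → ℝ} {a b : ℕ} (h : ∀ k, a ≤ k → k < b → w k ≤ w (k + 1)) :
    ∀ i j, a ≤ i → i ≤ j → j ≤ b → w i ≤ w j := by
  intro i j hi hij hj
  induction j, hij using Nat.le_induction with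
  | base => exact le_rfl
  | succ j hij ih => exact (ih (by omega)).trans (h j (by omega) (by omega))

theorem CauB_anti_le {w : ℕ → ℝ} {a b : ℕ} (h : ∀ k, a ≤ k → k < b → w (k + 1) ≤ w k) :
    ∀ i j, a ≤ i → i ≤ j → j ≤ b → w j ≤ w i := by
  intro i j hi hij hj
  induction j, hij using Nat.le_induction with
  | base => exact le_rfl
  | succ j hij ih => exact (h j (by omega) (by omega)).trans (ih (by omega))

/-- the maximal arc -/
theorem CauB_key {m : ℕ} {w μ : ℕ → ℝ} (pw : ∀ k, w (k + m) = w k)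
    (pμ : ∀ k, μ (k + m) = μ k + 2 * π) (mμ : StrictMono μ) (gμ : ∀ k, μ (k + 1) - μ k < π)
    {P Q : ℕ} (hmQ : m ≤ Q)
    (dec : ∀ k, Q ≤ k → k < P + m → w (k + 1) ≤ w k)
    (inc : ∀ k, P + m ≤ k → k < Q + m → w k ≤ w (k + 1)) (d : ℕ) :
    ∀ l r, l ≤ Q → Q ≤ r → r < l + m → μ r - μ l < π →
      (∀ a b, l ≤ a → a ≤ r → r < b → b < l + m → w b ≤ w a) → l + m - r ≤ d →
      ∃ l r h, l ≤ r ∧ r + 1 ≤ l + m - 1 ∧ (∀ a, l ≤ a → a ≤ r → h ≤ w a) ∧
        (∀ b, r + 1 ≤ b → b ≤ l + m - 1 → w b ≤ h) ∧ (∃ c, h = w c) ∧ μ r - μ l < π ∧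
        μ (l + m - 1) - μ (r + 1) < π := by
  induction d with
  | zero =>
    intro l r h1 h2 h3 h4 h5 h6
    omega
  | succ d ih =>
    intro l r h1 h2 h3 h4 h5 h6
    have hne : r + 1 ≤ l + m - 1 := by
      by_contra hcon
      have h7 : r + 1 = l + m := by omega
      have h8 := gμ r
      rw [h7, pμ] at h8
      linarith [pi_pos]
    have hmax : ∀ b, r + 1 ≤ b → b ≤ l + m - 1 → w b ≤ w (r + 1) ∨ w b ≤ w (l + m - 1) := by
      intro b hb1 hb2
      rcases Nat.le_total b (P + m) with h7 | h7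
      · left
        exact CauB_anti_le dec (r + 1) b (by omega) hb1 h7
      · right
        exact CauB_mono_le inc b (l + m - 1) h7 hb2 (by omega)
    rcases le_total (w (l + m - 1)) (w (r + 1)) with hA | hB
    · have hmax' : ∀ b, r + 1 ≤ b → b ≤ l + m - 1 → w b ≤ w (r + 1) := by
        intro b hb1 hb2
        rcases hmax b hb1 hb2 with h7 | h7
        · exact h7
        · exact h7.trans hA
      by_cases h7 : μ (r + 1) - μ l < π
      · apply ih l (r + 1) h1 (by omega) (by omega) h7 _ (by omega)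
        intro a b ha1 ha2 hb1 hb2
        rcases Nat.lt_or_ge a (r + 1) with h8 | h8
        · exact h5 a b ha1 (by omega) (by omega) hb2
        · have h9 : a = r + 1 := by omega
          rw [h9]
          exact hmax' b (by omega) (by omega)
      · push Not at h7
        refine ⟨l, r, w (r + 1), by omega, hne, ?_, hmax', ⟨r + 1, rfl⟩, h4, ?_⟩
        · intro a ha1 ha2
          exact h5 a (r + 1) ha1 ha2 (by omega) (by omega)
        · have h8 := mμ (show l + m - 1 < l + m by omega)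
          rw [pμ] at h8
          linarith
    · have hmax' : ∀ b, r + 1 ≤ b → b ≤ l + m - 1 → w b ≤ w (l + m - 1) := by
        intro b hb1 hb2
        rcases hmax b hb1 hb2 with h7 | h7
        · exact h7.trans hB
        · exact h7
      have hl0 : 1 ≤ l := by omega
      obtain ⟨l', rfl⟩ : ∃ l', l = l' + 1 := ⟨l - 1, by omega⟩
      have e1 : l' + 1 + m - 1 = l' + m := by omega
      rw [e1] at hmax' hne hB
      rw [pw] at hmax' hB
      by_cases h7 : μ r - μ l' < π
      · apply ih l' r (by omega) h2 (by omega) h7 _ (by omega)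
        intro a b ha1 ha2 hb1 hb2
        rcases Nat.lt_or_ge l' a with h8 | h8
        · exact h5 a b (by omega) ha2 hb1 (by omega)
        · have h9 : a = l' := by omega
          rw [h9]
          exact hmax' b (by omega) (by omega)
      · push Not at h7
        refine ⟨l' + 1, r, w l', by omega, by omega, ?_, ?_, ⟨l', rfl⟩, h4, ?_⟩
        · intro a ha1 ha2
          have h8 := h5 a (l' + m) ha1 ha2 (by omega) (by omega)
          rw [pw] at h8
          exact h8
        · intro b hb1 hb2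
          exact hmax' b hb1 (by omega)
        · rw [e1, pμ]
          have h8 := mμ (show r < r + 1 by omega)
          linarith

/-- representatives modulo the period -/
theorem CauB_repr {m : ℕ} (hm : 0 < m) {w : ℕ → ℝ} (pw : ∀ k, w (k + m) = w k) (l k : ℕ) :
    ∃ k', l ≤ k' ∧ k' < l + m ∧ w k = w k' := by
  have hper : Function.Periodic w m := pw
  refine ⟨l + (k + (m - 1) * l) % m, Nat.le_add_right _ _, ?_, ?_⟩
  · have := Nat.mod_lt (k + (m - 1) * l) hm
    omega
  · rw [← hper.map_mod_nat k, ← hper.map_mod_nat (l + (k + (m - 1) * l) % m)]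
    congr 1
    rw [Nat.add_mod_mod]
    obtain ⟨j, rfl⟩ : ∃ j, m = j + 1 := ⟨m - 1, by omega⟩
    rw [show l + (k + (j + 1 - 1) * l) = k + (j + 1) * l by
      rw [Nat.add_sub_cancel]; ring, Nat.add_mul_mod_self_left]

theorem unimodal {m : ℕ} (hm : 2 ≤ m) {φ ψ r : ℕ → ℝ} (hφ : StrictMono φ) (hψ : StrictMono ψ)
    (pφ : ∀ k, φ (k + m) = φ k + π) (pψ : ∀ k, ψ (k + m) = ψ k + π)
    (pr : ∀ k, r (k + m) = r k) (r0 : ∀ k, 0 < r k)
    (gφ : ∀ k, φ (k + 1) - φ k < π / 2) (gψ : ∀ k, ψ (k + 1) - ψ k < π / 2)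
    (cφ : ∑ k ∈ Finset.range m, ((r k : ℂ) * Complex.exp (φ k * Complex.I)) ^ 2 = 0)
    (cψ : ∑ k ∈ Finset.range m, ((r k : ℂ) * Complex.exp (ψ k * Complex.I)) ^ 2 = 0)
    {p q : ℕ} (hpq : p ≤ q) (hqp : q ≤ p + m)
    (up : ∀ k, p ≤ k → k < q → ψ k - φ k ≤ ψ (k + 1) - φ (k + 1))
    (down : ∀ k, q ≤ k → k < p + m → ψ (k + 1) - φ (k + 1) ≤ ψ k - φ k) (k : ℕ) :
    ψ (k + 1) - φ (k + 1) = ψ k - φ k := by
  set w : ℕ → ℝ := fun k => ψ k - φ k with hw
  set μ : ℕ → ℝ := fun k => φ k + ψ k with hμ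
  have pw : ∀ k, w (k + m) = w k := by
    intro k
    simp only [hw, pφ, pψ]
    ring
  have pμ : ∀ k, μ (k + m) = μ k + 2 * π := by
    intro k
    simp only [hμ, pφ, pψ]
    ring
  have mμ : StrictMono μ := hφ.add hψ
  have gμ : ∀ k, μ (k + 1) - μ k < π := by
    intro k
    have h1 := gφ k
    have h2 := gψ k
    simp only [hμ]
    linarith
  have hwb1 : ∀ a b, a < b → b < a + m → w b - w a < π ∧ w a - w b < π := by
    intro a b hab hb
    have h1 := hφ hab
    have h2 := hψ hab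
    have h3 := hφ hb
    have h4 := hψ hb
    rw [pφ] at h3
    rw [pψ] at h4
    simp only [hw]
    constructor <;> linarith
  have hwb : ∀ a b, w a - w b < π := by
    intro a b
    obtain ⟨a', ha1, ha2, ha3⟩ := CauB_repr (by omega) pw 0 a
    obtain ⟨b', hb1, hb2, hb3⟩ := CauB_repr (by omega) pw 0 b
    rw [ha3, hb3]
    rcases lt_trichotomy a' b' with h | h | h
    · exact (hwb1 a' b' h (by omega)).2
    · rw [h]
      linarith [pi_pos]
    · exact (hwb1 b' a' h (by omega)).1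
  have dec : ∀ k, q + m ≤ k → k < (p + m) + m → w (k + 1) ≤ w k := by
    intro k h1 h2
    obtain ⟨j, rfl⟩ : ∃ j, k = j + m := ⟨k - m, by omega⟩
    rw [show j + m + 1 = (j + 1) + m by ring, pw, pw]
    exact down j (by omega) (by omega)
  have inc' : ∀ k, p + m ≤ k → k < q + m → w k ≤ w (k + 1) := by
    intro k h1 h2
    obtain ⟨j, rfl⟩ : ∃ j, k = j + m := ⟨k - m, by omega⟩
    rw [show j + m + 1 = (j + 1) + m by ring, pw, pw]
    exact up j (by omega) (by omega)
  have inc : ∀ k, (p + m) + m ≤ k → k < (q + m) + m → w k ≤ w (k + 1) := by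
    intro k h1 h2
    obtain ⟨j, rfl⟩ : ∃ j, k = j + m := ⟨k - m, by omega⟩
    rw [show j + m + 1 = (j + 1) + m by ring, pw, pw]
    exact inc' j (by omega) (by omega)
  obtain ⟨l, r', h, h1, h2, h3, h4, ⟨c, hc⟩, h5, h6⟩ := CauB_key pw pμ mμ gμ (P := p + m)
    (Q := q + m) (by omega) dec inc (m + 1) (q + m) (q + m) le_rfl le_rfl (by omega)
    (by linarith [pi_pos]) (by
      intro a b ha1 ha2 hb1 hb2
      have ha : a = q + m := by omega
      rw [ha]
      rcases Nat.le_total b (p + m + m) with h7 | h7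
      · exact CauB_anti_le dec (q + m) b le_rfl (by omega) h7
      · rw [← pw (q + m)]
        exact CauB_mono_le inc b (q + m + m) h7 (by omega) le_rfl) (by omega)
  obtain ⟨ξ, hξ1, hξ2⟩ := exists_xi (mμ.monotone h1) (mμ (Nat.lt_succ_self r'))
    (mμ.monotone h2) (by
      have h7 := mμ (show l + m - 1 < l + m by omega)
      rw [pμ] at h7
      exact h7) h5 h6
  have hsum := sum_identity pφ pψ pr cφ cψ h ξ l
  have hterm : ∀ k ∈ Finset.Ico l (l + m),
      0 ≤ r k ^ 2 * (sin (ψ k - φ k - h) * cos (φ k + ψ k - ξ)) := by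
    intro k hk
    rw [Finset.mem_Ico] at hk
    apply mul_nonneg (sq_nonneg _)
    rcases Nat.lt_or_ge r' k with h7 | h7
    · have h8 : w k ≤ h := h4 k (by omega) (by omega)
      have h9 : h - w k < π := by rw [hc]; exact hwb c k
      apply mul_nonneg_of_nonpos_of_nonpos
      · apply sin_nonpos_of_nonpos_of_neg_pi_le
        · exact sub_nonpos.mpr h8
        · show -π ≤ w k - h
          linarith
      · exact (hξ2 (μ k) (mμ.monotone (by omega)) (mμ.monotone (by omega))).le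
    · have h8 : h ≤ w k := h3 k (by omega) h7
      have h9 : w k - h < π := by rw [hc]; exact hwb k c
      apply mul_nonneg
      · apply sin_nonneg_of_nonneg_of_le_pi
        · exact sub_nonneg.mpr h8
        · exact h9.le
      · exact (hξ1 (μ k) (mμ.monotone (by omega)) (mμ.monotone h7)).le
  have hzero := (Finset.sum_eq_zero_iff_of_nonneg hterm).mp hsum
  have hall : ∀ k ∈ Finset.Ico l (l + m), w k = h := by
    intro k hk
    have h7 := hzero k hk
    rw [Finset.mem_Ico] at hk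
    have h8 : r k ^ 2 ≠ 0 := (pow_pos (r0 k) 2).ne'
    have h9 := (mul_eq_zero.mp h7).resolve_left h8
    have hcos : cos (φ k + ψ k - ξ) ≠ 0 := by
      rcases Nat.lt_or_ge r' k with h10 | h10
      · exact (hξ2 (μ k) (mμ.monotone (by omega)) (mμ.monotone (by omega))).ne
      · exact (hξ1 (μ k) (mμ.monotone (by omega)) (mμ.monotone h10)).ne'
    have h10 := (mul_eq_zero.mp h9).resolve_right hcos
    have h11 : w k - h < π := by rw [hc]; exact hwb k c
    have h12 : -π < w k - h := by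
      have : h - w k < π := by rw [hc]; exact hwb c k
      linarith
    have h13 : w k - h = 0 := (sin_eq_zero_iff_of_lt_of_lt h12 h11).mp h10
    linarith
  have hconst : ∀ k, w k = h := by
    intro k
    obtain ⟨k', hk1, hk2, hk3⟩ := CauB_repr (by omega) pw l k
    rw [hk3]
    exact hall k' (Finset.mem_Ico.mpr ⟨hk1, hk2⟩)
  show w (k + 1) = w k
  rw [hconst, hconst]

end Pool.Agent.VeeC
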