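import Pool.Agent.VeeC.CauA
import Pool.Agent.VeeC.CauB
import Pool.Agent.VeeC.Acute

set_option autoImplicit false

/-!
The lemma of Cauchy for pairs of half periods.
-/

namespace Pool.Agent.VeeC

open ComplexConjugate

/-- a change of a sequence from `false` to `true` -/
theorem CauC_up {s : ℕ → Bool} {a b : ℕ} (hab : a ≤ b) (ha : s a = false) (hb : s b = true) :
    ∃ k, a ≤ k ∧ k < b ∧ s k = false ∧ s (k + 1) = true := by
  induction b, hab using Nat.le_induction with
  | base => rw [ha] at hb; exact absurd hb (by decide)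
  | succ n hn ih =>
    cases h : s n with
    | false => exact ⟨n, hn, Nat.lt_succ_self n, h, hb⟩
    | true =>
      obtain ⟨k, h1, h2, h3, h4⟩ := ih h
      exact ⟨k, h1, by omega, h3, h4⟩

/-- a change of a sequence from `true` to `false` -/
theorem CauC_down {s : ℕ → Bool} {a b : ℕ} (hab : a ≤ b) (ha : s a = true) (hb : s b = false) :
    ∃ k, a ≤ k ∧ k < b ∧ (∀ j, a ≤ j → j ≤ k → s j = true) ∧ s (k + 1) = false := by
  induction b, hab using Nat.le_induction with
  | base => rw [ha] at hb; exact absurd hb (by decide)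
  | succ n hn ih =>
    by_cases h : ∀ j, a ≤ j → j ≤ n → s j = true
    · exact ⟨n, hn, Nat.lt_succ_self n, h, hb⟩
    · have : ∃ j, a ≤ j ∧ j ≤ n ∧ s j = false := by
        by_contra hc
        apply h
        intro j h1 h2
        cases h3 : s j with
        | true => rfl
        | false => exact absurd ⟨j, h1, h2, h3⟩ hc
      classical
      -- the least such `j`
      obtain ⟨h1, h2, h3⟩ := Nat.find_spec this
      have hmin := fun k (hk : k < Nat.find this) => Nat.find_min this hk
      set j := Nat.find this with hj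
      have haj : a < j := by
        rcases Nat.lt_or_ge a j with h' | h'
        · exact h'
        · have : a = j := le_antisymm h1 h'
          rw [← this, ha] at h3
          exact absurd h3 (by decide)
      refine ⟨j - 1, by omega, by omega, ?_, ?_⟩
      · intro i h4 h5
        cases h6 : s i with
        | true => rfl
        | false => exact absurd ⟨h4, by omega, h6⟩ (hmin i (by omega))
      · rw [Nat.sub_add_cancel (by omega)]
        exact h3

theorem CauC_periodic {m : ℕ} {s : ℕ → Bool} (hs : ∀ k, s (k + m) = s k) (n k : ℕ) :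
    s (k + n * m) = s k := by
  induction n with
  | zero => simp
  | succ n ih =>
    have : k + (n + 1) * m = k + n * m + m := by ring
    rw [this, hs, ih]

theorem CauC_count {m : ℕ} {s : ℕ → Bool} (hs : ∀ k, s (k + m) = s k) (p : ℕ) :
    ((Finset.range (2 * m)).filter fun k => s k ≠ s (k + 1)).card =
      2 * ((Finset.Ico p (p + m)).filter fun k => s k ≠ s (k + 1)).card := by
  have hper : Function.Periodic (fun k => s k ≠ s (k + 1)) m := by
    intro k
    simp only
    rw [hs, show k + m + 1 = k + 1 + m by ring, hs]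
  rw [Nat.filter_Ico_card_eq_of_periodic p m _ hper, ← Nat.count_eq_card_filter_range,
    show 2 * m = m + m by ring, Nat.count_add]
  have : (fun k => s (m + k) ≠ s (m + k + 1)) = fun k => s k ≠ s (k + 1) := by
    funext k
    rw [Nat.add_comm m k, hs, show k + m + 1 = k + 1 + m by ring, hs]
  have h2 : Nat.count (fun k => s (m + k) ≠ s (m + k + 1)) m =
      Nat.count (fun k => s k ≠ s (k + 1)) m := by
    simp only [this]
  rw [h2]
  ring

/-- a periodic sequence of labels with few changes -/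
theorem few_changes {m : ℕ} (hm : 1 ≤ m) {s : ℕ → Bool} (hs : ∀ k, s (k + m) = s k)
    (h : ((Finset.range (2 * m)).filter fun k => s k ≠ s (k + 1)).card < 8) :
    ∃ p q, p ≤ q ∧ q ≤ p + m ∧ (∀ k, p ≤ k → k < q → s k = true) ∧
      ∀ k, q ≤ k → k < p + m → s k = false := by
  by_cases h1 : ∀ k, s k = true
  · exact ⟨0, m, Nat.zero_le _, by omega, fun k _ _ => h1 k, fun k h2 h3 => by omega⟩
  by_cases h2 : ∀ k, s k = false
  · exact ⟨0, 0, le_refl _, by omega, fun k _ h3 => by omega, fun k _ _ => h2 k⟩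
  have ha : ∃ a, s a = false := by
    by_contra hc
    apply h1
    intro k
    cases h3 : s k with
    | true => rfl
    | false => exact absurd ⟨k, h3⟩ hc
  have hb : ∃ b, s b = true := by
    by_contra hc
    apply h2
    intro k
    cases h3 : s k with
    | false => rfl
    | true => exact absurd ⟨k, h3⟩ hc
  obtain ⟨a, ha⟩ := ha
  obtain ⟨b, hb⟩ := hb
  have hb' : s (b + a * m) = true := by
    rw [CauC_periodic hs]
    exact hb
  have hab : a ≤ b + a * m := by
    calc a = a * 1 := by ring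
      _ ≤ a * m := Nat.mul_le_mul_left _ hm
      _ ≤ b + a * m := Nat.le_add_left _ _
  obtain ⟨p', _, _, hp1, hp2⟩ := CauC_up hab ha hb'
  have hpm : s (p' + m) = false := by rw [hs]; exact hp1
  obtain ⟨q', hq1, hq2, hq3, hq4⟩ := CauC_down (by omega : p' + 1 ≤ p' + m) hp2 hpm
  refine ⟨p' + 1, q' + 1, by omega, by omega, fun k h3 h4 => hq3 k h3 (by omega), ?_⟩
  by_contra hc
  push Not at hc
  obtain ⟨c, hc1, hc2, hc3⟩ := hc
  have hc3 : s c = true := by
    cases h5 : s c with
    | true => rfl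
    | false => exact absurd h5 hc3
  obtain ⟨e1, h11, h12, h13, h14⟩ := CauC_up hc1 hq4 hc3
  have hcm : c ≤ p' + m := by omega
  obtain ⟨e2, h21, h22, h23, h24⟩ := CauC_down hcm hc3 hpm
  have he2 : s e2 = true := h23 e2 h21 (le_refl _)
  have hq' : s q' = true := hq3 q' hq1 (le_refl _)
  have hpm1 : s (p' + m + 1) = true := by
    rw [show p' + m + 1 = p' + 1 + m by ring, hs]
    exact hp2
  rw [CauC_count hs (p' + 1)] at h
  have hsub : ({q', e1, e2, p' + m} : Finset ℕ) ⊆
      (Finset.Ico (p' + 1) (p' + 1 + m)).filter fun k => s k ≠ s (k + 1) := by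
    intro x hx
    simp only [Finset.mem_insert, Finset.mem_singleton] at hx
    rw [Finset.mem_filter, Finset.mem_Ico]
    rcases hx with rfl | rfl | rfl | rfl
    · refine ⟨⟨by omega, by omega⟩, ?_⟩
      rw [hq', hq4]
      decide
    · refine ⟨⟨by omega, by omega⟩, ?_⟩
      rw [h13, h14]
      decide
    · refine ⟨⟨by omega, by omega⟩, ?_⟩
      rw [he2, h24]
      decide
    · refine ⟨⟨by omega, by omega⟩, ?_⟩
      rw [hpm, hpm1]
      decide
  have hcard : ({q', e1, e2, p' + m} : Finset ℕ).card = 4 := by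
    rw [Finset.card_insert_of_notMem, Finset.card_insert_of_notMem,
      Finset.card_insert_of_notMem, Finset.card_singleton]
    · simp only [Finset.mem_singleton]
      omega
    · simp only [Finset.mem_insert, Finset.mem_singleton]
      omega
    · simp only [Finset.mem_insert, Finset.mem_singleton]
      omega
  have := Finset.card_le_card hsub
  omega

theorem CauC_re {x y : ℂ} {a b : ℝ} (hx : x = ‖x‖ * Complex.exp (a * Complex.I))
    (hy : y = ‖y‖ * Complex.exp (b * Complex.I)) :
    (conj x * y).re = ‖x‖ * ‖y‖ * Real.cos (b - a) := by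
  have h1 : conj x * y = ((‖x‖ * ‖y‖ : ℝ) : ℂ) * Complex.exp (((b - a : ℝ) : ℂ) * Complex.I) := by
    conv_lhs => rw [hx, hy]
    rw [map_mul, Complex.conj_ofReal, ← Complex.exp_conj, map_mul, Complex.conj_I,
      Complex.conj_ofReal]
    push_cast
    rw [sub_mul, sub_eq_neg_add, Complex.exp_add]
    ring_nf
  rw [h1, Complex.re_ofReal_mul, Complex.exp_ofReal_mul_I_re]

/-- **Cauchy's lemma.** -/
theorem cauchy_planar {m : ℕ} (hm : 3 ≤ m) {u w : ℕ → ℂ} (hu : ∀ k, u (k + m) = - u k)
    (hw : ∀ k, w (k + m) = - w k)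
    (cu : ∀ k l, k < l → l < k + m → 0 < (conj (u k) * u l).im)
    (cw : ∀ k l, k < l → l < k + m → 0 < (conj (w k) * w l).im)
    (su : ∑ k ∈ Finset.range m, u k ^ 2 = 0) (sw : ∑ k ∈ Finset.range m, w k ^ 2 = 0)
    (hn : ∀ k, ‖u k‖ = ‖w k‖)
    (hne : ∃ k, (conj (w k) * w (k + 1)).re ≠ (conj (u k) * u (k + 1)).re) :
    8 ≤ ((Finset.range (2 * m)).filter fun k =>
      decide ((conj (w k) * w (k + 1)).re ≤ (conj (u k) * u (k + 1)).re) ≠
      decide ((conj (w (k + 1)) * w (k + 2)).re ≤ (conj (u (k + 1)) * u (k + 2)).re)).card := by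
  obtain ⟨φ, pφ, lφ, mφ, eφ⟩ := exists_angles (by omega) hu cu
  obtain ⟨ψ, pψ, lψ, mψ, eψ⟩ := exists_angles (by omega) hw cw
  have hnw : ∀ k, (w k) = ‖w k‖ * Complex.exp (ψ k * Complex.I) := eψ
  have pr : ∀ k, ‖u (k + m)‖ = ‖u k‖ := by
    intro k
    rw [hu, norm_neg]
  have r0 : ∀ k, 0 < ‖u k‖ := by
    intro k
    rw [norm_pos_iff]
    intro h0
    have := cu k (k + 1) (by omega) (by omega)
    rw [h0] at this
    simp at this
  have hru : ∀ k, (conj (u k) * u (k + 1)).re = ‖u k‖ * ‖u (k + 1)‖ * Real.cos (φ (k + 1) - φ k) :=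
    fun k => CauC_re (eφ k) (eφ (k + 1))
  have hrw : ∀ k, (conj (w k) * w (k + 1)).re = ‖u k‖ * ‖u (k + 1)‖ * Real.cos (ψ (k + 1) - ψ k) := by
    intro k
    rw [hn k, hn (k + 1)]
    exact CauC_re (eψ k) (eψ (k + 1))
  have rr : ∀ k, 0 < ‖u k‖ * ‖u (k + 1)‖ := fun k => mul_pos (r0 k) (r0 (k + 1))
  have dφ : ∀ k, 0 < φ (k + 1) - φ k := fun k => sub_pos.2 (mφ (Nat.lt_succ_self k))
  have dψ : ∀ k, 0 < ψ (k + 1) - ψ k := fun k => sub_pos.2 (mψ (Nat.lt_succ_self k))
  have dφ' : ∀ k, φ (k + 1) - φ k < Real.pi := fun k => lφ k (k + 1) (by omega) (by omega)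
  have dψ' : ∀ k, ψ (k + 1) - ψ k < Real.pi := fun k => lψ k (k + 1) (by omega) (by omega)
  have hgap : ∀ x : ℝ, 0 < x → x < Real.pi → 0 < Real.cos x → x < Real.pi / 2 := by
    intro x h1 h2 h3
    by_contra h4
    push Not at h4
    have := Real.cos_nonpos_of_pi_div_two_le_of_le h4 (by linarith)
    linarith
  have gφ : ∀ k, φ (k + 1) - φ k < Real.pi / 2 := by
    intro k
    apply hgap _ (dφ k) (dφ' k)
    have := acute_planar hm u hu cu su k
    rw [hru] at this
    exact (mul_pos_iff_of_pos_left (rr k)).1 this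
  have gψ : ∀ k, ψ (k + 1) - ψ k < Real.pi / 2 := by
    intro k
    apply hgap _ (dψ k) (dψ' k)
    have := acute_planar hm w hw cw sw k
    rw [hrw] at this
    exact (mul_pos_iff_of_pos_left (rr k)).1 this
  have cφ : ∑ k ∈ Finset.range m, ((‖u k‖ : ℂ) * Complex.exp (φ k * Complex.I)) ^ 2 = 0 := by
    rw [← su]
    apply Finset.sum_congr rfl
    intro k _
    rw [← eφ k]
  have cψ : ∑ k ∈ Finset.range m, ((‖u k‖ : ℂ) * Complex.exp (ψ k * Complex.I)) ^ 2 = 0 := by
    rw [← sw]
    apply Finset.sum_congr rfl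
    intro k _
    rw [hn k, ← eψ k]
  -- the label
  have hlab : ∀ k, (conj (w k) * w (k + 1)).re ≤ (conj (u k) * u (k + 1)).re ↔
      ψ k - φ k ≤ ψ (k + 1) - φ (k + 1) := by
    intro k
    rw [hru, hrw, mul_le_mul_iff_right₀ (rr k),
      Real.strictAntiOn_cos.le_iff_ge (Set.mem_Icc.2 ⟨(dψ k).le, (dψ' k).le⟩)
        (Set.mem_Icc.2 ⟨(dφ k).le, (dφ' k).le⟩)]
    constructor <;> intro h <;> linarith
  by_contra hcon
  push Not at hcon
  have hs : ∀ k, (fun k => decide ((conj (w k) * w (k + 1)).re ≤ (conj (u k) * u (k + 1)).re))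
      (k + m) =
      (fun k => decide ((conj (w k) * w (k + 1)).re ≤ (conj (u k) * u (k + 1)).re)) k := by
    intro k
    simp only
    rw [show k + m + 1 = k + 1 + m by ring, hu, hu, hw, hw]
    simp only [map_neg, neg_mul_neg]
  obtain ⟨p, q, hpq, hqp, hup, hdown⟩ := few_changes (by omega) hs hcon
  have key := unimodal (by omega) mφ mψ pφ pψ pr r0 gφ gψ cφ cψ hpq hqp
    (fun k h1 h2 => (hlab k).1 (of_decide_eq_true (hup k h1 h2)))
    (fun k h1 h2 => by
      have h3 : ¬ _ := of_decide_eq_false (hdown k h1 h2)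
      rw [hlab] at h3
      exact (not_le.1 h3).le)
  obtain ⟨k, hk⟩ := hne
  apply hk
  rw [hru, hrw]
  have := key k
  rw [show ψ (k + 1) - ψ k = φ (k + 1) - φ k by linarith]

end Pool.Agent.VeeC
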