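import Pool.Agent.VeeC.Geo1

set_option autoImplicit false

/-!
The sign vectors determine the orientations up to one sign.
-/

namespace Pool.Agent.VeeC

open Matrix

variable {κ : Type*} [Fintype κ] {a b : κ → R3}

theorem Chiro_sign_cross (a : κ → R3) (i j k : κ) :
    sv a (crossProduct (a i) (a j)) k = SignType.sign (det3 (a i) (a j) (a k)) := by
  unfold sv
  rw [← det3_cyc (a i) (a j) (a k), ← det3_cyc (a j) (a k) (a i)]
  rfl

theorem Chiro_self12 (x z : R3) : det3 x x z = 0 := by
  rw [← det3_cyc x x z, ← det3_cyc x z x, det3_self]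

theorem Chiro_self_pos {x : R3} (h : x ≠ 0) : 0 < x ⬝ᵥ x := by
  have h1 : 0 ≤ x ⬝ᵥ x := Finset.sum_nonneg fun i _ => mul_self_nonneg (x i)
  exact lt_of_le_of_ne h1 fun h2 => h (dotProduct_self_eq_zero.1 h2.symm)

theorem Chiro_exists_third (ha : Sys3 a) {i j : κ} (hij : i ≠ j) :
    ∃ k, det3 (a i) (a j) (a k) ≠ 0 := by
  by_contra h
  push Not at h
  have hli := ha.li i j hij
  have hc : crossProduct (a i) (a j) ≠ 0 := by
    intro h0
    rw [LinearIndependent.pair_iff] at hli
    -- the plane orthogonal to a i and a j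
    have h1 := cross_dot_cross' (a i) (a j) (a i) (a j)
    rw [h0, zero_dotProduct] at h1
    have h2 := hli (a j ⬝ᵥ a j) (-(a i ⬝ᵥ a j))
    have h3 : (a j ⬝ᵥ a j) • a i + (-(a i ⬝ᵥ a j)) • a j = 0 := by
      rw [← dotProduct_self_eq_zero, add_dotProduct, dotProduct_add, dotProduct_add,
        smul_dotProduct, smul_dotProduct, smul_dotProduct, smul_dotProduct, dotProduct_smul,
        dotProduct_smul, dotProduct_smul, dotProduct_smul, dotProduct_comm (a j) (a i)]
      simp only [smul_eq_mul]
      rw [dotProduct_comm (a j) (a i)] at h1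
      linear_combination (-(a j ⬝ᵥ a j)) * h1
    have h4 := (h2 h3).1
    rw [dotProduct_self_eq_zero] at h4
    have h5 := hli 0 1 (by rw [h4]; simp)
    exact one_ne_zero h5.2
  have h1 : ∀ k, a k ⬝ᵥ crossProduct (a i) (a j) = 0 := by
    intro k
    have h2 := h k
    rw [← det3_cyc (a i) (a j) (a k), ← det3_cyc (a j) (a k) (a i)] at h2
    exact h2
  have h2 : crossProduct (a i) (a j) ∈ Submodule.span ℝ (Set.range a) := by
    rw [ha.sp]
    trivial
  have h3 : ∀ y ∈ Submodule.span ℝ (Set.range a), y ⬝ᵥ crossProduct (a i) (a j) = 0 := by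
    intro y hy
    induction hy using Submodule.span_induction with
    | mem x hx =>
      obtain ⟨k, rfl⟩ := hx
      exact h1 k
    | zero => exact zero_dotProduct _
    | add x y _ _ hx hy => rw [add_dotProduct, hx, hy, add_zero]
    | smul c x _ hx => rw [smul_dotProduct, hx, smul_zero]
  exact hc (dotProduct_self_eq_zero.1 (h3 _ h2))

/-- one pair of members -/
theorem Chiro_pair (ha : Sys3 a) (hb : Sys3 b) (hL : LL b = LL a) {i j : κ} (hij : i ≠ j) :
    ∃ η : SignType, η ≠ 0 ∧ ∀ k, SignType.sign (det3 (b i) (b j) (b k)) =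
      η * SignType.sign (det3 (a i) (a j) (a k)) := by
  have h1 : sv a (crossProduct (a i) (a j)) ∈ LL b := by
    rw [hL]
    exact ⟨_, rfl⟩
  obtain ⟨y, hy⟩ := h1
  have hi : b i ⬝ᵥ y = 0 := by
    rw [← sv_zero_iff, hy, Chiro_sign_cross, ← det3_cyc (a i) (a j) (a i), det3_self]
    exact sign_zero
  have hj : b j ⬝ᵥ y = 0 := by
    rw [← sv_zero_iff, hy, Chiro_sign_cross, det3_self]
    exact sign_zero
  obtain ⟨c, hc⟩ := eq_smul_cross (hb.li i j hij) hi hj
  have h2 : ∀ k, SignType.sign (det3 (a i) (a j) (a k)) =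
      SignType.sign c * SignType.sign (det3 (b i) (b j) (b k)) := by
    intro k
    rw [← Chiro_sign_cross, ← Chiro_sign_cross, ← hy, hc]
    unfold sv
    rw [dotProduct_smul, smul_eq_mul, sign_mul]
  obtain ⟨k, hk⟩ := Chiro_exists_third ha hij
  have hc0 : SignType.sign c ≠ 0 := by
    intro h0
    have h3 := h2 k
    rw [h0, zero_mul, sign_eq_zero_iff] at h3
    exact hk h3
  refine ⟨SignType.sign c, hc0, fun k => ?_⟩
  rw [h2 k, ← mul_assoc]
  have h4 : SignType.sign c * SignType.sign c = 1 := by
    revert hc0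
    generalize SignType.sign c = s
    revert s
    decide
  rw [h4, one_mul]

theorem Chiro_sign_swap (x y z : R3) :
    SignType.sign (det3 x z y) = - SignType.sign (det3 x y z) := by
  rw [det3_swap, Left.sign_neg]

theorem exists_eta (ha : Sys3 a) (hb : Sys3 b) (hL : LL b = LL a) :
    ∃ η : SignType, η ≠ 0 ∧ ∀ i j k, SignType.sign (det3 (b i) (b j) (b k)) =
      η * SignType.sign (det3 (a i) (a j) (a k)) := by
  classical
  have h0 : ∀ i j : κ, ∃ η : SignType, η ≠ 0 ∧ (i ≠ j → ∀ k,
      SignType.sign (det3 (b i) (b j) (b k)) = η * SignType.sign (det3 (a i) (a j) (a k))) := by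
    intro i j
    by_cases hij : i = j
    · exact ⟨1, by decide, fun h => absurd hij h⟩
    · obtain ⟨η, h1, h2⟩ := Chiro_pair ha hb hL hij
      exact ⟨η, h1, fun _ => h2⟩
  choose E hE0 hE using h0
  -- cancellation
  have hcan : ∀ s t u : SignType, u ≠ 0 → s * u = t * u → s = t := by decide
  have hne : ∀ {i j k : κ}, det3 (a i) (a j) (a k) ≠ 0 → i ≠ j ∧ i ≠ k ∧ j ≠ k := by
    intro i j k h
    refine ⟨?_, ?_, ?_⟩
    · rintro rfl
      rw [← det3_cyc (a i) (a i) (a k), ← det3_cyc (a i) (a k) (a i), det3_self] at h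
      exact h rfl
    · rintro rfl
      rw [← det3_cyc (a i) (a j) (a i), det3_self] at h
      exact h rfl
    · rintro rfl
      rw [det3_self] at h
      exact h rfl
  -- cyclic
  have hcyc : ∀ {i j k : κ}, det3 (a i) (a j) (a k) ≠ 0 → E i j = E j k := by
    intro i j k h
    obtain ⟨h1, h2, h3⟩ := hne h
    have h4 := hE i j h1 k
    have h5 := hE j k h3 i
    rw [det3_cyc (b i) (b j) (b k), det3_cyc (a i) (a j) (a k), h4] at h5
    exact hcan _ _ _ (by rwa [Ne, sign_eq_zero_iff]) h5
  have hsym : ∀ {i j : κ}, i ≠ j → E i j = E j i := by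
    intro i j hij
    obtain ⟨k, hk⟩ := Chiro_exists_third ha hij
    have h4 := hE i j hij k
    have h5 := hE j i hij.symm k
    have h6 : ∀ c : κ → R3, det3 (c j) (c i) (c k) = - det3 (c i) (c j) (c k) := fun c => by
      rw [← det3_cyc (c j) (c i) (c k), det3_swap]
    rw [h6, h6, Left.sign_neg, Left.sign_neg, h4] at h5
    have h7 : ∀ s t u : SignType, u ≠ 0 → -(s * u) = t * -u → s = t := by decide
    exact h7 _ _ _ (by rwa [Ne, sign_eq_zero_iff]) h5
  have hthird : ∀ {i j k : κ}, det3 (a i) (a j) (a k) ≠ 0 → E i j = E i k := by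
    intro i j k h
    obtain ⟨h1, h2, h3⟩ := hne h
    have h4 : det3 (a j) (a k) (a i) ≠ 0 := by rwa [det3_cyc]
    rw [hcyc h, hcyc h4, hsym h2.symm]
  have hstar : ∀ {i j k : κ}, i ≠ j → i ≠ k → E i j = E i k := by
    intro i j k hij hik
    by_cases hd : det3 (a i) (a j) (a k) = 0
    · obtain ⟨l, hl⟩ := Chiro_exists_third ha hij
      have hl' : det3 (a i) (a k) (a l) ≠ 0 := by
        intro h0
        obtain ⟨t, ht⟩ := eq_smul_cross (z := crossProduct (a i) (a k)) (ha.li i j hij)
          (by
            change det3 (a i) (a i) (a k) = 0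
            exact Chiro_self12 _ _)
          (by
            change det3 (a j) (a i) (a k) = 0
            rw [← det3_cyc (a j) (a i) (a k), det3_swap, hd, neg_zero])
        have h1 : crossProduct (a i) (a k) ≠ 0 := by
          intro h2
          obtain ⟨m, hm⟩ := Chiro_exists_third ha hik
          rw [← det3_cyc (a i) (a k) (a m), ← det3_cyc (a k) (a m) (a i)] at hm
          unfold det3 at hm
          rw [h2, dotProduct_zero] at hm
          exact hm rfl
        have ht0 : t ≠ 0 := by
          rintro rfl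
          rw [zero_smul] at ht
          exact h1 ht
        have h2 : a l ⬝ᵥ crossProduct (a i) (a k) = 0 := by
          change det3 (a l) (a i) (a k) = 0
          rw [← det3_cyc (a l) (a i) (a k), h0]
        rw [ht, dotProduct_smul, smul_eq_mul] at h2
        have h3 := (mul_eq_zero.1 h2).resolve_left ht0
        apply hl
        rw [← det3_cyc (a i) (a j) (a l), ← det3_cyc (a j) (a l) (a i)]
        exact h3
      rw [hthird hl, hthird hl']
    · exact hthird hd
  by_cases hex : ∃ i0 j0 : κ, i0 ≠ j0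
  · obtain ⟨i0, j0, h00⟩ := hex
    have hall : ∀ i j, i ≠ j → E i j = E i0 j0 := by
      intro i j hij
      by_cases hi : i = i0
      · subst hi
        exact hstar hij h00
      · rw [hstar hij hi, hsym hi]
        exact hstar (Ne.symm hi) h00
    refine ⟨E i0 j0, hE0 _ _, fun i j k => ?_⟩
    by_cases hij : i = j
    · subst hij
      rw [Chiro_self12, Chiro_self12, sign_zero, mul_zero]
    · rw [hE i j hij k, hall i j hij]
  · push Not at hex
    refine ⟨1, by decide, fun i j k => ?_⟩
    rw [hex i j, Chiro_self12, Chiro_self12, sign_zero, mul_zero]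

/-- equal orientations of the members give equal orientations of the normals at the vertices -/
theorem hor_of_det (ha : Sys3 a) (hb : Sys3 b) (hL : LL b = LL a)
    (h : ∀ i j k, SignType.sign (det3 (b i) (b j) (b k)) =
      SignType.sign (det3 (a i) (a j) (a k))) (v : VT (LL a)) (n n' : κ × Bool) (hn : Inc v n)
    (hn' : Inc v n') :
    SignType.sign (det3 (pt b v) (nv b n) (nv b n')) =
      SignType.sign (det3 (pt a v) (nv a n) (nv a n')) := by
  have hz : ∀ c : κ → R3, det3 (pt c v) (nv c n) (nv c n') =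
      sgn n.2 * (sgn n'.2 * det3 (pt c v) (c n.1) (c n'.1)) := by
    intro c
    unfold nv
    rw [det3_smul2, det3_smul3]
  rw [hz, hz, sign_mul, sign_mul, sign_mul, sign_mul]
  congr 2
  by_cases hnn : n.1 = n'.1
  · rw [hnn, det3_self, det3_self]
  · obtain ⟨c, hc0, hc⟩ := pt_eq_smul_cross ha rfl v hnn hn hn'
    obtain ⟨d, hd0, hd⟩ := pt_eq_smul_cross hb hL v hnn hn hn'
    obtain ⟨k, hk⟩ := exists_not_inc v
    have h1 : v.1 k = SignType.sign c * SignType.sign (det3 (a n.1) (a n'.1) (a k)) := by
      rw [← pt_spec rfl v, hc]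
      unfold sv
      rw [dotProduct_smul, smul_eq_mul, sign_mul, ← Chiro_sign_cross]
      rfl
    have h2 : v.1 k = SignType.sign d * SignType.sign (det3 (b n.1) (b n'.1) (b k)) := by
      rw [← pt_spec hL v, hd]
      unfold sv
      rw [dotProduct_smul, smul_eq_mul, sign_mul, ← Chiro_sign_cross]
      rfl
    rw [h, h1] at h2
    have hk' : SignType.sign (det3 (a n.1) (a n'.1) (a k)) ≠ 0 := by
      intro h3
      rw [h3, mul_zero] at h1
      exact hk h1
    have hcd : SignType.sign c = SignType.sign d := by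
      have hcan : ∀ s t u : SignType, u ≠ 0 → s * u = t * u → s = t := by decide
      exact hcan _ _ _ hk' h2
    have h3 : ∀ (e : κ → R3) (he : Sys3 e) (r : ℝ) (_ : r ≠ 0),
        SignType.sign (det3 (r • crossProduct (e n.1) (e n'.1)) (e n.1) (e n'.1)) =
          SignType.sign r := by
      intro e he r hr
      rw [det3_smul1, sign_mul]
      have h4 : 0 < det3 (crossProduct (e n.1) (e n'.1)) (e n.1) (e n'.1) := by
        change 0 < crossProduct (e n.1) (e n'.1) ⬝ᵥ crossProduct (e n.1) (e n'.1)
        refine Chiro_self_pos fun h0 => ?_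
        obtain ⟨m, hm⟩ := Chiro_exists_third he hnn
        rw [← det3_cyc (e n.1) (e n'.1) (e m), ← det3_cyc (e n'.1) (e m) (e n.1)] at hm
        unfold det3 at hm
        rw [h0, dotProduct_zero] at hm
        exact hm rfl
      rw [sign_pos h4, mul_one]
    rw [hc, hd, h3 a ha c hc0, h3 b hb d hd0, hcd]

theorem LL_neg (a : κ → R3) : LL (fun i => - a i) = LL a := by
  have h : ∀ x : R3, sv (fun i => - a i) x = sv a (-x) := by
    intro x
    ext i
    unfold sv
    rw [neg_dotProduct, dotProduct_neg]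
  ext s
  constructor
  · rintro ⟨x, rfl⟩
    exact ⟨-x, (h x).symm⟩
  · rintro ⟨x, rfl⟩
    exact ⟨-x, by rw [h, neg_neg]⟩

theorem sys3_neg (ha : Sys3 a) : Sys3 (fun i => - a i) where
  li := by
    intro i j hij
    have h1 := ha.li i j hij
    rw [LinearIndependent.pair_iff] at h1 ⊢
    intro s t hst
    have h2 : s • a i + t • a j = 0 := by
      rw [smul_neg, smul_neg, ← neg_add, neg_eq_zero] at hst
      exact hst
    exact h1 s t h2
  sp := by
    rw [eq_top_iff, ← ha.sp, Submodule.span_le]
    rintro _ ⟨i, rfl⟩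
    have h1 : - (- a i) ∈ Submodule.span ℝ (Set.range fun i => - a i) :=
      Submodule.neg_mem _ (Submodule.subset_span ⟨i, rfl⟩)
    rwa [neg_neg] at h1
  orth := by
    intro x i j hij h
    rw [neg_dotProduct, dotProduct_neg, neg_neg]
    refine ha.orth x i j hij fun k => ?_
    have h1 := h k
    rw [neg_dotProduct, neg_eq_zero] at h1
    exact h1
  clos := by
    intro x i j k hx hij hik hjk hi hj hk
    rw [neg_dotProduct, neg_eq_zero] at hi hj hk
    obtain ⟨ν, hν⟩ := ha.clos x i j k hx hij hik hjk hi hj hk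
    refine ⟨ν, fun w hw => ?_⟩
    rw [← hν w hw]
    refine Finset.sum_congr rfl fun l _ => ?_
    simp only [neg_dotProduct, neg_eq_zero, neg_smul, smul_neg, neg_neg]
  irr := by
    intro s hs hs'
    obtain ⟨i, hi, j, hj, hij⟩ := ha.irr s hs hs'
    refine ⟨i, hi, j, hj, ?_⟩
    rw [neg_dotProduct, dotProduct_neg, neg_neg]
    exact hij

end Pool.Agent.VeeC
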