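import Mathlib
import Pool.Agent.VeeC.FlatC
import Pool.Agent.VeeR.Simplicial

/-!
# Vee-systems are determined by their oriented matroid and their nu-function
-/

namespace Pool.Agent.VeeC

open Module Submodule Pool.Agent.MP_de770b_mp

theorem final {ι : Type*} [Fintype ι] {V : Type*} [AddCommGroup V] [Module ℝ V]
    [FiniteDimensional ℝ V] :
    (∀ α : ι → Dual ℝ V, IsVeeSystem α → ∀ v : V, (∀ i, α i v ≠ 0) →
      ∃ B : Finset ι, LinearIndepOn ℝ α (B : Set ι) ∧ span ℝ (α '' (B : Set ι)) = ⊤ ∧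
        (∀ w : V, (∀ i ∈ B, 0 < α i v * α i w) → ∀ i, 0 < α i v * α i w) ∧
        ∀ i ∈ B, ∀ j ∈ B, i ≠ j → α i v * α j v * α i (vee α (α j)) ≤ 0) ∧
    (3 ≤ finrank ℝ V → ∀ α : ι → Dual ℝ V, IsVeeSystem α → IsIrreducible α →
      (∀ β : ι → Dual ℝ V, SameOriented α β →
        ∃ (g : Dual ℝ V ≃ₗ[ℝ] Dual ℝ V) (c : ι → ℝ), (∀ i, 0 < c i) ∧ ∀ i, β i = c i • g (α i)) ∧
      (∀ β : ι → Dual ℝ V, IsVeeSystem β → SameOriented α β → SameNu α β → GLEquiv α β) ∧
      (DeterminedByNu α ↔ UniqueOrientation α)) := by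
  classical
  exact ⟨fun α hα v hv => VeeR.simplicial hα v hv, fun hn α hα hirr =>
    ⟨fun β h => rescale_of_sameOriented hn hα hirr h,
      fun β hβ h hnu => glEquiv_of_sameOriented hn hα hirr hβ h hnu,
      determined_iff_orientation hn hα hirr⟩⟩

end Pool.Agent.VeeC
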