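import Pool.Agent.VeeC.GeoDefs
import Pool.Agent.MP_de770b_mp.ToSys

set_option linter.unusedSectionVars false

/-!
A three-dimensional subspace of the dual space as `R3`.
-/

namespace Pool.Agent.VeeC

open Module Submodule Pool.Agent.MP_de770b_mp Matrix

variable {ι : Type*} [Fintype ι] {V : Type*} [AddCommGroup V] [Module ℝ V]
  [FiniteDimensional ℝ V] {γ : ι → Dual ℝ V}

theorem FlatA_symm (hs : span ℝ (Set.range γ) = ⊤) (x y : Dual ℝ V) :
    x (vee γ y) = y (vee γ x) := by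
  rw [← vee_spec hs x, ← vee_spec hs y, form_comm]

theorem FlatA_pos (hs : span ℝ (Set.range γ) = ⊤) {x : Dual ℝ V} (hx : x ≠ 0) :
    0 < x (vee γ x) := by
  rw [← vee_spec hs x]
  exact form_self_pos hs (by
    rw [vee_eq hs]
    exact (formE hs).symm.map_ne_zero_iff.mpr hx)

theorem FlatA_add (hs : span ℝ (Set.range γ) = ⊤) (x y : Dual ℝ V) :
    vee γ (x + y) = vee γ x + vee γ y := by
  rw [vee_eq hs, vee_eq hs, vee_eq hs, map_add]

theorem FlatA_smul (hs : span ℝ (Set.range γ) = ⊤) (c : ℝ) (x : Dual ℝ V) :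
    vee γ (c • x) = c • vee γ x := by
  rw [vee_eq hs, vee_eq hs, map_smul]

theorem exists_onb (hs : span ℝ (Set.range γ) = ⊤) (W : Submodule ℝ (Dual ℝ V))
    (hW : finrank ℝ W = 3) : ∃ e : Fin 3 → Dual ℝ V, (∀ c, e c ∈ W) ∧
      (∀ c d, e c (vee γ (e d)) = if c = d then 1 else 0) ∧
      ∀ x ∈ W, x = ∑ c, x (vee γ (e c)) • e c := by
  let B : LinearMap.BilinForm ℝ W := LinearMap.mk₂ ℝ (fun x y => (x : Dual ℝ V) (vee γ y))
    (fun x x' y => by simp) (fun c x y => by simp)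
    (fun x y y' => by simp [FlatA_add hs]) (fun c x y => by simp [FlatA_smul hs])
  have hB : LinearMap.BilinForm.IsSymm B := ⟨fun x y => FlatA_symm hs _ _⟩
  have hB' : LinearMap.IsSymm B := LinearMap.BilinForm.isSymm_iff.1 hB
  obtain ⟨v0, hv0⟩ := LinearMap.BilinForm.exists_orthogonal_basis (K := ℝ) (V := W) (B := B) hB'
  let v : Basis (Fin 3) ℝ W := v0.reindex (finCongr hW)
  have hv : ∀ c d, c ≠ d → (v c : Dual ℝ V) (vee γ (v d)) = 0 := by
    intro c d hcd
    have := hv0 (i := (finCongr hW).symm c) (j := (finCongr hW).symm d)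
      (fun h => hcd ((finCongr hW).symm.injective h))
    simpa [v, B] using this
  have hpos : ∀ c, 0 < (v c : Dual ℝ V) (vee γ (v c)) := fun c =>
    FlatA_pos hs (fun h => v.ne_zero c (Subtype.ext h))
  let s : Fin 3 → ℝ := fun c => (Real.sqrt ((v c : Dual ℝ V) (vee γ (v c))))⁻¹
  have hs0 : ∀ c, s c ≠ 0 := fun c => inv_ne_zero (Real.sqrt_ne_zero'.2 (hpos c))
  have hs1 : ∀ c, s c * s c * (v c : Dual ℝ V) (vee γ (v c)) = 1 := by
    intro c
    simp only [s]
    rw [← mul_inv, Real.mul_self_sqrt (hpos c).le, inv_mul_cancel₀ (hpos c).ne']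
  let e : Fin 3 → Dual ℝ V := fun c => s c • (v c : Dual ℝ V)
  have hon : ∀ c d, e c (vee γ (e d)) = if c = d then 1 else 0 := by
    intro c d
    simp only [e, FlatA_smul hs, LinearMap.smul_apply, map_smul, smul_eq_mul]
    split_ifs with h
    · subst h
      rw [← mul_assoc]
      exact hs1 c
    · rw [hv c d h]; ring
  refine ⟨e, fun c => W.smul_mem _ (v c).2, hon, ?_⟩
  intro x hx
  have h1 := congrArg Subtype.val (v.sum_repr ⟨x, hx⟩)
  obtain ⟨a, ha⟩ : ∃ a : Fin 3 → ℝ, x = ∑ c, a c • e c := by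
    refine ⟨fun c => v.repr ⟨x, hx⟩ c * (s c)⁻¹, ?_⟩
    have h2 : (x : Dual ℝ V) = ∑ c, v.repr ⟨x, hx⟩ c • (v c : Dual ℝ V) := by
      rw [Submodule.coe_sum] at h1
      simpa using h1.symm
    conv_lhs => rw [h2]
    refine Finset.sum_congr rfl fun c _ => ?_
    simp only [e]
    rw [smul_smul, mul_assoc, inv_mul_cancel₀ (hs0 c), mul_one]
  have h3 : ∀ d, x (vee γ (e d)) = a d := by
    intro d
    rw [ha, LinearMap.sum_apply]
    simp only [LinearMap.smul_apply, hon, smul_eq_mul, mul_ite, mul_one, mul_zero]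
    simp
  simp only [h3]
  exact ha

/-- an isometry of `W` with space, and the dual projection -/
theorem exists_iso (hs : span ℝ (Set.range γ) = ⊤) (W : Submodule ℝ (Dual ℝ V))
    (hW : finrank ℝ W = 3) : ∃ (T : Dual ℝ V →ₗ[ℝ] R3) (P : V →ₗ[ℝ] R3),
      (∀ x ∈ W, ∀ y ∈ W, T x ⬝ᵥ T y = x (vee γ y)) ∧ (∀ z : R3, ∃ x ∈ W, T x = z) ∧
      Function.Surjective P ∧ ∀ x ∈ W, ∀ v, T x ⬝ᵥ P v = x v := by
  obtain ⟨e, heW, he, hx⟩ := exists_onb hs W hW
  let T : Dual ℝ V →ₗ[ℝ] R3 := LinearMap.pi fun c => Module.Dual.eval ℝ V (vee γ (e c))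
  let P : V →ₗ[ℝ] R3 := LinearMap.pi e
  have hT : ∀ x c, T x c = x (vee γ (e c)) := fun x c => rfl
  have hP : ∀ v c, P v c = e c v := fun x c => rfl
  have h4 : ∀ x ∈ W, ∀ v, T x ⬝ᵥ P v = x v := by
    intro x hxW v
    conv_rhs => rw [hx x hxW]
    simp only [dotProduct, hT, hP, LinearMap.sum_apply, LinearMap.smul_apply, smul_eq_mul]
  refine ⟨T, P, ?_, ?_, ?_, h4⟩
  · intro x hxW y hyW
    have h5 : T y = P (vee γ y) := by
      ext c
      rw [hT, hP, FlatA_symm hs]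
    rw [h5, h4 x hxW]
  · intro z
    refine ⟨∑ c, z c • e c, W.sum_mem fun c _ => W.smul_mem _ (heW c), ?_⟩
    ext d
    rw [hT, LinearMap.sum_apply]
    simp [he]
  · intro z
    refine ⟨∑ c, z c • vee γ (e c), ?_⟩
    ext d
    rw [hP, map_sum]
    simp [he]

end Pool.Agent.VeeC
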