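import Pool.Agent.VeeC.FlatA

set_option linter.unusedSectionVars false

/-!
The three-dimensional flats of a vee-system satisfy `Sys3`.
-/

namespace Pool.Agent.VeeC

open Module Submodule Pool.Agent.MP_de770b_mp Matrix

variable {ι : Type*} [Fintype ι] [DecidableEq ι] {V : Type*} [AddCommGroup V] [Module ℝ V]
  [FiniteDimensional ℝ V] {γ : ι → Dual ℝ V}

theorem FlatB_comb {i j k : ι} {a b : ℝ} (h : a • γ i + b • γ j = γ k) (m : ι) :
    gram γ k m = a * gram γ i m + b * gram γ j m := by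
  show γ k (vee γ (γ m)) = a * γ i (vee γ (γ m)) + b * γ j (vee γ (γ m))
  rw [← h]
  simp

/-- planes with at least three covectors are not split by an orthogonal decomposition -/
theorem not_split (hγ : IsVeeSystem γ) {i j : ι} (h3 : 3 ≤ (fl γ i j).card) (hij : i ≠ j)
    (s : Set ι) (hi : i ∈ s) (hj : j ∉ s) (hfl : ∀ k ∈ fl γ i j, ∀ l ∈ fl γ i j, k ∈ s → l ∉ s →
      gram γ k l = 0) : False := by
  have hs := hγ.spans
  obtain ⟨k, hk, hki, hkj⟩ := Sys.exists_third h3 i j
  obtain ⟨a, b, hab⟩ := mem_span_pair.mp (mem_fl.mp hk)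
  have hij0 : gram γ i j = 0 :=
    hfl i (left_mem_fl γ i j) j (right_mem_fl γ i j) hi hj
  by_cases hks : k ∈ s
  · have h1 := hfl k hk j (right_mem_fl γ i j) hks hj
    rw [FlatB_comb hab, hij0, mul_zero, zero_add] at h1
    have hb : b = 0 := by
      rcases mul_eq_zero.mp h1 with h | h
      · exact h
      · exact absurd h (gram_pos hγ j).ne'
    subst hb
    have := hγ.noncollinear k i hki
    rw [LinearIndependent.pair_iff] at this
    have h2 := this 1 (-a) (by rw [← hab]; module)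
    exact one_ne_zero h2.1
  · have h1 := hfl i (left_mem_fl γ i j) k hk hi hks
    rw [gram_sym hs i k, FlatB_comb hab, gram_sym hs j i, hij0, mul_zero, add_zero] at h1
    have ha : a = 0 := by
      rcases mul_eq_zero.mp h1 with h | h
      · exact h
      · exact absurd h (gram_pos hγ i).ne'
    subst ha
    have := hγ.noncollinear k j hkj
    rw [LinearIndependent.pair_iff] at this
    have h2 := this 1 (-b) (by rw [← hab]; module)
    exact one_ne_zero h2.1

theorem FlatB_finrank (hγ : IsVeeSystem γ) {i j l : ι} (hij : i ≠ j) (hl : l ∉ fl γ i j) :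
    finrank ℝ (span ℝ ({γ i, γ j, γ l} : Set (Dual ℝ V))) = 3 := by
  have h1 : LinearIndependent ℝ ![γ l, γ i, γ j] := by
    have h2 : LinearIndependent ℝ (Fin.cons (γ l) ![γ i, γ j] : Fin 3 → Dual ℝ V) := by
      rw [linearIndependent_finCons]
      refine ⟨hγ.noncollinear i j hij, ?_⟩
      rw [Matrix.range_cons, Matrix.range_cons, Matrix.range_empty, Set.union_empty,
        Set.singleton_union]
      exact fun h => hl (mem_fl.mpr h)
    exact h2
  have h2 := finrank_span_eq_card h1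
  rw [Matrix.range_cons, Matrix.range_cons, Matrix.range_cons, Matrix.range_empty,
    Set.union_empty, Set.singleton_union, Set.singleton_union] at h2
  have h3 : ({γ i, γ j, γ l} : Set (Dual ℝ V)) = {γ l, γ i, γ j} := by
    rw [Set.insert_comm (γ l) (γ i), Set.pair_comm (γ l) (γ j)]
  rw [h3, h2]
  simp

theorem FlatB_zero (hs : span ℝ (Set.range γ) = ⊤) {W : Submodule ℝ (Dual ℝ V)}
    {T : Dual ℝ V →ₗ[ℝ] R3} (hT : ∀ x ∈ W, ∀ y ∈ W, T x ⬝ᵥ T y = x (vee γ y))
    {x : Dual ℝ V} (hx : x ∈ W) (h0 : T x = 0) : x = 0 := by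
  by_contra hne
  have h1 := hT x hx x hx
  rw [h0, zero_dotProduct, ← vee_spec hs x] at h1
  exact vee_ne_zero hs hne (form_self_eq_zero hs h1.symm)

/-- in the plane orthogonal to a nonzero vector, a vector is a combination of two independent
ones -/
theorem FlatB_plane {x u v w : R3} (hx : x ≠ 0) (huv : LinearIndependent ℝ ![u, v])
    (hu : u ⬝ᵥ x = 0) (hv : v ⬝ᵥ x = 0) (hw : w ⬝ᵥ x = 0) : ∃ s t : ℝ, s • u + t • v = w := by
  by_contra hcon
  have hnot : w ∉ span ℝ (Set.range ![u, v]) := by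
    rw [Matrix.range_cons, Matrix.range_cons, Matrix.range_empty, Set.union_empty,
      Set.singleton_union]
    intro h
    exact hcon (mem_span_pair.mp h)
  have hli : LinearIndependent ℝ (Fin.cons w ![u, v] : Fin 3 → R3) := by
    rw [linearIndependent_finCons]
    exact ⟨huv, hnot⟩
  have htop : span ℝ (Set.range (Fin.cons w ![u, v] : Fin 3 → R3)) = ⊤ := by
    apply hli.span_eq_top_of_card_eq_finrank'
    simp
  have hx' : ∀ z : R3, z ⬝ᵥ x = 0 := by
    intro z
    have hz : z ∈ span ℝ (Set.range (Fin.cons w ![u, v] : Fin 3 → R3)) := by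
      rw [htop]; trivial
    induction hz using Submodule.span_induction with
    | mem y hy =>
      obtain ⟨c, rfl⟩ := hy
      fin_cases c
      · exact hw
      · exact hu
      · exact hv
    | zero => exact zero_dotProduct x
    | add y z _ _ h1 h2 => rw [add_dotProduct, h1, h2, add_zero]
    | smul c y _ h1 => rw [smul_dotProduct, h1, smul_zero]
  apply hx
  have := hx' x
  exact dotProduct_self_eq_zero.mp this

theorem exists_flat (hγ : IsVeeSystem γ) {i j k l : ι} (hij : i ≠ j)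
    (h3 : 3 ≤ (fl γ i j).card) (hk : k ∈ fl γ i j) (hl : l ∉ fl γ i j)
    (h3' : 3 ≤ (fl γ k l).card) (X : Finset ι)
    (hX : ∀ m, m ∈ X ↔ γ m ∈ span ℝ {γ i, γ j, γ l}) :
    ∃ a : {m // m ∈ X} → R3, Sys3 a ∧ (∀ m m', a m ⬝ᵥ a m' = gram γ m.1 m'.1) ∧
      ∃ P : V →ₗ[ℝ] R3, Function.Surjective P ∧ ∀ m v, a m ⬝ᵥ P v = γ m.1 v := by
  classical
  have hs := hγ.spans
  obtain ⟨T, P, hT, hTs, hP, hTP⟩ := exists_iso hs (span ℝ {γ i, γ j, γ l})
    (FlatB_finrank hγ hij hl)
  have hmem : ∀ m : {m // m ∈ X}, γ m.1 ∈ span ℝ {γ i, γ j, γ l} := fun m => (hX m.1).mp m.2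
  have hiW : γ i ∈ span ℝ {γ i, γ j, γ l} := subset_span (by simp)
  have hjW : γ j ∈ span ℝ {γ i, γ j, γ l} := subset_span (by simp)
  have hlW : γ l ∈ span ℝ {γ i, γ j, γ l} := subset_span (by simp)
  have hpair : ∀ m m' : {m // m ∈ X}, ∀ n ∈ fl γ m.1 m'.1, n ∈ X := by
    intro m m' n hn
    rw [hX]
    have h1 : span ℝ {γ m.1, γ m'.1} ≤ span ℝ {γ i, γ j, γ l} := by
      rw [span_le]
      rintro _ (rfl | rfl)
      · exact hmem m
      · exact hmem m'
    exact h1 (mem_fl.mp hn)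
  have hgram : ∀ m m' : {m // m ∈ X}, T (γ m.1) ⬝ᵥ T (γ m'.1) = gram γ m.1 m'.1 :=
    fun m m' => hT _ (hmem m) _ (hmem m')
  have hli : ∀ m m' : {m // m ∈ X}, m ≠ m' → LinearIndependent ℝ ![T (γ m.1), T (γ m'.1)] := by
    intro m m' hmm
    rw [LinearIndependent.pair_iff]
    intro s t hst
    have h1 : T (s • γ m.1 + t • γ m'.1) = 0 := by
      rw [map_add, map_smul, map_smul, hst]
    have h2 := FlatB_zero hs hT (add_mem (smul_mem _ s (hmem m)) (smul_mem _ t (hmem m'))) h1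
    have h3 := hγ.noncollinear m.1 m'.1 (fun h => hmm (Subtype.ext h))
    rw [LinearIndependent.pair_iff] at h3
    exact h3 s t h2
  -- members orthogonal to `x`
  have hfl : ∀ (x : R3) (m m' : {m // m ∈ X}), x ≠ 0 → m ≠ m' → T (γ m.1) ⬝ᵥ x = 0 →
      T (γ m'.1) ⬝ᵥ x = 0 → ∀ n : {m // m ∈ X}, T (γ n.1) ⬝ᵥ x = 0 ↔ n.1 ∈ fl γ m.1 m'.1 := by
    intro x m m' hx hmm h1 h2 n
    constructor
    · intro h3
      obtain ⟨s, t, hst⟩ := FlatB_plane hx (hli m m' hmm) h1 h2 h3
      have h4 : T (s • γ m.1 + t • γ m'.1 - γ n.1) = 0 := by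
        rw [map_sub, map_add, map_smul, map_smul, hst, sub_self]
      have h5 := FlatB_zero hs hT (sub_mem (add_mem (smul_mem _ s (hmem m))
        (smul_mem _ t (hmem m'))) (hmem n)) h4
      rw [mem_fl, mem_span_pair]
      exact ⟨s, t, sub_eq_zero.mp h5⟩
    · intro h3
      obtain ⟨s, t, hst⟩ := mem_span_pair.mp (mem_fl.mp h3)
      rw [← hst, map_add, map_smul, map_smul, add_dotProduct, smul_dotProduct, smul_dotProduct,
        h1, h2, smul_zero, smul_zero, add_zero]
  refine ⟨fun m => T (γ m.1), ⟨hli, ?_, ?_, ?_, ?_⟩, hgram, P, hP, fun m v => hTP _ (hmem m) v⟩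
  · -- spanning
    rw [eq_top_iff]
    intro z _
    obtain ⟨x, hx, rfl⟩ := hTs z
    have h1 : span ℝ {γ i, γ j, γ l} ≤
        (span ℝ (Set.range fun m : {m // m ∈ X} => T (γ m.1))).comap T := by
      rw [span_le]
      rintro _ (rfl | rfl | rfl)
      · exact subset_span ⟨⟨i, (hX i).mpr hiW⟩, rfl⟩
      · exact subset_span ⟨⟨j, (hX j).mpr hjW⟩, rfl⟩
      · exact subset_span ⟨⟨l, (hX l).mpr hlW⟩, rfl⟩
    exact h1 hx
  · -- two members
    intro x m m' hmm hiff
    show T (γ m.1) ⬝ᵥ T (γ m'.1) = 0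
    rw [hgram]
    have hm1 : T (γ m.1) ⬝ᵥ x = 0 := (hiff m).mpr (Or.inl rfl)
    have hm2 : T (γ m'.1) ⬝ᵥ x = 0 := (hiff m').mpr (Or.inr rfl)
    apply gram_two hγ (fun h => hmm (Subtype.ext h))
    have hsub : fl γ m.1 m'.1 ⊆ {m.1, m'.1} := by
      intro n hn
      have hn' := hpair m m' n hn
      obtain ⟨s, t, hst⟩ := mem_span_pair.mp (mem_fl.mp hn)
      have h1 : T (γ n) ⬝ᵥ x = 0 := by
        rw [← hst, map_add, map_smul, map_smul, add_dotProduct, smul_dotProduct,
          smul_dotProduct, hm1, hm2, smul_zero, smul_zero, add_zero]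
      rcases (hiff ⟨n, hn'⟩).mp h1 with h | h
      · rw [← h]; simp
      · rw [← h]; simp
    have h2 := Finset.card_le_card hsub
    have h3 : ({m.1, m'.1} : Finset ι).card ≤ 2 := Finset.card_le_two
    omega
  · -- at least three members
    intro x m m' m'' hx h12 h13 h23 h1 h2 h4
    have hfl' := hfl x m m' hx h12 h1 h2
    have hne : m.1 ≠ m'.1 := fun h => h12 (Subtype.ext h)
    have hcard : 3 ≤ (fl γ m.1 m'.1).card := by
      have hsub : ({m.1, m'.1, m''.1} : Finset ι) ⊆ fl γ m.1 m'.1 := by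
        intro n hn
        simp only [Finset.mem_insert, Finset.mem_singleton] at hn
        rcases hn with rfl | rfl | rfl
        · exact left_mem_fl γ _ _
        · exact right_mem_fl γ _ _
        · exact (hfl' m'').mp h4
      have h5 := Finset.card_le_card hsub
      rw [Finset.card_eq_three.mpr ⟨m.1, m'.1, m''.1, hne, fun h => h13 (Subtype.ext h),
        fun h => h23 (Subtype.ext h), rfl⟩] at h5
      exact h5
    obtain ⟨c, hc⟩ := exists_nu hγ hne hcard
    refine ⟨c, fun w hw => ?_⟩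
    obtain ⟨s, t, hst⟩ := FlatB_plane hx (hli m m' h12) h1 h2 hw
    have hy : s • γ m.1 + t • γ m'.1 ∈ span ℝ {γ m.1, γ m'.1} :=
      mem_span_pair.mpr ⟨s, t, rfl⟩
    have hyW : s • γ m.1 + t • γ m'.1 ∈ span ℝ {γ i, γ j, γ l} :=
      add_mem (smul_mem _ s (hmem m)) (smul_mem _ t (hmem m'))
    have hTy : T (s • γ m.1 + t • γ m'.1) = w := by
      rw [map_add, map_smul, map_smul, hst]
    have hnu := hc _ hy
    generalize s • γ m.1 + t • γ m'.1 = y at hy hyW hTy hnu
    rw [planeOp_pair] at hnu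
    have h6 : ∑ n ∈ fl γ m.1 m'.1, γ n (vee γ y) • γ n = c • y := by
      apply (formE hs).symm.injective
      rw [map_sum, map_smul]
      rw [vee_eq hs y] at hnu ⊢
      rw [← hnu]
      apply Finset.sum_congr rfl
      intro n _
      rw [map_smul, vee_eq hs (γ n)]
    have h7 := congrArg T h6
    rw [map_sum, map_smul, hTy] at h7
    rw [← h7]
    have h8 : ∀ n : {m // m ∈ X}, (if T (γ n.1) ⬝ᵥ x = 0 then (T (γ n.1) ⬝ᵥ w) • T (γ n.1) else 0)
        = (fun n : ι => if n ∈ fl γ m.1 m'.1 then T (γ n (vee γ y) • γ n) else 0) n.1 := by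
      intro n
      by_cases h : n.1 ∈ fl γ m.1 m'.1
      · simp only [h, if_true]
        rw [if_pos ((hfl' n).mpr h), map_smul, ← hTy, hT _ (hmem n) _ hyW]
      · simp only [h, if_false]
        rw [if_neg (fun h' => h ((hfl' n).mp h'))]
    rw [Finset.sum_congr rfl (fun n _ => h8 n)]
    rw [Finset.sum_coe_sort X
      (fun n : ι => if n ∈ fl γ m.1 m'.1 then T (γ n (vee γ y) • γ n) else 0)]
    rw [Finset.sum_ite_mem]
    congr 1
    rw [Finset.inter_eq_right]
    exact fun n hn => hpair m m' n hn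
  · -- irreducible
    intro s hsne hscne
    by_contra hcon
    push Not at hcon
    have hsplit : ∀ m m' : {m // m ∈ X}, m ≠ m' → 3 ≤ (fl γ m.1 m'.1).card → m ∈ s → m' ∈ s := by
      intro m m' hmm hcard hms
      by_contra hms'
      refine not_split hγ hcard (fun h => hmm (Subtype.ext h)) {n | ∃ h : n ∈ X, ⟨n, h⟩ ∈ s}
        ⟨m.2, hms⟩ (fun h => hms' h.2) ?_
      intro n hn n' hn' h1 h2
      obtain ⟨h1, h1'⟩ := h1
      have h3 := hcon ⟨n, h1⟩ h1' ⟨n', hpair m m' n' hn'⟩ (fun h => h2 ⟨_, h⟩)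
      have h4 : T (γ n) ⬝ᵥ T (γ n') = 0 := h3
      rw [← hgram ⟨n, h1⟩ ⟨n', hpair m m' n' hn'⟩]
      exact h4
    have hiff : ∀ m m' : {m // m ∈ X}, m ≠ m' → 3 ≤ (fl γ m.1 m'.1).card → (m ∈ s ↔ m' ∈ s) := by
      intro m m' hmm hcard
      exact ⟨hsplit m m' hmm hcard, hsplit m' m hmm.symm (by rw [fl_comm]; exact hcard)⟩
    have hkX : k ∈ X := hpair ⟨i, (hX i).mpr hiW⟩ ⟨j, (hX j).mpr hjW⟩ k hk
    have e1 : (⟨i, (hX i).mpr hiW⟩ : {m // m ∈ X}) ∈ s ↔
        (⟨j, (hX j).mpr hjW⟩ : {m // m ∈ X}) ∈ s :=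
      hiff _ _ (fun h => hij (congrArg Subtype.val h)) h3
    have e2 : (⟨k, hkX⟩ : {m // m ∈ X}) ∈ s ↔ (⟨l, (hX l).mpr hlW⟩ : {m // m ∈ X}) ∈ s :=
      hiff _ _ (fun h => hl (by have h9 : k = l := congrArg Subtype.val h; rw [← h9]; exact hk)) h3'
    have e3 : (⟨i, (hX i).mpr hiW⟩ : {m // m ∈ X}) ∈ s ↔ (⟨k, hkX⟩ : {m // m ∈ X}) ∈ s := by
      by_cases hik : i = k
      · subst hik
        rfl
      · apply hiff _ _ (fun h => hik (congrArg Subtype.val h))
        rw [fl_eq hγ.noncollinear (left_mem_fl γ i j) hk hik]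
        exact h3
    -- an element orthogonal to `i`, `j`, `l` does not exist
    have hno : ∀ b : {m // m ∈ X}, gram γ b.1 i = 0 → gram γ b.1 j = 0 → gram γ b.1 l = 0 →
        False := by
      intro b h1 h2 h4
      have h5 : span ℝ {γ i, γ j, γ l} ≤
          LinearMap.ker ((γ b.1) ∘ₗ (formE hs).symm.toLinearMap) := by
        rw [span_le]
        rintro _ (rfl | rfl | rfl)
        · show γ b.1 ((formE hs).symm (γ i)) = 0
          rw [← vee_eq hs]; exact h1
        · show γ b.1 ((formE hs).symm (γ j)) = 0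
          rw [← vee_eq hs]; exact h2
        · show γ b.1 ((formE hs).symm (γ l)) = 0
          rw [← vee_eq hs]; exact h4
      have h6 := h5 (hmem b)
      rw [LinearMap.mem_ker] at h6
      change γ b.1 ((formE hs).symm (γ b.1)) = 0 at h6
      rw [← vee_eq hs] at h6
      exact (gram_pos hγ b.1).ne' h6
    by_cases his : (⟨i, (hX i).mpr hiW⟩ : {m // m ∈ X}) ∈ s
    · obtain ⟨b, hb⟩ := hscne
      have hjs := e1.mp his
      have hls := e2.mp (e3.mp his)
      refine hno b ?_ ?_ ?_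
      · rw [gram_sym hs, ← hgram ⟨i, (hX i).mpr hiW⟩ b]
        exact hcon _ his b hb
      · rw [gram_sym hs, ← hgram ⟨j, (hX j).mpr hjW⟩ b]
        exact hcon _ hjs b hb
      · rw [gram_sym hs, ← hgram ⟨l, (hX l).mpr hlW⟩ b]
        exact hcon _ hls b hb
    · obtain ⟨b, hb⟩ := hsne
      have hjs := fun h => his (e1.mpr h)
      have hls := fun h => his (e3.mpr (e2.mpr h))
      refine hno b ?_ ?_ ?_
      · rw [← hgram b ⟨i, (hX i).mpr hiW⟩]
        exact hcon b hb _ his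
      · rw [← hgram b ⟨j, (hX j).mpr hjW⟩]
        exact hcon b hb _ hjs
      · rw [← hgram b ⟨l, (hX l).mpr hlW⟩]
        exact hcon b hb _ hls

end Pool.Agent.VeeC
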