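import Pool.Agent.VeeC.Zeta

set_option autoImplicit false
set_option linter.unusedSectionVars false

/-!
Points, vertices, incidence.
-/

namespace Pool.Agent.VeeC

open Matrix

variable {κ : Type*} [Fintype κ] {a : κ → R3}

theorem Geo1_sgn_ne (b : Bool) : sgn b ≠ 0 := by
  unfold sgn; split_ifs <;> norm_num

theorem Geo1_sgn_not (b : Bool) : sgn (!b) = - sgn b := by
  cases b <;> simp [sgn]

theorem sv_zero_iff (x : R3) (i : κ) : sv a x i = 0 ↔ a i ⬝ᵥ x = 0 := by
  unfold sv; exact sign_eq_zero_iff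

theorem sv_neg (x : R3) : sv a (-x) = - sv a x := by
  funext i
  show SignType.sign (a i ⬝ᵥ -x) = - SignType.sign (a i ⬝ᵥ x)
  rw [dotProduct_neg, Left.sign_neg]

theorem sv_smul {c : ℝ} (hc : 0 < c) (x : R3) : sv a (c • x) = sv a x := by
  funext i
  show SignType.sign (a i ⬝ᵥ c • x) = SignType.sign (a i ⬝ᵥ x)
  rw [dotProduct_smul, smul_eq_mul, sign_mul, sign_pos hc, one_mul]

theorem pt_spec {L : Set (κ → SignType)} (hL : LL a = L) (v : VT L) : sv a (pt a v) = v.1 := by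
  have h : ∃ x, sv a x = v.1 := by
    have h1 : v.1 ∈ L := v.2.1
    have h2 : L ⊆ LL a := hL.symm.subset
    exact h2 h1
  exact Classical.epsilon_spec h

theorem pt_ne {L : Set (κ → SignType)} (hL : LL a = L) (v : VT L) : pt a v ≠ 0 := by
  intro h
  obtain ⟨i, hi⟩ := v.2.2.1
  apply hi
  rw [← pt_spec hL v, sv_zero_iff, h, dotProduct_zero]

theorem inc_iff {L : Set (κ → SignType)} (hL : LL a = L) (v : VT L) (n : κ × Bool) :
    Inc v n ↔ nv a n ⬝ᵥ pt a v = 0 := by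
  unfold Inc nv
  rw [← pt_spec hL v, sv_zero_iff, smul_dotProduct, smul_eq_mul, mul_eq_zero]
  constructor
  · exact fun h => Or.inr h
  · exact fun h => h.resolve_left (Geo1_sgn_ne _)

theorem side_eq {L : Set (κ → SignType)} (hL : LL a = L) (v : VT L) (n : κ × Bool) :
    side n v = SignType.sign (nv a n ⬝ᵥ pt a v) := by
  unfold side nv
  have h : v.1 n.1 = SignType.sign (a n.1 ⬝ᵥ pt a v) := by
    rw [← pt_spec hL v]; rfl
  rw [h, smul_dotProduct, smul_eq_mul, sign_mul]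
  unfold sgn
  split_ifs
  · simp
  · rw [Left.sign_neg]; simp

theorem exists_not_inc {L : Set (κ → SignType)} (v : VT L) : ∃ i, v.1 i ≠ 0 := v.2.2.1

theorem nv_ngN (n : κ × Bool) : nv a (ngN n) = - nv a n := by
  show sgn (!n.2) • a n.1 = - (sgn n.2 • a n.1)
  rw [Geo1_sgn_not, neg_smul]

theorem Geo1_ortho (ha : Sys3 a) {x : R3} (h : ∀ i, a i ⬝ᵥ x = 0) : x = 0 := by
  have h1 : x ∈ Submodule.span ℝ (Set.range a) := by rw [ha.sp]; trivial
  have h2 : ∀ y ∈ Submodule.span ℝ (Set.range a), y ⬝ᵥ x = 0 := by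
    intro y hy
    induction hy using Submodule.span_induction with
    | mem y hy => obtain ⟨i, rfl⟩ := hy; exact h i
    | zero => exact zero_dotProduct _
    | add y z _ _ hy hz => rw [add_dotProduct, hy, hz, add_zero]
    | smul c y _ hy => rw [smul_dotProduct, hy, smul_zero]
  exact dotProduct_self_eq_zero.mp (h2 x h1)

theorem Geo1_exists_perp (u : R3) : ∃ x : R3, x ≠ 0 ∧ u ⬝ᵥ x = 0 := by
  by_cases h : u 0 = 0
  · refine ⟨![1, 0, 0], ?_, ?_⟩
    · intro h1
      have := congrFun h1 0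
      simp at this
    · simp [dotProduct, Fin.sum_univ_three, h]
  · refine ⟨![- u 1, u 0, 0], ?_, ?_⟩
    · intro h1
      have := congrFun h1 1
      simp at this
      exact h this
    · simp [dotProduct, Fin.sum_univ_three]
      ring

theorem Geo1_exists_ne (ha : Sys3 a) (i : κ) : ∃ j, i ≠ j := by
  by_contra hcon
  push Not at hcon
  obtain ⟨x, hx, hx2⟩ := Geo1_exists_perp (a i)
  exact hx (Geo1_ortho ha (fun k => by rw [← hcon k]; exact hx2))

theorem Geo1_a_ne (ha : Sys3 a) (i : κ) : a i ≠ 0 := by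
  obtain ⟨j, hj⟩ := Geo1_exists_ne ha i
  exact (ha.li i j hj).ne_zero 0

theorem nv_ne (ha : Sys3 a) (n : κ × Bool) : nv a n ≠ 0 :=
  smul_ne_zero (Geo1_sgn_ne _) (Geo1_a_ne ha _)

theorem Geo1_cross_ne (ha : Sys3 a) {i j : κ} (hij : i ≠ j) : crossProduct (a i) (a j) ≠ 0 :=
  crossProduct_ne_zero_iff_linearIndependent.mpr (ha.li i j hij)

/-- two members orthogonal to the point of a vertex span the plane orthogonal to it -/
theorem pt_eq_smul_cross (ha : Sys3 a) {L : Set (κ → SignType)} (hL : LL a = L) (v : VT L)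
    {i j : κ} (hij : i ≠ j) (hi : v.1 i = 0) (hj : v.1 j = 0) :
    ∃ c : ℝ, c ≠ 0 ∧ pt a v = c • crossProduct (a i) (a j) := by
  rw [← pt_spec hL v, sv_zero_iff] at hi hj
  obtain ⟨c, hc⟩ := eq_smul_cross (ha.li i j hij) hi hj
  refine ⟨c, ?_, hc⟩
  rintro rfl
  exact pt_ne hL v (by rw [hc, zero_smul])

/-- the point of a vertex is unique up to a positive factor -/
theorem pt_unique (ha : Sys3 a) {L : Set (κ → SignType)} (hL : LL a = L) (v : VT L) {x : R3}
    (hx : sv a x = v.1) : ∃ c : ℝ, 0 < c ∧ x = c • pt a v := by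
  obtain ⟨i, j, hij, hi, hj⟩ := v.2.2.2
  obtain ⟨c, hc, hpt⟩ := pt_eq_smul_cross ha hL v hij hi hj
  rw [← hx, sv_zero_iff] at hi hj
  obtain ⟨c', hc'⟩ := eq_smul_cross (ha.li i j hij) hi hj
  have h1 : x = (c' / c) • pt a v := by
    rw [hpt, smul_smul, div_mul_cancel₀ _ hc, hc']
  refine ⟨c' / c, ?_, h1⟩
  obtain ⟨k, hk⟩ := v.2.2.1
  have h2 : SignType.sign (a k ⬝ᵥ x) = v.1 k := by rw [← hx]; rfl
  have h3 : SignType.sign (a k ⬝ᵥ pt a v) = v.1 k := by
    rw [← pt_spec hL v]; rfl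
  rw [h1, dotProduct_smul, smul_eq_mul, sign_mul, h3] at h2
  by_contra hcon
  rcases lt_or_eq_of_le (not_lt.mp hcon) with h4 | h4
  · rw [sign_neg h4] at h2
    revert h2 hk
    generalize v.1 k = s
    cases s <;> simp
  · rw [h4, sign_zero, zero_mul] at h2
    exact hk h2.symm

theorem vert_ext {L : Set (κ → SignType)} {v w : VT L} (h : v.1 = w.1) : v = w := Subtype.ext h

/-- nonzero points orthogonal to two members are vertices -/
theorem isVert_of (ha : Sys3 a) {x : R3} (hx : x ≠ 0) {i j : κ} (hij : i ≠ j)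
    (hi : a i ⬝ᵥ x = 0) (hj : a j ⬝ᵥ x = 0) : IsVert (LL a) (sv a x) := by
  refine ⟨⟨x, rfl⟩, ?_, i, j, hij, (sv_zero_iff x i).mpr hi, (sv_zero_iff x j).mpr hj⟩
  by_contra hcon
  push Not at hcon
  exact hx (Geo1_ortho ha (fun k => (sv_zero_iff x k).mp (hcon k)))

/-- the antipodal vertex -/
def ngV (v : VT (LL a)) : VT (LL a) := ⟨- v.1, by
  obtain ⟨⟨x, hx⟩, ⟨i, hi⟩, j, k, hjk, hj, hk⟩ := v.2
  refine ⟨⟨-x, by rw [sv_neg, hx]⟩, ⟨i, fun h => hi ?_⟩, j, k, hjk, ?_, ?_⟩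
  · have h1 : - v.1 i = 0 := h
    simpa using h1
  · show - v.1 j = 0
    rw [hj]; rfl
  · show - v.1 k = 0
    rw [hk]; rfl⟩

theorem pt_ngV (ha : Sys3 a) (v : VT (LL a)) : ∃ c : ℝ, 0 < c ∧ pt a (ngV v) = - (c • pt a v) := by
  have h : sv a (- pt a (ngV v)) = v.1 := by
    rw [sv_neg, pt_spec rfl (ngV v)]
    show - - v.1 = v.1
    exact neg_neg _
  obtain ⟨c, hc, h1⟩ := pt_unique ha rfl v h
  exact ⟨c, hc, by rw [← h1, neg_neg]⟩

theorem Geo1_vert_cross (ha : Sys3 a) {i j : κ} (hij : i ≠ j) :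
    ∃ v : VT (LL a), v.1 i = 0 ∧ v.1 j = 0 := by
  have h1 : a i ⬝ᵥ crossProduct (a i) (a j) = 0 := dot_self_cross _ _
  have h2 : a j ⬝ᵥ crossProduct (a i) (a j) = 0 := dot_cross_self _ _
  exact ⟨⟨sv a (crossProduct (a i) (a j)), isVert_of ha (Geo1_cross_ne ha hij) hij h1 h2⟩,
    (sv_zero_iff _ i).mpr h1, (sv_zero_iff _ j).mpr h2⟩

/-- two great circles meet -/
theorem exists_vert (ha : Sys3 a) (n n' : κ × Bool) : ∃ v : VT (LL a), Inc v n ∧ Inc v n' := by
  by_cases h : n.1 = n'.1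
  · obtain ⟨j, hj⟩ := Geo1_exists_ne ha n.1
    obtain ⟨v, h1, h2⟩ := Geo1_vert_cross ha hj
    exact ⟨v, h1, by unfold Inc; rw [← h]; exact h1⟩
  · obtain ⟨v, h1, h2⟩ := Geo1_vert_cross ha h
    exact ⟨v, h1, h2⟩

/-- vertices with proportional points -/
theorem Geo1_eq_of_smul {u v : VT (LL a)} {r : ℝ} (h : pt a v = r • pt a u) :
    v = u ∨ v = ngV u := by
  rcases lt_trichotomy r 0 with hr | hr | hr
  · right
    apply vert_ext
    show v.1 = - u.1
    rw [← pt_spec rfl v, ← pt_spec rfl u, h, ← sv_neg, ← neg_neg r, neg_smul, sv_neg,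
      sv_smul (neg_pos.mpr hr), sv_neg]
  · exact absurd h (by rw [hr, zero_smul]; exact pt_ne rfl v)
  · left
    apply vert_ext
    rw [← pt_spec rfl v, ← pt_spec rfl u, h, sv_smul hr]

theorem Geo1_fst_ne {n n' : κ × Bool} (h5 : n' ≠ n) (h6 : n' ≠ ngN n) : n.1 ≠ n'.1 := by
  intro h
  by_cases h7 : n'.2 = n.2
  · exact h5 (Prod.ext h.symm h7)
  · apply h6
    refine Prod.ext (y := ngN n) h.symm ?_
    show n'.2 = !n.2
    cases h8 : n'.2 <;> cases h9 : n.2 <;> simp_all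

/-- two different great circles meet in two antipodal vertices -/
theorem vert_eq (ha : Sys3 a) {n n' : κ × Bool} {u v : VT (LL a)} (h1 : Inc u n) (h2 : Inc u n')
    (h3 : Inc v n) (h4 : Inc v n') (h5 : n' ≠ n) (h6 : n' ≠ ngN n) : v = u ∨ v = ngV u := by
  have hne := Geo1_fst_ne h5 h6
  obtain ⟨c, hc, hpt⟩ := pt_eq_smul_cross ha rfl u hne h1 h2
  obtain ⟨c', hc', hpt'⟩ := pt_eq_smul_cross ha rfl v hne h3 h4
  apply Geo1_eq_of_smul (r := c' / c)
  rw [hpt, hpt', smul_smul, div_mul_cancel₀ _ hc]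

/-- the orientation of two normals at a vertex: zero only if they are equal or opposite -/
theorem det3_eq_zero_iff (ha : Sys3 a) {v : VT (LL a)} {n n' : κ × Bool} (h : Inc v n)
    (h' : Inc v n') : det3 (pt a v) (nv a n) (nv a n') = 0 ↔ n' = n ∨ n' = ngN n := by
  constructor
  · intro hd
    by_contra hcon
    push Not at hcon
    have hne := Geo1_fst_ne hcon.1 hcon.2
    obtain ⟨c, hc, hpt⟩ := pt_eq_smul_cross ha rfl v hne h h'
    have hcr := Geo1_cross_ne ha hne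
    rw [hpt, det3_smul1] at hd
    unfold nv at hd
    rw [det3_smul2, det3_smul3] at hd
    unfold det3 at hd
    have h1 : crossProduct (a n.1) (a n'.1) ⬝ᵥ crossProduct (a n.1) (a n'.1) ≠ 0 :=
      fun h0 => hcr (dotProduct_self_eq_zero.mp h0)
    exact (mul_ne_zero hc (mul_ne_zero (Geo1_sgn_ne _) (mul_ne_zero (Geo1_sgn_ne _) h1))) hd
  · rintro (rfl | rfl)
    · exact det3_self _ _
    · rw [nv_ngN, ← neg_one_smul ℝ, det3_smul3, det3_self, mul_zero]

/-- the same for two vertices on a great circle -/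
theorem det3_eq_zero_iff' (ha : Sys3 a) {n : κ × Bool} {v v' : VT (LL a)} (h : Inc v n)
    (h' : Inc v' n) : det3 (nv a n) (pt a v) (pt a v') = 0 ↔ v' = v ∨ v' = ngV v := by
  constructor
  · intro hd
    by_contra hcon
    push Not at hcon
    have hli : LinearIndependent ℝ ![pt a v, pt a v'] := by
      rw [LinearIndependent.pair_iff' (pt_ne rfl v)]
      intro r hr
      rcases Geo1_eq_of_smul hr.symm with h1 | h1
      · exact hcon.1 h1
      · exact hcon.2 h1
    have h1 : pt a v ⬝ᵥ nv a n = 0 := by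
      rw [dotProduct_comm]; exact (inc_iff rfl v n).mp h
    have h2 : pt a v' ⬝ᵥ nv a n = 0 := by
      rw [dotProduct_comm]; exact (inc_iff rfl v' n).mp h'
    obtain ⟨c, hc⟩ := eq_smul_cross hli h1 h2
    have hc0 : c ≠ 0 := by
      rintro rfl
      exact nv_ne ha n (by rw [hc, zero_smul])
    have hcr := crossProduct_ne_zero_iff_linearIndependent.mpr hli
    have h3 : crossProduct (pt a v) (pt a v') ⬝ᵥ crossProduct (pt a v) (pt a v') ≠ 0 :=
      fun h0 => hcr (dotProduct_self_eq_zero.mp h0)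
    rw [hc, det3_smul1] at hd
    exact (mul_ne_zero hc0 h3) hd
  · rintro (rfl | rfl)
    · exact det3_self _ _
    · obtain ⟨c, hc, h1⟩ := pt_ngV ha v
      rw [h1, ← neg_smul, det3_smul3, det3_self, mul_zero]

end Pool.Agent.VeeC
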