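import Mathlib

set_option autoImplicit false

/-!
Finite centrally symmetric sets of directions in the plane, in counterclockwise order.
-/

namespace Pool.Agent.VeeC

open ComplexConjugate

variable {S : Type*} [Fintype S]

/-- orientation -/
noncomputable def cr (f : S → ℂ) (s t : S) : ℝ := (conj (f s) * f t).im

/-- a finite set of directions, closed under negation, not all on a line -/
structure Planar (f : S → ℂ) (ng : S → S) : Prop where
  f_ng : ∀ s, f (ng s) = - f s
  ne : ∀ s, f s ≠ 0
  ray : ∀ s t, (conj (f s) * f t).im = 0 → 0 < (conj (f s) * f t).re → s = t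
  nd : ∀ s, ∃ t, (conj (f s) * f t).im ≠ 0

/-- `t` is the next direction after `s` -/
def IsNext (f : S → ℂ) (s t : S) : Prop := 0 < cr f s t ∧ ∀ r, 0 < cr f s r → r = t ∨ 0 < cr f t r

omit [Fintype S] in
lemma Planar_cr_eq (f : S → ℂ) (s t : S) :
    cr f s t = (f s).re * (f t).im - (f s).im * (f t).re := by
  simp [cr, Complex.mul_im]
  ring

omit [Fintype S] in
lemma Planar_re_eq (f : S → ℂ) (s t : S) :
    (conj (f s) * f t).re = (f s).re * (f t).re + (f s).im * (f t).im := by
  simp [Complex.mul_re]

omit [Fintype S] in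
lemma Planar_cr_swap (f : S → ℂ) (s t : S) : cr f t s = - cr f s t := by
  rw [Planar_cr_eq, Planar_cr_eq]; ring

omit [Fintype S] in
lemma Planar_cr_self (f : S → ℂ) (s : S) : cr f s s = 0 := by
  rw [Planar_cr_eq]; ring

omit [Fintype S] in
lemma Planar_cr_ng {f : S → ℂ} {ng : S → S} (h : Planar f ng) (s t : S) :
    cr f s (ng t) = - cr f s t := by
  rw [Planar_cr_eq, Planar_cr_eq, h.f_ng]
  simp
  ring

omit [Fintype S] in
lemma Planar_ng_cr {f : S → ℂ} {ng : S → S} (h : Planar f ng) (s t : S) :
    cr f (ng s) t = - cr f s t := by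
  rw [Planar_cr_swap, Planar_cr_ng h, Planar_cr_swap f s t, neg_neg]

omit [Fintype S] in
lemma Planar_sq_pos {f : S → ℂ} {ng : S → S} (h : Planar f ng) (s : S) :
    0 < (f s).re ^ 2 + (f s).im ^ 2 := by
  have h1 := h.ne s
  have h2 : 0 < Complex.normSq (f s) := Complex.normSq_pos.2 h1
  rw [Complex.normSq_apply] at h2
  nlinarith

omit [Fintype S] in
lemma Planar_inj {f : S → ℂ} {ng : S → S} (h : Planar f ng) {s t : S} (e : f s = f t) : s = t := by
  apply h.ray
  · have := Planar_cr_self f s
    unfold cr at this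
    rw [← e]
    exact this
  · rw [Planar_re_eq, ← e]
    have := Planar_sq_pos h s
    nlinarith

omit [Fintype S] in
lemma Planar_ng_ng {f : S → ℂ} {ng : S → S} (h : Planar f ng) (s : S) : ng (ng s) = s := by
  apply Planar_inj h
  rw [h.f_ng, h.f_ng, neg_neg]

omit [Fintype S] in
/-- Two directions on a line are equal or opposite. -/
lemma Planar_line {f : S → ℂ} {ng : S → S} (h : Planar f ng) {s t : S} (e : cr f s t = 0) :
    t = s ∨ t = ng s := by
  rcases lt_trichotomy 0 ((conj (f s) * f t).re) with h1 | h1 | h1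
  · left
    exact (h.ray s t e h1).symm
  · exfalso
    rw [Planar_re_eq] at h1
    rw [Planar_cr_eq] at e
    have h2 := Planar_sq_pos h s
    have h3 := Planar_sq_pos h t
    have h4 : ((f s).re ^ 2 + (f s).im ^ 2) * ((f t).re ^ 2 + (f t).im ^ 2) =
        ((f s).re * (f t).re + (f s).im * (f t).im) ^ 2 +
        ((f s).re * (f t).im - (f s).im * (f t).re) ^ 2 := by ring
    rw [← h1, e] at h4
    have h5 := mul_pos h2 h3
    rw [h4] at h5
    norm_num at h5
  · right
    have h2 : ng s = t := by
      apply h.ray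
      · have := Planar_ng_cr h s t
        rw [e, neg_zero] at this
        exact this
      · rw [h.f_ng, map_neg, neg_mul, Complex.neg_re]
        linarith
    exact h2.symm

omit [Fintype S] in
lemma Planar_trans (f : S → ℂ) {s a b c : S} (ha : 0 < cr f s a) (hb : 0 < cr f s b)
    (hc : 0 < cr f s c) (hab : 0 < cr f a b) (hbc : 0 < cr f b c) : 0 < cr f a c := by
  have key : cr f s b * cr f a c = cr f s a * cr f b c + cr f s c * cr f a b := by
    simp only [Planar_cr_eq]; ring
  have h1 : 0 < cr f s b * cr f a c := by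
    rw [key]; positivity
  exact (mul_pos_iff_of_pos_left hb).1 h1

omit [Fintype S] in
lemma Planar_half {f : S → ℂ} {ng : S → S} (h : Planar f ng) {s a b : S} (ha : 0 < cr f s a)
    (hb : 0 < cr f s b) (e : cr f a b = 0) : b = a := by
  rcases Planar_line h e with h1 | h1
  · exact h1
  · rw [h1, Planar_cr_ng h] at hb
    linarith

theorem existsUnique_next {f : S → ℂ} {ng : S → S} (h : Planar f ng) (s : S) :
    ∃! t, IsNext f s t := by
  classical
  set R : Finset S := Finset.univ.filter (fun r => 0 < cr f s r) with hR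
  have hne : R.Nonempty := by
    obtain ⟨t, ht⟩ := h.nd s
    change cr f s t ≠ 0 at ht
    rcases lt_or_gt_of_ne ht with h1 | h1
    · refine ⟨ng t, ?_⟩
      rw [hR, Finset.mem_filter, Planar_cr_ng h]
      exact ⟨Finset.mem_univ _, by linarith⟩
    · exact ⟨t, by rw [hR, Finset.mem_filter]; exact ⟨Finset.mem_univ _, h1⟩⟩
  obtain ⟨t, htR, hmax⟩ := R.exists_max_image (fun r => (conj (f s) * f r).re / cr f s r) hne
  have ht : 0 < cr f s t := (Finset.mem_filter.1 htR).2
  refine ⟨t, ⟨ht, fun r hr => ?_⟩, fun t' ht' => ?_⟩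
  · have h1 := hmax r (by rw [hR, Finset.mem_filter]; exact ⟨Finset.mem_univ _, hr⟩)
    rw [div_le_div_iff₀ hr ht] at h1
    have key : ((f s).re ^ 2 + (f s).im ^ 2) * cr f t r =
        (conj (f s) * f t).re * cr f s r - (conj (f s) * f r).re * cr f s t := by
      simp only [Planar_cr_eq, Planar_re_eq]; ring
    have h2 : 0 ≤ ((f s).re ^ 2 + (f s).im ^ 2) * cr f t r := by
      rw [key]; linarith
    have h3 : 0 ≤ cr f t r := by
      have h4 := Planar_sq_pos h s
      by_contra h5
      push Not at h5
      nlinarith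
    rcases h3.eq_or_lt with h4 | h4
    · left
      exact Planar_half h ht hr h4.symm
    · right
      exact h4
  · -- uniqueness
    obtain ⟨h1, h2⟩ := ht'
    rcases h2 t ht with h3 | h3
    · exact h3.symm
    · have h4 := hmax t' (by rw [hR, Finset.mem_filter]; exact ⟨Finset.mem_univ _, h1⟩)
      rw [div_le_div_iff₀ h1 ht] at h4
      have key : ((f s).re ^ 2 + (f s).im ^ 2) * cr f t' t =
          (conj (f s) * f t').re * cr f s t - (conj (f s) * f t).re * cr f s t' := by
        simp only [Planar_cr_eq, Planar_re_eq]; ring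
      have h5 := mul_pos (Planar_sq_pos h s) h3
      rw [key] at h5
      linarith

theorem isNext_rev {f : S → ℂ} {ng : S → S} (h : Planar f ng) {s t : S} (ht : IsNext f s t) :
    ∀ r, cr f t r < 0 → r = s ∨ cr f s r < 0 := by
  intro r hr
  rcases lt_trichotomy (cr f s r) 0 with h1 | h1 | h1
  · right; exact h1
  · rcases Planar_line h h1 with h2 | h2
    · left; exact h2
    · exfalso
      rw [h2, Planar_cr_ng h, Planar_cr_swap] at hr
      have := ht.1
      linarith
  · exfalso
    rcases ht.2 r h1 with h2 | h2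
    · rw [h2, Planar_cr_self] at hr
      exact lt_irrefl _ hr
    · linarith

open Classical in
/-- the half plane to the left of `s` -/
noncomputable def Planar_H (f : S → ℂ) (s : S) : Finset S := Finset.univ.filter fun r => 0 < cr f s r

open Classical in
/-- the directions strictly between `s` and `r` -/
noncomputable def Planar_B (f : S → ℂ) (s r : S) : Finset S :=
  Finset.univ.filter fun r' => 0 < cr f s r' ∧ 0 < cr f r' r

lemma Planar_mem_H (f : S → ℂ) (s r : S) : r ∈ Planar_H f s ↔ 0 < cr f s r := by
  classical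
  simp [Planar_H]

lemma Planar_mem_B (f : S → ℂ) (s r r' : S) :
    r' ∈ Planar_B f s r ↔ 0 < cr f s r' ∧ 0 < cr f r' r := by
  classical
  simp [Planar_B]

/-- The first step. -/
lemma Planar_B_next (f : S → ℂ) {s t : S} (ht : IsNext f s t) : Planar_B f s t = ∅ := by
  classical
  rw [Finset.eq_empty_iff_forall_notMem]
  intro r hr
  rw [Planar_mem_B] at hr
  rcases ht.2 r hr.1 with h1 | h1
  · rw [h1, Planar_cr_self] at hr
    exact lt_irrefl _ hr.2
  · rw [Planar_cr_swap] at h1
    linarith [hr.2]

omit [Fintype S] in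
lemma Planar_step {f : S → ℂ} {ng : S → S} (h : Planar f ng) {s r t : S} (hr : 0 < cr f s r)
    (ht : IsNext f r t) : t = ng s ∨ 0 < cr f s t := by
  have h1 : 0 < cr f r (ng s) := by
    rw [Planar_cr_ng h, ← Planar_cr_swap]
    exact hr
  rcases ht.2 _ h1 with h2 | h2
  · left; exact h2.symm
  · right
    rw [Planar_cr_ng h, ← Planar_cr_swap] at h2
    exact h2

/-- The step inside the half plane. -/
lemma Planar_B_step {f : S → ℂ} {ng : S → S} (h : Planar f ng) {s r t : S} (hr : 0 < cr f s r)
    (ht : IsNext f r t) (hst : 0 < cr f s t) :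
    (Planar_B f s t).card = (Planar_B f s r).card + 1 := by
  classical
  have h1 : Planar_B f s t = insert r (Planar_B f s r) := by
    ext r'
    rw [Finset.mem_insert, Planar_mem_B, Planar_mem_B]
    constructor
    · rintro ⟨h2, h3⟩
      rcases lt_trichotomy (cr f r r') 0 with h4 | h4 | h4
      · right
        refine ⟨h2, ?_⟩
        rw [Planar_cr_swap]
        linarith
      · left
        exact Planar_half h hr h2 h4
      · exfalso
        rcases ht.2 r' h4 with h5 | h5
        · rw [h5, Planar_cr_self] at h3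
          exact lt_irrefl _ h3
        · rw [Planar_cr_swap] at h5
          linarith
    · rintro (h2 | ⟨h2, h3⟩)
      · rw [h2]
        exact ⟨hr, ht.1⟩
      · exact ⟨h2, Planar_trans f h2 hr hst h3 ht.1⟩
  rw [h1, Finset.card_insert_of_notMem]
  rw [Planar_mem_B, Planar_cr_self]
  exact fun h2 => lt_irrefl _ h2.2

/-- The last step. -/
lemma Planar_B_last {f : S → ℂ} {ng : S → S} (h : Planar f ng) {s r : S} (hr : 0 < cr f s r)
    (ht : IsNext f r (ng s)) : (Planar_B f s r).card + 1 = (Planar_H f s).card := by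
  classical
  have h1 : Planar_H f s = insert r (Planar_B f s r) := by
    ext r'
    rw [Finset.mem_insert, Planar_mem_B, Planar_mem_H]
    constructor
    · intro h2
      rcases lt_trichotomy (cr f r r') 0 with h4 | h4 | h4
      · right
        refine ⟨h2, ?_⟩
        rw [Planar_cr_swap]
        linarith
      · left
        exact Planar_half h hr h2 h4
      · exfalso
        rcases ht.2 r' h4 with h5 | h5
        · rw [h5, Planar_cr_ng h, Planar_cr_self] at h2
          linarith
        · rw [Planar_ng_cr h] at h5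
          linarith
    · rintro (h2 | ⟨h2, h3⟩)
      · rw [h2]
        exact hr
      · exact h2
  rw [h1, Finset.card_insert_of_notMem]
  rw [Planar_mem_B, Planar_cr_self]
  exact fun h2 => lt_irrefl _ h2.2

lemma Planar_B_lt (f : S → ℂ) {s r : S} (hr : 0 < cr f s r) :
    (Planar_B f s r).card < (Planar_H f s).card := by
  classical
  apply Finset.card_lt_card
  rw [Finset.ssubset_iff_of_subset]
  · refine ⟨r, (Planar_mem_H f s r).2 hr, ?_⟩
    rw [Planar_mem_B, Planar_cr_self]
    exact fun h2 => lt_irrefl _ h2.2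
  · intro r' hr'
    rw [Planar_mem_B] at hr'
    exact (Planar_mem_H f s r').2 hr'.1

/-- The iterates inside the half plane. -/
lemma Planar_iter {f : S → ℂ} {ng : S → S} (h : Planar f ng) (nx : S → S)
    (hnx : ∀ s, IsNext f s (nx s)) (s : S) (k : ℕ) (hk : k < (Planar_H f s).card) :
    0 < cr f s (nx^[k + 1] s) ∧ (Planar_B f s (nx^[k + 1] s)).card = k := by
  induction k with
  | zero =>
    refine ⟨(hnx s).1, ?_⟩
    rw [zero_add, Function.iterate_one, Planar_B_next f (hnx s)]
    rfl
  | succ k ih =>
    obtain ⟨h1, h2⟩ := ih (by omega)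
    rw [Function.iterate_succ_apply']
    rcases Planar_step h h1 (hnx _) with h3 | h3
    · exfalso
      have h4 := hnx (nx^[k + 1] s)
      rw [h3] at h4
      have h5 := Planar_B_last h h1 h4
      omega
    · refine ⟨h3, ?_⟩
      rw [Planar_B_step h h1 (hnx _) h3, h2]

lemma Planar_iter_last {f : S → ℂ} {ng : S → S} (h : Planar f ng) (nx : S → S)
    (hnx : ∀ s, IsNext f s (nx s)) (s : S) : nx^[(Planar_H f s).card + 1] s = ng s := by
  have hpos : 0 < (Planar_H f s).card := by
    rw [Finset.card_pos]
    exact ⟨nx s, (Planar_mem_H f s _).2 (hnx s).1⟩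
  obtain ⟨k, hk⟩ : ∃ k, (Planar_H f s).card = k + 1 := ⟨(Planar_H f s).card - 1, by omega⟩
  obtain ⟨h1, h2⟩ := Planar_iter h nx hnx s k (by omega)
  rw [hk, Function.iterate_succ_apply']
  rcases Planar_step h h1 (hnx _) with h3 | h3
  · exact h3
  · exfalso
    have h4 := Planar_B_step h h1 (hnx _) h3
    have h5 := Planar_B_lt f h3
    omega

lemma Planar_card {f : S → ℂ} {ng : S → S} (h : Planar f ng) (s : S) :
    Fintype.card S = 2 * ((Planar_H f s).card + 1) := by
  classical
  have hsn : s ≠ ng s := by
    intro e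
    have h1 := h.f_ng s
    rw [← e] at h1
    have h2 : f s = 0 := by
      have h3 : f s + f s = 0 := by nth_rewrite 1 [h1]; ring
      have h4 : (2 : ℂ) * f s = 0 := by rw [two_mul]; exact h3
      rcases mul_eq_zero.1 h4 with h5 | h5
      · norm_num at h5
      · exact h5
    exact h.ne s h2
  have hinj : Function.Injective ng := by
    intro a b e
    rw [← Planar_ng_ng h a, e, Planar_ng_ng h]
  have h1 : (Finset.univ : Finset S) =
      (insert s (Planar_H f s)) ∪ (insert s (Planar_H f s)).image ng := by
    ext t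
    simp only [Finset.mem_univ, Finset.mem_union, Finset.mem_insert, Finset.mem_image,
      Planar_mem_H, true_iff]
    rcases lt_trichotomy (cr f s t) 0 with h2 | h2 | h2
    · right
      refine ⟨ng t, Or.inr ?_, Planar_ng_ng h t⟩
      rw [Planar_cr_ng h]
      linarith
    · rcases Planar_line h h2 with h3 | h3
      · left; left; exact h3
      · right; exact ⟨s, Or.inl rfl, h3.symm⟩
    · left; right; exact h2
  have hdisj : Disjoint (insert s (Planar_H f s)) ((insert s (Planar_H f s)).image ng) := by
    rw [Finset.disjoint_left]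
    intro t ht ht'
    simp only [Finset.mem_insert, Finset.mem_image, Planar_mem_H] at ht ht'
    obtain ⟨r, hr, rfl⟩ := ht'
    rcases ht with h2 | h2 <;> rcases hr with h3 | h3
    · rw [h3] at h2
      exact hsn h2.symm
    · have h4 : r = ng s := by rw [← h2, Planar_ng_ng h]
      rw [h4, Planar_cr_ng h, Planar_cr_self] at h3
      linarith
    · rw [h3, Planar_cr_ng h, Planar_cr_self] at h2
      linarith
    · rw [Planar_cr_ng h] at h2
      linarith
  have hs : s ∉ Planar_H f s := by
    rw [Planar_mem_H, Planar_cr_self]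
    exact lt_irrefl _
  rw [← Finset.card_univ, h1, Finset.card_union_of_disjoint hdisj,
    Finset.card_image_of_injective _ hinj, Finset.card_insert_of_notMem hs]
  ring

/-- the structure of the cyclic order -/
theorem next_iter {f : S → ℂ} {ng : S → S} (h : Planar f ng) [Nonempty S] (nx : S → S)
    (hnx : ∀ s, IsNext f s (nx s)) :
    ∃ m, 2 ≤ m ∧ Fintype.card S = 2 * m ∧ (∀ s, nx^[m] s = ng s) ∧
      (∀ s k, 0 < k → k < m → 0 < cr f s (nx^[k] s)) ∧
      (∀ s t, ∃ k, k < 2 * m ∧ nx^[k] s = t) ∧
      (∀ s k, 0 < k → k < 2 * m → nx^[k] s ≠ s) := by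
  classical
  obtain ⟨s₀⟩ := ‹Nonempty S›
  set m := (Planar_H f s₀).card + 1 with hm
  have hcard : ∀ s, (Planar_H f s).card + 1 = m := by
    intro s
    have h1 := Planar_card h s
    have h2 := Planar_card h s₀
    omega
  have hpos : 0 < (Planar_H f s₀).card := by
    rw [Finset.card_pos]
    exact ⟨nx s₀, (Planar_mem_H f s₀ _).2 (hnx s₀).1⟩
  have hlast : ∀ s, nx^[m] s = ng s := by
    intro s
    rw [← hcard s]
    exact Planar_iter_last h nx hnx s
  have hin : ∀ s k, 0 < k → k < m → 0 < cr f s (nx^[k] s) := by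
    intro s k hk hk'
    obtain ⟨j, rfl⟩ : ∃ j, k = j + 1 := ⟨k - 1, by omega⟩
    have := hcard s
    exact (Planar_iter h nx hnx s j (by omega)).1
  have hcov : ∀ s t, 0 < cr f s t → ∃ k, k < m ∧ nx^[k] s = t := by
    intro s t ht
    have hc := hcard s
    have h1 : (Finset.range (Planar_H f s).card).image (fun k => nx^[k + 1] s) =
        Planar_H f s := by
      apply Finset.eq_of_subset_of_card_le
      · intro r hr
        rw [Finset.mem_image] at hr
        obtain ⟨k, hk, rfl⟩ := hr
        rw [Planar_mem_H]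
        exact (Planar_iter h nx hnx s k (Finset.mem_range.1 hk)).1
      · rw [Finset.card_image_of_injOn, Finset.card_range]
        intro j hj k hk e
        simp only at e
        have h2 := (Planar_iter h nx hnx s j (Finset.mem_range.1 hj)).2
        have h3 := (Planar_iter h nx hnx s k (Finset.mem_range.1 hk)).2
        rw [← h2, ← h3, e]
    have h2 := (Planar_mem_H f s t).2 ht
    rw [← h1, Finset.mem_image] at h2
    obtain ⟨k, hk, e⟩ := h2
    rw [Finset.mem_range] at hk
    exact ⟨k + 1, by omega, e⟩
  have hsurj : ∀ s t, ∃ k, k < 2 * m ∧ nx^[k] s = t := by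
    intro s t
    rcases lt_trichotomy (cr f s t) 0 with h2 | h2 | h2
    · obtain ⟨k, hk, e⟩ := hcov (ng s) t (by rw [Planar_ng_cr h]; linarith)
      refine ⟨k + m, by omega, ?_⟩
      rw [Function.iterate_add_apply, hlast, e]
    · rcases Planar_line h h2 with h3 | h3
      · exact ⟨0, by omega, h3.symm⟩
      · exact ⟨m, by omega, by rw [hlast, h3]⟩
    · obtain ⟨k, hk, e⟩ := hcov s t h2
      exact ⟨k, by omega, e⟩
  refine ⟨m, by omega, Planar_card h s₀, hlast, hin, hsurj, ?_⟩
  intro s k hk hk' e
  have hs : Function.Surjective (fun j : Fin (2 * m) => nx^[(j : ℕ)] s) := by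
    intro t
    obtain ⟨j, hj, e'⟩ := hsurj s t
    exact ⟨⟨j, hj⟩, e'⟩
  have hcs : Fintype.card S = 2 * m := Planar_card h s₀
  have hb : Function.Bijective (fun j : Fin (2 * m) => nx^[(j : ℕ)] s) := by
    rw [Fintype.bijective_iff_surjective_and_card]
    exact ⟨hs, by rw [Fintype.card_fin, hcs]⟩
  have h1 : (⟨k, hk'⟩ : Fin (2 * m)) = ⟨0, by omega⟩ := by
    apply hb.1
    simp only [Function.iterate_zero, id]
    exact e
  have h2 := congrArg Fin.val h1
  simp only at h2
  omega

end Pool.Agent.VeeC
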