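import Pool.Agent.VeeC.Geo1
import Pool.Agent.VeeC.Planar

set_option autoImplicit false

/-!
The cyclic order of the normals at a vertex.
-/

namespace Pool.Agent.VeeC

open Matrix ComplexConjugate

variable {κ : Type*} [Fintype κ] {a : κ → R3}

theorem Geo2_sv_dot (x : R3) : 0 < x ⬝ᵥ x ↔ x ≠ 0 := by
  constructor
  · rintro h rfl
    simp at h
  · intro h
    have h1 : 0 ≤ x ⬝ᵥ x := by
      simp only [dotProduct, Fin.sum_univ_three]
      nlinarith [mul_self_nonneg (x 0), mul_self_nonneg (x 1), mul_self_nonneg (x 2)]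
    refine lt_of_le_of_ne h1 fun h2 => h ?_
    exact dotProduct_self_eq_zero.1 h2.symm

/-- the directions of the normals at `v` -/
theorem Geo2_exists (ha : Sys3 a) (v : VT (LL a)) :
    ∃ f : {n : κ × Bool // Inc v n} → ℂ,
      Planar f (fun s => ⟨ngN s.1, s.2⟩) ∧
      (∀ s t, 0 < cr f s t ↔ 0 < det3 (pt a v) (nv a s.1) (nv a t.1)) := by
  have hpt : pt a v ≠ 0 := pt_ne rfl v
  obtain ⟨ζ, hζ⟩ := exists_zeta hpt
  have hsq : 0 < Real.sqrt (pt a v ⬝ᵥ pt a v) := Real.sqrt_pos.2 ((Geo2_sv_dot _).2 hpt)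
  have hin : ∀ s : {n : κ × Bool // Inc v n}, nv a s.1 ⬝ᵥ pt a v = 0 :=
    fun s => (inc_iff rfl v s.1).1 s.2
  have him : ∀ s t : {n : κ × Bool // Inc v n},
      (conj (ζ (nv a s.1)) * ζ (nv a t.1)).im = 0 → t.1 = s.1 ∨ t.1 = ngN s.1 := by
    intro s t h
    have h1 := (hζ _ _ (hin s) (hin t)).2
    rw [h, mul_zero] at h1
    exact (det3_eq_zero_iff ha s.2 t.2).1 h1.symm
  refine ⟨fun s => ζ (nv a s.1), ⟨?_, ?_, ?_, ?_⟩, ?_⟩
  · intro s
    show ζ (nv a (ngN s.1)) = - ζ (nv a s.1)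
    rw [nv_ngN, map_neg]
  · intro s h
    have h1 := (hζ _ _ (hin s) (hin s)).1
    have h2 : ζ (nv a s.1) = 0 := h
    rw [h2] at h1
    have h3 := (Geo2_sv_dot _).2 (nv_ne ha s.1)
    rw [← h1] at h3
    simp at h3
  · intro s t h h'
    rcases him s t h with h1 | h1
    · exact Subtype.ext h1.symm
    · exfalso
      have h2 : (conj (ζ (nv a s.1)) * ζ (nv a t.1)).re < 0 := by
        rw [h1, nv_ngN, map_neg, mul_neg, Complex.neg_re, (hζ _ _ (hin s) (hin s)).1]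
        have := (Geo2_sv_dot _).2 (nv_ne ha s.1)
        linarith
      exact absurd h' (not_lt.2 h2.le)
  · intro s
    obtain ⟨i, j, hij, hi, hj⟩ := v.2.2.2
    by_cases hsi : s.1.1 = i
    · refine ⟨⟨(j, true), hj⟩, fun h => ?_⟩
      rcases him _ _ h with h1 | h1
      · have := congrArg Prod.fst h1
        exact hij (by rw [← hsi, ← this])
      · have := congrArg Prod.fst h1
        exact hij (by rw [← hsi]; exact this.symm)
    · refine ⟨⟨(i, true), hi⟩, fun h => ?_⟩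
      rcases him _ _ h with h1 | h1
      · have := congrArg Prod.fst h1
        exact hsi this.symm
      · have := congrArg Prod.fst h1
        exact hsi this.symm
  · intro s t
    rw [← (hζ _ _ (hin s) (hin t)).2]
    constructor
    · intro h
      exact mul_pos hsq h
    · intro h
      exact (pos_iff_pos_of_mul_pos h).1 hsq

theorem Geo2_isNx_iff {v : VT (LL a)} {f : {n : κ × Bool // Inc v n} → ℂ}
    (hf : ∀ s t, 0 < cr f s t ↔ 0 < det3 (pt a v) (nv a s.1) (nv a t.1))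
    (n n' : κ × Bool) (h : Inc v n) (h' : Inc v n') :
    IsNx a v n n' ↔ IsNext f ⟨n, h⟩ ⟨n', h'⟩ := by
  constructor
  · rintro ⟨-, h1, h2⟩
    refine ⟨(hf ⟨n, h⟩ ⟨n', h'⟩).2 h1, fun r hr => ?_⟩
    rcases h2 r.1 r.2 ((hf ⟨n, h⟩ r).1 hr) with h3 | h3
    · exact Or.inl (Subtype.ext h3)
    · exact Or.inr ((hf ⟨n', h'⟩ r).2 h3)
  · rintro ⟨h1, h2⟩
    refine ⟨h', (hf ⟨n, h⟩ ⟨n', h'⟩).1 h1, fun n'' hn hd => ?_⟩
    rcases h2 ⟨n'', hn⟩ ((hf ⟨n, h⟩ ⟨n'', hn⟩).2 hd) with h3 | h3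
    · exact Or.inl (congrArg Subtype.val h3)
    · exact Or.inr ((hf ⟨n', h'⟩ ⟨n'', hn⟩).1 h3)

/-- the order only depends on orientations, so that it can be computed with any family with the
same sign vectors and orientations -/
theorem nx_spec (ha : Sys3 a) (v : VT (LL a)) (n : κ × Bool) (h : Inc v n) :
    IsNx a v n (nx a v n) := by
  classical
  obtain ⟨f, hP, hf⟩ := Geo2_exists ha v
  obtain ⟨t, ht, -⟩ := existsUnique_next hP ⟨n, h⟩
  have hex : ∃ n', IsNx a v n n' := ⟨t.1, (Geo2_isNx_iff hf n t.1 h t.2).2 ht⟩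
  unfold nx
  rw [dif_pos hex]
  exact hex.choose_spec

theorem nx_unique (ha : Sys3 a) (v : VT (LL a)) (n n' : κ × Bool) (h : Inc v n)
    (h' : IsNx a v n n') : n' = nx a v n := by
  classical
  obtain ⟨f, hP, hf⟩ := Geo2_exists ha v
  have h1 := nx_spec ha v n h
  have h2 := (existsUnique_next hP ⟨n, h⟩).unique
    ((Geo2_isNx_iff hf n n' h h'.1).1 h') ((Geo2_isNx_iff hf n _ h h1.1).1 h1)
  exact congrArg Subtype.val h2

theorem two_le_mm {L : Set (κ → SignType)} (v : VT L) : 2 ≤ mm v := by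
  classical
  obtain ⟨i, j, hij, hi, hj⟩ := v.2.2.2
  unfold mm
  refine Finset.one_lt_card.2 ⟨i, ?_, j, ?_, hij⟩
  · simpa using hi
  · simpa using hj

theorem Geo2_card (v : VT (LL a)) [Fintype {n : κ × Bool // Inc v n}] :
    Fintype.card {n : κ × Bool // Inc v n} = 2 * mm v := by
  classical
  have e : {n : κ × Bool // Inc v n} ≃ {i : κ // v.1 i = 0} × Bool :=
    { toFun := fun n => (⟨n.1.1, n.2⟩, n.1.2)
      invFun := fun p => ⟨(p.1.1, p.2), p.1.2⟩
      left_inv := fun n => rfl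
      right_inv := fun p => rfl }
  rw [Fintype.card_congr e, Fintype.card_prod, Fintype.card_bool, mul_comm]
  congr 1
  unfold mm
  rw [Fintype.card_subtype]

/-- the structure of the cyclic order at a vertex -/
theorem Geo2_main (ha : Sys3 a) (v : VT (LL a)) :
    (∀ n, Inc v n → (nx a v)^[mm v] n = ngN n) ∧
    (∀ n, Inc v n → ∀ k, 0 < k → k < mm v →
      0 < det3 (pt a v) (nv a n) (nv a ((nx a v)^[k] n))) ∧
    (∀ n n', Inc v n → Inc v n' → ∃ k, k < 2 * mm v ∧ (nx a v)^[k] n = n') ∧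
    (∀ n, Inc v n → ∀ k, 0 < k → k < 2 * mm v → (nx a v)^[k] n ≠ n) := by
  classical
  obtain ⟨f, hP, hf⟩ := Geo2_exists ha v
  set nx' : {n : κ × Bool // Inc v n} → {n : κ × Bool // Inc v n} :=
    fun s => ⟨nx a v s.1, (nx_spec ha v s.1 s.2).1⟩ with hnx'
  have hnx : ∀ s, IsNext f s (nx' s) := fun s =>
    (Geo2_isNx_iff hf s.1 (nx a v s.1) s.2 (nx_spec ha v s.1 s.2).1).1 (nx_spec ha v s.1 s.2)
  have hit : ∀ k s, (nx'^[k] s).1 = (nx a v)^[k] s.1 := by
    intro k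
    induction k with
    | zero => intro s; rfl
    | succ k ih =>
      intro s
      rw [Function.iterate_succ_apply', Function.iterate_succ_apply', ← ih s]
  have : Nonempty {n : κ × Bool // Inc v n} := by
    obtain ⟨i, j, -, hi, -⟩ := v.2.2.2
    exact ⟨⟨(i, true), hi⟩⟩
  obtain ⟨m, hm2, hcard, h1, h2, h3, h4⟩ := next_iter hP nx' hnx
  rw [Geo2_card v] at hcard
  have hm : m = mm v := by omega
  subst hm
  refine ⟨fun n hn => ?_, fun n hn k h0 hk => ?_, fun n n' hn hn' => ?_, fun n hn k h0 hk he => ?_⟩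
  · have := congrArg Subtype.val (h1 ⟨n, hn⟩)
    rw [hit] at this
    exact this
  · have := (hf _ _).1 (h2 ⟨n, hn⟩ k h0 hk)
    rw [hit] at this
    exact this
  · obtain ⟨k, hk, he⟩ := h3 ⟨n, hn⟩ ⟨n', hn'⟩
    refine ⟨k, hk, ?_⟩
    have := congrArg Subtype.val he
    rw [hit] at this
    exact this
  · apply h4 ⟨n, hn⟩ k h0 hk
    apply Subtype.ext
    rw [hit]
    exact he

theorem nx_pos (ha : Sys3 a) (v : VT (LL a)) (n : κ × Bool) (h : Inc v n) (k : ℕ) (h0 : 0 < k)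
    (hk : k < mm v) : 0 < det3 (pt a v) (nv a n) (nv a ((nx a v)^[k] n)) :=
  (Geo2_main ha v).2.1 n h k h0 hk

theorem nx_iter (ha : Sys3 a) (v : VT (LL a)) (n : κ × Bool) (h : Inc v n) :
    (nx a v)^[mm v] n = ngN n :=
  (Geo2_main ha v).1 n h

theorem nx_ne (ha : Sys3 a) (v : VT (LL a)) (n : κ × Bool) (h : Inc v n) (k : ℕ) (h0 : 0 < k)
    (hk : k < 2 * mm v) : (nx a v)^[k] n ≠ n :=
  (Geo2_main ha v).2.2.2 n h k h0 hk

theorem nx_trans (ha : Sys3 a) (v : VT (LL a)) (n n' : κ × Bool) (h : Inc v n) (h' : Inc v n') :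
    ∃ k, k < 2 * mm v ∧ (nx a v)^[k] n = n' :=
  (Geo2_main ha v).2.2.1 n n' h h'

theorem nx_rev (ha : Sys3 a) (v : VT (LL a)) (n : κ × Bool) (h : Inc v n) :
    nx a (ngV v) (nx a v n) = n := by
  classical
  obtain ⟨f, hP, hf⟩ := Geo2_exists ha v
  have hs := nx_spec ha v n h
  have hinc : ∀ {n' : κ × Bool}, Inc (ngV v) n' ↔ Inc v n' := by
    intro n'
    show - v.1 n'.1 = 0 ↔ v.1 n'.1 = 0
    simp
  obtain ⟨c, hc, hpt⟩ := pt_ngV ha v
  have hdet : ∀ n' n'' : κ × Bool, 0 < det3 (pt a (ngV v)) (nv a n') (nv a n'') ↔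
      0 < det3 (pt a v) (nv a n'') (nv a n') := by
    intro n' n''
    rw [hpt, ← neg_smul, det3_smul1, det3_swap (pt a v) (nv a n'') (nv a n')]
    rw [neg_mul_neg]
    exact mul_pos_iff_of_pos_left hc
  have hnext := (Geo2_isNx_iff hf n _ h hs.1).1 hs
  have hrev := isNext_rev hP hnext
  have hneg : ∀ s t : {n : κ × Bool // Inc v n}, cr f s t < 0 ↔
      0 < det3 (pt a v) (nv a t.1) (nv a s.1) := by
    intro s t
    rw [← hf]
    have : cr f s t = - cr f t s := by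
      simp only [cr, Complex.mul_im, Complex.conj_re, Complex.conj_im]
      ring
    rw [this]
    simp
  symm
  apply nx_unique ha (ngV v) (nx a v n) n (hinc.2 hs.1)
  refine ⟨hinc.2 h, (hdet _ _).2 hs.2.1, fun n'' hn'' hd => ?_⟩
  have h1 := hrev ⟨n'', hinc.1 hn''⟩
    ((hneg ⟨nx a v n, hs.1⟩ ⟨n'', hinc.1 hn''⟩).2 ((hdet _ _).1 hd))
  rcases h1 with h2 | h2
  · exact Or.inl (congrArg Subtype.val h2)
  · exact Or.inr ((hdet _ _).2 ((hneg ⟨n, h⟩ ⟨n'', hinc.1 hn''⟩).1 h2))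

end Pool.Agent.VeeC
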