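import Pool.Agent.VeeC.Geo1
import Pool.Agent.VeeC.Planar

set_option autoImplicit false

/-!
The cyclic order of the vertices on a great circle.
-/

namespace Pool.Agent.VeeC

open Matrix ComplexConjugate

variable {κ : Type*} [Fintype κ] {a : κ → R3}

theorem Geo3_dot_pos (x : R3) : 0 < x ⬝ᵥ x ↔ x ≠ 0 := by
  constructor
  · rintro h rfl
    simp at h
  · intro h
    have h1 : 0 ≤ x ⬝ᵥ x := by
      simp only [dotProduct, Fin.sum_univ_three]
      nlinarith [mul_self_nonneg (x 0), mul_self_nonneg (x 1), mul_self_nonneg (x 2)]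
    refine lt_of_le_of_ne h1 fun h2 => h ?_
    exact dotProduct_self_eq_zero.1 h2.symm

theorem Geo3_ngV_ngV (v : VT (LL a)) : ngV (ngV v) = v := vert_ext (neg_neg v.1)

/-- the factor between the antisymmetric point and the point of a vertex -/
theorem Geo3_anti (ha : Sys3 a) (v : VT (LL a)) :
    ∃ c : ℝ, 0 < c ∧ pt a v - pt a (ngV v) = c • pt a v := by
  obtain ⟨c, hc, h⟩ := pt_ngV ha v
  refine ⟨1 + c, by linarith, ?_⟩
  rw [h, sub_neg_eq_add, add_smul, one_smul]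

theorem Geo3_inc_ngV {n : κ × Bool} {v : VT (LL a)} : Inc (ngV v) n ↔ Inc v n := by
  show - v.1 n.1 = 0 ↔ v.1 n.1 = 0
  simp

/-- there is a second vertex on each great circle -/
theorem Geo3_second (ha : Sys3 a) (n : κ × Bool) (v : VT (LL a)) (h : Inc v n) :
    ∃ w : VT (LL a), Inc w n ∧ w ≠ v ∧ w ≠ ngV v := by
  classical
  obtain ⟨k, hk⟩ := exists_not_inc v
  obtain ⟨w, hw, hw'⟩ := exists_vert ha n (k, true)
  refine ⟨w, hw, ?_, ?_⟩
  · rintro rfl
    exact hk hw'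
  · rintro rfl
    exact hk (Geo3_inc_ngV.1 hw')

/-- the directions of the vertices on `n` -/
theorem Geo3_exists (ha : Sys3 a) (n : κ × Bool) :
    ∃ f : {v : VT (LL a) // Inc v n} → ℂ,
      Planar f (fun s => ⟨ngV s.1, Geo3_inc_ngV.2 s.2⟩) ∧
      (∀ s t, 0 < cr f s t ↔ 0 < det3 (nv a n) (pt a s.1) (pt a t.1)) := by
  have hn : nv a n ≠ 0 := nv_ne ha n
  obtain ⟨ζ, hζ⟩ := exists_zeta hn
  have hsq : 0 < Real.sqrt (nv a n ⬝ᵥ nv a n) := Real.sqrt_pos.2 ((Geo3_dot_pos _).2 hn)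
  have hin : ∀ s : {v : VT (LL a) // Inc v n}, pt a s.1 ⬝ᵥ nv a n = 0 := by
    intro s
    rw [dotProduct_comm]
    exact (inc_iff rfl s.1 n).1 s.2
  have hfac := fun s : {v : VT (LL a) // Inc v n} => Geo3_anti ha s.1
  choose c hc hcp using hfac
  have hval : ∀ s : {v : VT (LL a) // Inc v n},
      ζ (pt a s.1 - pt a (ngV s.1)) = (c s : ℂ) * ζ (pt a s.1) := by
    intro s
    rw [hcp s, map_smul, Complex.real_smul]
  have hre : ∀ s t : {v : VT (LL a) // Inc v n},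
      (conj (ζ (pt a s.1 - pt a (ngV s.1))) * ζ (pt a t.1 - pt a (ngV t.1))).re
        = c s * c t * (pt a s.1 ⬝ᵥ pt a t.1) := by
    intro s t
    rw [hval s, hval t, ← (hζ _ _ (hin s) (hin t)).1]
    simp only [map_mul, Complex.conj_ofReal, Complex.mul_re, Complex.mul_im, Complex.ofReal_re,
      Complex.ofReal_im, Complex.conj_re, Complex.conj_im]
    ring
  have him' : ∀ s t : {v : VT (LL a) // Inc v n},
      Real.sqrt (nv a n ⬝ᵥ nv a n) *
      (conj (ζ (pt a s.1 - pt a (ngV s.1))) * ζ (pt a t.1 - pt a (ngV t.1))).im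
        = c s * c t * det3 (nv a n) (pt a s.1) (pt a t.1) := by
    intro s t
    rw [hval s, hval t, ← (hζ _ _ (hin s) (hin t)).2]
    simp only [map_mul, Complex.conj_ofReal, Complex.mul_re, Complex.mul_im, Complex.ofReal_re,
      Complex.ofReal_im, Complex.conj_re, Complex.conj_im]
    ring
  have hcc : ∀ s t : {v : VT (LL a) // Inc v n}, 0 < c s * c t := fun s t => mul_pos (hc s) (hc t)
  have him : ∀ s t : {v : VT (LL a) // Inc v n},
      (conj (ζ (pt a s.1 - pt a (ngV s.1))) * ζ (pt a t.1 - pt a (ngV t.1))).im = 0 →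
        t.1 = s.1 ∨ t.1 = ngV s.1 := by
    intro s t h
    have h1 := him' s t
    rw [h, mul_zero] at h1
    have h2 : det3 (nv a n) (pt a s.1) (pt a t.1) = 0 := by
      rcases mul_eq_zero.1 h1.symm with h3 | h3
      · exact absurd h3 (hcc s t).ne'
      · exact h3
    exact (det3_eq_zero_iff' ha s.2 t.2).1 h2
  refine ⟨fun s => ζ (pt a s.1 - pt a (ngV s.1)), ⟨?_, ?_, ?_, ?_⟩, ?_⟩
  · intro s
    show ζ (pt a (ngV s.1) - pt a (ngV (ngV s.1))) = - ζ (pt a s.1 - pt a (ngV s.1))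
    rw [Geo3_ngV_ngV, ← map_neg, neg_sub]
  · intro s h
    have h1 := hre s s
    have h2 : ζ (pt a s.1 - pt a (ngV s.1)) = 0 := h
    rw [h2] at h1
    have h3 := mul_pos (hcc s s) ((Geo3_dot_pos _).2 (pt_ne rfl s.1))
    rw [← h1] at h3
    simp at h3
  · intro s t h h'
    rcases him s t h with h1 | h1
    · exact Subtype.ext h1.symm
    · exfalso
      obtain ⟨d, hd, hpd⟩ := pt_ngV ha s.1
      have h2 := hre s t
      have h3 : pt a s.1 ⬝ᵥ pt a t.1 < 0 := by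
        rw [h1, hpd, dotProduct_neg, dotProduct_smul, smul_eq_mul]
        have := mul_pos hd ((Geo3_dot_pos _).2 (pt_ne rfl s.1))
        linarith
      have h4 := mul_neg_of_pos_of_neg (hcc s t) h3
      rw [← h2] at h4
      exact absurd h' (not_lt.2 h4.le)
  · intro s
    obtain ⟨w, hw, hw1, hw2⟩ := Geo3_second ha n s.1 s.2
    refine ⟨⟨w, hw⟩, fun h => ?_⟩
    rcases him s ⟨w, hw⟩ h with h1 | h1
    · exact hw1 h1
    · exact hw2 h1
  · intro s t
    have h1 := him' s t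
    constructor
    · intro h
      have h2 : 0 < c s * c t * det3 (nv a n) (pt a s.1) (pt a t.1) := by
        rw [← h1]; exact mul_pos hsq h
      exact (pos_iff_pos_of_mul_pos h2).1 (hcc s t)
    · intro h
      have h2 := mul_pos (hcc s t) h
      rw [← h1] at h2
      exact (pos_iff_pos_of_mul_pos h2).1 hsq

theorem Geo3_isNy_iff {n : κ × Bool} {f : {v : VT (LL a) // Inc v n} → ℂ}
    (hf : ∀ s t, 0 < cr f s t ↔ 0 < det3 (nv a n) (pt a s.1) (pt a t.1))
    (v v' : VT (LL a)) (h : Inc v n) (h' : Inc v' n) :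
    IsNy a n v v' ↔ IsNext f ⟨v, h⟩ ⟨v', h'⟩ := by
  constructor
  · rintro ⟨-, h1, h2⟩
    refine ⟨(hf ⟨v, h⟩ ⟨v', h'⟩).2 h1, fun r hr => ?_⟩
    rcases h2 r.1 r.2 ((hf ⟨v, h⟩ r).1 hr) with h3 | h3
    · exact Or.inl (Subtype.ext h3)
    · exact Or.inr ((hf ⟨v', h'⟩ r).2 h3)
  · rintro ⟨h1, h2⟩
    refine ⟨h', (hf ⟨v, h⟩ ⟨v', h'⟩).1 h1, fun v'' hn hd => ?_⟩
    rcases h2 ⟨v'', hn⟩ ((hf ⟨v, h⟩ ⟨v'', hn⟩).2 hd) with h3 | h3
    · exact Or.inl (congrArg Subtype.val h3)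
    · exact Or.inr ((hf ⟨v', h'⟩ ⟨v'', hn⟩).1 h3)

theorem ny_spec (ha : Sys3 a) (n : κ × Bool) (v : VT (LL a)) (h : Inc v n) :
    IsNy a n v (ny a n v) := by
  classical
  obtain ⟨f, hP, hf⟩ := Geo3_exists ha n
  obtain ⟨t, ht, -⟩ := existsUnique_next hP ⟨v, h⟩
  have hex : ∃ v', IsNy a n v v' := ⟨t.1, (Geo3_isNy_iff hf v t.1 h t.2).2 ht⟩
  unfold ny
  rw [dif_pos hex]
  exact hex.choose_spec

theorem ny_unique (ha : Sys3 a) (n : κ × Bool) (v v' : VT (LL a)) (h : Inc v n)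
    (h' : IsNy a n v v') : v' = ny a n v := by
  classical
  obtain ⟨f, hP, hf⟩ := Geo3_exists ha n
  have h1 := ny_spec ha n v h
  have h2 := (existsUnique_next hP ⟨v, h⟩).unique
    ((Geo3_isNy_iff hf v v' h h'.1).1 h') ((Geo3_isNy_iff hf v _ h h1.1).1 h1)
  exact congrArg Subtype.val h2

/-- the structure of the cyclic order on a great circle -/
theorem Geo3_main (ha : Sys3 a) (n : κ × Bool) :
    (∀ v : VT (LL a), Inc v n → (ny a n)^[pp (LL a) n] v = ngV v) ∧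
    (∀ v : VT (LL a), Inc v n → ∀ k, 0 < k → k < pp (LL a) n →
      0 < det3 (nv a n) (pt a v) (pt a ((ny a n)^[k] v))) ∧
    (∀ v v' : VT (LL a), Inc v n → Inc v' n →
      ∃ k, k < 2 * pp (LL a) n ∧ (ny a n)^[k] v = v') ∧
    (∀ v : VT (LL a), Inc v n → ∀ k, 0 < k → k < 2 * pp (LL a) n → (ny a n)^[k] v ≠ v) := by
  classical
  obtain ⟨f, hP, hf⟩ := Geo3_exists ha n
  set ny' : {v : VT (LL a) // Inc v n} → {v : VT (LL a) // Inc v n} :=
    fun s => ⟨ny a n s.1, (ny_spec ha n s.1 s.2).1⟩ with hny'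
  have hny : ∀ s, IsNext f s (ny' s) := fun s =>
    (Geo3_isNy_iff hf s.1 (ny a n s.1) s.2 (ny_spec ha n s.1 s.2).1).1 (ny_spec ha n s.1 s.2)
  have hit : ∀ k s, (ny'^[k] s).1 = (ny a n)^[k] s.1 := by
    intro k
    induction k with
    | zero => intro s; rfl
    | succ k ih =>
      intro s
      rw [Function.iterate_succ_apply', Function.iterate_succ_apply', ← ih s]
  have : Nonempty {v : VT (LL a) // Inc v n} := by
    obtain ⟨v, hv, -⟩ := exists_vert ha n n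
    exact ⟨⟨v, hv⟩⟩
  obtain ⟨m, hm2, hcard, h1, h2, h3, h4⟩ := next_iter hP ny' hny
  have hm : m = pp (LL a) n := by
    unfold pp
    have : (Finset.univ.filter fun v : VT (LL a) => Inc v n).card = 2 * m := by
      rw [← hcard, Fintype.card_subtype]
    rw [this]; omega
  subst hm
  refine ⟨fun v hv => ?_, fun v hv k h0 hk => ?_, fun v v' hv hv' => ?_, fun v hv k h0 hk he => ?_⟩
  · have := congrArg Subtype.val (h1 ⟨v, hv⟩)
    rw [hit] at this
    exact this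
  · have := (hf _ _).1 (h2 ⟨v, hv⟩ k h0 hk)
    rw [hit] at this
    exact this
  · obtain ⟨k, hk, he⟩ := h3 ⟨v, hv⟩ ⟨v', hv'⟩
    refine ⟨k, hk, ?_⟩
    have := congrArg Subtype.val he
    rw [hit] at this
    exact this
  · apply h4 ⟨v, hv⟩ k h0 hk
    apply Subtype.ext
    rw [hit]
    exact he

theorem ny_pos (ha : Sys3 a) (n : κ × Bool) (v : VT (LL a)) (h : Inc v n) (k : ℕ) (h0 : 0 < k)
    (hk : k < pp (LL a) n) : 0 < det3 (nv a n) (pt a v) (pt a ((ny a n)^[k] v)) :=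
  (Geo3_main ha n).2.1 v h k h0 hk

theorem ny_iter (ha : Sys3 a) (n : κ × Bool) (v : VT (LL a)) (h : Inc v n) :
    (ny a n)^[pp (LL a) n] v = ngV v :=
  (Geo3_main ha n).1 v h

theorem ny_ne (ha : Sys3 a) (n : κ × Bool) (v : VT (LL a)) (h : Inc v n) (k : ℕ) (h0 : 0 < k)
    (hk : k < 2 * pp (LL a) n) : (ny a n)^[k] v ≠ v :=
  (Geo3_main ha n).2.2.2 v h k h0 hk

theorem ny_trans (ha : Sys3 a) (n : κ × Bool) (v v' : VT (LL a)) (h : Inc v n) (h' : Inc v' n) :
    ∃ k, k < 2 * pp (LL a) n ∧ (ny a n)^[k] v = v' :=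
  (Geo3_main ha n).2.2.1 v v' h h'

theorem ny_rev (ha : Sys3 a) (n : κ × Bool) (v : VT (LL a)) (h : Inc v n) :
    ny a (ngN n) (ny a n v) = v := by
  classical
  obtain ⟨f, hP, hf⟩ := Geo3_exists ha n
  have hs := ny_spec ha n v h
  have hinc : ∀ {v' : VT (LL a)}, Inc v' (ngN n) ↔ Inc v' n := Iff.rfl
  have hdet : ∀ v' v'' : VT (LL a), 0 < det3 (nv a (ngN n)) (pt a v') (pt a v'') ↔
      0 < det3 (nv a n) (pt a v'') (pt a v') := by
    intro v' v''
    rw [nv_ngN, show - nv a n = (-1 : ℝ) • nv a n by simp, det3_smul1,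
      det3_swap (nv a n) (pt a v'') (pt a v'), neg_one_mul, neg_neg]
  have hnext := (Geo3_isNy_iff hf v _ h hs.1).1 hs
  have hrev := isNext_rev hP hnext
  have hneg : ∀ s t : {v : VT (LL a) // Inc v n}, cr f s t < 0 ↔
      0 < det3 (nv a n) (pt a t.1) (pt a s.1) := by
    intro s t
    rw [← hf]
    have : cr f s t = - cr f t s := by
      simp only [cr, Complex.mul_im, Complex.conj_re, Complex.conj_im]
      ring
    rw [this]
    simp
  symm
  apply ny_unique ha (ngN n) (ny a n v) v (hinc.2 hs.1)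
  refine ⟨hinc.2 h, (hdet _ _).2 hs.2.1, fun v'' hv'' hd => ?_⟩
  have h1 := hrev ⟨v'', hinc.1 hv''⟩
    ((hneg ⟨ny a n v, hs.1⟩ ⟨v'', hinc.1 hv''⟩).2 ((hdet _ _).1 hd))
  rcases h1 with h2 | h2
  · exact Or.inl (congrArg Subtype.val h2)
  · exact Or.inr ((hdet _ _).2 ((hneg ⟨v, h⟩ ⟨v'', hinc.1 hv''⟩).1 h2))

theorem Geo3_sign_pos {x : ℝ} {s : SignType} (h : s = SignType.sign x) :
    (s = 1 ↔ 0 < x) ∧ (s = -1 ↔ x < 0) ∧ (s = 0 ↔ x = 0) := by
  subst h
  exact ⟨sign_eq_one_iff, sign_eq_neg_one_iff, sign_eq_zero_iff⟩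

/-- the linear relation between four vectors -/
theorem Geo3_four (M N p q r : R3) :
    det3 N q r * (M ⬝ᵥ p) - det3 N p r * (M ⬝ᵥ q) + det3 N p q * (M ⬝ᵥ r)
      = det3 p q r * (M ⬝ᵥ N) := by
  simp only [det3, dotProduct, Fin.sum_univ_three, cross_apply, Matrix.cons_val_zero,
    Matrix.cons_val_one, Matrix.cons_val_two, Matrix.head_cons, Matrix.tail_cons]
  ring

/-- an edge does not cross a great circle -/
theorem side_ny (ha : Sys3 a) (n : κ × Bool) (v : VT (LL a)) (n' : κ × Bool) (h : Inc v n')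
    (h1 : side n v ≠ 0) (h2 : side n (ny a n' v) ≠ 0) : side n (ny a n' v) = side n v := by
  classical
  set w := ny a n' v with hw
  have hs := ny_spec ha n' v h
  rw [← hw] at hs
  obtain ⟨hwi, hdet, hnext⟩ := hs
  obtain ⟨pv1, pv2, pv3⟩ := Geo3_sign_pos (side_eq (a := a) rfl v n)
  obtain ⟨pw1, pw2, pw3⟩ := Geo3_sign_pos (side_eq (a := a) rfl w n)
  set X := nv a n ⬝ᵥ pt a v with hX
  set Y := nv a n ⬝ᵥ pt a w with hY
  by_contra hne
  have hX0 : X ≠ 0 := fun h0 => h1 (pv3.2 h0)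
  have hY0 : Y ≠ 0 := fun h0 => h2 (pw3.2 h0)
  have hXY : X * Y < 0 := by
    rcases lt_or_gt_of_ne hX0 with hx | hx <;> rcases lt_or_gt_of_ne hY0 with hy | hy
    · exact absurd ((pw2.2 hy).trans (pv2.2 hx).symm) hne
    · exact mul_neg_of_neg_of_pos hx hy
    · exact mul_neg_of_pos_of_neg hx hy
    · exact absurd ((pw1.2 hy).trans (pv1.2 hx).symm) hne
  -- the meeting point
  obtain ⟨u, hu, hu'⟩ := exists_vert ha n n'
  have e1 : nv a n' ⬝ᵥ pt a v = 0 := (inc_iff rfl v n').1 h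
  have e2 : nv a n' ⬝ᵥ pt a w = 0 := (inc_iff rfl w n').1 hwi
  have e3 : nv a n' ⬝ᵥ pt a u = 0 := (inc_iff rfl u n').1 hu'
  have e4 : nv a n ⬝ᵥ pt a u = 0 := (inc_iff rfl u n).1 hu
  have hcop : det3 (pt a v) (pt a w) (pt a u) = 0 := by
    have h5 := Geo3_four (nv a n') (nv a n') (pt a v) (pt a w) (pt a u)
    rw [e1, e2, e3] at h5
    have h6 := (Geo3_dot_pos _).2 (nv_ne ha n')
    have h7 : det3 (pt a v) (pt a w) (pt a u) * (nv a n' ⬝ᵥ nv a n') = 0 := by
      rw [← h5]; ring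
    rcases mul_eq_zero.1 h7 with h8 | h8
    · exact h8
    · exact absurd h8 h6.ne'
  have hrel := Geo3_four (nv a n) (nv a n') (pt a v) (pt a w) (pt a u)
  rw [hcop, e4, zero_mul, mul_zero, add_zero, ← hX, ← hY] at hrel
  set A := det3 (nv a n') (pt a v) (pt a u) with hA
  set B := det3 (nv a n') (pt a w) (pt a u) with hB
  -- hrel : B * X - A * Y = 0
  have hnotw : ∀ z : VT (LL a), Inc z n → z ≠ w := by
    intro z hz hzw
    rw [hY, ← hzw] at hY0
    exact hY0 ((inc_iff rfl z n).1 hz)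
  have hAB : A * (X * Y) = B * (X * X) := by
    have : B * X = A * Y := by linarith
    calc A * (X * Y) = (A * Y) * X := by ring
      _ = (B * X) * X := by rw [this]
      _ = B * (X * X) := by ring
  have hXX : 0 < X * X := mul_self_pos.2 hX0
  rcases lt_trichotomy A 0 with hA0 | hA0 | hA0
  · have hB0 : 0 < B := by
      have h5 : 0 < A * (X * Y) := mul_pos_of_neg_of_neg hA0 hXY
      rw [hAB] at h5
      exact (pos_iff_pos_of_mul_pos h5).2 hXX
    obtain ⟨c, hc, hcp⟩ := pt_ngV ha u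
    have h5 : ∀ z : R3, det3 (nv a n') z (pt a (ngV u)) = - (c * det3 (nv a n') z (pt a u)) := by
      intro z
      rw [hcp, ← neg_smul, det3_smul3]
      ring
    have h6 := hnext (ngV u) (Geo3_inc_ngV.2 hu') (by
      rw [h5, ← hA]
      have := mul_neg_of_pos_of_neg hc hA0
      linarith)
    rcases h6 with h7 | h7
    · exact hnotw (ngV u) (Geo3_inc_ngV.2 hu) h7
    · rw [h5, ← hB] at h7
      have := mul_pos hc hB0
      linarith
  · rcases (det3_eq_zero_iff' ha h hu').1 hA0 with h5 | h5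
    · rw [h5] at hu
      exact hX0 ((inc_iff rfl v n).1 hu)
    · rw [h5] at hu
      exact hX0 ((inc_iff rfl v n).1 (Geo3_inc_ngV.1 hu))
  · have hB0 : B < 0 := by
      have h5 : A * (X * Y) < 0 := mul_neg_of_pos_of_neg hA0 hXY
      rw [hAB] at h5
      exact neg_of_mul_neg_left h5 hXX.le
    rcases hnext u hu' hA0 with h7 | h7
    · exact hnotw u hu h7
    · linarith

end Pool.Agent.VeeC
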