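import Pool.Agent.VeeC.Simp3
import Pool.Agent.VeeC.Geo3

set_option autoImplicit false

namespace Pool.Agent.VeeC

open Matrix

variable {κ : Type*} [Fintype κ] {a : κ → R3}

theorem Geo5_step (ha : Sys3 a) {N : Fin 3 → κ × Bool} (hN : Simple a N) {v w : VT (LL a)}
    (h0 : Inc v (N 0)) (h1 : Inc v (N 1)) (h2 : side (N 2) v = 1)
    (h1' : Inc w (N 1)) (h2' : Inc w (N 2)) (h0' : side (N 0) w = 1) :
    stepF ngN (nx a) (ny a) (v, N 0) = (w, N 1) := by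
  have e1 : nx a v (N 0) = ngN (N 1) := hN.nx_eq ha h0 h1 h2
  have e2 : ny a (ngN (N 1)) v = w := hN.ny_eq ha h0 h1 h2 h1' h2' h0'
  show (ny a (nx a v (N 0)) v, ngN (nx a v (N 0))) = (w, N 1)
  rw [e1, e2]
  simp [ngN]

theorem Geo5_cycle (ha : Sys3 a) (v : VT (LL a)) (n : κ × Bool) (h : Inc v n) :
    ∃ N : Fin 3 → κ × Bool, ∃ w1 w2 : VT (LL a), N 0 = n ∧ side (N 2) v = 1 ∧
      stepF ngN (nx a) (ny a) (v, n) = (w1, N 1) ∧
      stepF ngN (nx a) (ny a) (w1, N 1) = (w2, N 2) ∧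
      stepF ngN (nx a) (ny a) (w2, N 2) = (v, n) := by
  obtain ⟨N, hN, hN0, hN1, hN2⟩ := exists_simple_of_dart ha v n h
  have h0 : Inc v (N 0) := by rw [hN0]; exact h
  have hN' := hN.rotate
  obtain ⟨w1, p0, p1, p2⟩ := hN'.exists_vert ha
  have hN'' := hN'.rotate
  obtain ⟨w2, q0, q1, q2⟩ := hN''.exists_vert ha
  have p0' : Inc w1 (N 1) := p0
  have p1' : Inc w1 (N 2) := p1
  have p2' : side (N 0) w1 = 1 := p2
  have q0' : Inc w2 (N 2) := q0
  have q1' : Inc w2 (N 0) := q1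
  have q2' : side (N 1) w2 = 1 := q2
  refine ⟨N, w1, w2, hN0, hN2, ?_, ?_, ?_⟩
  · have := Geo5_step ha hN h0 hN1 hN2 p0' p1' p2'
    rw [hN0] at this
    exact this
  · exact Geo5_step ha hN' p0 p1 p2 q0' q1' q2'
  · have := Geo5_step ha hN'' q0 q1 q2 h0 hN1 hN2
    have e : (![(![N 1, N 2, N 0] : Fin 3 → κ × Bool) 1, (![N 1, N 2, N 0] : Fin 3 → κ × Bool) 2,
      (![N 1, N 2, N 0] : Fin 3 → κ × Bool) 0] : Fin 3 → κ × Bool) 1 = n := hN0
    rw [e] at this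
    exact this

theorem tri (ha : Sys3 a) (v : VT (LL a)) (n : κ × Bool) (h : Inc v n) :
    stepF ngN (nx a) (ny a) (stepF ngN (nx a) (ny a) (stepF ngN (nx a) (ny a) (v, n))) =
      (v, n) := by
  obtain ⟨N, w1, w2, -, -, e1, e2, e3⟩ := Geo5_cycle ha v n h
  rw [e1, e2, e3]

/-- the third side of the chamber to the left of a dart -/
theorem tri_side (ha : Sys3 a) (v : VT (LL a)) (n : κ × Bool) (h : Inc v n) :
    side (stepF ngN (nx a) (ny a) (stepF ngN (nx a) (ny a) (v, n))).2 v = 1 := by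
  obtain ⟨N, w1, w2, -, hs, e1, e2, -⟩ := Geo5_cycle ha v n h
  rw [e1, e2]
  exact hs

end Pool.Agent.VeeC
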