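import Pool.Agent.VeeC.Geo5

set_option autoImplicit false

/-!
Euler's formula, by counting the corners of the chambers with respect to a generic base point `B`:
a corner is good if its two walls are on the same side of `B`. Every vertex has exactly two good
corners, every chamber has one, except for the two chambers of `B` and `-B`, which have three.
-/

namespace Pool.Agent.VeeC

open Matrix

variable {κ : Type*} [Fintype κ] {a : κ → R3}

theorem Geo6_id (x u w z y : R3) : det3 x u w * (z ⬝ᵥ y) + det3 x w z * (u ⬝ᵥ y) +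
    det3 x z u * (w ⬝ᵥ y) = det3 u w z * (x ⬝ᵥ y) := by
  simp [det3, crossProduct, dotProduct, Fin.sum_univ_three]
  ring

theorem Geo6_zero {x y z u : R3} (h : det3 x y z ≠ 0) (h1 : x ⬝ᵥ u = 0) (h2 : y ⬝ᵥ u = 0)
    (h3 : z ⬝ᵥ u = 0) : u = 0 := by
  have key : ∀ t : R3, det3 x y z * (u ⬝ᵥ t) = 0 := by
    intro t
    have h4 : det3 x y z * (u ⬝ᵥ t) = (x ⬝ᵥ u) * (crossProduct y z ⬝ᵥ t) +
        (y ⬝ᵥ u) * (crossProduct z x ⬝ᵥ t) + (z ⬝ᵥ u) * (crossProduct x y ⬝ᵥ t) := by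
      simp [det3, crossProduct, dotProduct, Fin.sum_univ_three]
      ring
    rw [h4, h1, h2, h3]
    ring
  have h5 := key u
  have h6 : u ⬝ᵥ u = 0 := by
    rcases mul_eq_zero.1 h5 with h7 | h7
    · exact absurd h7 h
    · exact h7
  exact dotProduct_self_eq_zero.1 h6

theorem Geo6_d1 (x y : R3) : det3 x x y = 0 := by
  simp [det3, crossProduct, dotProduct, Fin.sum_univ_three]
  ring

theorem Geo6_d2 (x y : R3) : det3 x y x = 0 := by
  simp [det3, crossProduct, dotProduct, Fin.sum_univ_three]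
  ring

theorem Geo6_ngN (n : κ × Bool) (B : R3) : nv a (ngN n) ⬝ᵥ B = - (nv a n ⬝ᵥ B) := by
  rw [nv_ngN, neg_dotProduct]

theorem Geo6_ngN_ngN (n : κ × Bool) : ngN (ngN n) = n := by
  simp [ngN]

theorem Geo6_nv_ne {B : R3} (hB : ∀ i, a i ⬝ᵥ B ≠ 0) (n : κ × Bool) : nv a n ⬝ᵥ B ≠ 0 := by
  unfold nv
  rw [smul_dotProduct, smul_eq_mul]
  refine mul_ne_zero ?_ (hB _)
  unfold sgn
  split_ifs <;> norm_num

theorem Geo6_key (ha : Sys3 a) {B : R3} {v : VT (LL a)} {n n' : κ × Bool} (h : Inc v n)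
    (h' : Inc v n') (hD : 0 < det3 (pt a v) (nv a n) (nv a n')) (h1 : 0 < nv a n ⬝ᵥ B)
    (h2 : nv a (nx a v n) ⬝ᵥ B < 0) (h3 : 0 < nv a n' ⬝ᵥ B) : False := by
  obtain ⟨hi, hpos, hmin⟩ := nx_spec ha v n h
  rcases hmin n' h' hD with h4 | h4
  · rw [← h4] at h2
    linarith
  · have e1 := Geo6_id (pt a v) (nv a n) (nv a n') (nv a (nx a v n)) B
    have e2 := Geo6_id (pt a v) (nv a n) (nv a n') (nv a (nx a v n)) (pt a v)
    have o1 := (inc_iff rfl v n).1 h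
    have o2 := (inc_iff rfl v n').1 h'
    have o3 := (inc_iff rfl v _).1 hi
    rw [o1, o2, o3] at e2
    have hx : pt a v ⬝ᵥ pt a v ≠ 0 := fun h0 => pt_ne rfl v (dotProduct_self_eq_zero.1 h0)
    have e3 : det3 (nv a n) (nv a n') (nv a (nx a v n)) = 0 := by
      have : det3 (nv a n) (nv a n') (nv a (nx a v n)) * (pt a v ⬝ᵥ pt a v) = 0 := by
        rw [← e2]; ring
      exact (mul_eq_zero.1 this).resolve_right hx
    rw [e3, zero_mul] at e1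
    have s1 := det3_swap (pt a v) (nv a (nx a v n)) (nv a n')
    have s2 := det3_swap (pt a v) (nv a n) (nv a (nx a v n))
    have p1 : 0 < det3 (pt a v) (nv a (nx a v n)) (nv a n') * (nv a n ⬝ᵥ B) := mul_pos h4 h1
    have p2 : 0 < det3 (pt a v) (nv a n) (nv a (nx a v n)) * (nv a n' ⬝ᵥ B) := mul_pos hpos h3
    have p3 : det3 (pt a v) (nv a n) (nv a n') * (nv a (nx a v n) ⬝ᵥ B) < 0 :=
      mul_neg_of_pos_of_neg hD h2
    rw [s1, s2] at e1
    nlinarith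

theorem Geo6_uniq (ha : Sys3 a) {B : R3} {v : VT (LL a)} {n n' : κ × Bool} (h : Inc v n)
    (h' : Inc v n') (h1 : 0 < nv a n ⬝ᵥ B) (h2 : nv a (nx a v n) ⬝ᵥ B < 0)
    (h3 : 0 < nv a n' ⬝ᵥ B) (h4 : nv a (nx a v n') ⬝ᵥ B < 0) : n' = n := by
  rcases lt_trichotomy (det3 (pt a v) (nv a n) (nv a n')) 0 with hD | hD | hD
  · exfalso
    refine Geo6_key ha h' h ?_ h3 h4 h1
    rw [det3_swap]
    linarith
  · rcases (det3_eq_zero_iff ha h h').1 hD with h5 | h5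
    · exact h5
    · rw [h5, Geo6_ngN] at h3
      linarith
  · exact (Geo6_key ha h h' hD h1 h2 h3).elim

theorem Geo6_ex (ha : Sys3 a) {B : R3} (hB : ∀ i, a i ⬝ᵥ B ≠ 0) (v : VT (LL a)) :
    ∃ n, Inc v n ∧ 0 < nv a n ⬝ᵥ B ∧ nv a (nx a v n) ⬝ᵥ B < 0 := by
  by_contra hcon
  push Not at hcon
  obtain ⟨i, j, -, hi, -⟩ := v.2.2.2
  have h0 : ∃ n : κ × Bool, Inc v n ∧ 0 < nv a n ⬝ᵥ B := by
    rcases lt_or_gt_of_ne (Geo6_nv_ne hB (i, true)) with h | h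
    · refine ⟨ngN (i, true), hi, ?_⟩
      rw [Geo6_ngN]
      linarith
    · exact ⟨(i, true), hi, h⟩
  obtain ⟨n, hn, hp⟩ := h0
  have h1 : ∀ k, Inc v ((nx a v)^[k] n) ∧ 0 < nv a ((nx a v)^[k] n) ⬝ᵥ B := by
    intro k
    induction k with
    | zero => exact ⟨hn, hp⟩
    | succ k ih =>
      rw [Function.iterate_succ_apply']
      refine ⟨(nx_spec ha v _ ih.1).1, ?_⟩
      exact lt_of_le_of_ne (hcon _ ih.1 ih.2) (Geo6_nv_ne hB _).symm
  have h2 := (h1 (mm v)).2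
  rw [nx_iter ha v n hn, Geo6_ngN] at h2
  linarith

/-- the previous dart of the chamber -/
noncomputable def Ph (a : κ → R3) (q : VT (LL a) × (κ × Bool)) : VT (LL a) × (κ × Bool) :=
  stepF ngN (nx a) (ny a) q

theorem Ph_inc (ha : Sys3 a) {q : VT (LL a) × (κ × Bool)} (h : Inc q.1 q.2) :
    Inc (Ph a q).1 (Ph a q).2 :=
  (ny_spec ha (nx a q.1 q.2) q.1 (nx_spec ha q.1 q.2 h).1).1

theorem Ph3 (ha : Sys3 a) {q : VT (LL a) × (κ × Bool)} (h : Inc q.1 q.2) :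
    Ph a (Ph a (Ph a q)) = q := tri ha q.1 q.2 h

theorem Ph_snd (B : R3) (q : VT (LL a) × (κ × Bool)) :
    nv a (Ph a q).2 ⬝ᵥ B = - (nv a (nx a q.1 q.2) ⬝ᵥ B) := Geo6_ngN _ _

open Classical in
theorem Geo6_cardV (ha : Sys3 a) {B : R3} (hB : ∀ i, a i ⬝ᵥ B ≠ 0) :
    (Finset.univ.filter fun q : VT (LL a) × (κ × Bool) => Inc q.1 q.2 ∧ 0 < nv a q.2 ⬝ᵥ B ∧
      0 < nv a (Ph a q).2 ⬝ᵥ B).card = Fintype.card (VT (LL a)) := by
  choose g h1 h2 h3 using fun v : VT (LL a) => Geo6_ex ha hB v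
  have h4 : (Finset.univ.filter fun q : VT (LL a) × (κ × Bool) => Inc q.1 q.2 ∧
      0 < nv a q.2 ⬝ᵥ B ∧ 0 < nv a (Ph a q).2 ⬝ᵥ B) = Finset.univ.image fun v => (v, g v) := by
    ext ⟨v, n⟩
    simp only [Finset.mem_filter, Finset.mem_univ, true_and, Finset.mem_image]
    constructor
    · rintro ⟨h5, h6, h7⟩
      rw [Ph_snd] at h7
      refine ⟨v, Prod.ext rfl ?_⟩
      exact Geo6_uniq ha h5 (h1 v) h6 (by linarith) (h2 v) (h3 v)
    · rintro ⟨w, hw⟩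
      obtain ⟨rfl, rfl⟩ := Prod.ext_iff.1 hw
      refine ⟨h1 w, h2 w, ?_⟩
      rw [Ph_snd]
      have := h3 w
      simp only
      linarith
  rw [h4, Finset.card_image_of_injective, Finset.card_univ]
  intro v w hvw
  exact congrArg Prod.fst hvw

theorem Geo6_comb {B : R3} {N : Fin 3 → κ × Bool} (hN : Simple a N)
    (hNB : ∀ k, 0 < nv a (N k) ⬝ᵥ B) {n : κ × Bool} (hn : 0 < nv a n ⬝ᵥ B) :
    ∃ c : Fin 3 → ℝ, (∀ k, 0 ≤ c k) ∧ nv a n = ∑ k, c k • nv a (N k) := by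
  obtain ⟨c, hc, h⟩ := hN.comb n.1
  refine ⟨c, hc, ?_⟩
  have hs : 0 ≤ (∑ k, c k • nv a (N k)) ⬝ᵥ B := by
    rw [sum_dotProduct]
    refine Finset.sum_nonneg fun k _ => ?_
    rw [smul_dotProduct, smul_eq_mul]
    exact mul_nonneg (hc k) (hNB k).le
  have h2 : nv a n = ∑ k, c k • nv a (N k) ∨ nv a n = - ∑ k, c k • nv a (N k) := by
    unfold nv at h ⊢
    unfold sgn
    cases n.2
    · rcases h with h | h
      · right
        simp only [Bool.false_eq_true, if_false, neg_smul, one_smul]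
        exact congrArg Neg.neg h
      · left
        simp only [Bool.false_eq_true, if_false, neg_smul, one_smul]
        rw [h, neg_neg]
        rfl
    · rcases h with h | h
      · left
        simp only [if_true, one_smul]
        exact h
      · right
        simp only [if_true, one_smul]
        exact h
  rcases h2 with h2 | h2
  · exact h2
  · exfalso
    rw [h2, neg_dotProduct] at hn
    linarith

theorem Geo6_side {v : VT (LL a)} {n : κ × Bool} : side n v = 1 ↔ 0 < nv a n ⬝ᵥ pt a v := by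
  rw [side_eq rfl, sign_eq_one_iff]

/-- the three darts of a simple triple -/
theorem Geo6_step (ha : Sys3 a) {N : Fin 3 → κ × Bool} (hN : Simple a N) {v : VT (LL a)}
    (h0 : Inc v (N 0)) (h1 : Inc v (N 1)) (h2 : side (N 2) v = 1) :
    ∃ w : VT (LL a), Ph a (v, N 0) = (w, N 1) ∧ Inc w (N 1) ∧ Inc w (N 2) ∧ side (N 0) w = 1 := by
  obtain ⟨w, hw1, hw2, hw0⟩ := Simple.exists_vert ha hN.rotate
  simp only [Matrix.cons_val_zero, Matrix.cons_val_one, Matrix.cons_val] at hw1 hw2 hw0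
  refine ⟨w, ?_, hw1, hw2, hw0⟩
  have e1 := Simple.nx_eq ha hN h0 h1 h2
  have e2 := Simple.ny_eq ha hN h0 h1 h2 hw1 hw2 hw0
  unfold Ph stepF
  simp only [e1, e2, Geo6_ngN_ngN]

theorem Geo6_all (ha : Sys3 a) {N : Fin 3 → κ × Bool} (hN : Simple a N) {v : VT (LL a)}
    (h0 : Inc v (N 0)) (h1 : Inc v (N 1)) (h2 : side (N 2) v = 1) :
    (Ph a (v, N 0)).2 = N 1 ∧ (Ph a (Ph a (v, N 0))).2 = N 2 := by
  obtain ⟨w, hw, hw1, hw2, hw0⟩ := Geo6_step ha hN h0 h1 h2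
  obtain ⟨w', hw', -⟩ := Geo6_step ha hN.rotate (v := w) hw1 hw2 hw0
  simp only [Matrix.cons_val_zero, Matrix.cons_val_one] at hw'
  rw [hw, hw']
  exact ⟨rfl, rfl⟩

theorem Geo6_third (ha : Sys3 a) {N : Fin 3 → κ × Bool} (hN : Simple a N) {v : VT (LL a)}
    (h0 : Inc v (N 0)) (h1 : Inc v (N 1)) (h2 : 0 ≤ nv a (N 2) ⬝ᵥ pt a v) :
    side (N 2) v = 1 := by
  rw [Geo6_side]
  refine lt_of_le_of_ne h2 fun h => ?_
  exact pt_ne rfl v (Geo6_zero hN.det.ne ((inc_iff rfl v _).1 h0) ((inc_iff rfl v _).1 h1) h.symm)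

theorem Geo6_id_dart (ha : Sys3 a) {B : R3} {N : Fin 3 → κ × Bool} (hN : Simple a N)
    (hNB : ∀ k, 0 < nv a (N k) ⬝ᵥ B) {v : VT (LL a)} {n : κ × Bool} (hn : Inc v n)
    (hn1 : 0 < nv a n ⬝ᵥ B) (hn2 : nv a (nx a v n) ⬝ᵥ B < 0)
    (h0 : Inc v (N 0)) (h1 : Inc v (N 1)) (h2 : 0 ≤ nv a (N 2) ⬝ᵥ pt a v) :
    n = N 0 := by
  have h3 := Geo6_third ha hN h0 h1 h2
  refine Geo6_uniq ha h0 hn (hNB 0) ?_ hn1 hn2
  rw [Simple.nx_eq ha hN h0 h1 h3, Geo6_ngN]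
  have := hNB 1
  linarith

/-- two walls of the chamber of `B` vanish at a vertex of a positive dart -/
theorem Geo6_two {B : R3} {N M : Fin 3 → κ × Bool} (hN : Simple a N)
    (hNB : ∀ k, 0 < nv a (N k) ⬝ᵥ B) (hM : Simple a M) (hMB : ∀ k, 0 < nv a (M k) ⬝ᵥ B)
    {v : VT (LL a)} (h0 : Inc v (M 0)) (h1 : Inc v (M 1)) (h2 : side (M 2) v = 1) :
    (∀ k, 0 ≤ nv a (N k) ⬝ᵥ pt a v) ∧ ∀ j l m : Fin 3, j ≠ l → j ≠ m → l ≠ m →
      Inc v (N j) ∨ Inc v (N l) := by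
  have o0 := (inc_iff rfl v _).1 h0
  have o1 := (inc_iff rfl v _).1 h1
  have o2 := Geo6_side.1 h2
  have hnn : ∀ k, 0 ≤ nv a (N k) ⬝ᵥ pt a v := by
    intro k
    obtain ⟨c, hc, h⟩ := Geo6_comb hM hMB (hNB k)
    rw [h, Fin.sum_univ_three, add_dotProduct, add_dotProduct, smul_dotProduct, smul_dotProduct,
      smul_dotProduct, o0, o1, smul_zero, smul_zero, zero_add, zero_add, smul_eq_mul]
    exact mul_nonneg (hc 2) o2.le
  refine ⟨hnn, fun j l m hjl hjm hlm => ?_⟩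
  by_contra hcon
  push Not at hcon
  obtain ⟨hj, hl⟩ := hcon
  have pj : 0 < nv a (N j) ⬝ᵥ pt a v :=
    lt_of_le_of_ne (hnn j) fun h => hj ((inc_iff rfl v _).2 h.symm)
  have pl : 0 < nv a (N l) ⬝ᵥ pt a v :=
    lt_of_le_of_ne (hnn l) fun h => hl ((inc_iff rfl v _).2 h.symm)
  have hsum : ∀ (f : Fin 3 → R3), ∑ k, f k = f j + f l + f m := by
    intro f
    rw [Fin.sum_univ_three]
    fin_cases j <;> fin_cases l <;> fin_cases m <;> simp_all <;> abel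
  have hpar : ∀ n : κ × Bool, Inc v n → 0 < nv a n ⬝ᵥ B → ∃ c : ℝ, nv a n = c • nv a (N m) := by
    intro n hn hnB
    obtain ⟨c, hc, h⟩ := Geo6_comb hN hNB hnB
    have h3 := (inc_iff rfl v _).1 hn
    rw [h, hsum, add_dotProduct, add_dotProduct, smul_dotProduct, smul_dotProduct,
      smul_dotProduct, smul_eq_mul, smul_eq_mul, smul_eq_mul] at h3
    have n1 := mul_nonneg (hc j) pj.le
    have n2 := mul_nonneg (hc l) pl.le
    have n3 := mul_nonneg (hc m) (hnn m)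
    have z1 : c j = 0 := by
      have : c j * (nv a (N j) ⬝ᵥ pt a v) = 0 := by linarith
      exact (mul_eq_zero.1 this).resolve_right pj.ne'
    have z2 : c l = 0 := by
      have : c l * (nv a (N l) ⬝ᵥ pt a v) = 0 := by linarith
      exact (mul_eq_zero.1 this).resolve_right pl.ne'
    refine ⟨c m, ?_⟩
    rw [h, hsum, z1, z2, zero_smul, zero_smul, zero_add, zero_add]
  obtain ⟨c0, e0⟩ := hpar _ h0 (hMB 0)
  obtain ⟨c1, e1⟩ := hpar _ h1 (hMB 1)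
  have h4 := hM.det
  rw [e0, e1, det3_smul1, det3_smul2] at h4
  rw [Geo6_d1] at h4
  simp at h4

theorem Geo6_case (ha : Sys3 a) {B : R3} {N : Fin 3 → κ × Bool} (hN : Simple a N)
    (hNB : ∀ k, 0 < nv a (N k) ⬝ᵥ B) {v : VT (LL a)} {n : κ × Bool} (hn : Inc v n)
    (hn1 : 0 < nv a n ⬝ᵥ B) (hn2 : nv a (nx a v n) ⬝ᵥ B < 0)
    (h0 : Inc v (N 0)) (h1 : Inc v (N 1)) (h2 : 0 ≤ nv a (N 2) ⬝ᵥ pt a v)
    {w : VT (LL a)} (a0 : Inc w (N 0)) (a1 : Inc w (N 1)) (a2 : side (N 2) w = 1) :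
    (v, n) = (w, N 0) := by
  have hs := Geo6_third ha hN h0 h1 h2
  have e1 := Simple.vert_unique ha hN h0 h1 hs a0 a1 a2
  have e2 := Geo6_id_dart ha hN hNB hn hn1 hn2 h0 h1 h2
  rw [e1, e2]

theorem Geo6_rot {N : Fin 3 → κ × Bool} (hN : Simple a N) : ∃ N' : Fin 3 → κ × Bool,
    Simple a N' ∧ N' 0 = N 1 ∧ N' 1 = N 2 ∧ N' 2 = N 0 :=
  ⟨![N 1, N 2, N 0], hN.rotate, rfl, rfl, rfl⟩

theorem Geo6_forall {P : Fin 3 → Prop} (h0 : P 0) (h1 : P 1) (h2 : P 2) : ∀ k, P k := by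
  intro k
  fin_cases k
  · exact h0
  · exact h1
  · exact h2

theorem Geo6_back (ha : Sys3 a) {B : R3} {N : Fin 3 → κ × Bool} (hN : Simple a N)
    (hNB : ∀ k, 0 < nv a (N k) ⬝ᵥ B) {v : VT (LL a)}
    (h0 : Inc v (N 0)) (h1 : Inc v (N 1)) (h2 : side (N 2) v = 1)
    {q : VT (LL a) × (κ × Bool)} (hq : q = (v, N 0)) :
    Inc q.1 q.2 ∧ 0 < nv a q.2 ⬝ᵥ B ∧
      0 < nv a (Ph a q).2 ⬝ᵥ B ∧ 0 < nv a (Ph a (Ph a q)).2 ⬝ᵥ B := by
  obtain ⟨s1, s2⟩ := Geo6_all ha hN h0 h1 h2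
  subst hq
  refine ⟨h0, hNB 0, ?_, ?_⟩
  · rw [s1]; exact hNB 1
  · rw [s2]; exact hNB 2

theorem Geo6_forth (ha : Sys3 a) {B : R3} {N N' N'' : Fin 3 → κ × Bool} (hN : Simple a N)
    (hN' : Simple a N') (hN'' : Simple a N'') (r0 : N' 0 = N 1) (r1 : N' 1 = N 2)
    (r2 : N' 2 = N 0) (t0 : N'' 0 = N 2) (t1 : N'' 1 = N 0) (t2 : N'' 2 = N 1)
    (hNB : ∀ k, 0 < nv a (N k) ⬝ᵥ B) (hNB' : ∀ k, 0 < nv a (N' k) ⬝ᵥ B)
    (hNB'' : ∀ k, 0 < nv a (N'' k) ⬝ᵥ B) {v0 v1 v2 : VT (LL a)}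
    (a0 : Inc v0 (N 0)) (a1 : Inc v0 (N 1)) (a2 : side (N 2) v0 = 1)
    (b0 : Inc v1 (N' 0)) (b1 : Inc v1 (N' 1)) (b2 : side (N' 2) v1 = 1)
    (c0 : Inc v2 (N'' 0)) (c1 : Inc v2 (N'' 1)) (c2 : side (N'' 2) v2 = 1)
    {v : VT (LL a)} {n : κ × Bool} (h0 : Inc v n) (h1 : 0 < nv a n ⬝ᵥ B)
    (h2 : 0 < nv a (Ph a (v, n)).2 ⬝ᵥ B) (h3 : 0 < nv a (Ph a (Ph a (v, n))).2 ⬝ᵥ B) :
    (v, n) = (v0, N 0) ∨ (v, n) = (v1, N' 0) ∨ (v, n) = (v2, N'' 0) := by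
  obtain ⟨M, hM, rfl, hM1, hM2⟩ := exists_simple_of_dart ha v n h0
  obtain ⟨s1, s2⟩ := Geo6_all ha hM h0 hM1 hM2
  have hnx : nv a (nx a v (M 0)) ⬝ᵥ B < 0 := by
    have := h2
    rw [Ph_snd] at this
    simp only at this
    linarith
  rw [s1] at h2
  rw [s2] at h3
  have hMB : ∀ k, 0 < nv a (M k) ⬝ᵥ B := Geo6_forall h1 h2 h3
  obtain ⟨hnn, htwo⟩ := Geo6_two hN hNB hM hMB h0 hM1 hM2
  have t01 := htwo 0 1 2 (by decide) (by decide) (by decide)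
  have t12 := htwo 1 2 0 (by decide) (by decide) (by decide)
  have t20 := htwo 2 0 1 (by decide) (by decide) (by decide)
  have hcase : (Inc v (N 0) ∧ Inc v (N 1)) ∨ (Inc v (N 1) ∧ Inc v (N 2)) ∨
      (Inc v (N 2) ∧ Inc v (N 0)) := by tauto
  rcases hcase with ⟨p, q⟩ | ⟨p, q⟩ | ⟨p, q⟩
  · left
    exact Geo6_case ha hN hNB h0 h1 hnx p q (hnn 2) a0 a1 a2
  · right; left
    exact Geo6_case ha hN' hNB' h0 h1 hnx (r0.symm ▸ p) (r1.symm ▸ q) (r2.symm ▸ hnn 0) b0 b1 b2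
  · right; right
    exact Geo6_case ha hN'' hNB'' h0 h1 hnx (t0.symm ▸ p) (t1.symm ▸ q) (t2.symm ▸ hnn 1)
      c0 c1 c2

open Classical in
theorem Geo6_card3 (ha : Sys3 a) {B : R3} (hB : ∀ i, a i ⬝ᵥ B ≠ 0) :
    (Finset.univ.filter fun q : VT (LL a) × (κ × Bool) => Inc q.1 q.2 ∧ 0 < nv a q.2 ⬝ᵥ B ∧
      0 < nv a (Ph a q).2 ⬝ᵥ B ∧ 0 < nv a (Ph a (Ph a q)).2 ⬝ᵥ B).card = 3 := by
  obtain ⟨N, hN, hNB⟩ := exists_simple ha B hB
  obtain ⟨N', hN', r0, r1, r2⟩ := Geo6_rot hN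
  obtain ⟨N'', hN'', t0, t1, t2⟩ := Geo6_rot hN'
  rw [r1] at t0
  rw [r2] at t1
  rw [r0] at t2
  have hNB' : ∀ k, 0 < nv a (N' k) ⬝ᵥ B :=
    Geo6_forall (by rw [r0]; exact hNB 1) (by rw [r1]; exact hNB 2) (by rw [r2]; exact hNB 0)
  have hNB'' : ∀ k, 0 < nv a (N'' k) ⬝ᵥ B :=
    Geo6_forall (by rw [t0]; exact hNB 2) (by rw [t1]; exact hNB 0) (by rw [t2]; exact hNB 1)
  obtain ⟨v0, a0, a1, a2⟩ := Simple.exists_vert ha hN
  obtain ⟨v1, b0, b1, b2⟩ := Simple.exists_vert ha hN'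
  obtain ⟨v2, c0, c1, c2⟩ := Simple.exists_vert ha hN''
  have hd := hN.det
  have n01 : N 0 ≠ N 1 := by
    intro h
    rw [h, Geo6_d1] at hd
    exact lt_irrefl _ hd
  have n12 : N 1 ≠ N 2 := by
    intro h
    rw [h, det3_self] at hd
    exact lt_irrefl _ hd
  have n02 : N 0 ≠ N 2 := by
    intro h
    rw [h, Geo6_d2] at hd
    exact lt_irrefl _ hd
  have key : (Finset.univ.filter fun q : VT (LL a) × (κ × Bool) => Inc q.1 q.2 ∧
      0 < nv a q.2 ⬝ᵥ B ∧ 0 < nv a (Ph a q).2 ⬝ᵥ B ∧ 0 < nv a (Ph a (Ph a q)).2 ⬝ᵥ B) =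
      {(v0, N 0), (v1, N' 0), (v2, N'' 0)} := by
    ext q
    simp only [Finset.mem_filter, Finset.mem_univ, true_and, Finset.mem_insert,
      Finset.mem_singleton]
    constructor
    · obtain ⟨v, n⟩ := q
      rintro ⟨h0, h1, h2, h3⟩
      exact Geo6_forth ha hN hN' hN'' r0 r1 r2 t0 t1 t2 hNB hNB' hNB'' a0 a1 a2 b0 b1 b2 c0 c1 c2
        h0 h1 h2 h3
    · rintro (h | h | h)
      · exact Geo6_back ha hN hNB a0 a1 a2 h
      · exact Geo6_back ha hN' hNB' b0 b1 b2 h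
      · exact Geo6_back ha hN'' hNB'' c0 c1 c2 h
  rw [key, r0, t0, Finset.card_insert_of_notMem, Finset.card_pair]
  · intro h
    exact n12 (congrArg Prod.snd h)
  · simp only [Finset.mem_insert, Finset.mem_singleton, not_or]
    exact ⟨fun h => n01 (congrArg Prod.snd h), fun h => n02 (congrArg Prod.snd h)⟩

theorem Geo6_generic (ha : Sys3 a) : ∃ B : R3, ∀ i, a i ⬝ᵥ B ≠ 0 := by
  classical
  have hne : ∀ i, a i ≠ 0 := by
    intro i h
    apply nv_ne ha (i, true)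
    simp [nv, h]
  let p : κ → Polynomial ℝ := fun i =>
    Polynomial.C (a i 0) + Polynomial.C (a i 1) * Polynomial.X +
      Polynomial.C (a i 2) * Polynomial.X ^ 2
  have hp : ∀ i, p i ≠ 0 := by
    intro i h
    apply hne i
    have c0 : (p i).coeff 0 = 0 := by rw [h]; simp
    have c1 : (p i).coeff 1 = 0 := by rw [h]; simp
    have c2 : (p i).coeff 2 = 0 := by rw [h]; simp
    simp [p, Polynomial.coeff_X, Polynomial.coeff_C] at c0 c1 c2
    funext j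
    fin_cases j
    · exact c0
    · exact c1
    · exact c2
  have hprod : ∏ i, p i ≠ 0 := Finset.prod_ne_zero_iff.2 fun i _ => hp i
  have hex : ∃ t : ℝ, (∏ i, p i).eval t ≠ 0 := by
    by_contra hcon
    push Not at hcon
    exact hprod (Polynomial.funext fun t => by rw [hcon t, Polynomial.eval_zero])
  obtain ⟨t, ht⟩ := hex
  refine ⟨![1, t, t ^ 2], fun i => ?_⟩
  rw [Polynomial.eval_prod, Finset.prod_ne_zero_iff] at ht
  have h1 := ht i (Finset.mem_univ _)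
  have h2 : a i ⬝ᵥ ![1, t, t ^ 2] = (p i).eval t := by
    simp [p, dotProduct, Fin.sum_univ_three]
  rw [h2]
  exact h1

theorem Geo6_sum (ha : Sys3 a) (g : VT (LL a) × (κ × Bool) → ℕ)
    [DecidablePred fun q : VT (LL a) × (κ × Bool) => Inc q.1 q.2] :
    ∑ q ∈ Finset.univ.filter (fun q : VT (LL a) × (κ × Bool) => Inc q.1 q.2), g (Ph a q) =
      ∑ q ∈ Finset.univ.filter (fun q : VT (LL a) × (κ × Bool) => Inc q.1 q.2), g q := by
  refine Finset.sum_bij' (fun q _ => Ph a q) (fun q _ => Ph a (Ph a q)) ?_ ?_ ?_ ?_ ?_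
  · intro q hq
    simp only [Finset.mem_filter, Finset.mem_univ, true_and] at hq ⊢
    exact Ph_inc ha hq
  · intro q hq
    simp only [Finset.mem_filter, Finset.mem_univ, true_and] at hq ⊢
    exact Ph_inc ha (Ph_inc ha hq)
  · intro q hq
    simp only [Finset.mem_filter, Finset.mem_univ, true_and] at hq
    exact Ph3 ha hq
  · intro q hq
    simp only [Finset.mem_filter, Finset.mem_univ, true_and] at hq
    exact Ph3 ha hq
  · intro q _
    rfl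

open Classical in
theorem euler (ha : Sys3 a) :
    (Finset.univ.filter fun q : VT (LL a) × (κ × Bool) => Inc q.1 q.2).card + 12 =
      6 * Fintype.card (VT (LL a)) := by
  obtain ⟨B, hB⟩ := Geo6_generic ha
  have hB' : ∀ i, a i ⬝ᵥ (-B) ≠ 0 := by
    intro i
    rw [dotProduct_neg]
    exact neg_ne_zero.2 (hB i)
  have v1 := Geo6_cardV ha hB
  have v2 := Geo6_cardV ha hB'
  have t1 := Geo6_card3 ha hB
  have t2 := Geo6_card3 ha hB'
  simp only [dotProduct_neg, neg_pos] at v2 t2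
  let σ : VT (LL a) × (κ × Bool) → Bool := fun q => decide (0 < nv a q.2 ⬝ᵥ B)
  have hσ : ∀ q, σ q = true ↔ 0 < nv a q.2 ⬝ᵥ B := fun q => decide_eq_true_iff
  have hσ' : ∀ q, σ q = false ↔ nv a q.2 ⬝ᵥ B < 0 := by
    intro q
    rw [← Bool.not_eq_true, hσ, not_lt]
    constructor
    · intro h
      exact lt_of_le_of_ne h (Geo6_nv_ne hB q.2)
    · exact le_of_lt
  let g : VT (LL a) × (κ × Bool) → ℕ := fun q => if σ q = σ (Ph a q) then 1 else 0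
  let S := Finset.univ.filter (fun q : VT (LL a) × (κ × Bool) => Inc q.1 q.2)
  have s1 := Geo6_sum ha g
  have s2 := Geo6_sum ha (fun q => g (Ph a q))
  have s3 : ∑ q ∈ S, g q = 2 * Fintype.card (VT (LL a)) := by
    have e : ∑ q ∈ S, g q =
        (Finset.univ.filter fun q : VT (LL a) × (κ × Bool) => Inc q.1 q.2 ∧ 0 < nv a q.2 ⬝ᵥ B ∧
          0 < nv a (Ph a q).2 ⬝ᵥ B).card +
        (Finset.univ.filter fun q : VT (LL a) × (κ × Bool) => Inc q.1 q.2 ∧ nv a q.2 ⬝ᵥ B < 0 ∧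
          nv a (Ph a q).2 ⬝ᵥ B < 0).card := by
      rw [Finset.card_filter, Finset.card_filter, Finset.sum_filter, ← Finset.sum_add_distrib]
      refine Finset.sum_congr rfl fun q _ => ?_
      simp only [← hσ, ← hσ', g]
      by_cases hi : Inc q.1 q.2
      · cases σ q <;> cases σ (Ph a q) <;> simp [hi]
      · simp [hi]
    rw [e, v1, v2]
    ring
  have s4 : ∑ q ∈ S, (1 + 2 * (if σ q = σ (Ph a q) ∧ σ q = σ (Ph a (Ph a q)) then 1 else 0)) =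
      ∑ q ∈ S, (g q + g (Ph a q) + g (Ph a (Ph a q))) := by
    refine Finset.sum_congr rfl fun q hq => ?_
    have hi : Inc q.1 q.2 := (Finset.mem_filter.1 hq).2
    simp only [g]
    rw [Ph3 ha hi]
    cases σ q <;> cases σ (Ph a q) <;> cases σ (Ph a (Ph a q)) <;> simp
  have s5 : ∑ q ∈ S, (if σ q = σ (Ph a q) ∧ σ q = σ (Ph a (Ph a q)) then 1 else 0) = 6 := by
    have e : ∑ q ∈ S, (if σ q = σ (Ph a q) ∧ σ q = σ (Ph a (Ph a q)) then 1 else 0) =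
        (Finset.univ.filter fun q : VT (LL a) × (κ × Bool) => Inc q.1 q.2 ∧ 0 < nv a q.2 ⬝ᵥ B ∧
          0 < nv a (Ph a q).2 ⬝ᵥ B ∧ 0 < nv a (Ph a (Ph a q)).2 ⬝ᵥ B).card +
        (Finset.univ.filter fun q : VT (LL a) × (κ × Bool) => Inc q.1 q.2 ∧ nv a q.2 ⬝ᵥ B < 0 ∧
          nv a (Ph a q).2 ⬝ᵥ B < 0 ∧ nv a (Ph a (Ph a q)).2 ⬝ᵥ B < 0).card := by
      rw [Finset.card_filter, Finset.card_filter, Finset.sum_filter, ← Finset.sum_add_distrib]
      refine Finset.sum_congr rfl fun q _ => ?_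
      simp only [← hσ, ← hσ']
      by_cases hi : Inc q.1 q.2
      · cases σ q <;> cases σ (Ph a q) <;> cases σ (Ph a (Ph a q)) <;> simp [hi]
      · simp [hi]
    rw [e, t1, t2]
  rw [Finset.sum_add_distrib, ← Finset.mul_sum, s5, Finset.sum_add_distrib,
    Finset.sum_add_distrib, s2, s1, s3, Finset.sum_const, smul_eq_mul, mul_one] at s4
  change S.card + 12 = _
  omega

end Pool.Agent.VeeC
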