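import Pool.Agent.VeeC.ArrBasic

set_option autoImplicit false

/-!
# Families of vectors in space: the definitions
-/

namespace Pool.Agent.VeeC

open Matrix

/-- space -/
abbrev R3 : Type := Fin 3 → ℝ

/-- the determinant -/
def det3 (x y z : R3) : ℝ := x ⬝ᵥ crossProduct y z

/-- a sign -/
def sgn (b : Bool) : ℝ := if b then 1 else -1

variable {κ : Type*} [Fintype κ]

/-- the signed member `n = (i, ±)` of the family -/
def nv (a : κ → R3) (n : κ × Bool) : R3 := sgn n.2 • a n.1

/-- the sign vector of a point -/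
noncomputable def sv (a : κ → R3) (x : R3) : κ → SignType := fun i => SignType.sign (a i ⬝ᵥ x)

/-- Families of vectors in space with the properties of a three-dimensional irreducible flat of a
vee-system: in the plane orthogonal to `x` the two members are orthogonal, if there are just two,
and the operator `∑ a_k ⊗ a_k` is scalar, if there are at least three; `irr`: irreducibility. -/
structure Sys3 (a : κ → R3) : Prop where
  li : ∀ i j, i ≠ j → LinearIndependent ℝ ![a i, a j]
  sp : Submodule.span ℝ (Set.range a) = ⊤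
  orth : ∀ (x : R3) (i j : κ), i ≠ j → (∀ k, a k ⬝ᵥ x = 0 ↔ k = i ∨ k = j) → a i ⬝ᵥ a j = 0
  clos : ∀ (x : R3) (i j k : κ), x ≠ 0 → i ≠ j → i ≠ k → j ≠ k → a i ⬝ᵥ x = 0 → a j ⬝ᵥ x = 0 →
    a k ⬝ᵥ x = 0 → ∃ ν : ℝ, ∀ w : R3, w ⬝ᵥ x = 0 →
      ∑ l, (if a l ⬝ᵥ x = 0 then (a l ⬝ᵥ w) • a l else 0) = ν • w
  irr : ∀ s : Set κ, s.Nonempty → sᶜ.Nonempty → ∃ i ∈ s, ∃ j ∈ sᶜ, a i ⬝ᵥ a j ≠ 0

/-- the sign vectors of the vertices -/
def IsVert (L : Set (κ → SignType)) (s : κ → SignType) : Prop :=
  s ∈ L ∧ (∃ i, s i ≠ 0) ∧ ∃ i j, i ≠ j ∧ s i = 0 ∧ s j = 0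

/-- the vertices -/
def VT (L : Set (κ → SignType)) : Type _ := {s : κ → SignType // IsVert L s}

noncomputable instance (L : Set (κ → SignType)) : Fintype (VT L) := by
  classical
  exact Subtype.fintype _

/-- the set of sign vectors of the family -/
def LL (a : κ → R3) : Set (κ → SignType) := Set.range (sv a)

/-- a point with the sign vector `v` -/
noncomputable def pt (a : κ → R3) {L : Set (κ → SignType)} (v : VT L) : R3 :=
  Classical.epsilon fun x => sv a x = v.1

/-- the vertex `v` lies on the great circle with the signed normal `n` -/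
def Inc {L : Set (κ → SignType)} (v : VT L) (n : κ × Bool) : Prop := v.1 n.1 = 0

/-- the opposite normal -/
def ngN (n : κ × Bool) : κ × Bool := (n.1, !n.2)

/-- the side of the great circle -/
def side {L : Set (κ → SignType)} (n : κ × Bool) (v : VT L) : SignType :=
  if n.2 then v.1 n.1 else - v.1 n.1

section

variable (a : κ → R3) {L : Set (κ → SignType)}

/-- `n'` is the next normal after `n` at the vertex `v`, counterclockwise -/
def IsNx (v : VT L) (n n' : κ × Bool) : Prop :=
  Inc v n' ∧ 0 < det3 (pt a v) (nv a n) (nv a n') ∧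
    ∀ n'', Inc v n'' → 0 < det3 (pt a v) (nv a n) (nv a n'') →
      n'' = n' ∨ 0 < det3 (pt a v) (nv a n') (nv a n'')

/-- `v'` is the next vertex after `v` on the great circle with the normal `n` -/
def IsNy (n : κ × Bool) (v v' : VT L) : Prop :=
  Inc v' n ∧ 0 < det3 (nv a n) (pt a v) (pt a v') ∧
    ∀ v'' : VT L, Inc v'' n → 0 < det3 (nv a n) (pt a v) (pt a v'') →
      v'' = v' ∨ 0 < det3 (nv a n) (pt a v') (pt a v'')

open Classical in
/-- the next normal -/
noncomputable def nx (v : VT L) (n : κ × Bool) : κ × Bool :=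
  if h : ∃ n', IsNx a v n n' then h.choose else n

open Classical in
/-- the next vertex -/
noncomputable def ny (n : κ × Bool) (v : VT L) : VT L :=
  if h : ∃ v', IsNy a n v v' then h.choose else v

end

open Classical in
/-- the multiplicity of a vertex -/
noncomputable def mm {L : Set (κ → SignType)} (v : VT L) : ℕ :=
  (Finset.univ.filter fun i => v.1 i = 0).card

open Classical in
/-- half of the number of the vertices of a great circle -/
noncomputable def pp (L : Set (κ → SignType)) (n : κ × Bool) : ℕ :=
  (Finset.univ.filter fun v : VT L => Inc v n).card / 2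

end Pool.Agent.VeeC
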