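import Pool.Agent.VeeC.Walk

set_option autoImplicit false

namespace Pool.Agent.VeeC

open Arr

variable {V N : Type*} [Fintype V] [Fintype N] {K : Arr V N} (L : Lab K)

theorem Inact_st_opp (d : K.D) : st (opp (st d)) = opp d := by
  have h : opp (st (opp (st d))) = d := rev_rev d
  have h2 := congrArg opp h
  rw [opp_opp] at h2
  exact h2

theorem Inact_iter_opp (d : K.D) (i : ℕ) : st^[i] (opp (st^[i] d)) = opp d := by
  induction i with
  | zero => rfl
  | succ i ih =>
    rw [Function.iterate_succ_apply' st i d, Function.iterate_succ_apply, Inact_st_opp, ih]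

/-- the two rays of a great circle from a vertex are disjoint before the antipodal vertex -/
theorem Inact_two_rays (d : K.D) {i j : ℕ} (hi : 0 < i) (hi' : i < K.p (sd d))
    (hj' : j < K.p (sd d)) (h : src (st^[i] d) = src (st^[j] (opp d))) : False := by
  have h1 : opp (st^[i] d) = st^[j] (opp d) := by
    apply dext
    · rw [src_opp]; exact h
    · rw [sd_opp, sd_st_iter, sd_st_iter, sd_opp]
  have h2 := Inact_iter_opp d i
  rw [h1, ← Function.iterate_add_apply] at h2
  have h3 := src_st_iter_ne (opp d) (k := i + j) (by omega) (by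
    rw [sd_opp, p_ngN]; omega)
  rw [h2] at h3
  exact h3 rfl

namespace Lab

theorem Inact_line {u : V} (hu : ¬ L.Z u) {d : K.D} (hd : src d ∈ L.comp u)
    (h : ¬ L.Act d) : ∀ v, K.Inc v (sd d) → ¬ L.Z v ∧ v ∈ L.comp u := by
  have hnz : ∀ v, K.Inc v (sd d) → ¬ L.Z v := fun v hv hz => h ⟨v, hz, hv⟩
  have hk : ∀ k, src (st^[k] d) ∈ L.comp u := by
    intro k
    induction k with
    | zero => exact hd
    | succ k ih =>
      rw [Function.iterate_succ_apply', src_st]
      refine L.mem_comp_of_adj hu ih (hnz _ ?_)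
      have h1 := inc_tg (st^[k] d)
      rw [sd_st_iter] at h1
      exact h1
  intro v hv
  refine ⟨hnz v hv, ?_⟩
  obtain ⟨k, -, hk2⟩ := st_trans (d := d) (d' := ⟨(v, sd d), hv⟩) rfl
  have h1 := hk k
  rw [hk2] at h1
  exact h1

theorem Inact_ray {u : V} (hu : ¬ L.Z u) {n0 : N}
    (hn : ∀ v, K.Inc v n0 → ¬ L.Z v ∧ v ∈ L.comp u) {δ : K.D} (ha : L.Z (src δ)) :
    ∃ j, j < K.p (sd δ) ∧ K.side n0 (src (st^[j] δ)) = K.side n0 (src δ) ∧
      src (st^[j] δ) ∈ L.AZ (L.comp u) ∧ (L.Z (tg δ) → 0 < j) := by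
  classical
  -- the first vertex on `n0`
  have hex : ∃ k, K.Inc (src (st^[k] δ)) n0 := by
    obtain ⟨w, hw, hw2⟩ := K.meet (sd δ) n0
    obtain ⟨k, -, hk2⟩ := st_trans (d := δ) (d' := ⟨(w, sd δ), hw⟩) rfl
    refine ⟨k, ?_⟩
    rw [hk2]
    exact hw2
  set k0 := Nat.find hex with hk0
  have hk0i : K.Inc (src (st^[k0] δ)) n0 := Nat.find_spec hex
  have hk0m : ∀ k, k < k0 → ¬ K.Inc (src (st^[k] δ)) n0 := fun k hk => Nat.find_min hex hk
  have hk0p : 0 < k0 := by
    rcases Nat.eq_zero_or_pos k0 with h0 | h0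
    · exfalso
      rw [h0] at hk0i
      exact (hn _ hk0i).1 ha
    · exact h0
  have hside : ∀ k, k < k0 → K.side n0 (src (st^[k] δ)) = K.side n0 (src δ) := by
    intro k
    induction k with
    | zero => intro _; rfl
    | succ k ih =>
      intro hk
      have ih1 := ih (by omega)
      rw [← ih1, Function.iterate_succ_apply', src_st]
      have h1 : K.side n0 (src (st^[k] δ)) ≠ 0 := fun h0 =>
        hk0m k (by omega) ((K.side_zero _ _).mp h0)
      have h2 : K.side n0 (tg (st^[k] δ)) ≠ 0 := fun h0 => by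
        apply hk0m (k + 1) hk
        rw [Function.iterate_succ_apply', src_st]
        exact (K.side_zero _ _).mp h0
      exact K.side_ny n0 (src (st^[k] δ)) (sd (st^[k] δ)) (inc_src _) h1 h2
  have hs0 : K.side n0 (src δ) ≠ 0 := fun h0 => (hn _ ((K.side_zero _ _).mp h0)).1 ha
  have hk0lt : k0 < K.p (sd δ) := by
    by_contra hcon
    have hcon' : K.p (sd δ) ≤ k0 := not_lt.mp hcon
    have hp : src (st^[K.p (sd δ)] δ) = K.ngV (src δ) := by rw [st_iter_p]; rfl
    rcases hcon'.lt_or_eq with hlt | heq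
    · have h1 := hside _ hlt
      rw [hp, K.side_ng] at h1
      revert h1 hs0
      generalize K.side n0 (src δ) = s
      revert s
      decide
    · rw [← heq, hp] at hk0i
      have h2 : L.Z (K.ngV (src δ)) := (L.Z_ng _).mpr ha
      exact (hn _ hk0i).1 h2
  -- the last vertex in Z
  have hP : ∃ k, k < k0 ∧ L.Z (src (st^[k] δ)) := ⟨0, hk0p, ha⟩
  set P : ℕ → Prop := fun k => k < k0 ∧ L.Z (src (st^[k] δ)) with hPdef
  set j := Nat.findGreatest P k0 with hj
  have hjP : P j := by
    have h1 : P 0 := ⟨hk0p, ha⟩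
    exact Nat.findGreatest_spec (P := P) (Nat.zero_le k0) h1
  have hjmax : ∀ k, j < k → k ≤ k0 → ¬ L.Z (src (st^[k] δ)) := by
    intro k hk hk'
    rcases hk'.lt_or_eq with hlt | heq
    · intro hz
      exact Nat.findGreatest_is_greatest hk hk' ⟨hlt, hz⟩
    · rw [heq]
      exact (hn _ hk0i).1
  have hC : ∀ i, i < k0 - j → src (st^[k0 - i] δ) ∈ L.comp u := by
    intro i
    induction i with
    | zero => intro _; exact (hn _ hk0i).2
    | succ i ih =>
      intro hi
      have ih1 := ih (by omega)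
      have h1 : k0 - i = (k0 - (i + 1)) + 1 := by omega
      rw [h1, Function.iterate_succ_apply', src_st] at ih1
      set x := st^[k0 - (i + 1)] δ with hx
      have h2 : ¬ L.Z (src x) := hjmax _ (by omega) (by omega)
      have h3 := L.mem_comp_of_adj hu (d := rev x) (by rw [src_rev]; exact ih1)
        (by rw [tg_rev]; exact h2)
      rw [tg_rev] at h3
      exact h3
  refine ⟨j, lt_trans hjP.1 hk0lt, hside j hjP.1, ?_, ?_⟩
  · have h1 := hC (k0 - (j + 1)) (by have := hjP.1; omega)
    have h2 : k0 - (k0 - (j + 1)) = j + 1 := by have := hjP.1; omega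
    rw [h2, Function.iterate_succ_apply', src_st] at h1
    simp only [AZ, Finset.mem_filter, Finset.mem_univ, true_and]
    exact ⟨hjP.2, st^[j] δ, rfl, h1⟩
  · intro hz
    have h1 : P 1 := by
      refine ⟨?_, hz⟩
      rcases Nat.lt_or_ge 1 k0 with h2 | h2
      · exact h2
      · exfalso
        have h3 : k0 = 1 := by omega
        rw [h3] at hk0i
        exact (hn _ hk0i).1 hz
    have h2 : 1 ≤ j := Nat.le_findGreatest (P := P) h1.1.le h1
    exact h2

open Classical in
theorem Inact_half {u : V} (hu : ¬ L.Z u) {n0 : N}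
    (hn : ∀ v, K.Inc v n0 → ¬ L.Z v ∧ v ∈ L.comp u) {a : V} (ha : L.Z a) :
    4 ≤ ((L.AZ (L.comp u)).filter fun z => K.side n0 z = K.side n0 a).card := by
  have hs0 : K.side n0 a ≠ 0 := fun h0 => (hn _ ((K.side_zero _ _).mp h0)).1 ha
  have hray : ∀ δ : K.D, ∃ j, src δ = a → (j < K.p (sd δ) ∧
      K.side n0 (src (st^[j] δ)) = K.side n0 a ∧
      src (st^[j] δ) ∈ L.AZ (L.comp u) ∧ (L.Z (tg δ) → 0 < j)) := by
    intro δ
    by_cases h : src δ = a
    · subst h
      obtain ⟨j, hj⟩ := L.Inact_ray hu hn ha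
      exact ⟨j, fun _ => hj⟩
    · exact ⟨0, fun h' => absurd h' h⟩
  choose j hj using hray
  set S : Finset K.D := Finset.univ.filter fun δ => src δ = a with hS
  have hScard : S.card = 2 * K.m a := card_darts a
  have hm : 4 ≤ K.m a := L.four_le_m ha
  set z : K.D → V := fun δ => src (st^[j δ] δ) with hz
  set W := (L.AZ (L.comp u)).filter fun z => K.side n0 z = K.side n0 a with hW
  have hzW : ∀ δ ∈ S, z δ ∈ W := by
    intro δ hδ
    have h1 : src δ = a := (Finset.mem_filter.mp hδ).2
    have h2 := hj δ h1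
    exact Finset.mem_filter.mpr ⟨h2.2.2.1, h2.2.1⟩
  -- the darts which lead to another vertex
  set T : Finset K.D := S.filter fun δ => 0 < j δ with hT
  have hzT : ∀ δ ∈ T, z δ ≠ a := by
    intro δ hδ
    obtain ⟨h0, h1⟩ := Finset.mem_filter.mp hδ
    have h2 : src δ = a := (Finset.mem_filter.mp h0).2
    have h3 := hj δ h2
    have h4 := src_st_iter_ne δ (k := j δ) h1 (by omega)
    rw [h2] at h4
    exact h4
  have hinj : Set.InjOn z (T : Set K.D) := by
    intro δ hδ δ' hδ' he
    have hδ1 : δ ∈ T := hδ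
    have hδ1' : δ' ∈ T := hδ'
    obtain ⟨h0, h1⟩ := Finset.mem_filter.mp hδ1
    obtain ⟨h0', h1'⟩ := Finset.mem_filter.mp hδ1'
    have h2 : src δ = a := (Finset.mem_filter.mp h0).2
    have h2' : src δ' = a := (Finset.mem_filter.mp h0').2
    have h3 := hj δ h2
    have h3' := hj δ' h2'
    have hi1 : K.Inc (z δ) (sd δ) := by
      have := inc_src (st^[j δ] δ)
      rw [sd_st_iter] at this
      exact this
    have hi2 : K.Inc (z δ) (sd δ') := by
      have := inc_src (st^[j δ'] δ')
      rw [sd_st_iter] at this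
      rw [he]
      exact this
    have hne1 : z δ ≠ a := hzT δ hδ1
    have hne2 : z δ ≠ K.ngV a := by
      intro hcon
      have h4 : K.side n0 (z δ) = K.side n0 a := h3.2.1
      rw [hcon, K.side_ng] at h4
      revert h4 hs0
      generalize K.side n0 a = s
      revert s
      decide
    have hline := line_eq (K := K) (n := sd δ) (n' := sd δ') (u := a) (v := z δ)
      (h2 ▸ inc_src δ) (h2' ▸ inc_src δ') hi1 hi2 hne1 hne2
    rcases hline with hl | hl
    · exact dext (h2.trans h2'.symm) hl.symm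
    · exfalso
      have hopp : δ' = opp δ := dext (h2'.trans h2.symm) hl
      have hp' : K.p (sd δ') = K.p (sd δ) := by rw [hl, p_ngN]
      refine Inact_two_rays δ (i := j δ) (j := j δ') h1 h3.1 (by rw [← hp']; exact h3'.1) ?_
      have he' : src (st^[j δ] δ) = src (st^[j δ'] δ') := he
      rw [he']
      rw [← hopp]
  have himg : (T.image z).card = T.card := Finset.card_image_of_injOn hinj
  by_cases hTS : T = S
  · have h1 : T.image z ⊆ W := by
      intro x hx
      obtain ⟨δ, hδ, rfl⟩ := Finset.mem_image.mp hx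
      exact hzW δ (by rw [← hTS]; exact hδ)
    have h2 := Finset.card_le_card h1
    rw [himg, hTS, hScard] at h2
    omega
  · -- some dart stays at `a`
    have h1 : ∃ δ ∈ S, j δ = 0 := by
      by_contra hcon
      push Not at hcon
      apply hTS
      apply Finset.filter_true_of_mem
      intro δ hδ
      exact Nat.pos_of_ne_zero (hcon δ hδ)
    obtain ⟨δ, hδ, hδ0⟩ := h1
    have haW : a ∈ W := by
      have h2 := hzW δ hδ
      have h3 : z δ = a := by
        show src (st^[j δ] δ) = a
        rw [hδ0]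
        exact (Finset.mem_filter.mp hδ).2
      rw [h3] at h2
      exact h2
    have hna : a ∉ T.image z := by
      intro hx
      obtain ⟨δ, hδ, he⟩ := Finset.mem_image.mp hx
      exact hzT δ hδ he
    have h3 : 3 ≤ T.card := by
      refine le_trans (L.three_le_nbrs ha) (Finset.card_le_card ?_)
      intro δ hδ
      obtain ⟨-, h4, h5⟩ := Finset.mem_filter.mp hδ
      have hS' : δ ∈ S := Finset.mem_filter.mpr ⟨Finset.mem_univ _, h4⟩
      exact Finset.mem_filter.mpr ⟨hS', (hj δ h4).2.2.2 h5⟩
    have h4 : insert a (T.image z) ⊆ W := by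
      intro x hx
      rcases Finset.mem_insert.mp hx with rfl | hx
      · exact haW
      · obtain ⟨δ, hδ, rfl⟩ := Finset.mem_image.mp hx
        exact hzW δ (Finset.mem_filter.mp hδ).1
    have h5 := Finset.card_le_card h4
    rw [Finset.card_insert_of_notMem hna, himg] at h5
    omega

/-- a component which contains a vertex on a great circle without vertices in `Z` -/
theorem eight_le_of_inactive (hZ : ∃ v, L.Z v) {u : V} (hu : ¬ L.Z u) {d : K.D}
    (hd : src d ∈ L.comp u) (h : ¬ L.Act d) : 8 ≤ (L.AZ (L.comp u)).card := by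
  classical
  obtain ⟨a, ha⟩ := hZ
  have hn := L.Inact_line hu hd h
  have h1 := L.Inact_half hu hn ha
  have h2 := L.Inact_half hu hn (a := K.ngV a) ((L.Z_ng a).mpr ha)
  have hs0 : K.side (sd d) a ≠ 0 := fun h0 => (hn _ ((K.side_zero _ _).mp h0)).1 ha
  have hdis : Disjoint ((L.AZ (L.comp u)).filter fun z => K.side (sd d) z = K.side (sd d) a)
      ((L.AZ (L.comp u)).filter fun z => K.side (sd d) z = K.side (sd d) (K.ngV a)) := by
    rw [Finset.disjoint_left]
    intro z hz hz'
    have h3 := (Finset.mem_filter.mp hz).2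
    have h4 := (Finset.mem_filter.mp hz').2
    rw [h3, K.side_ng] at h4
    revert h4 hs0
    generalize K.side (sd d) a = s
    revert s
    decide
  have h5 := Finset.card_union_of_disjoint hdis
  have h6 : ((L.AZ (L.comp u)).filter fun z => K.side (sd d) z = K.side (sd d) a) ∪
      ((L.AZ (L.comp u)).filter fun z => K.side (sd d) z = K.side (sd d) (K.ngV a)) ⊆
      L.AZ (L.comp u) :=
    Finset.union_subset (Finset.filter_subset _ _) (Finset.filter_subset _ _)
  have h7 := Finset.card_le_card h6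
  omega

end Lab

end Pool.Agent.VeeC
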