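import Pool.Agent.VeeC.LabDefs

set_option autoImplicit false

namespace Pool.Agent.VeeC

open Arr

variable {V N : Type*} [Fintype V] [Fintype N] {K : Arr V N} {L : Lab K}

namespace Lab

theorem Z_ant (d : K.D) : L.Z (src (ant d)) ↔ L.Z (src d) := L.Z_ng _

theorem LabBasic_pos1 {d : K.D} (h0 : L.Z (src d) → L.s d = true)
    (h1 : L.Z (src (F d)) → L.s (F d) = true) (h2 : L.Z (src (F (F d))) → L.s (F (F d)) = true) :
    L.e d = true := by
  apply L.pos
  intro k hk
  interval_cases k
  · exact h0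
  · exact h1
  · exact h2

theorem LabBasic_pos {d : K.D} (h0 : L.Z (src d) → L.s d = true)
    (h1 : L.Z (src (F d)) → L.s (F d) = true) (h2 : L.Z (src (F (F d))) → L.s (F (F d)) = true) :
    L.e d = true ∧ L.e (F d) = true ∧ L.e (F (F d)) = true := by
  refine ⟨LabBasic_pos1 h0 h1 h2, LabBasic_pos1 h1 h2 ?_, LabBasic_pos1 h2 ?_ ?_⟩
  · rw [F3]; exact h0
  · rw [F3]; exact h0
  · rw [F3]; exact h1

theorem LabBasic_neg1 {d : K.D} (hex : L.Z (src d) ∨ L.Z (src (F d)) ∨ L.Z (src (F (F d))))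
    (h0 : L.Z (src d) → L.s d = false)
    (h1 : L.Z (src (F d)) → L.s (F d) = false) (h2 : L.Z (src (F (F d))) → L.s (F (F d)) = false) :
    L.e d = false := by
  apply L.neg
  · rcases hex with h | h | h
    · exact ⟨0, by norm_num, h⟩
    · exact ⟨1, by norm_num, h⟩
    · exact ⟨2, by norm_num, h⟩
  intro k hk
  interval_cases k
  · exact h0
  · exact h1
  · exact h2

theorem LabBasic_neg {d : K.D} (hex : L.Z (src d) ∨ L.Z (src (F d)) ∨ L.Z (src (F (F d))))
    (h0 : L.Z (src d) → L.s d = false)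
    (h1 : L.Z (src (F d)) → L.s (F d) = false) (h2 : L.Z (src (F (F d))) → L.s (F (F d)) = false) :
    L.e d = false ∧ L.e (F d) = false ∧ L.e (F (F d)) = false := by
  refine ⟨LabBasic_neg1 hex h0 h1 h2, LabBasic_neg1 ?_ h1 h2 ?_, LabBasic_neg1 ?_ h2 ?_ ?_⟩
  · rw [F3]; tauto
  · rw [F3]; exact h0
  · rw [F3]; tauto
  · rw [F3]; exact h0
  · rw [F3]; exact h1

theorem LabBasic_eF (d : K.D) : L.e (F d) = L.e (rot d) := L.e_rev (rot d)

/-- chambers with exactly one vertex in `Z` -/
theorem s_eq_e {d : K.D} (h : L.Z (src d)) (h1 : ¬ L.Z (tg d)) (h2 : ¬ L.Z (tg (rot d))) :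
    L.s d = L.e d ∧ L.s d = L.e (rot d) ∧ L.s d = L.e (F (F d)) := by
  have hF : ¬ L.Z (src (F d)) := h2
  have hFF : ¬ L.Z (src (F (F d))) := by rw [src_F2]; exact h1
  rw [← LabBasic_eF]
  cases hs : L.s d with
  | true =>
    obtain ⟨e1, e2, e3⟩ := LabBasic_pos (L := L) (d := d) (fun _ => hs) (fun h => absurd h hF)
      (fun h => absurd h hFF)
    exact ⟨e1.symm, e2.symm, e3.symm⟩
  | false =>
    obtain ⟨e1, e2, e3⟩ := LabBasic_neg (L := L) (d := d) (Or.inl h) (fun _ => hs)
      (fun h => absurd h hF) (fun h => absurd h hFF)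
    exact ⟨e1.symm, e2.symm, e3.symm⟩

/-- chambers without vertices in `Z` -/
theorem e_true {d : K.D} (h : ¬ L.Z (src d)) (h1 : ¬ L.Z (tg d)) (h2 : ¬ L.Z (tg (rot d))) :
    L.e d = true ∧ L.e (rot d) = true ∧ L.e (F (F d)) = true := by
  have hFF : ¬ L.Z (src (F (F d))) := by rw [src_F2]; exact h1
  rw [← LabBasic_eF]
  exact LabBasic_pos (fun h' => absurd h' h) (fun h' => absurd h' h2) (fun h' => absurd h' hFF)

/-- chambers with exactly two vertices in `Z`: the labels there are not both opposite to the label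
of an edge of the chamber -/
theorem not_both {d : K.D} (h : L.Z (src d)) (_h1 : L.Z (tg d)) (h2 : ¬ L.Z (tg (rot d)))
    {t : Bool} (ht : L.e (rot d) = t ∨ L.e (F (F d)) = t ∨ L.e d = t) :
    ¬ (L.s d = !t ∧ L.s (F (F d)) = !t) := by
  rintro ⟨hs, hs'⟩
  rw [← LabBasic_eF] at ht
  cases t with
  | true =>
    obtain ⟨e1, e2, e3⟩ := LabBasic_neg (L := L) (d := d) (Or.inl h) (fun _ => by simpa using hs)
      (fun h => absurd h h2) (fun _ => by simpa using hs')
    rw [e1, e2, e3] at ht
    simp at ht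
  | false =>
    obtain ⟨e1, e2, e3⟩ := LabBasic_pos (L := L) (d := d) (fun _ => by simpa using hs)
      (fun h => absurd h h2) (fun _ => by simpa using hs')
    rw [e1, e2, e3] at ht
    simp at ht

theorem chg_third {d : K.D} (h : L.Z (src d)) (h1 : ¬ L.Z (tg d)) (h2 : L.chg d) :
    L.Z (tg (rot d)) ∨ L.Z (tg (rotI d)) := by
  by_contra hcon
  push Not at hcon
  obtain ⟨hc1, hc2⟩ := hcon
  apply h2
  have e1 := (s_eq_e (L := L) h h1 hc1).1
  have e2 := (s_eq_e (L := L) (d := rotI d) (by rw [src_rotI]; exact h) hc2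
    (by rw [rot_rotI]; exact h1)).2.1
  rw [rot_rotI] at e2
  rw [e1, e2]

open Classical in
theorem eight_le_chg {v : V} (h : L.Z v) :
    8 ≤ (Finset.univ.filter fun d : K.D => src d = v ∧ L.chg d).card := by
  refine (L.cauchy v h).trans ?_
  apply Finset.card_le_card_of_injOn rot
  · intro d hd
    have hd' := (Finset.mem_filter.mp (Finset.mem_coe.mp hd)).2
    refine Finset.mem_coe.mpr (Finset.mem_filter.mpr ⟨Finset.mem_univ _, hd'.1, ?_⟩)
    unfold chg
    rw [rotI_rot]
    exact hd'.2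
  · exact rot_injective.injOn

theorem four_le_m {v : V} (h : L.Z v) : 4 ≤ K.m v := by
  classical
  have h1 := eight_le_chg (L := L) h
  have h2 : (Finset.univ.filter fun d : K.D => src d = v ∧ L.chg d).card ≤
      (Finset.univ.filter fun d : K.D => src d = v).card := by
    apply Finset.card_le_card
    intro d hd
    exact Finset.mem_filter.mpr ⟨Finset.mem_univ _, (Finset.mem_filter.mp hd).2.1⟩
  have h3 := card_darts (K := K) v
  have h4 : (Finset.univ.filter fun d : K.D => src d = v).card = 2 * K.m v := by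
    convert h3
  omega

open Classical in
/-- every vertex in `Z` has at least three neighbours in `Z` -/
theorem three_le_nbrs {v : V} (h : L.Z v) :
    3 ≤ (Finset.univ.filter fun d : K.D => src d = v ∧ L.Z (tg d)).card := by
  have h1 := eight_le_chg (L := L) h
  set Q := Finset.univ.filter fun d : K.D => src d = v ∧ L.Z (tg d) with hQ
  have h2 : (Finset.univ.filter fun d : K.D => src d = v ∧ L.chg d) ⊆
      Q ∪ (Q.image rot ∪ Q.image rotI) := by
    intro d hd
    obtain ⟨hd1, hd2⟩ := (Finset.mem_filter.mp hd).2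
    by_cases hz : L.Z (tg d)
    · exact Finset.mem_union_left _ (Finset.mem_filter.mpr ⟨Finset.mem_univ _, hd1, hz⟩)
    · apply Finset.mem_union_right
      rcases chg_third (L := L) (by rw [hd1]; exact h) hz hd2 with h3 | h3
      · apply Finset.mem_union_right
        exact Finset.mem_image.mpr ⟨rot d, Finset.mem_filter.mpr ⟨Finset.mem_univ _,
          by rw [src_rot, hd1], h3⟩, rotI_rot d⟩
      · apply Finset.mem_union_left
        exact Finset.mem_image.mpr ⟨rotI d, Finset.mem_filter.mpr ⟨Finset.mem_univ _,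
          by rw [src_rotI, hd1], h3⟩, rot_rotI d⟩
  have h3 := Finset.card_le_card h2
  have h4 := Finset.card_union_le Q (Q.image rot ∪ Q.image rotI)
  have h5 := Finset.card_union_le (Q.image rot) (Q.image rotI)
  have h6 : (Q.image rot).card ≤ Q.card := Finset.card_image_le
  have h7 : (Q.image rotI).card ≤ Q.card := Finset.card_image_le
  omega

theorem mem_comp {u v : V} : v ∈ L.comp u ↔ Relation.ReflTransGen L.UAdj u v := by
  classical
  simp [comp]

theorem self_mem_comp (u : V) : u ∈ L.comp u := mem_comp.mpr Relation.ReflTransGen.refl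

theorem not_Z_of_mem {u v : V} (hu : ¬ L.Z u) (h : v ∈ L.comp u) : ¬ L.Z v := by
  have h1 := mem_comp.mp h
  induction h1 with
  | refl => exact hu
  | tail _ h2 _ => exact h2.2.1

theorem UAdj.symm {u v : V} (h : L.UAdj u v) : L.UAdj v u :=
  ⟨h.2.1, h.1, h.2.2.elim fun d hd => ⟨rev d, by rw [src_rev, hd.2], by rw [tg_rev, hd.1]⟩⟩

/-- neighbours outside of `Z` are in the same component -/
theorem mem_comp_of_adj {u : V} (hu : ¬ L.Z u) {d : K.D} (h : src d ∈ L.comp u)
    (h' : ¬ L.Z (tg d)) : tg d ∈ L.comp u :=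
  mem_comp.mpr ((mem_comp.mp h).tail ⟨not_Z_of_mem hu h, h', d, rfl, rfl⟩)

theorem LabBasic_symm {u v : V} (h : Relation.ReflTransGen L.UAdj u v) :
    Relation.ReflTransGen L.UAdj v u := by
  induction h with
  | refl => exact Relation.ReflTransGen.refl
  | tail _ h2 h3 => exact (Relation.ReflTransGen.single h2.symm).trans h3

theorem comp_eq {u v : V} (_hu : ¬ L.Z u) (h : v ∈ L.comp u) : L.comp v = L.comp u := by
  have h1 := mem_comp.mp h
  ext w
  rw [mem_comp, mem_comp]
  exact ⟨fun h2 => h1.trans h2, fun h2 => (LabBasic_symm h1).trans h2⟩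

/-- a component with at least two vertices has a vertex which is not a double point -/
theorem exists_triple {u : V} (_hu : ¬ L.Z u) (h : 2 ≤ (L.comp u).card) :
    ∃ v ∈ L.comp u, 3 ≤ K.m v := by
  obtain ⟨v, hv, hvu⟩ : ∃ v ∈ L.comp u, v ≠ u := by
    by_contra hcon
    push Not at hcon
    have h1 : L.comp u ⊆ {u} := fun w hw => Finset.mem_singleton.mpr (hcon w hw)
    have h2 := Finset.card_le_card h1
    rw [Finset.card_singleton] at h2
    omega
  have h1 := mem_comp.mp hv
  rcases Relation.ReflTransGen.cases_head h1 with h2 | ⟨w, h2, -⟩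
  · exact absurd h2.symm hvu
  obtain ⟨h3, h4, d, hd1, hd2⟩ := h2
  have hw : w ∈ L.comp u := mem_comp.mpr (Relation.ReflTransGen.single ⟨h3, h4, d, hd1, hd2⟩)
  rcases Nat.lt_or_ge (K.m u) 3 with h5 | h5
  · refine ⟨w, hw, ?_⟩
    have h6 := K.two_le_m u
    have h7 : K.m u = 2 := by omega
    have h8 := K.dbl (src d) (sd d) d.2 (by rw [hd1]; exact h7)
    have h9 : K.ny (sd d) (src d) = w := hd2
    rw [h9] at h8
    have h10 := K.two_le_m w
    omega
  · exact ⟨u, self_mem_comp u, h5⟩

/-- if the chamber to the left of `d` has the vertices `z ∈ Z`, `c ∈ C` and a third one outside of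
`Z`, then this is in `C` -/
theorem third_mem {u : V} (hu : ¬ L.Z u) {d : K.D} (h : tg d ∈ L.comp u)
    (h' : ¬ L.Z (tg (rot d))) : tg (rot d) ∈ L.comp u := by
  have h1 := mem_comp_of_adj (L := L) hu (d := F (F d)) (by rw [src_F2]; exact h)
    (by rw [tg_F2]; exact h')
  rw [tg_F2] at h1
  exact h1

theorem third_mem' {u : V} (hu : ¬ L.Z u) {d : K.D} (h : tg d ∈ L.comp u)
    (h' : ¬ L.Z (tg (rotI d))) : tg (rotI d) ∈ L.comp u := by
  have e1 : src (rev (F (F (rotI d)))) = tg d := by rw [src_rev, tg_F2, rot_rotI]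
  have e2 : tg (rev (F (F (rotI d)))) = tg (rotI d) := by rw [tg_rev, src_F2]
  have h1 := mem_comp_of_adj (L := L) hu (d := rev (F (F (rotI d)))) (by rw [e1]; exact h)
    (by rw [e2]; exact h')
  rw [e2] at h1
  exact h1

end Lab

end Pool.Agent.VeeC
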