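import Pool.Agent.VeeC.ArrBasic

set_option autoImplicit false

/-!
Definitions for the counting argument: `Z` = vertices where an angle changes, `U` = the others.
-/

namespace Pool.Agent.VeeC

open Arr

variable {V N : Type*} [Fintype V] [Fintype N] {K : Arr V N} (L : Lab K)

namespace Lab

/-- the label changes across the edge `d` (seen from its source) -/
def chg (d : K.D) : Prop := L.s (rotI d) ≠ L.s d

/-- adjacent vertices outside of `Z` -/
def UAdj (u v : V) : Prop := ¬ L.Z u ∧ ¬ L.Z v ∧ ∃ d : K.D, src d = u ∧ tg d = v

open Classical in
/-- the component of `u` in the graph of the vertices outside of `Z` -/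
noncomputable def comp (u : V) : Finset V :=
  Finset.univ.filter fun v => Relation.ReflTransGen L.UAdj u v

open Classical in
/-- the components -/
noncomputable def comps : Finset (Finset V) := (Finset.univ.filter fun u => ¬ L.Z u).image L.comp

open Classical in
/-- the edges in `Z` whose left chamber has its third vertex in `C` -/
noncomputable def KC (C : Finset V) : Finset K.D :=
  Finset.univ.filter fun d => L.Z (src d) ∧ L.Z (tg d) ∧ src (F d) ∈ C

open Classical in
/-- the edges from `Z` to `C` across which the label changes -/
noncomputable def XC (C : Finset V) : Finset K.D :=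
  Finset.univ.filter fun d => L.Z (src d) ∧ tg d ∈ C ∧ L.chg d

open Classical in
/-- the vertices in `Z` adjacent to `C` -/
noncomputable def AZ (C : Finset V) : Finset V :=
  Finset.univ.filter fun z => L.Z z ∧ ∃ d : K.D, src d = z ∧ tg d ∈ C

end Lab

end Pool.Agent.VeeC
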