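import Pool.Agent.VeeC.Zeta

set_option autoImplicit false

/-!
Spherical triangles with angles at most `π/2`: the sides are monotone functions of the angles.
-/

namespace Pool.Agent.VeeC

open Matrix

/-- the cosine of the angle between two vectors -/
noncomputable def cosn (x y : R3) : ℝ := (x ⬝ᵥ y) / Real.sqrt ((x ⬝ᵥ x) * (y ⬝ᵥ y))

theorem cosn_comm (x y : R3) : cosn x y = cosn y x := by
  unfold cosn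
  rw [dotProduct_comm, mul_comm (x ⬝ᵥ x)]

/-- inward normals and vertices of a triangle with angles at most `π/2` -/
structure Tri (p x : Fin 3 → R3) : Prop where
  obt : ∀ i j, i ≠ j → p i ⬝ᵥ p j ≤ 0
  zero : ∀ i j, i ≠ j → p j ⬝ᵥ x i = 0
  pos : ∀ i, 0 < p i ⬝ᵥ x i

theorem TriMono_self_pos {x : R3} (h : x ≠ 0) : 0 < x ⬝ᵥ x := by
  have h1 : 0 ≤ x ⬝ᵥ x := Finset.sum_nonneg fun i _ => mul_self_nonneg (x i)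
  refine lt_of_le_of_ne h1 fun h2 => h ?_
  have h3 := (Finset.sum_eq_zero_iff_of_nonneg (fun i _ => mul_self_nonneg (x i))).1 h2.symm
  ext i
  exact mul_self_eq_zero.1 (h3 i (Finset.mem_univ i))

theorem TriMono_li {p x : Fin 3 → R3} (h : Tri p x) {i j : Fin 3} (hij : i ≠ j) :
    LinearIndependent ℝ ![p i, p j] := by
  rw [LinearIndependent.pair_iff]
  intro s t hst
  have h1 : (s • p i + t • p j) ⬝ᵥ x i = 0 := by rw [hst, zero_dotProduct]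
  have h2 : (s • p i + t • p j) ⬝ᵥ x j = 0 := by rw [hst, zero_dotProduct]
  rw [add_dotProduct, smul_dotProduct, smul_dotProduct, h.zero i j hij, smul_eq_mul,
    smul_eq_mul, mul_zero, add_zero] at h1
  rw [add_dotProduct, smul_dotProduct, smul_dotProduct, h.zero j i hij.symm, smul_eq_mul,
    smul_eq_mul, mul_zero, zero_add] at h2
  exact ⟨(mul_eq_zero.1 h1).resolve_right (h.pos i).ne',
    (mul_eq_zero.1 h2).resolve_right (h.pos j).ne'⟩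

/-- the cosine of a side -/
theorem TriMono_cos {p x : Fin 3 → R3} (h : Tri p x) {i j k : Fin 3} (hij : i ≠ j) (hik : i ≠ k)
    (hjk : j ≠ k) :
    0 < (p j ⬝ᵥ p j) * (p k ⬝ᵥ p k) - (p j ⬝ᵥ p k) ^ 2 ∧
    0 < (p i ⬝ᵥ p i) * (p k ⬝ᵥ p k) - (p i ⬝ᵥ p k) ^ 2 ∧ 0 < p k ⬝ᵥ p k ∧
    cosn (x i) (x j) = ((p i ⬝ᵥ p k) * (p j ⬝ᵥ p k) - (p i ⬝ᵥ p j) * (p k ⬝ᵥ p k)) /
      Real.sqrt (((p j ⬝ᵥ p j) * (p k ⬝ᵥ p k) - (p j ⬝ᵥ p k) ^ 2) *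
        ((p i ⬝ᵥ p i) * (p k ⬝ᵥ p k) - (p i ⬝ᵥ p k) ^ 2)) := by
  obtain ⟨c, hc⟩ := eq_smul_cross (TriMono_li h hjk) (h.zero i j hij) (h.zero i k hik)
  obtain ⟨d, hd⟩ := eq_smul_cross (TriMono_li h hik.symm) (h.zero j k hjk) (h.zero j i hij.symm)
  have hxi : x i ≠ 0 := by
    intro h0
    have := h.pos i
    rw [h0, dotProduct_zero] at this
    exact lt_irrefl _ this
  have hxj : x j ≠ 0 := by
    intro h0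
    have := h.pos j
    rw [h0, dotProduct_zero] at this
    exact lt_irrefl _ this
  have hpk : p k ≠ 0 := by
    intro h0
    have := h.pos k
    rw [h0, zero_dotProduct] at this
    exact lt_irrefl _ this
  have h1 : x i ⬝ᵥ x i = c ^ 2 * ((p j ⬝ᵥ p j) * (p k ⬝ᵥ p k) - (p j ⬝ᵥ p k) ^ 2) := by
    rw [hc, smul_dotProduct, dotProduct_smul, cross_dot_cross', smul_eq_mul, smul_eq_mul,
      dotProduct_comm (p k) (p j)]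
    ring
  have h2 : x j ⬝ᵥ x j = d ^ 2 * ((p i ⬝ᵥ p i) * (p k ⬝ᵥ p k) - (p i ⬝ᵥ p k) ^ 2) := by
    rw [hd, smul_dotProduct, dotProduct_smul, cross_dot_cross', smul_eq_mul, smul_eq_mul,
      dotProduct_comm (p k) (p i)]
    ring
  have h3 : x i ⬝ᵥ x j =
      c * d * ((p i ⬝ᵥ p k) * (p j ⬝ᵥ p k) - (p i ⬝ᵥ p j) * (p k ⬝ᵥ p k)) := by
    rw [hc, hd, smul_dotProduct, dotProduct_smul, cross_dot_cross', smul_eq_mul, smul_eq_mul,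
      dotProduct_comm (p k) (p i), dotProduct_comm (p j) (p i)]
    ring
  have h4 : p i ⬝ᵥ x i = c * det3 (p i) (p j) (p k) := by
    rw [hc, dotProduct_smul, smul_eq_mul]
    rfl
  have h5 : p j ⬝ᵥ x j = d * det3 (p i) (p j) (p k) := by
    rw [hd, dotProduct_smul, smul_eq_mul, ← det3_cyc (p i) (p j) (p k)]
    rfl
  have h6 : 0 < c * d := by
    have h7 := mul_pos (h.pos i) (h.pos j)
    rw [h4, h5] at h7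
    by_contra h8
    have h9 : c * d * (det3 (p i) (p j) (p k) * det3 (p i) (p j) (p k)) ≤ 0 :=
      mul_nonpos_of_nonpos_of_nonneg (not_lt.1 h8) (mul_self_nonneg _)
    nlinarith
  have hc0 : c ≠ 0 := left_ne_zero_of_mul h6.ne'
  have hd0 : d ≠ 0 := right_ne_zero_of_mul h6.ne'
  have hA : 0 < (p j ⬝ᵥ p j) * (p k ⬝ᵥ p k) - (p j ⬝ᵥ p k) ^ 2 := by
    have h7 := TriMono_self_pos hxi
    rw [h1] at h7
    exact (mul_pos_iff_of_pos_left (by positivity)).1 h7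
  have hB : 0 < (p i ⬝ᵥ p i) * (p k ⬝ᵥ p k) - (p i ⬝ᵥ p k) ^ 2 := by
    have h7 := TriMono_self_pos hxj
    rw [h2] at h7
    exact (mul_pos_iff_of_pos_left (by positivity)).1 h7
  refine ⟨hA, hB, TriMono_self_pos hpk, ?_⟩
  unfold cosn
  rw [h1, h2, h3]
  have h7 : c ^ 2 * ((p j ⬝ᵥ p j) * (p k ⬝ᵥ p k) - (p j ⬝ᵥ p k) ^ 2) *
      (d ^ 2 * ((p i ⬝ᵥ p i) * (p k ⬝ᵥ p k) - (p i ⬝ᵥ p k) ^ 2)) =
      (c * d) ^ 2 * (((p j ⬝ᵥ p j) * (p k ⬝ᵥ p k) - (p j ⬝ᵥ p k) ^ 2) *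
      ((p i ⬝ᵥ p i) * (p k ⬝ᵥ p k) - (p i ⬝ᵥ p k) ^ 2)) := by ring
  rw [h7, Real.sqrt_mul (sq_nonneg _), Real.sqrt_sq h6.le, mul_div_mul_left _ _ h6.ne']

theorem TriMono_third {i j : Fin 3} (hij : i ≠ j) : ∃ k : Fin 3, i ≠ k ∧ j ≠ k := by
  revert i j
  decide

theorem tri_le {p q x y : Fin 3 → R3} (hp : Tri p x) (hq : Tri q y)
    (hn : ∀ i, p i ⬝ᵥ p i = q i ⬝ᵥ q i) (h : ∀ i j, i ≠ j → p i ⬝ᵥ p j ≤ q i ⬝ᵥ q j)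
    (i j : Fin 3) (hij : i ≠ j) : cosn (y i) (y j) ≤ cosn (x i) (x j) := by
  obtain ⟨k, hik, hjk⟩ := TriMono_third hij
  obtain ⟨p1, p2, p3, p4⟩ := TriMono_cos hp hij hik hjk
  obtain ⟨q1, q2, q3, q4⟩ := TriMono_cos hq hij hik hjk
  rw [p4, q4]
  have hij' := h i j hij
  have hik' := h i k hik
  have hjk' := h j k hjk
  have oij := hq.obt i j hij
  have oik := hq.obt i k hik
  have ojk := hq.obt j k hjk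
  rw [← hn i, ← hn k] at q2
  rw [← hn j, ← hn k] at q1
  rw [← hn i, ← hn j, ← hn k]
  have hnum : (q i ⬝ᵥ q k) * (q j ⬝ᵥ q k) - (q i ⬝ᵥ q j) * (p k ⬝ᵥ p k) ≤
      (p i ⬝ᵥ p k) * (p j ⬝ᵥ p k) - (p i ⬝ᵥ p j) * (p k ⬝ᵥ p k) := by nlinarith
  have hnum0 : 0 ≤ (p i ⬝ᵥ p k) * (p j ⬝ᵥ p k) - (p i ⬝ᵥ p j) * (p k ⬝ᵥ p k) := by nlinarith
  have hden1 : (p j ⬝ᵥ p j) * (p k ⬝ᵥ p k) - (p j ⬝ᵥ p k) ^ 2 ≤
      (p j ⬝ᵥ p j) * (p k ⬝ᵥ p k) - (q j ⬝ᵥ q k) ^ 2 := by nlinarith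
  have hden2 : (p i ⬝ᵥ p i) * (p k ⬝ᵥ p k) - (p i ⬝ᵥ p k) ^ 2 ≤
      (p i ⬝ᵥ p i) * (p k ⬝ᵥ p k) - (q i ⬝ᵥ q k) ^ 2 := by nlinarith
  exact div_le_div₀ hnum0 hnum (Real.sqrt_pos.2 (mul_pos p1 p2))
    (Real.sqrt_le_sqrt (mul_le_mul hden1 hden2 p2.le q1.le))

theorem tri_lt {p q x y : Fin 3 → R3} (hp : Tri p x) (hq : Tri q y)
    (hn : ∀ i, p i ⬝ᵥ p i = q i ⬝ᵥ q i) (h : ∀ i j, i ≠ j → q i ⬝ᵥ q j ≤ p i ⬝ᵥ p j)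
    (hs : ∃ i j, i ≠ j ∧ q i ⬝ᵥ q j < p i ⬝ᵥ p j)
    (hz : ∀ i j k, i ≠ j → i ≠ k → j ≠ k → p i ⬝ᵥ p j = 0 → p i ⬝ᵥ p k ≠ 0)
    (i j : Fin 3) (hij : i ≠ j) : cosn (x i) (x j) < cosn (y i) (y j) := by
  obtain ⟨k, hik, hjk⟩ := TriMono_third hij
  obtain ⟨p1, p2, p3, p4⟩ := TriMono_cos hp hij hik hjk
  obtain ⟨q1, q2, q3, q4⟩ := TriMono_cos hq hij hik hjk
  rw [p4, q4]
  have hij' := h i j hij
  have hik' := h i k hik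
  have hjk' := h j k hjk
  have oij := hp.obt i j hij
  have oik := hp.obt i k hik
  have ojk := hp.obt j k hjk
  have hcase : q i ⬝ᵥ q j < p i ⬝ᵥ p j ∨ q i ⬝ᵥ q k < p i ⬝ᵥ p k ∨ q j ⬝ᵥ q k < p j ⬝ᵥ p k := by
    obtain ⟨l, m, hlm, hlt⟩ := hs
    have h3 : ∀ l : Fin 3, l = i ∨ l = j ∨ l = k := by
      revert hij hik hjk
      clear * -
      revert i j k
      decide
    rcases h3 l with rfl | rfl | rfl <;> rcases h3 m with rfl | rfl | rfl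
    · exact absurd rfl hlm
    · exact Or.inl hlt
    · exact Or.inr (Or.inl hlt)
    · rw [dotProduct_comm (q _), dotProduct_comm (p _)] at hlt
      exact Or.inl hlt
    · exact absurd rfl hlm
    · exact Or.inr (Or.inr hlt)
    · rw [dotProduct_comm (q _), dotProduct_comm (p _)] at hlt
      exact Or.inr (Or.inl hlt)
    · rw [dotProduct_comm (q _), dotProduct_comm (p _)] at hlt
      exact Or.inr (Or.inr hlt)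
    · exact absurd rfl hlm
  rw [← hn i, ← hn k] at q2
  rw [← hn j, ← hn k] at q1
  rw [← hn i, ← hn j, ← hn k]
  have hnum : (p i ⬝ᵥ p k) * (p j ⬝ᵥ p k) - (p i ⬝ᵥ p j) * (p k ⬝ᵥ p k) ≤
      (q i ⬝ᵥ q k) * (q j ⬝ᵥ q k) - (q i ⬝ᵥ q j) * (p k ⬝ᵥ p k) := by nlinarith
  have hnum0 : 0 ≤ (p i ⬝ᵥ p k) * (p j ⬝ᵥ p k) - (p i ⬝ᵥ p j) * (p k ⬝ᵥ p k) := by nlinarith
  have hden1 : (p j ⬝ᵥ p j) * (p k ⬝ᵥ p k) - (q j ⬝ᵥ q k) ^ 2 ≤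
      (p j ⬝ᵥ p j) * (p k ⬝ᵥ p k) - (p j ⬝ᵥ p k) ^ 2 := by nlinarith
  have hden2 : (p i ⬝ᵥ p i) * (p k ⬝ᵥ p k) - (q i ⬝ᵥ q k) ^ 2 ≤
      (p i ⬝ᵥ p i) * (p k ⬝ᵥ p k) - (p i ⬝ᵥ p k) ^ 2 := by nlinarith
  have hsq : Real.sqrt (((p j ⬝ᵥ p j) * (p k ⬝ᵥ p k) - (q j ⬝ᵥ q k) ^ 2) *
      ((p i ⬝ᵥ p i) * (p k ⬝ᵥ p k) - (q i ⬝ᵥ q k) ^ 2)) ≤
      Real.sqrt (((p j ⬝ᵥ p j) * (p k ⬝ᵥ p k) - (p j ⬝ᵥ p k) ^ 2) *
        ((p i ⬝ᵥ p i) * (p k ⬝ᵥ p k) - (p i ⬝ᵥ p k) ^ 2)) :=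
    Real.sqrt_le_sqrt (mul_le_mul hden1 hden2 q2.le p1.le)
  have hsp := Real.sqrt_pos.2 (mul_pos p1 p2)
  have hsq0 := Real.sqrt_pos.2 (mul_pos q1 q2)
  rcases hcase with h1 | h1 | h1
  · have hnum' : (p i ⬝ᵥ p k) * (p j ⬝ᵥ p k) - (p i ⬝ᵥ p j) * (p k ⬝ᵥ p k) <
      (q i ⬝ᵥ q k) * (q j ⬝ᵥ q k) - (q i ⬝ᵥ q j) * (p k ⬝ᵥ p k) := by nlinarith
    exact div_lt_div₀ hnum' hsq (hnum0.trans hnum'.le) hsq0
  · have hN : 0 < (q i ⬝ᵥ q k) * (q j ⬝ᵥ q k) - (q i ⬝ᵥ q j) * (p k ⬝ᵥ p k) := by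
      have h2 : p j ⬝ᵥ p i ≠ 0 ∨ p j ⬝ᵥ p k ≠ 0 := by
        by_contra h3
        push Not at h3
        exact hz j i k hij.symm hjk hik h3.1 h3.2
      rcases h2 with h2 | h2
      · rw [dotProduct_comm] at h2
        have h3 : p i ⬝ᵥ p j < 0 := lt_of_le_of_ne oij h2
        nlinarith
      · have h3 : p j ⬝ᵥ p k < 0 := lt_of_le_of_ne ojk h2
        nlinarith
    have hden : ((p j ⬝ᵥ p j) * (p k ⬝ᵥ p k) - (q j ⬝ᵥ q k) ^ 2) *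
      ((p i ⬝ᵥ p i) * (p k ⬝ᵥ p k) - (q i ⬝ᵥ q k) ^ 2) <
      ((p j ⬝ᵥ p j) * (p k ⬝ᵥ p k) - (p j ⬝ᵥ p k) ^ 2) *
        ((p i ⬝ᵥ p i) * (p k ⬝ᵥ p k) - (p i ⬝ᵥ p k) ^ 2) := by
      have h4 : (p i ⬝ᵥ p i) * (p k ⬝ᵥ p k) - (q i ⬝ᵥ q k) ^ 2 <
        (p i ⬝ᵥ p i) * (p k ⬝ᵥ p k) - (p i ⬝ᵥ p k) ^ 2 := by nlinarith
      exact mul_lt_mul' hden1 h4 q2.le p1
    exact (div_le_div_of_nonneg_right hnum hsp.le).trans_lt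
      (div_lt_div_of_pos_left hN hsq0 (Real.sqrt_lt_sqrt (mul_pos q1 q2).le hden))
  · have hN : 0 < (q i ⬝ᵥ q k) * (q j ⬝ᵥ q k) - (q i ⬝ᵥ q j) * (p k ⬝ᵥ p k) := by
      have h2 : p i ⬝ᵥ p j ≠ 0 ∨ p i ⬝ᵥ p k ≠ 0 := by
        by_contra h3
        push Not at h3
        exact hz i j k hij hik hjk h3.1 h3.2
      rcases h2 with h2 | h2
      · have h3 : p i ⬝ᵥ p j < 0 := lt_of_le_of_ne oij h2
        nlinarith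
      · have h3 : p i ⬝ᵥ p k < 0 := lt_of_le_of_ne oik h2
        nlinarith
    have hden : ((p j ⬝ᵥ p j) * (p k ⬝ᵥ p k) - (q j ⬝ᵥ q k) ^ 2) *
      ((p i ⬝ᵥ p i) * (p k ⬝ᵥ p k) - (q i ⬝ᵥ q k) ^ 2) <
      ((p j ⬝ᵥ p j) * (p k ⬝ᵥ p k) - (p j ⬝ᵥ p k) ^ 2) *
        ((p i ⬝ᵥ p i) * (p k ⬝ᵥ p k) - (p i ⬝ᵥ p k) ^ 2) := by
      have h4 : (p j ⬝ᵥ p j) * (p k ⬝ᵥ p k) - (q j ⬝ᵥ q k) ^ 2 <
        (p j ⬝ᵥ p j) * (p k ⬝ᵥ p k) - (p j ⬝ᵥ p k) ^ 2 := by nlinarith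
      exact mul_lt_mul h4 hden2 q2 p1.le
    exact (div_le_div_of_nonneg_right hnum hsp.le).trans_lt
      (div_lt_div_of_pos_left hN hsq0 (Real.sqrt_lt_sqrt (mul_pos q1 q2).le hden))

end Pool.Agent.VeeC
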