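import Pool.Agent.VeeC.ArrMk
import Pool.Agent.VeeC.Chiro
import Pool.Agent.VeeC.TriMono
import Pool.Agent.VeeC.CauC

set_option autoImplicit false

/-!
Two families with the same sign vectors and orientations and the same norms give a labelling.
-/

namespace Pool.Agent.VeeC

open Matrix Arr

variable {κ : Type*} [Fintype κ]

/-- the data: two families with the same sign vectors, orientations and norms -/
structure Pair3 (a b : κ → R3) : Prop where
  ha : Sys3 a
  hb : Sys3 b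
  hL : LL b = LL a
  hor : ∀ (v : VT (LL a)) (n n' : κ × Bool), Inc v n → Inc v n' →
      SignType.sign (det3 (pt b v) (nv b n) (nv b n')) =
        SignType.sign (det3 (pt a v) (nv a n) (nv a n'))
  hn : ∀ i, b i ⬝ᵥ b i = a i ⬝ᵥ a i

/-- the scalar product of the two normals of a corner -/
noncomputable def gg (a b : κ → R3) (v : VT (LL a)) (n : κ × Bool) : ℝ :=
  nv b n ⬝ᵥ nv b (nx a v n)

/-- the vertices at which some angle changes -/
def ZZ (a b : κ → R3) (v : VT (LL a)) : Prop := ∃ n, Inc v n ∧ gg a b v n ≠ gg a a v n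

open Classical in
/-- the label of a corner -/
noncomputable def ss (a b : κ → R3) (ha : Sys3 a) (d : (arr a ha).D) : Bool :=
  decide (gg a b (src d) (sd d) ≤ gg a a (src d) (sd d))

open Classical in
/-- the label of an edge -/
noncomputable def ee (a b : κ → R3) (ha : Sys3 a) (d : (arr a ha).D) : Bool :=
  decide (cosn (pt b (src d)) (pt b (tg d)) ≤ cosn (pt a (src d)) (pt a (tg d)))

variable {a b : κ → R3}

theorem LabMk_ZZ_imp (h : Pair3 a b) (v : VT (LL a)) (hv : ZZ a b v) : ZZ a b (ngV v) := by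
  obtain ⟨n, hn, hne⟩ := hv
  have h1 : Inc v (nx a v n) := (nx_spec h.ha v n hn).1
  have h2 : Inc (ngV v) (nx a v n) := by
    show - v.1 (nx a v n).1 = 0
    have h3 : v.1 (nx a v n).1 = 0 := h1
    rw [h3]
    rfl
  refine ⟨nx a v n, h2, ?_⟩
  unfold gg at hne ⊢
  rw [nx_rev h.ha v n hn, dotProduct_comm (nv b _), dotProduct_comm (nv a _)]
  exact hne

theorem ZZ_ngV (h : Pair3 a b) (v : VT (LL a)) : ZZ a b (ngV v) ↔ ZZ a b v := by
  constructor
  · intro hv
    have h1 := LabMk_ZZ_imp h _ hv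
    have h2 : ngV (ngV v) = v := vert_ext (neg_neg v.1)
    rwa [h2] at h1
  · exact LabMk_ZZ_imp h v

theorem ee_rev (h : Pair3 a b) (d : (arr a h.ha).D) : ee a b h.ha (rev d) = ee a b h.ha d := by
  unfold ee
  rw [src_rev, tg_rev, cosn_comm (pt b (tg d)), cosn_comm (pt a (tg d))]

theorem gg_eq_of_not_ZZ (h : Pair3 a b) {v : VT (LL a)} (hv : ¬ ZZ a b v) {n : κ × Bool}
    (hn : Inc v n) : gg a b v n = gg a a v n := by
  by_contra hc
  exact hv ⟨n, hn, hc⟩

theorem LabMk_corner (h : Pair3 a b) (e : (arr a h.ha).D) :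
    nv b (sd e) ⬝ᵥ nv b (sd (F e)) = - gg a b (src e) (sd e) := by
  have h1 : sd (F e) = ngN (nx a (src e) (sd e)) := rfl
  rw [h1, nv_ngN, dotProduct_neg]
  rfl

theorem LabMk_det (h : Pair3 a b) (v : VT (LL a)) (n : κ × Bool) (hn : Inc v n) :
    nx a v n ≠ n ∧ nx a v n ≠ ngN n := by
  have h1 : 0 < det3 (pt a v) (nv a n) (nv a (nx a v n)) :=
    nx_pos h.ha v n hn 1 one_pos (by have := two_le_mm v; omega)
  have h2 := (det3_eq_zero_iff h.ha hn (nx_spec h.ha v n hn).1).not.1 h1.ne'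
  exact not_or.1 h2

theorem LabMk_gg (h : Pair3 a b) (v : VT (LL a)) (n : κ × Bool) (hn : Inc v n) :
    (3 ≤ mm v → 0 < gg a b v n) ∧ (mm v = 2 → gg a b v n = 0) := by
  refine ⟨fun h3 => acute h.ha h.hb h.hL h.hor v n hn h3, fun h2 => ?_⟩
  have h3 := LabMk_det h v n hn
  exact right h.ha h.hb h.hL v n _ hn (nx_spec h.ha v n hn).1 h2 h3.1 h3.2

theorem LabMk_gg_nonneg (h : Pair3 a b) (v : VT (LL a)) (n : κ × Bool) (hn : Inc v n) :
    0 ≤ gg a b v n := by
  have h1 := LabMk_gg h v n hn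
  rcases (two_le_mm v).eq_or_lt with h2 | h2
  · rw [h1.2 h2.symm]
  · exact (h1.1 h2).le

theorem LabMk_inc0 (h : Pair3 a b) (e : (arr a h.ha).D) : nv b (sd e) ⬝ᵥ pt b (src e) = 0 :=
  (inc_iff h.hL (src e) (sd e)).1 e.2

theorem LabMk_inc1 (h : Pair3 a b) (e : (arr a h.ha).D) :
    nv b (sd (F e)) ⬝ᵥ pt b (src e) = 0 := by
  have h1 := inc_tg (F e)
  rw [tg_F] at h1
  exact (inc_iff h.hL (src e) (sd (F e))).1 h1

theorem LabMk_pos (h : Pair3 a b) (e : (arr a h.ha).D) :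
    0 < nv b (sd (F (F e))) ⬝ᵥ pt b (src e) := by
  have h1 := tri_side h.ha (src e) (sd e) e.2
  have h2 := side_eq h.hL (src e) (sd (F (F e)))
  have h3 : side (sd (F (F e))) (src e) = 1 := h1
  rw [h3] at h2
  exact sign_eq_one_iff.1 h2.symm

/-- the triangle to the left of a dart: normals `sd (F^k d)`, opposite vertices -/
theorem tri_of_dart (h : Pair3 a b) (d : (arr a h.ha).D) :
    Tri (fun i : Fin 3 => nv b (sd (F^[i.1] d))) (fun i : Fin 3 => pt b (src (F^[i.1 + 1] d))) := by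
  have hc : ∀ e : (arr a h.ha).D, nv b (sd e) ⬝ᵥ nv b (sd (F e)) ≤ 0 := fun e => by
    rw [LabMk_corner h, neg_nonpos]
    exact LabMk_gg_nonneg h _ _ e.2
  have h3 : F (F (F d)) = d := F3 d
  refine ⟨fun i j hij => ?_, fun i j hij => ?_, fun i => ?_⟩
  · match i, j with
    | 0, 0 => exact absurd rfl hij
    | 1, 1 => exact absurd rfl hij
    | 2, 2 => exact absurd rfl hij
    | 0, 1 => exact hc d
    | 1, 0 =>
      show nv b (sd (F d)) ⬝ᵥ nv b (sd d) ≤ 0
      rw [dotProduct_comm]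
      exact hc d
    | 1, 2 => exact hc (F d)
    | 2, 1 =>
      show nv b (sd (F (F d))) ⬝ᵥ nv b (sd (F d)) ≤ 0
      rw [dotProduct_comm]
      exact hc (F d)
    | 2, 0 =>
      show nv b (sd (F (F d))) ⬝ᵥ nv b (sd d) ≤ 0
      have h4 := hc (F (F d))
      rwa [h3] at h4
    | 0, 2 =>
      show nv b (sd d) ⬝ᵥ nv b (sd (F (F d))) ≤ 0
      rw [dotProduct_comm]
      have h4 := hc (F (F d))
      rwa [h3] at h4
  · match i, j with
    | 0, 0 => exact absurd rfl hij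
    | 1, 1 => exact absurd rfl hij
    | 2, 2 => exact absurd rfl hij
    | 0, 1 => exact LabMk_inc0 h (F d)
    | 0, 2 => exact LabMk_inc1 h (F d)
    | 1, 2 => exact LabMk_inc0 h (F (F d))
    | 1, 0 =>
      show nv b (sd d) ⬝ᵥ pt b (src (F (F d))) = 0
      have h4 := LabMk_inc1 h (F (F d))
      rwa [h3] at h4
    | 2, 0 =>
      show nv b (sd d) ⬝ᵥ pt b (src (F (F (F d)))) = 0
      rw [h3]
      exact LabMk_inc0 h d
    | 2, 1 =>
      show nv b (sd (F d)) ⬝ᵥ pt b (src (F (F (F d)))) = 0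
      rw [h3]
      exact LabMk_inc1 h d
  · match i with
    | 0 =>
      show 0 < nv b (sd d) ⬝ᵥ pt b (src (F d))
      have h4 := LabMk_pos h (F d)
      rwa [h3] at h4
    | 1 =>
      show 0 < nv b (sd (F d)) ⬝ᵥ pt b (src (F (F d)))
      have h4 := LabMk_pos h (F (F d))
      rwa [h3] at h4
    | 2 =>
      show 0 < nv b (sd (F (F d))) ⬝ᵥ pt b (src (F (F (F d))))
      rw [h3]
      exact LabMk_pos h d

/-- the corner products -/
theorem gg_F (h : Pair3 a b) (d : (arr a h.ha).D) (k : ℕ) :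
    gg a b (src (F^[k] d)) (sd (F^[k] d)) =
      - (nv b (sd (F^[k] d)) ⬝ᵥ nv b (sd (F^[k + 1] d))) := by
  rw [Function.iterate_succ_apply', LabMk_corner h, neg_neg]

theorem Pair3.self (h : Pair3 a b) : Pair3 a a := ⟨h.ha, h.ha, rfl, fun _ _ _ _ _ => rfl,
  fun _ => rfl⟩

theorem LabMk_norm (h : Pair3 a b) (n : κ × Bool) : nv b n ⬝ᵥ nv b n = nv a n ⬝ᵥ nv a n := by
  unfold nv
  rw [smul_dotProduct, dotProduct_smul, smul_dotProduct, dotProduct_smul, h.hn]

/-- an inequality for the three corners gives one for all pairs -/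
theorem LabMk_pairs (r : Fin 3 → Fin 3 → ℝ) (hr : ∀ i j, r i j = r j i)
    (h0 : 0 ≤ r 0 1) (h1 : 0 ≤ r 1 2) (h2 : 0 ≤ r 2 0) (i j : Fin 3) (hij : i ≠ j) :
    0 ≤ r i j := by
  match i, j with
  | 0, 0 => exact absurd rfl hij
  | 1, 1 => exact absurd rfl hij
  | 2, 2 => exact absurd rfl hij
  | 0, 1 => exact h0
  | 1, 0 => rw [hr]; exact h0
  | 1, 2 => exact h1
  | 2, 1 => rw [hr]; exact h1
  | 2, 0 => exact h2
  | 0, 2 => rw [hr]; exact h2

theorem LabMk_triples (P : Fin 3 → Fin 3 → Fin 3 → Prop) (h1 : P 0 1 2) (h2 : P 0 2 1)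
    (h3 : P 1 2 0) (h4 : P 1 0 2) (h5 : P 2 0 1) (h6 : P 2 1 0) (i j k : Fin 3) (hij : i ≠ j)
    (hik : i ≠ k) (hjk : j ≠ k) : P i j k := by
  have h : (i = 0 ∧ j = 1 ∧ k = 2) ∨ (i = 0 ∧ j = 2 ∧ k = 1) ∨ (i = 1 ∧ j = 2 ∧ k = 0) ∨
      (i = 1 ∧ j = 0 ∧ k = 2) ∨ (i = 2 ∧ j = 0 ∧ k = 1) ∨ (i = 2 ∧ j = 1 ∧ k = 0) := by
    clear h1 h2 h3 h4 h5 h6
    revert i j k
    decide
  rcases h with ⟨rfl, rfl, rfl⟩ | ⟨rfl, rfl, rfl⟩ | ⟨rfl, rfl, rfl⟩ | ⟨rfl, rfl, rfl⟩ |
    ⟨rfl, rfl, rfl⟩ | ⟨rfl, rfl, rfl⟩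
  · exact h1
  · exact h2
  · exact h3
  · exact h4
  · exact h5
  · exact h6

theorem ss_pos (h : Pair3 a b) (d : (arr a h.ha).D)
    (hk : ∀ k < 3, ZZ a b (src (F^[k] d)) → ss a b h.ha (F^[k] d) = true) :
    ee a b h.ha d = true := by
  have h3 : F (F (F d)) = d := F3 d
  have hle : ∀ k < 3, gg a b (src (F^[k] d)) (sd (F^[k] d)) ≤
      gg a a (src (F^[k] d)) (sd (F^[k] d)) := by
    intro k hk3
    by_cases hz : ZZ a b (src (F^[k] d))
    · exact of_decide_eq_true (hk k hk3 hz)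
    · exact (gg_eq_of_not_ZZ h hz (F^[k] d).2).le
  have hc : ∀ k < 3, nv a (sd (F^[k] d)) ⬝ᵥ nv a (sd (F^[k + 1] d)) ≤
      nv b (sd (F^[k] d)) ⬝ᵥ nv b (sd (F^[k + 1] d)) := by
    intro k hk3
    have h4 := hle k hk3
    rw [gg_F h, gg_F h.self] at h4
    linarith
  have h5 := tri_le (tri_of_dart h.self d) (tri_of_dart h d)
    (fun i => (LabMk_norm h _).symm) (fun i j hij => ?_) 2 1 (by decide)
  · have h6 : cosn (pt b (src (F (F (F d))))) (pt b (src (F (F d)))) ≤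
        cosn (pt a (src (F (F (F d))))) (pt a (src (F (F d)))) := h5
    rw [h3, src_F2] at h6
    exact decide_eq_true h6
  · have h6 := LabMk_pairs (fun i j => nv b (sd (F^[i.1] d)) ⬝ᵥ nv b (sd (F^[j.1] d)) -
      nv a (sd (F^[i.1] d)) ⬝ᵥ nv a (sd (F^[j.1] d)))
      (fun i j => by
        show _ - _ = _ - _
        rw [dotProduct_comm (nv b _), dotProduct_comm (nv a _)])
      (sub_nonneg.2 (hc 0 (by norm_num))) (sub_nonneg.2 (hc 1 (by norm_num)))
      (by
        have h7 := sub_nonneg.2 (hc 2 (by norm_num))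
        have h8 : F^[2 + 1] d = d := h3
        rw [h8] at h7
        exact h7) i j hij
    exact sub_nonneg.1 h6

theorem ss_neg (h : Pair3 a b) (d : (arr a h.ha).D) (hex : ∃ k < 3, ZZ a b (src (F^[k] d)))
    (hk : ∀ k < 3, ZZ a b (src (F^[k] d)) → ss a b h.ha (F^[k] d) = false) :
    ee a b h.ha d = false := by
  have h3 : F (F (F d)) = d := F3 d
  have hle : ∀ k < 3, gg a a (src (F^[k] d)) (sd (F^[k] d)) ≤
      gg a b (src (F^[k] d)) (sd (F^[k] d)) := by
    intro k hk3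
    by_cases hz : ZZ a b (src (F^[k] d))
    · exact (not_le.1 (of_decide_eq_false (hk k hk3 hz))).le
    · exact (gg_eq_of_not_ZZ h hz (F^[k] d).2).ge
  have hc : ∀ k < 3, nv b (sd (F^[k] d)) ⬝ᵥ nv b (sd (F^[k + 1] d)) ≤
      nv a (sd (F^[k] d)) ⬝ᵥ nv a (sd (F^[k + 1] d)) := by
    intro k hk3
    have h4 := hle k hk3
    rw [gg_F h, gg_F h.self] at h4
    linarith
  -- the corner product vanishes only at double points
  have hzero : ∀ e : (arr a h.ha).D, nv a (sd e) ⬝ᵥ nv a (sd (F e)) = 0 → mm (src e) = 2 := by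
    intro e he
    by_contra hne
    have h4 := (LabMk_gg h.self (src e) (sd e) e.2).1 (by have := two_le_mm (src e); omega)
    rw [LabMk_corner h.self, neg_eq_zero] at he
    exact h4.ne' he
  have hdbl : ∀ e : (arr a h.ha).D, nv a (sd e) ⬝ᵥ nv a (sd (F e)) = 0 →
      nv a (sd (F e)) ⬝ᵥ nv a (sd (F (F e))) = 0 → False := by
    intro e h4 h5
    have h6 := hzero e h4
    have h7 := hzero (F e) h5
    have h8 := dbl h.ha (src (F e)) (sd (F e)) (F e).2 h7
    have h9 : ny a (sd (F e)) (src (F e)) = src e := tg_F e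
    rw [h9] at h8
    exact h8 h6
  have h5 := tri_lt (tri_of_dart h.self d) (tri_of_dart h d)
    (fun i => (LabMk_norm h _).symm) (fun i j hij => ?_) ?_ ?_ 2 1 (by decide)
  · have h6 : cosn (pt a (src (F (F (F d))))) (pt a (src (F (F d)))) <
        cosn (pt b (src (F (F (F d))))) (pt b (src (F (F d)))) := h5
    rw [h3, src_F2] at h6
    exact decide_eq_false (not_le.2 h6)
  · have h6 := LabMk_pairs (fun i j => nv a (sd (F^[i.1] d)) ⬝ᵥ nv a (sd (F^[j.1] d)) -
      nv b (sd (F^[i.1] d)) ⬝ᵥ nv b (sd (F^[j.1] d)))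
      (fun i j => by
        show _ - _ = _ - _
        rw [dotProduct_comm (nv b _), dotProduct_comm (nv a _)])
      (sub_nonneg.2 (hc 0 (by norm_num))) (sub_nonneg.2 (hc 1 (by norm_num)))
      (by
        have h7 := sub_nonneg.2 (hc 2 (by norm_num))
        have h8 : F^[2 + 1] d = d := h3
        rw [h8] at h7
        exact h7) i j hij
    exact sub_nonneg.1 h6
  · obtain ⟨k, hk3, hz⟩ := hex
    have h4 := not_le.1 (of_decide_eq_false (hk k hk3 hz))
    rw [gg_F h, gg_F h.self] at h4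
    have h6 : nv b (sd (F^[k] d)) ⬝ᵥ nv b (sd (F^[k + 1] d)) <
      nv a (sd (F^[k] d)) ⬝ᵥ nv a (sd (F^[k + 1] d)) := by linarith
    match k, hk3 with
    | 0, _ => exact ⟨0, 1, by decide, h6⟩
    | 1, _ => exact ⟨1, 2, by decide, h6⟩
    | 2, _ =>
      have h8 : F^[2 + 1] d = d := h3
      rw [h8] at h6
      exact ⟨2, 0, by decide, h6⟩
  · intro i j k hij hik hjk h4 h6
    have key : ∀ e : (arr a h.ha).D, nv a (sd e) ⬝ᵥ nv a (sd (F e)) = 0 →
        nv a (sd e) ⬝ᵥ nv a (sd (F (F e))) = 0 → False := by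
      intro e h7 h8
      refine hdbl (F (F e)) ?_ ?_
      · rw [F3, dotProduct_comm]
        exact h8
      · rw [F3]
        exact h7
    have h7 := LabMk_triples (fun i j k => nv a (sd (F^[i.1] d)) ⬝ᵥ nv a (sd (F^[j.1] d)) = 0 →
      nv a (sd (F^[i.1] d)) ⬝ᵥ nv a (sd (F^[k.1] d)) = 0 → False)
      (fun h4 h6 => key d h4 h6) (fun h4 h6 => key d h6 h4)
      (fun h4 h6 => key (F d) h4 (by rw [h3]; exact h6))
      (fun h4 h6 => key (F d) h6 (by rw [h3]; exact h4))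
      (fun h4 h6 => key (F (F d)) (by rw [h3]; exact h4) (by rw [h3]; exact h6))
      (fun h4 h6 => key (F (F d)) (by rw [h3]; exact h6) (by rw [h3]; exact h4))
      i j k hij hik hjk
    exact h7 h4 h6

open Classical in
theorem ss_cauchy (h : Pair3 a b) (v : VT (LL a)) (hv : ZZ a b v) :
    8 ≤ (Finset.univ.filter fun d : (arr a h.ha).D =>
      src d = v ∧ ss a b h.ha d ≠ ss a b h.ha (rot d)).card := by
  obtain ⟨n', hn', hne⟩ := hv
  have hm : 3 ≤ mm v := by
    by_contra hm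
    have h2 : mm v = 2 := by have := two_le_mm v; omega
    rw [(LabMk_gg h v n' hn').2 h2, (LabMk_gg h.self v n' hn').2 h2] at hne
    exact hne rfl
  obtain ⟨w, hw1, hw2, hw3, hw4⟩ := vertex_planar h.ha h.hb h.hL h.hor v n' hn'
  obtain ⟨u, hu1, hu2, hu3, hu4⟩ := vertex_planar h.ha h.ha rfl (fun _ _ _ _ _ => rfl) v n' hn'
  have hnorm : ∀ k, ‖u k‖ = ‖w k‖ := by
    intro k
    have h1 : ∀ z : ℂ, ((starRingEnd ℂ) z * z).re = ‖z‖ ^ 2 := fun z => by
      rw [mul_comm, Complex.mul_conj, Complex.ofReal_re, Complex.normSq_eq_norm_sq]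
    have h4 := hu3 k k
    have h5 := hw3 k k
    rw [LabMk_norm h, ← h4, h1, h1] at h5
    exact ((sq_eq_sq₀ (norm_nonneg _) (norm_nonneg _)).1 h5).symm
  have hgb : ∀ k, ((starRingEnd ℂ) (w k) * w (k + 1)).re = gg a b v ((nx a v)^[k] n') := fun k => by
    rw [hw3, Function.iterate_succ_apply']
    rfl
  have hga : ∀ k, ((starRingEnd ℂ) (u k) * u (k + 1)).re = gg a a v ((nx a v)^[k] n') := fun k => by
    rw [hu3, Function.iterate_succ_apply']
    rfl
  have h8 := cauchy_planar hm hu1 hw1 hu2 hw2 (hu4 hm) (hw4 hm) hnorm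
    ⟨0, by rw [hgb, hga]; exact hne⟩
  let d0 : (arr a h.ha).D := ⟨(v, n'), hn'⟩
  have hval : ∀ k, src (rot^[k] d0) = v ∧ sd (rot^[k] d0) = (nx a v)^[k] n' := fun k => by
    have h9 := rot_iter_val d0 k
    exact ⟨congrArg Prod.fst h9, congrArg Prod.snd h9⟩
  have hss : ∀ k, ss a b h.ha (rot^[k] d0) =
      decide (((starRingEnd ℂ) (w k) * w (k + 1)).re ≤
        ((starRingEnd ℂ) (u k) * u (k + 1)).re) := fun k => by
    unfold ss
    rw [(hval k).1, (hval k).2, hgb, hga]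
  refine h8.trans ?_
  refine Finset.card_le_card_of_injOn (fun k => rot^[k] d0) ?_ ?_
  · intro k hk
    rw [Finset.mem_coe, Finset.mem_filter] at hk
    rw [Finset.mem_coe, Finset.mem_filter]
    refine ⟨Finset.mem_univ _, (hval k).1, ?_⟩
    have h9 : rot (rot^[k] d0) = rot^[k + 1] d0 := (Function.iterate_succ_apply' _ _ _).symm
    rw [h9, hss, hss]
    exact hk.2
  · intro i hi j hj hij
    have hi' : i < 2 * mm v := Finset.mem_range.1 (Finset.mem_filter.1 (Finset.mem_coe.1 hi)).1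
    have hj' : j < 2 * mm v := Finset.mem_range.1 (Finset.mem_filter.1 (Finset.mem_coe.1 hj)).1
    clear hi hj
    change rot^[i] d0 = rot^[j] d0 at hij
    wlog hlt : i ≤ j generalizing i j
    · exact (this hj' hi' hij.symm (by omega)).symm
    by_contra hne'
    have h1 : j = (j - i) + i := by omega
    rw [h1, Function.iterate_add_apply] at hij
    refine rot_iter_ne (rot^[i] d0) (k := j - i) (by omega) ?_ hij.symm
    rw [(hval i).1]
    change j - i < 2 * mm v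
    omega

/-- the labelling -/
noncomputable def lab (h : Pair3 a b) : Lab (arr a h.ha) where
  Z := ZZ a b
  s := ss a b h.ha
  e := ee a b h.ha
  Z_ng := ZZ_ngV h
  e_rev := ee_rev h
  pos := ss_pos h
  neg := ss_neg h
  cauchy := fun v hv => by
    have := ss_cauchy h v hv
    convert this

end Pool.Agent.VeeC
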