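import Mathlib
import Pool.Agent.MP_de770b_mp.Reindex

set_option linter.unusedSectionVars false

/-!
Oriented matroids of vee-systems.
-/

namespace Pool.Agent.VeeC

open Module Submodule Pool.Agent.MP_de770b_mp

variable {ι : Type*} [Fintype ι] {V : Type*} [AddCommGroup V] [Module ℝ V]

/-- `α i ↦ β i` is an isomorphism of the oriented matroids: the same vectors of signs
`(sign (α i x))_i` and `(sign (β i y))_i` occur, i.e. the hyperplane arrangements with the chosen
positive sides are combinatorially equivalent. -/
def SameOriented (α β : ι → Dual ℝ V) : Prop :=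
  ∀ s : ι → SignType, (∃ x : V, ∀ i, SignType.sign (α i x) = s i) ↔
    ∃ y : V, ∀ i, SignType.sign (β i y) = s i

variable {α β : ι → Dual ℝ V}

theorem SameOriented.symm (h : SameOriented α β) : SameOriented β α := fun s => (h s).symm

/-- The matroid of `A` has only one reorientation class of real realisations, up to the
automorphisms of the matroid which preserve the norms. -/
def UniqueOrientation (α : ι → Dual ℝ V) : Prop :=
  ∀ β : ι → Dual ℝ V, SameMatroid α β →
    ∃ (τ : Equiv.Perm ι) (ε : ι → ℝ), SameMatroid α (fun i => α (τ i)) ∧
      (∀ i, normSq α (τ i) = normSq α i) ∧ (∀ i, ε i = 1 ∨ ε i = -1) ∧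
      SameOriented α (fun i => ε i • β (τ i))

end Pool.Agent.VeeC
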