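import Pool.Agent.VeeC.LabBasic

set_option autoImplicit false

namespace Pool.Agent.VeeC

open Arr

variable {V N : Type*} [Fintype V] [Fintype N] {K : Arr V N} (L : Lab K)

namespace Lab

variable {L}

theorem Pairs_mem_XC {C : Finset V} {d : K.D} :
    d ∈ L.XC C ↔ L.Z (src d) ∧ tg d ∈ C ∧ L.chg d := by
  classical
  simp [XC]

theorem Pairs_mem_KC {C : Finset V} {d : K.D} :
    d ∈ L.KC C ↔ L.Z (src d) ∧ L.Z (tg d) ∧ tg (rot d) ∈ C := by
  classical
  unfold KC
  rw [Finset.mem_filter]
  exact ⟨fun h => h.2, fun h => ⟨Finset.mem_univ _, h⟩⟩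

open Classical in
/-- the map from `XC` to the pairs -/
noncomputable def Pairs_f (L : Lab K) (d : K.D) : K.D × Bool :=
  if L.Z (tg (rot d)) then (F d, false) else (rotI d, true)

theorem Pairs_f_injective : Function.Injective (Pairs_f L) := by
  intro d d' h
  unfold Pairs_f at h
  split_ifs at h with h1 h2 h2
  · exact F_injective (Prod.ext_iff.mp h).1
  · exact absurd (Prod.ext_iff.mp h).2 (by simp)
  · exact absurd (Prod.ext_iff.mp h).2 (by simp)
  · exact rotI_injective (Prod.ext_iff.mp h).1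

theorem Pairs_f_mem {u : V} (hu : ¬ L.Z u) {d : K.D} (hd : d ∈ L.XC (L.comp u)) :
    (Pairs_f L d).1 ∈ L.KC (L.comp u) := by
  rw [Pairs_mem_XC] at hd
  obtain ⟨h1, h2, h3⟩ := hd
  unfold Pairs_f
  split_ifs with h
  · rw [Pairs_mem_KC]
    refine ⟨h, ?_, ?_⟩
    · show L.Z (tg (F d))
      rw [tg_F]; exact h1
    · show tg (rot (F d)) ∈ _
      rw [← src_F, src_F2]; exact h2
  · have h4 : L.Z (tg (rotI d)) :=
      (chg_third h1 (not_Z_of_mem hu h2) h3).resolve_left h
    rw [Pairs_mem_KC]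
    refine ⟨?_, h4, ?_⟩
    · show L.Z (src (rotI d))
      rw [src_rotI]; exact h1
    · show tg (rot (rotI d)) ∈ _
      rw [rot_rotI]; exact h2

/-- `(k, false)` is hit -/
theorem Pairs_hit_false {C : Finset V} {k : K.D} {d : K.D}
    (hd : d ∈ L.XC C) (h : Pairs_f L d = (k, false)) : L.chg (F (F k)) := by
  rw [Pairs_mem_XC] at hd
  unfold Pairs_f at h
  split_ifs at h with h1
  · have h2 : F d = k := (Prod.ext_iff.mp h).1
    rw [← h2, F3]; exact hd.2.2
  · exact absurd (Prod.ext_iff.mp h).2 (by simp)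

/-- `(k, true)` is hit -/
theorem Pairs_hit_true {C : Finset V} {k : K.D} {d : K.D}
    (hd : d ∈ L.XC C) (h : Pairs_f L d = (k, true)) :
    L.chg (rot k) ∧ ¬ L.Z (tg (rot (rot k))) := by
  rw [Pairs_mem_XC] at hd
  unfold Pairs_f at h
  split_ifs at h with h1
  · exact absurd (Prod.ext_iff.mp h).2 (by simp)
  · have h2 : rotI d = k := (Prod.ext_iff.mp h).1
    have h3 : rot k = d := by rw [← h2, rot_rotI]
    rw [h3]
    exact ⟨hd.2.2, h1⟩

/-- if `Z (tg (rot c))` and `Z (tg (rotI c))` then `rotI c` is in `KC` -/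
theorem Pairs_rotI_mem {C : Finset V} {c : K.D} (h1 : L.Z (src c)) (h2 : tg c ∈ C)
    (h4 : L.Z (tg (rotI c))) : rotI c ∈ L.KC C := by
  rw [Pairs_mem_KC]
  refine ⟨?_, h4, ?_⟩
  · rw [src_rotI]; exact h1
  · rw [rot_rotI]; exact h2

theorem Pairs_missed {C : Finset V} {c : K.D} (h3 : L.Z (tg (rot c))) {d : K.D}
    (hd : d ∈ L.XC C) : Pairs_f L d ≠ (rotI c, true) := by
  intro h
  have h1 := (Pairs_hit_true hd h).2
  rw [rot_rotI] at h1
  exact h1 h3

open Classical in
theorem Pairs_card {u : V} (hu : ¬ L.Z u) (M : Finset (K.D × Bool))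
    (hM : ∀ q ∈ M, q.1 ∈ L.KC (L.comp u))
    (hM2 : ∀ q ∈ M, ∀ d ∈ L.XC (L.comp u), Pairs_f L d ≠ q) :
    (L.XC (L.comp u)).card + M.card ≤ 2 * (L.KC (L.comp u)).card := by
  have h1 : ((L.XC (L.comp u)).image (Pairs_f L)).card = (L.XC (L.comp u)).card :=
    Finset.card_image_of_injective _ Pairs_f_injective
  have h2 : Disjoint ((L.XC (L.comp u)).image (Pairs_f L)) M := by
    rw [Finset.disjoint_left]
    intro q hq hqM
    obtain ⟨d, hd, rfl⟩ := Finset.mem_image.mp hq
    exact hM2 _ hqM d hd rfl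
  rw [← h1, ← Finset.card_union_of_disjoint h2]
  have h3 : (L.XC (L.comp u)).image (Pairs_f L) ∪ M ⊆
      (L.KC (L.comp u)) ×ˢ (Finset.univ : Finset Bool) := by
    intro q hq
    rw [Finset.mem_product]
    refine ⟨?_, Finset.mem_univ _⟩
    rcases Finset.mem_union.mp hq with hq | hq
    · obtain ⟨d, hd, rfl⟩ := Finset.mem_image.mp hq
      exact Pairs_f_mem hu hd
    · exact hM q hq
  calc _ ≤ ((L.KC (L.comp u)) ×ˢ (Finset.univ : Finset Bool)).card := Finset.card_le_card h3
    _ = 2 * (L.KC (L.comp u)).card := by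
      rw [Finset.card_product, Finset.card_univ, Fintype.card_bool, mul_comm]

variable (L)

/-- `XC` injects into `KC × Bool`: the dart `d` goes to `(F d, false)` if the left chamber has two
vertices in `Z` and to `(rotI d, true)` otherwise. -/
theorem card_XC_le {u : V} (hu : ¬ L.Z u) :
    (L.XC (L.comp u)).card ≤ 2 * (L.KC (L.comp u)).card := by
  have h := Pairs_card hu (∅ : Finset (K.D × Bool)) (by simp) (by simp)
  simpa using h

/-- If almost all pairs are hit there is a `k` with both pairs good. -/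
theorem exists_clean {u : V} (hu : ¬ L.Z u) (h6 : (L.KC (L.comp u)).card = 6)
    (h11 : 11 ≤ (L.XC (L.comp u)).card) :
    ∃ k ∈ L.KC (L.comp u), L.chg (rot k) ∧ ¬ L.Z (tg (rot (rot k))) ∧
      L.chg (F (F k)) ∧ ¬ L.Z (tg (rotI (F (F k)))) := by
  classical
  -- the missed pairs
  set M : Finset (K.D × Bool) := ((L.KC (L.comp u)) ×ˢ (Finset.univ : Finset Bool)).filter
    fun q => ∀ d ∈ L.XC (L.comp u), Pairs_f L d ≠ q with hMdef
  have hM1 : M.card ≤ 1 := by
    have h := Pairs_card hu M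
      (fun q hq => (Finset.mem_product.mp (Finset.mem_filter.mp hq).1).1)
      (fun q hq => (Finset.mem_filter.mp hq).2)
    omega
  -- the map from bad `k` to the missed pairs
  have hbad : ∀ k ∈ L.KC (L.comp u), (L.chg (rot k) ∧ ¬ L.Z (tg (rot (rot k))) ∧
      L.chg (F (F k)) ∧ ¬ L.Z (tg (rotI (F (F k))))) ∨ (k, true) ∈ M ∨ (k, false) ∈ M ∨
      (rotI (F (F k)), true) ∈ M := by
    intro k hk
    by_cases h1 : (k, true) ∈ M
    · exact Or.inr (Or.inl h1)
    by_cases h2 : (k, false) ∈ M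
    · exact Or.inr (Or.inr (Or.inl h2))
    by_cases h3 : (rotI (F (F k)), true) ∈ M
    · exact Or.inr (Or.inr (Or.inr h3))
    left
    have h1' : ∃ d ∈ L.XC (L.comp u), Pairs_f L d = (k, true) := by
      by_contra hcon
      push Not at hcon
      exact h1 (Finset.mem_filter.mpr ⟨Finset.mem_product.mpr ⟨hk, Finset.mem_univ _⟩, hcon⟩)
    have h2' : ∃ d ∈ L.XC (L.comp u), Pairs_f L d = (k, false) := by
      by_contra hcon
      push Not at hcon
      exact h2 (Finset.mem_filter.mpr ⟨Finset.mem_product.mpr ⟨hk, Finset.mem_univ _⟩, hcon⟩)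
    obtain ⟨d1, hd1, hd1'⟩ := h1'
    obtain ⟨d2, hd2, hd2'⟩ := h2'
    obtain ⟨h4, h5⟩ := Pairs_hit_true hd1 hd1'
    have h6 := Pairs_hit_false hd2 hd2'
    refine ⟨h4, h5, h6, ?_⟩
    intro h7
    apply h3
    rw [Pairs_mem_KC] at hk
    have h8 : L.Z (src (F (F k))) := by rw [src_F2]; exact hk.2.1
    have h9 : tg (F (F k)) ∈ L.comp u := by rw [tg_F2]; exact hk.2.2
    have h10 : L.Z (tg (rot (F (F k)))) := by rw [rot_F2, tg_rev]; exact hk.1
    refine Finset.mem_filter.mpr ⟨Finset.mem_product.mpr ⟨Pairs_rotI_mem h8 h9 h7,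
      Finset.mem_univ _⟩, ?_⟩
    intro d hd
    exact Pairs_missed h10 hd
  by_contra hcon
  push Not at hcon
  have hall : ∀ k ∈ L.KC (L.comp u), (k, true) ∈ M ∨ (k, false) ∈ M ∨
      (rotI (F (F k)), true) ∈ M := by
    intro k hk
    rcases hbad k hk with h | h
    · exact absurd h.2.2.2 (by
        intro hc
        exact hc (hcon k hk h.1 h.2.1 h.2.2.1))
    · exact h
  -- at most two bad elements
  rw [Finset.card_le_one] at hM1
  have hM0 : M.Nonempty := by
    by_contra hne
    rw [Finset.not_nonempty_iff_eq_empty] at hne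
    have h0 : (L.KC (L.comp u)).Nonempty := by
      rw [← Finset.card_pos]; omega
    obtain ⟨k, hk⟩ := h0
    have := hall k hk
    rw [hne] at this
    simp at this
  obtain ⟨q, hq⟩ := hM0
  have hsub : L.KC (L.comp u) ⊆ {q.1, F (rot q.1)} := by
    intro k hk
    rw [Finset.mem_insert, Finset.mem_singleton]
    rcases hall k hk with h | h | h
    · left; rw [← hM1 _ h _ hq]
    · left; rw [← hM1 _ h _ hq]
    · right
      rw [← hM1 _ h _ hq]
      show k = F (rot (rotI (F (F k))))
      rw [rot_rotI, F3]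
  have h2 := Finset.card_le_card hsub
  have h3 : ({q.1, F (rot q.1)} : Finset K.D).card ≤ 2 := Finset.card_le_two
  omega

/-- A dart from `Z` to `C` between two neighbours in `Z` belongs to two pairs. -/
theorem card_XC_le_ten {u : V} (hu : ¬ L.Z u) (h6 : (L.KC (L.comp u)).card = 6)
    {c c' : K.D} (hcc : c ≠ c')
    (h1 : L.Z (src c)) (h2 : tg c ∈ L.comp u) (h3 : L.Z (tg (rot c))) (h4 : L.Z (tg (rotI c)))
    (h1' : L.Z (src c')) (h2' : tg c' ∈ L.comp u) (h3' : L.Z (tg (rot c')))
    (h4' : L.Z (tg (rotI c'))) :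
    (L.XC (L.comp u)).card ≤ 10 := by
  classical
  have h := Pairs_card hu ({(rotI c, true), (rotI c', true)} : Finset (K.D × Bool))
    (by
      intro q hq
      rw [Finset.mem_insert, Finset.mem_singleton] at hq
      rcases hq with rfl | rfl
      · exact Pairs_rotI_mem h1 h2 h4
      · exact Pairs_rotI_mem h1' h2' h4')
    (by
      intro q hq
      rw [Finset.mem_insert, Finset.mem_singleton] at hq
      rcases hq with rfl | rfl
      · exact fun d hd => Pairs_missed h3 hd
      · exact fun d hd => Pairs_missed h3' hd)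
  rw [Finset.card_pair] at h
  · omega
  · intro heq
    exact hcc (rotI_injective (Prod.ext_iff.mp heq).1)

/-- components with one vertex -/
theorem single {u : V} (hu : ¬ L.Z u) (h : (L.comp u).card = 1) :
    (L.XC (L.comp u)).card + 8 ≤ 3 * (L.KC (L.comp u)).card := by
  classical
  have hC : ∀ v, v ∈ L.comp u ↔ v = u := by
    intro v
    obtain ⟨w, hw⟩ := Finset.card_eq_one.mp h
    have h1 := self_mem_comp (L := L) u
    rw [hw, Finset.mem_singleton] at h1
    rw [hw, Finset.mem_singleton, h1]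
  have hZ : ∀ d : K.D, src d = u → L.Z (tg d) := by
    intro d hd
    by_contra hcon
    have h1 := mem_comp_of_adj hu (d := d) (by rw [hd]; exact self_mem_comp u) hcon
    rw [hC] at h1
    exact tg_ne_src d (by rw [h1, hd])
  have hK : 2 * K.m u ≤ (L.KC (L.comp u)).card := by
    rw [← card_darts]
    apply Finset.card_le_card_of_injOn (fun d => F (F d))
    · intro d hd
      simp only [Finset.coe_filter, Finset.mem_univ, true_and, Set.mem_ofPred_eq] at hd
      rw [Finset.mem_coe, Pairs_mem_KC]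
      refine ⟨?_, ?_, ?_⟩
      · rw [src_F2]; exact hZ d hd
      · rw [tg_F2]; exact hZ _ (by rw [src_rot, hd])
      · rw [hC]
        rw [← src_F, F3, hd]
    · intro d _ d' _ hdd
      exact F_injective (F_injective hdd)
  have hX : (L.XC (L.comp u)).card ≤ 2 * K.m u := by
    rw [← card_darts]
    apply Finset.card_le_card_of_injOn (fun d => rev d)
    · intro d hd
      rw [Finset.mem_coe, Pairs_mem_XC, hC] at hd
      simp only [Finset.coe_filter, Finset.mem_univ, true_and, Set.mem_ofPred_eq]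
      rw [src_rev]; exact hd.2.1
    · intro d _ d' _ hdd
      exact rev_injective hdd
  have := K.two_le_m u
  omega

end Lab

end Pool.Agent.VeeC
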