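import Pool.Agent.VeeC.Acute
import Pool.Agent.VeeC.Geo3

set_option autoImplicit false

/-!
Chambers are triangles.
-/

namespace Pool.Agent.VeeC

open Matrix

section gen

variable {ι : Type*} [Fintype ι]

/-- the vectors indexed by `B` generate the cone of all vectors -/
def Simp3_Gen (a : ι → R3) (B : Finset ι) : Prop :=
  ∀ i, ∃ x : ι → ℝ, (∀ j, 0 ≤ x j) ∧ a i = ∑ j ∈ B, x j • a j

theorem Simp3_minimal (a : ι → R3) : ∃ B : Finset ι, Simp3_Gen a B ∧
    ∀ B' : Finset ι, Simp3_Gen a B' → B.card ≤ B'.card := by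
  classical
  have huniv : Simp3_Gen a Finset.univ := by
    intro i
    refine ⟨fun j => if j = i then 1 else 0, fun j => by
      show (0 : ℝ) ≤ if j = i then 1 else 0
      split_ifs <;> norm_num, ?_⟩
    simp [ite_smul]
  obtain ⟨B, hB, hmin⟩ := Finset.exists_min_image
    ((Finset.univ : Finset (Finset ι)).filter (fun B => Simp3_Gen a B)) (fun B => B.card)
    ⟨Finset.univ, by simp [huniv]⟩
  refine ⟨B, (Finset.mem_filter.mp hB).2, fun B' hB' => hmin B' (by simp [hB'])⟩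

theorem Simp3_extreme [DecidableEq ι] (a : ι → R3) (B : Finset ι) (hB : Simp3_Gen a B)
    (hmin : ∀ B' : Finset ι, Simp3_Gen a B' → B.card ≤ B'.card) {j : ι} (hj : j ∈ B)
    (y : ι → ℝ) (hy : ∀ k, 0 ≤ y k) (h : a j = ∑ k ∈ B.erase j, y k • a k) : False := by
  have h1 : Simp3_Gen a (B.erase j) := by
    intro i
    obtain ⟨x, hx, hx2⟩ := hB i
    refine ⟨fun k => x j * y k + x k, fun k => add_nonneg (mul_nonneg (hx j) (hy k)) (hx k), ?_⟩
    have h2 : ∑ k ∈ B, x k • a k = x j • a j + ∑ k ∈ B.erase j, x k • a k :=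
      (Finset.add_sum_erase B (fun k => x k • a k) hj).symm
    rw [hx2, h2]
    simp only [add_smul, mul_smul, Finset.sum_add_distrib]
    rw [← Finset.smul_sum, ← h]
  have h3 := hmin _ h1
  rw [Finset.card_erase_of_mem hj] at h3
  have h4 : 0 < B.card := Finset.card_pos.mpr ⟨j, hj⟩
  omega

theorem Simp3_coeff [DecidableEq ι] (a : ι → R3) (v : R3) (hv : ∀ i, 0 < a i ⬝ᵥ v)
    (B : Finset ι) (hB : Simp3_Gen a B)
    (hmin : ∀ B' : Finset ι, Simp3_Gen a B' → B.card ≤ B'.card)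
    {i j : ι} (hi : i ∈ B) (hj : j ∈ B) (hij : i ≠ j) {k : ι} {p q : ℝ}
    (h : a k = p • a i + q • a j) : 0 ≤ p := by
  by_contra hp
  push Not at hp
  obtain ⟨x, hx, hx2⟩ := hB k
  have hib : i ∈ B.erase j := Finset.mem_erase.mpr ⟨hij, hi⟩
  have h2 : ∑ k ∈ B, x k • a k = x j • a j + ∑ k ∈ B.erase j, x k • a k :=
    (Finset.add_sum_erase B (fun k => x k • a k) hj).symm
  set y : ι → ℝ := fun m => x m + (if m = i then -p else 0) with hy
  have hy0 : ∀ m, 0 ≤ y m := by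
    intro m
    simp only [hy]
    split_ifs
    · have := hx m; linarith
    · simpa using hx m
  have hsum : (q - x j) • a j = ∑ m ∈ B.erase j, y m • a m := by
    have h3 : ∑ m ∈ B.erase j, y m • a m = ∑ m ∈ B.erase j, x m • a m + (-p) • a i := by
      simp only [hy, add_smul, Finset.sum_add_distrib, ite_smul, zero_smul]
      rw [Finset.sum_ite_eq' (B.erase j) i (fun m => (-p) • a m), if_pos hib]
    rw [h3]
    have h4 : p • a i + q • a j = x j • a j + ∑ k ∈ B.erase j, x k • a k := by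
      rw [← h, hx2, h2]
    have h5 : ∑ k ∈ B.erase j, x k • a k = p • a i + q • a j - x j • a j := by
      rw [h4]; abel
    rw [h5]; module
  by_cases hq : 0 < q - x j
  · apply Simp3_extreme a B hB hmin hj (fun m => (q - x j)⁻¹ * y m)
      (fun m => mul_nonneg (inv_nonneg.mpr hq.le) (hy0 m))
    have h6 : a j = (q - x j)⁻¹ • ((q - x j) • a j) := by
      rw [smul_smul, inv_mul_cancel₀ hq.ne', one_smul]
    rw [h6, hsum, Finset.smul_sum]
    exact Finset.sum_congr rfl fun m _ => by rw [smul_smul]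
  · push Not at hq
    have h7 := congrArg (fun f : R3 => f ⬝ᵥ v) hsum
    simp only [smul_dotProduct, sum_dotProduct, smul_eq_mul] at h7
    have h8 : (q - x j) * (a j ⬝ᵥ v) ≤ 0 := mul_nonpos_of_nonpos_of_nonneg hq (hv j).le
    have h9 : y i * (a i ⬝ᵥ v) ≤ ∑ m ∈ B.erase j, y m * (a m ⬝ᵥ v) :=
      Finset.single_le_sum (f := fun m => y m * (a m ⬝ᵥ v))
        (fun m _ => mul_nonneg (hy0 m) (hv m).le) hib
    have h10 : 0 < y i := by
      simp only [hy, if_true]
      have := hx i; linarith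
    have h11 := mul_pos h10 (hv i)
    linarith

/-- vectors in an open half space with pairwise nonpositive products are independent -/
theorem Simp3_indep (b : ι → R3) (x : R3) (hx : ∀ i, 0 < b i ⬝ᵥ x)
    (hb : ∀ i j, i ≠ j → b i ⬝ᵥ b j ≤ 0) : LinearIndependent ℝ b := by
  rw [Fintype.linearIndependent_iff]
  intro g hg
  obtain ⟨v, hv⟩ : ∃ v : R3, v = ∑ i, max (g i) 0 • b i := ⟨_, rfl⟩
  have hsub : ∀ i, max (g i) 0 - max (-g i) 0 = g i := by
    intro i
    rcases le_total 0 (g i) with h | h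
    · rw [max_eq_left h, max_eq_right (by linarith)]; ring
    · rw [max_eq_right h, max_eq_left (by linarith)]; ring
  have hv2 : v = ∑ i, max (-g i) 0 • b i := by
    have h1 : v - ∑ i, max (-g i) 0 • b i = ∑ i, g i • b i := by
      rw [hv, ← Finset.sum_sub_distrib]
      apply Finset.sum_congr rfl
      intro i _
      rw [← sub_smul, hsub]
    rw [hg] at h1
    exact sub_eq_zero.mp h1
  have hvv : v ⬝ᵥ v ≤ 0 := by
    have h1 : v ⬝ᵥ v = ∑ i, ∑ j, (max (g i) 0 * max (-g j) 0) * (b i ⬝ᵥ b j) := by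
      calc v ⬝ᵥ v = (∑ i, max (g i) 0 • b i) ⬝ᵥ (∑ j, max (-g j) 0 • b j) := by
            rw [← hv, ← hv2]
        _ = _ := by
            rw [sum_dotProduct]
            apply Finset.sum_congr rfl
            intro i _
            rw [dotProduct_sum]
            apply Finset.sum_congr rfl
            intro j _
            rw [smul_dotProduct, dotProduct_smul, smul_eq_mul, smul_eq_mul]
            ring
    rw [h1]
    apply Finset.sum_nonpos
    intro i _
    apply Finset.sum_nonpos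
    intro j _
    by_cases hij : i = j
    · subst hij
      have h2 : max (g i) 0 * max (-g i) 0 = 0 := by
        rcases le_total 0 (g i) with h | h
        · rw [max_eq_right (show -g i ≤ 0 by linarith)]; ring
        · rw [max_eq_right h]; ring
      rw [h2, zero_mul]
    · exact mul_nonpos_of_nonneg_of_nonpos
        (mul_nonneg (le_max_right _ _) (le_max_right _ _)) (hb i j hij)
  have hv0 : v = 0 := by
    have h1 : 0 ≤ v ⬝ᵥ v := by
      simp only [dotProduct]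
      exact Finset.sum_nonneg fun i _ => mul_self_nonneg _
    exact dotProduct_self_eq_zero.mp (le_antisymm hvv h1)
  have key : ∀ f : ι → ℝ, (∀ i, 0 ≤ f i) → v = ∑ i, f i • b i → ∀ i, f i = 0 := by
    intro f hf hfv
    have h1 : ∑ i, f i * (b i ⬝ᵥ x) = 0 := by
      have h2 := congrArg (fun w : R3 => w ⬝ᵥ x) hfv
      simp only [hv0, zero_dotProduct, sum_dotProduct, smul_dotProduct, smul_eq_mul] at h2
      exact h2.symm
    have h3 := (Finset.sum_eq_zero_iff_of_nonneg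
      (fun i _ => mul_nonneg (hf i) (hx i).le)).mp h1
    intro i
    have h4 := h3 i (Finset.mem_univ _)
    rcases mul_eq_zero.mp h4 with h5 | h5
    · exact h5
    · exact absurd h5 (hx i).ne'
  intro i
  have h1 := key _ (fun i => le_max_right _ _) hv i
  have h2 := key _ (fun i => le_max_right _ _) hv2 i
  have h3 := hsub i
  rw [h1, h2] at h3
  linarith

end gen

theorem Simp3_cramer (p q z u : R3) : det3 p q z • u = det3 u q z • p + det3 p u z • q +
    det3 p q u • z := by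
  funext i
  fin_cases i <;>
  · simp [det3, cross_apply, dotProduct, Fin.sum_univ_three]
    ring

theorem Simp3_cross_self (p q : R3) : det3 p q (crossProduct p q) =
    crossProduct p q ⬝ᵥ crossProduct p q := by
  simp [det3, cross_apply, dotProduct, Fin.sum_univ_three]
  ring

theorem Simp3_det_cross (p q u : R3) : det3 p q u = u ⬝ᵥ crossProduct p q := by
  simp [det3, cross_apply, dotProduct, Fin.sum_univ_three]
  ring

theorem Simp3_cross_cross (p q r : R3) : det3 q (crossProduct p q) (crossProduct q r) =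
    (q ⬝ᵥ q) * det3 p q r := by
  simp [det3, cross_apply, dotProduct, Fin.sum_univ_three]
  ring

theorem Simp3_self_nonneg (p : R3) : 0 ≤ p ⬝ᵥ p := by
  simp only [dotProduct]
  exact Finset.sum_nonneg fun i _ => mul_self_nonneg _

theorem Simp3_self_pos {p : R3} (h : p ≠ 0) : 0 < p ⬝ᵥ p :=
  lt_of_le_of_ne (Simp3_self_nonneg p) fun h0 => h (dotProduct_self_eq_zero.mp h0.symm)

variable {κ : Type*} [Fintype κ] {a : κ → R3}

theorem Simp3_nv (n : κ × Bool) : nv a n = a n.1 ∨ nv a n = - a n.1 := by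
  obtain ⟨i, b⟩ := n
  cases b
  · right; simp [nv, sgn]
  · left; simp [nv, sgn]

theorem Simp3_nv_ne (ha : Sys3 a) (n : κ × Bool) : nv a n ≠ 0 := nv_ne ha n

/-- two members are independent -/
theorem Simp3_smul (ha : Sys3 a) {n m : κ × Bool} {c : ℝ} (h : nv a n = c • nv a m) :
    n.1 = m.1 := by
  by_contra hne
  have h1 := ha.li n.1 m.1 hne
  rw [LinearIndependent.pair_iff] at h1
  rcases Simp3_nv (a := a) n with hn | hn <;> rcases Simp3_nv (a := a) m with hm | hm <;>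
    rw [hn, hm] at h
  · have h2 := h1 1 (-c) (by rw [one_smul, h]; module)
    exact one_ne_zero h2.1
  · have h2 := h1 1 c (by rw [one_smul, h]; module)
    exact one_ne_zero h2.1
  · have h2 := h1 1 c (by
      rw [one_smul]
      have h3 : a n.1 = - (c • a m.1) := by rw [← h]; module
      rw [h3]; module)
    exact one_ne_zero h2.1
  · have h2 := h1 1 (-c) (by
      rw [one_smul]
      have h3 : a n.1 = - (c • - a m.1) := by rw [← h]; module
      rw [h3]; module)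
    exact one_ne_zero h2.1

/-- ... equal, if both are positive somewhere -/
theorem Simp3_smul_eq (ha : Sys3 a) {n m : κ × Bool} {c : ℝ} (h : nv a n = c • nv a m) {x : R3}
    (hn : 0 < nv a n ⬝ᵥ x) (hm : 0 < nv a m ⬝ᵥ x) : n = m := by
  have h1 := Simp3_smul ha h
  obtain ⟨i, b⟩ := n
  obtain ⟨j, b'⟩ := m
  simp only at h1
  subst h1
  cases b <;> cases b' <;> simp [nv, sgn] at hn hm ⊢ <;> linarith

/-- **The pair lemma.** -/
theorem Simp3_pair (ha : Sys3 a) (s : κ → Bool) {x : R3} (hx : ∀ i, 0 < nv a (i, s i) ⬝ᵥ x)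
    (B : Finset κ) (hB : Simp3_Gen (fun i => nv a (i, s i)) B)
    (hmin : ∀ B' : Finset κ, Simp3_Gen (fun i => nv a (i, s i)) B' → B.card ≤ B'.card)
    {i j : κ} (hi : i ∈ B) (hj : j ∈ B) (hij : i ≠ j) :
    nv a (i, s i) ⬝ᵥ nv a (j, s j) ≤ 0 := by
  classical
  by_contra hcon
  push Not at hcon
  obtain ⟨b, hb⟩ : ∃ b : κ → R3, ∀ i, b i = nv a (i, s i) := ⟨_, fun _ => rfl⟩
  have hbe : (fun i => nv a (i, s i)) = b := funext fun i => (hb i).symm
  rw [hbe] at hB hmin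
  simp only [← hb] at hx hcon
  have hab : ∀ l, ∃ t : ℝ, t * t = 1 ∧ a l = t • b l := by
    intro l
    rw [hb]
    rcases Simp3_nv (a := a) (l, s l) with h | h
    · exact ⟨1, by norm_num, by rw [h, one_smul]⟩
    · exact ⟨-1, by norm_num, by rw [h]; simp⟩
  -- the plane
  obtain ⟨z, hz⟩ : ∃ z : R3, z = crossProduct (b i) (b j) := ⟨_, rfl⟩
  have hbi : b i ≠ 0 := by rw [hb]; exact nv_ne ha _
  have hbj : b j ≠ 0 := by rw [hb]; exact nv_ne ha _
  have hnp : ∀ c : ℝ, b j ≠ c • b i := by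
    intro c h
    rw [hb, hb] at h
    exact hij (Simp3_smul ha h).symm
  -- the vector `e`
  obtain ⟨e, he⟩ : ∃ e : R3, e = b j - ((b i ⬝ᵥ b j) / (b i ⬝ᵥ b i)) • b i := ⟨_, rfl⟩
  have hbii : 0 < b i ⬝ᵥ b i := Simp3_self_pos hbi
  have hei : b i ⬝ᵥ e = 0 := by
    rw [he, dotProduct_sub, dotProduct_smul, smul_eq_mul]
    field_simp
    ring
  have he0 : e ≠ 0 := by
    intro h0
    rw [he] at h0
    exact hnp _ (sub_eq_zero.mp h0)
  have hej : 0 < b j ⬝ᵥ e := by
    have h1 : e ⬝ᵥ e = b j ⬝ᵥ e := by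
      have h2 : e ⬝ᵥ e = (b j - ((b i ⬝ᵥ b j) / (b i ⬝ᵥ b i)) • b i) ⬝ᵥ e := by rw [← he]
      rw [h2, sub_dotProduct, smul_dotProduct, hei, smul_zero, sub_zero]
    rw [← h1]
    exact Simp3_self_pos he0
  have hz0 : 0 < z ⬝ᵥ z := by
    have h1 : z ⬝ᵥ z = (b i ⬝ᵥ b i) * (b j ⬝ᵥ e) := by
      have h2 : b j ⬝ᵥ e = b j ⬝ᵥ b j - ((b i ⬝ᵥ b j) / (b i ⬝ᵥ b i)) * (b i ⬝ᵥ b j) := by
        rw [he, dotProduct_sub, dotProduct_smul, smul_eq_mul, dotProduct_comm (b j) (b i)]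
      rw [h2, hz, cross_dot_cross', dotProduct_comm (b j) (b i)]
      field_simp
    rw [h1]
    exact mul_pos hbii hej
  have hzn : z ≠ 0 := by
    rintro h0
    rw [h0, zero_dotProduct] at hz0
    exact lt_irrefl _ hz0
  have hza : ∀ l, a l ⬝ᵥ z = 0 ↔ b l ⬝ᵥ z = 0 := by
    intro l
    obtain ⟨t, ht, hl⟩ := hab l
    rw [hl, smul_dotProduct, smul_eq_mul]
    constructor
    · intro h
      rcases mul_eq_zero.mp h with h1 | h1
      · rw [h1] at ht; norm_num at ht
      · exact h1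
    · intro h
      rw [h, mul_zero]
  have hiz : b i ⬝ᵥ z = 0 := by rw [hz]; exact dot_self_cross _ _
  have hjz : b j ⬝ᵥ z = 0 := by rw [hz]; exact dot_cross_self _ _
  -- coefficients
  have hco : ∀ l, a l ⬝ᵥ z = 0 → ∃ p q : ℝ, 0 ≤ p ∧ 0 ≤ q ∧ b l = p • b i + q • b j := by
    intro l hl
    rw [hza] at hl
    have h1 := Simp3_cramer (b i) (b j) z (b l)
    have h2 : det3 (b i) (b j) z = z ⬝ᵥ z := by rw [hz]; exact Simp3_cross_self _ _
    have h3 : det3 (b i) (b j) (b l) = 0 := by rw [Simp3_det_cross, ← hz]; exact hl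
    rw [h2, h3, zero_smul, add_zero] at h1
    have h4 : b l = ((z ⬝ᵥ z)⁻¹ * det3 (b l) (b j) z) • b i +
        ((z ⬝ᵥ z)⁻¹ * det3 (b i) (b l) z) • b j := by
      have h5 : b l = (z ⬝ᵥ z)⁻¹ • ((z ⬝ᵥ z) • b l) := by
        rw [smul_smul, inv_mul_cancel₀ hz0.ne', one_smul]
      rw [mul_smul, mul_smul, ← smul_add, ← h1]
      exact h5
    refine ⟨_, _, ?_, ?_, h4⟩
    · exact Simp3_coeff b x hx B hB hmin hi hj hij h4
    · exact Simp3_coeff b x hx B hB hmin hj hi hij.symm (by rw [add_comm]; exact h4)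
  by_cases h3 : ∃ k, k ≠ i ∧ k ≠ j ∧ a k ⬝ᵥ z = 0
  · obtain ⟨k, hki, hkj, hk⟩ := h3
    obtain ⟨ν, hν⟩ := ha.clos z i j k hzn hij hki.symm hkj.symm ((hza i).mpr hiz)
      ((hza j).mpr hjz) hk
    have h4 := congrArg (fun w : R3 => w ⬝ᵥ e) (hν (b i) hiz)
    simp only [sum_dotProduct, smul_dotProduct, hei, smul_zero] at h4
    have hterm : ∀ l, 0 ≤ (if a l ⬝ᵥ z = 0 then (a l ⬝ᵥ b i) • a l else 0) ⬝ᵥ e := by
      intro l
      split_ifs with hl
      · obtain ⟨p, q, hp, hq, hpq⟩ := hco l hl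
        obtain ⟨t, ht, hal⟩ := hab l
        have h5 : ((a l ⬝ᵥ b i) • a l) ⬝ᵥ e = (b l ⬝ᵥ b i) * (b l ⬝ᵥ e) := by
          rw [hal]
          simp only [smul_dotProduct, smul_eq_mul]
          calc t * (b l ⬝ᵥ b i) * (t * (b l ⬝ᵥ e)) = (t * t) * ((b l ⬝ᵥ b i) * (b l ⬝ᵥ e)) := by
                ring
            _ = _ := by rw [ht, one_mul]
        rw [h5, hpq]
        simp only [add_dotProduct, smul_dotProduct, smul_eq_mul, hei, mul_zero, zero_add]
        have h6 : 0 < b j ⬝ᵥ b i := by rw [dotProduct_comm]; exact hcon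
        positivity
      · rw [zero_dotProduct]
    have hjt : 0 < (if a j ⬝ᵥ z = 0 then (a j ⬝ᵥ b i) • a j else 0) ⬝ᵥ e := by
      rw [if_pos ((hza j).mpr hjz)]
      obtain ⟨t, ht, hal⟩ := hab j
      have h5 : ((a j ⬝ᵥ b i) • a j) ⬝ᵥ e = (b j ⬝ᵥ b i) * (b j ⬝ᵥ e) := by
        rw [hal]
        simp only [smul_dotProduct, smul_eq_mul]
        calc t * (b j ⬝ᵥ b i) * (t * (b j ⬝ᵥ e)) = (t * t) * ((b j ⬝ᵥ b i) * (b j ⬝ᵥ e)) := by
              ring
          _ = _ := by rw [ht, one_mul]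
      rw [h5, dotProduct_comm (b j) (b i)]
      exact mul_pos hcon hej
    have h7 : 0 < ∑ l, (if a l ⬝ᵥ z = 0 then (a l ⬝ᵥ b i) • a l else 0) ⬝ᵥ e :=
      Finset.sum_pos' (fun l _ => hterm l) ⟨j, Finset.mem_univ _, hjt⟩
    rw [h4] at h7
    exact lt_irrefl _ h7
  · push Not at h3
    have h4 := ha.orth z i j hij (fun k => by
      constructor
      · intro hk
        by_contra hne
        push Not at hne
        exact h3 k hne.1 hne.2 hk
      · rintro (rfl | rfl)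
        · exact (hza _).mpr hiz
        · exact (hza _).mpr hjz)
    obtain ⟨t, ht, hai⟩ := hab i
    obtain ⟨t', ht', haj⟩ := hab j
    rw [hai, haj, smul_dotProduct, dotProduct_smul, smul_eq_mul, smul_eq_mul] at h4
    have h5 : (t * t) * (t' * t') * (b i ⬝ᵥ b j) = 0 := by
      calc (t * t) * (t' * t') * (b i ⬝ᵥ b j) = t * t' * (t * (t' * (b i ⬝ᵥ b j))) := by ring
        _ = 0 := by rw [h4, mul_zero]
    rw [ht, ht', one_mul, one_mul] at h5
    rw [h5] at hcon
    exact lt_irrefl _ hcon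

/-- A simple triple: the inward normals of a chamber, in clockwise order. -/
structure Simple (a : κ → R3) (n : Fin 3 → κ × Bool) : Prop where
  det : det3 (nv a (n 0)) (nv a (n 1)) (nv a (n 2)) < 0
  comb : ∀ i : κ, ∃ c : Fin 3 → ℝ, (∀ k, 0 ≤ c k) ∧
    (a i = ∑ k, c k • nv a (n k) ∨ a i = - ∑ k, c k • nv a (n k))

/-- **The chamber of a point is a triangle.** -/
theorem exists_simple (ha : Sys3 a) (x : R3) (hx : ∀ i, a i ⬝ᵥ x ≠ 0) :
    ∃ n : Fin 3 → κ × Bool, Simple a n ∧ ∀ k, 0 < nv a (n k) ⬝ᵥ x := by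
  classical
  obtain ⟨s, hs⟩ : ∃ s : κ → Bool, ∀ i, 0 < nv a (i, s i) ⬝ᵥ x := by
    refine ⟨fun i => decide (0 < a i ⬝ᵥ x), fun i => ?_⟩
    rcases lt_or_gt_of_ne (hx i) with h | h
    · have h1 : decide (0 < a i ⬝ᵥ x) = false := decide_eq_false (not_lt.mpr h.le)
      simp only [nv, h1, sgn]
      simp only [Bool.false_eq_true, if_false, smul_dotProduct, smul_eq_mul]
      linarith
    · have h1 : decide (0 < a i ⬝ᵥ x) = true := decide_eq_true h
      simp only [nv, h1, sgn]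
      simp only [if_true, smul_dotProduct, smul_eq_mul]
      linarith
  obtain ⟨B, hB, hmin⟩ := Simp3_minimal (fun i => nv a (i, s i))
  have hind : LinearIndependent ℝ (fun i : B => nv a (i.1, s i.1)) :=
    Simp3_indep _ x (fun i => hs i.1) fun i j hij =>
      Simp3_pair ha s hs B hB hmin i.2 j.2 (fun h => hij (Subtype.ext h))
  have hspan : ⊤ ≤ Submodule.span ℝ (Set.range (fun i : B => nv a (i.1, s i.1))) := by
    rw [← ha.sp, Submodule.span_le]
    rintro _ ⟨i, rfl⟩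
    obtain ⟨c, -, hc⟩ := hB i
    have h1 : nv a (i, s i) ∈ Submodule.span ℝ (Set.range (fun i : B => nv a (i.1, s i.1))) := by
      rw [show nv a (i, s i) = ∑ j ∈ B, c j • nv a (j, s j) from hc]
      exact Submodule.sum_mem _ fun j hj => Submodule.smul_mem _ _
        (Submodule.subset_span ⟨⟨j, hj⟩, rfl⟩)
    rcases Simp3_nv (a := a) (i, s i) with h2 | h2
    · rw [h2] at h1; exact h1
    · rw [h2] at h1
      have h3 := Submodule.neg_mem _ h1
      rw [neg_neg] at h3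
      exact h3
  have hcard : Fintype.card B = 3 := by
    have h1 := Module.finrank_eq_card_basis (Module.Basis.mk hind hspan)
    rw [← h1]
    simp
  -- the enumeration
  obtain ⟨e⟩ : Nonempty (Fin 3 ≃ B) := ⟨(Fintype.equivFinOfCardEq hcard).symm⟩
  have hcomb : ∀ (e : Fin 3 ≃ B) (i : κ), ∃ c : Fin 3 → ℝ, (∀ k, 0 ≤ c k) ∧
      (a i = ∑ k, c k • nv a ((e k).1, s (e k).1) ∨
        a i = - ∑ k, c k • nv a ((e k).1, s (e k).1)) := by
    intro e i
    obtain ⟨c, hc0, hc⟩ := hB i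
    refine ⟨fun k => c (e k).1, fun k => hc0 _, ?_⟩
    have h1 : ∑ k, c (e k).1 • nv a ((e k).1, s (e k).1) = nv a (i, s i) := by
      rw [show nv a (i, s i) = ∑ j ∈ B, c j • nv a (j, s j) from hc]
      rw [← Finset.sum_coe_sort B (fun j => c j • nv a (j, s j))]
      exact e.sum_comp (fun j : B => c j.1 • nv a (j.1, s j.1))
    rw [h1]
    rcases Simp3_nv (a := a) (i, s i) with h2 | h2
    · left; rw [h2]
    · right; rw [h2, neg_neg]
  have hdet : ∀ e : Fin 3 ≃ B, det3 (nv a ((e 0).1, s (e 0).1)) (nv a ((e 1).1, s (e 1).1))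
      (nv a ((e 2).1, s (e 2).1)) ≠ 0 := by
    intro e
    rw [det3_ne_zero_iff]
    have h1 := hind.comp e e.injective
    convert h1 using 1
    funext k
    fin_cases k <;> rfl
  rcases lt_or_gt_of_ne (hdet e) with h | h
  · exact ⟨fun k => ((e k).1, s (e k).1), ⟨h, hcomb e⟩, fun k => hs _⟩
  · set e' : Fin 3 ≃ B := (Equiv.swap (1 : Fin 3) 2).trans e with he'
    have e0 : e' 0 = e 0 := by
      rw [he', Equiv.trans_apply, Equiv.swap_apply_of_ne_of_ne (by decide) (by decide)]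
    have e1 : e' 1 = e 2 := by rw [he', Equiv.trans_apply, Equiv.swap_apply_left]
    have e2 : e' 2 = e 1 := by rw [he', Equiv.trans_apply, Equiv.swap_apply_right]
    refine ⟨fun k => ((e' k).1, s (e' k).1), ⟨?_, hcomb e'⟩, fun k => hs _⟩
    simp only [e0, e1, e2]
    rw [det3_swap]
    linarith

/-- the cyclic rotation of a simple triple -/
theorem Simple.rotate {n : Fin 3 → κ × Bool} (h : Simple a n) : Simple a ![n 1, n 2, n 0] := by
  constructor
  · have h1 := det3_cyc (nv a (n 0)) (nv a (n 1)) (nv a (n 2))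
    simp only [Matrix.cons_val_zero, Matrix.cons_val_one, Matrix.cons_val]
    rw [h1]
    exact h.det
  · intro i
    obtain ⟨c, hc0, hc⟩ := h.comb i
    refine ⟨![c 1, c 2, c 0], ?_, ?_⟩
    · intro k
      fin_cases k
      · exact hc0 1
      · exact hc0 2
      · exact hc0 0
    · have h1 : ∑ k, (![c 1, c 2, c 0] : Fin 3 → ℝ) k • nv a ((![n 1, n 2, n 0] :
          Fin 3 → κ × Bool) k) = ∑ k, c k • nv a (n k) := by
        simp only [Fin.sum_univ_three, Matrix.cons_val_zero, Matrix.cons_val_one, Matrix.cons_val]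
        abel
      rw [h1]
      exact hc

theorem Simp3_ne01 {n : Fin 3 → κ × Bool} (h : Simple a n) : (n 0).1 ≠ (n 1).1 := by
  intro h1
  have hdet := h.det
  have h2 : ∃ c : ℝ, nv a (n 1) = c • nv a (n 0) := by
    rcases Simp3_nv (a := a) (n 0) with h3 | h3 <;> rcases Simp3_nv (a := a) (n 1) with h4 | h4 <;>
      rw [h3, h4, h1]
    · exact ⟨1, by module⟩
    · exact ⟨-1, by module⟩
    · exact ⟨-1, by module⟩
    · exact ⟨1, by module⟩
  obtain ⟨c, hc⟩ := h2
  have h5 : det3 (nv a (n 0)) (nv a (n 0)) (nv a (n 2)) = 0 := by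
    rw [det3_cyc (nv a (n 2)) (nv a (n 0)) (nv a (n 0)), det3_self]
  rw [hc, det3_smul2, h5, mul_zero] at hdet
  exact lt_irrefl _ hdet

theorem Simp3_side {v : VT (LL a)} {x : R3} (hx : sv a x = v.1) (n : κ × Bool) :
    side n v = SignType.sign (nv a n ⬝ᵥ x) := by
  obtain ⟨i, b⟩ := n
  have h1 : v.1 i = SignType.sign (a i ⬝ᵥ x) := by rw [← hx]; rfl
  cases b
  · simp only [side, h1, nv, sgn, Bool.false_eq_true, if_false]
    rw [smul_dotProduct, neg_one_smul, Left.sign_neg]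
  · simp only [side, h1, nv, sgn, if_true]
    rw [smul_dotProduct, one_smul]

theorem Simp3_inc {v : VT (LL a)} {n : κ × Bool} (h : Inc v n) : nv a n ⬝ᵥ pt a v = 0 :=
  (inc_iff rfl v n).mp h

theorem Simp3_pos {v : VT (LL a)} {n : κ × Bool} (h : side n v = 1) : 0 < nv a n ⬝ᵥ pt a v := by
  rw [side_eq rfl v n] at h
  exact sign_eq_one_iff.mp h

/-- the first vertex of a simple triple: there `n 0` and `n 1` vanish and `n 2` is positive -/
theorem Simple.exists_vert (ha : Sys3 a) {n : Fin 3 → κ × Bool} (h : Simple a n) :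
    ∃ v : VT (LL a), Inc v (n 0) ∧ Inc v (n 1) ∧ side (n 2) v = 1 := by
  obtain ⟨x, hx⟩ : ∃ x : R3, x = - crossProduct (nv a (n 0)) (nv a (n 1)) := ⟨_, rfl⟩
  have h0 : nv a (n 0) ⬝ᵥ x = 0 := by
    rw [hx, dotProduct_neg, dot_self_cross, neg_zero]
  have h1 : nv a (n 1) ⬝ᵥ x = 0 := by
    rw [hx, dotProduct_neg, dot_cross_self, neg_zero]
  have h2 : 0 < nv a (n 2) ⬝ᵥ x := by
    rw [hx, dotProduct_neg, ← Simp3_det_cross]
    have := h.det
    linarith
  have hx0 : x ≠ 0 := by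
    intro h3
    rw [h3, dotProduct_zero] at h2
    exact lt_irrefl _ h2
  have key : ∀ m : κ × Bool, nv a m ⬝ᵥ x = 0 → a m.1 ⬝ᵥ x = 0 := by
    intro m hm
    rcases Simp3_nv (a := a) m with h3 | h3
    · rw [h3] at hm; exact hm
    · rw [h3, neg_dotProduct] at hm; linarith
  have hv := isVert_of ha hx0 (Simp3_ne01 h) (key _ h0) (key _ h1)
  refine ⟨⟨sv a x, hv⟩, (sv_zero_iff x _).mpr (key _ h0), (sv_zero_iff x _).mpr (key _ h1), ?_⟩
  rw [Simp3_side (v := ⟨sv a x, hv⟩) (x := x) rfl]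
  exact sign_eq_one_iff.mpr h2

theorem Simple.vert_unique (ha : Sys3 a) {n : Fin 3 → κ × Bool} (h : Simple a n)
    {v w : VT (LL a)} (h0 : Inc v (n 0)) (h1 : Inc v (n 1)) (h2 : side (n 2) v = 1)
    (h0' : Inc w (n 0)) (h1' : Inc w (n 1)) (h2' : side (n 2) w = 1) : v = w := by
  apply Subtype.ext
  rw [← pt_spec rfl v, ← pt_spec rfl w]
  funext i
  have p0 := Simp3_inc h0
  have p1 := Simp3_inc h1
  have p2 := Simp3_pos h2
  have q0 := Simp3_inc h0'
  have q1 := Simp3_inc h1'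
  have q2 := Simp3_pos h2'
  obtain ⟨c, hc0, hc⟩ := h.comb i
  show SignType.sign (a i ⬝ᵥ pt a v) = SignType.sign (a i ⬝ᵥ pt a w)
  have e1 : (∑ k, c k • nv a (n k)) ⬝ᵥ pt a v = c 2 * (nv a (n 2) ⬝ᵥ pt a v) := by
    simp only [Fin.sum_univ_three, add_dotProduct, smul_dotProduct, smul_eq_mul, p0, p1]
    ring
  have e2 : (∑ k, c k • nv a (n k)) ⬝ᵥ pt a w = c 2 * (nv a (n 2) ⬝ᵥ pt a w) := by
    simp only [Fin.sum_univ_three, add_dotProduct, smul_dotProduct, smul_eq_mul, q0, q1]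
    ring
  rcases hc with hc | hc
  · rw [hc, e1, e2, sign_mul, sign_mul, sign_pos p2, sign_pos q2]
  · rw [hc, neg_dotProduct, neg_dotProduct, e1, e2, Left.sign_neg, Left.sign_neg, sign_mul,
      sign_mul, sign_pos p2, sign_pos q2]

/-- the point of the first vertex -/
theorem Simp3_pt (ha : Sys3 a) {n : Fin 3 → κ × Bool} (h : Simple a n)
    {v : VT (LL a)} (h0 : Inc v (n 0)) (h1 : Inc v (n 1)) (h2 : side (n 2) v = 1) :
    ∃ t : ℝ, 0 < t ∧ pt a v = -(t • crossProduct (nv a (n 0)) (nv a (n 1))) := by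
  obtain ⟨x, hx⟩ : ∃ x : R3, x = - crossProduct (nv a (n 0)) (nv a (n 1)) := ⟨_, rfl⟩
  have hx0 : nv a (n 0) ⬝ᵥ x = 0 := by
    rw [hx, dotProduct_neg, dot_self_cross, neg_zero]
  have hx1 : nv a (n 1) ⬝ᵥ x = 0 := by
    rw [hx, dotProduct_neg, dot_cross_self, neg_zero]
  have hx2 : 0 < nv a (n 2) ⬝ᵥ x := by
    rw [hx, dotProduct_neg, ← Simp3_det_cross]
    have := h.det
    linarith
  have p0 := Simp3_inc h0
  have p1 := Simp3_inc h1
  have p2 := Simp3_pos h2
  -- the sign vector of x is v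
  have hsv : sv a x = v.1 := by
    rw [← pt_spec rfl v]
    funext i
    obtain ⟨c, hc0, hc⟩ := h.comb i
    show SignType.sign (a i ⬝ᵥ x) = SignType.sign (a i ⬝ᵥ pt a v)
    have e1 : (∑ k, c k • nv a (n k)) ⬝ᵥ pt a v = c 2 * (nv a (n 2) ⬝ᵥ pt a v) := by
      simp only [Fin.sum_univ_three, add_dotProduct, smul_dotProduct, smul_eq_mul, p0, p1]
      ring
    have e2 : (∑ k, c k • nv a (n k)) ⬝ᵥ x = c 2 * (nv a (n 2) ⬝ᵥ x) := by
      simp only [Fin.sum_univ_three, add_dotProduct, smul_dotProduct, smul_eq_mul, hx0, hx1]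
      ring
    rcases hc with hc | hc
    · rw [hc, e1, e2, sign_mul, sign_mul, sign_pos p2, sign_pos hx2]
    · rw [hc, neg_dotProduct, neg_dotProduct, e1, e2, Left.sign_neg, Left.sign_neg, sign_mul,
        sign_mul, sign_pos p2, sign_pos hx2]
  obtain ⟨c, hc, hxc⟩ := pt_unique ha rfl v hsv
  refine ⟨c⁻¹, inv_pos.mpr hc, ?_⟩
  have h3 : pt a v = c⁻¹ • x := by
    rw [hxc, smul_smul, inv_mul_cancel₀ hc.ne', one_smul]
  rw [h3, hx, smul_neg]

/-- orientation at the first vertex -/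
theorem Simp3_or (ha : Sys3 a) {n : Fin 3 → κ × Bool} (h : Simple a n)
    {v : VT (LL a)} (h0 : Inc v (n 0)) (h1 : Inc v (n 1)) (h2 : side (n 2) v = 1) :
    det3 (pt a v) (nv a (n 0)) (nv a (n 1)) < 0 := by
  obtain ⟨t, ht, hpt⟩ := Simp3_pt ha h h0 h1 h2
  have hne : crossProduct (nv a (n 0)) (nv a (n 1)) ≠ 0 := by
    intro h3
    have h4 := h.det
    have h5 : det3 (nv a (n 0)) (nv a (n 1)) (nv a (n 2)) = 0 := by
      rw [Simp3_det_cross, h3, dotProduct_zero]
    linarith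
  have h3 : det3 (pt a v) (nv a (n 0)) (nv a (n 1)) =
      -(t * (crossProduct (nv a (n 0)) (nv a (n 1)) ⬝ᵥ
        crossProduct (nv a (n 0)) (nv a (n 1)))) := by
    show pt a v ⬝ᵥ crossProduct (nv a (n 0)) (nv a (n 1)) = _
    rw [hpt, neg_dotProduct, smul_dotProduct, smul_eq_mul]
  rw [h3]
  have := mul_pos ht (Simp3_self_pos hne)
  linarith

theorem Simp3_comb_nv {n : Fin 3 → κ × Bool} (h : Simple a n) (m : κ × Bool) :
    ∃ c : Fin 3 → ℝ, (∀ k, 0 ≤ c k) ∧
    (nv a m = ∑ k, c k • nv a (n k) ∨ nv a m = - ∑ k, c k • nv a (n k)) := by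
  obtain ⟨c, hc0, hc⟩ := h.comb m.1
  refine ⟨c, hc0, ?_⟩
  rcases Simp3_nv (a := a) m with h3 | h3 <;> rw [h3] <;> rcases hc with hc | hc
  · exact Or.inl hc
  · exact Or.inr hc
  · exact Or.inr (by rw [hc])
  · exact Or.inl (by rw [hc, neg_neg])

/-- the next normal at the first vertex -/
theorem Simple.nx_eq (ha : Sys3 a) {n : Fin 3 → κ × Bool} (h : Simple a n)
    {v : VT (LL a)} (h0 : Inc v (n 0)) (h1 : Inc v (n 1)) (h2 : side (n 2) v = 1) :
    nx a v (n 0) = ngN (n 1) := by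
  symm
  have hor := Simp3_or ha h h0 h1 h2
  have h1' : Inc v (ngN (n 1)) := h1
  apply nx_unique ha v (n 0) _ h0
  refine ⟨h1', ?_, ?_⟩
  · rw [nv_ngN, show -nv a (n 1) = (-1 : ℝ) • nv a (n 1) by module, det3_smul3]
    linarith
  · intro n'' hn'' hpos
    by_cases hz : det3 (pt a v) (nv a (ngN (n 1))) (nv a n'') = 0
    · rcases (det3_eq_zero_iff ha h1' hn'').mp hz with h3 | h3
      · exact Or.inl h3
      · exfalso
        have h4 : n'' = n 1 := by
          rw [h3]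
          obtain ⟨i, b⟩ := n 1
          simp [ngN]
        rw [h4] at hpos
        linarith
    · right
      obtain ⟨c, hc0, hc⟩ := Simp3_comb_nv h n''
      have p0 := Simp3_inc h0
      have p1 := Simp3_inc h1
      have p2 := Simp3_pos h2
      have pn := Simp3_inc hn''
      have hc2 : c 2 = 0 := by
        have e1 : (∑ k, c k • nv a (n k)) ⬝ᵥ pt a v = c 2 * (nv a (n 2) ⬝ᵥ pt a v) := by
          simp only [Fin.sum_univ_three, add_dotProduct, smul_dotProduct, smul_eq_mul, p0, p1]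
          ring
        have e2 : c 2 * (nv a (n 2) ⬝ᵥ pt a v) = 0 := by
          rw [← e1]
          rcases hc with hc | hc
          · rw [← hc]; exact pn
          · have h5 : ∑ k, c k • nv a (n k) = - nv a n'' := by rw [hc, neg_neg]
            rw [h5, neg_dotProduct, pn, neg_zero]
        rcases mul_eq_zero.mp e2 with h5 | h5
        · exact h5
        · exact absurd h5 p2.ne'
      have hsum : ∑ k, c k • nv a (n k) = c 0 • nv a (n 0) + c 1 • nv a (n 1) := by
        rw [Fin.sum_univ_three, hc2, zero_smul, add_zero]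
      rw [hsum] at hc
      have hs1 : det3 (pt a v) (nv a (n 1)) (nv a (n 0)) =
          - det3 (pt a v) (nv a (n 0)) (nv a (n 1)) := det3_swap _ _ _
      rcases hc with hc | hc
      · exfalso
        rw [hc, det3_add3, det3_smul3, det3_smul3, det3_self] at hpos
        have h5 : c 1 * det3 (pt a v) (nv a (n 0)) (nv a (n 1)) ≤ 0 :=
          mul_nonpos_of_nonneg_of_nonpos (hc0 1) hor.le
        linarith
      · have h5 : det3 (pt a v) (nv a (ngN (n 1))) (nv a n'') =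
            - (c 0 * det3 (pt a v) (nv a (n 0)) (nv a (n 1))) := by
          rw [nv_ngN, hc, show -nv a (n 1) = (-1 : ℝ) • nv a (n 1) by module,
            show -(c 0 • nv a (n 0) + c 1 • nv a (n 1)) =
              (-1 : ℝ) • (c 0 • nv a (n 0) + c 1 • nv a (n 1)) by module,
            det3_smul2, det3_smul3, det3_add3, det3_smul3, det3_smul3, det3_self, hs1]
          ring
        rw [h5] at hz ⊢
        have h6 : c 0 * det3 (pt a v) (nv a (n 0)) (nv a (n 1)) ≤ 0 :=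
          mul_nonpos_of_nonneg_of_nonpos (hc0 0) hor.le
        exact lt_of_le_of_ne (by linarith) (Ne.symm hz)

/-- the next vertex -/
theorem Simple.ny_eq (ha : Sys3 a) {n : Fin 3 → κ × Bool} (h : Simple a n)
    {v w : VT (LL a)} (h0 : Inc v (n 0)) (h1 : Inc v (n 1)) (h2 : side (n 2) v = 1)
    (h1' : Inc w (n 1)) (h2' : Inc w (n 2)) (h0' : side (n 0) w = 1) :
    ny a (ngN (n 1)) v = w := by
  symm
  have hvi : Inc v (ngN (n 1)) := h1
  have hwi : Inc w (ngN (n 1)) := h1'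
  obtain ⟨t, ht, hp⟩ := Simp3_pt ha h h0 h1 h2
  have hr : Simple a ![n 1, n 2, n 0] := h.rotate
  obtain ⟨s, hs, hq⟩ := Simp3_pt ha hr (v := w) h1' h2' h0'
  simp only [Matrix.cons_val_zero, Matrix.cons_val_one] at hq
  have hD := h.det
  have hpos : 0 < det3 (nv a (ngN (n 1))) (pt a v) (pt a w) := by
    have h3 : det3 (nv a (ngN (n 1))) (pt a v) (pt a w) =
        -(t * s * ((nv a (n 1) ⬝ᵥ nv a (n 1)) * det3 (nv a (n 0)) (nv a (n 1)) (nv a (n 2)))) := by
      rw [hp, hq, nv_ngN, ← Simp3_cross_cross]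
      rw [show -nv a (n 1) = (-1 : ℝ) • nv a (n 1) by module,
        show -(t • crossProduct (nv a (n 0)) (nv a (n 1))) =
          (-t) • crossProduct (nv a (n 0)) (nv a (n 1)) by module,
        show -(s • crossProduct (nv a (n 1)) (nv a (n 2))) =
          (-s) • crossProduct (nv a (n 1)) (nv a (n 2)) by module,
        det3_smul1, det3_smul2, det3_smul3]
      ring
    rw [h3]
    have h4 : 0 < nv a (n 1) ⬝ᵥ nv a (n 1) := Simp3_self_pos (nv_ne ha _)
    have h5 : (nv a (n 1) ⬝ᵥ nv a (n 1)) * det3 (nv a (n 0)) (nv a (n 1)) (nv a (n 2)) < 0 :=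
      mul_neg_of_pos_of_neg h4 hD
    have h6 := mul_neg_of_pos_of_neg (mul_pos ht hs) h5
    linarith
  apply ny_unique ha (ngN (n 1)) v _ hvi
  refine ⟨hwi, hpos, ?_⟩
  intro v'' hv'' hpos''
  -- the three points
  obtain ⟨p, hpd⟩ : ∃ p : R3, p = pt a v := ⟨_, rfl⟩
  obtain ⟨q, hqd⟩ : ∃ q : R3, q = pt a w := ⟨_, rfl⟩
  obtain ⟨r, hrd⟩ : ∃ r : R3, r = pt a v'' := ⟨_, rfl⟩
  obtain ⟨N, hN⟩ : ∃ N : R3, N = nv a (ngN (n 1)) := ⟨_, rfl⟩
  have p0 := Simp3_inc h0
  have p1 := Simp3_inc h1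
  have p2 := Simp3_pos h2
  have q1 := Simp3_inc h1'
  have q2 := Simp3_inc h2'
  have q0 := Simp3_pos h0'
  have pN := Simp3_inc hvi
  have qN := Simp3_inc hwi
  have rN := Simp3_inc hv''
  rw [← hpd] at p0 p1 p2 pN hpos hpos''
  rw [← hqd] at q0 q1 q2 qN hpos
  rw [← hrd] at rN hpos''
  rw [← hN] at hpos hpos'' pN qN rN
  rw [← hN, ← hqd, ← hrd]
  -- Cramer
  have hcr := Simp3_cramer p q N r
  have hd1 : det3 p q N = det3 N p q := (det3_cyc N p q).symm ▸ rfl
  have hd2 : det3 p q r = 0 := by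
    -- p, q, r are orthogonal to N
    have h3 := Simp3_cramer p q N r
    have h4 := congrArg (fun u : R3 => N ⬝ᵥ u) h3
    simp only [dotProduct_smul, dotProduct_add, smul_eq_mul] at h4
    rw [rN, pN, qN] at h4
    have hN0 : 0 < N ⬝ᵥ N := by
      rw [hN]; exact Simp3_self_pos (nv_ne ha _)
    have h5 : det3 p q r * (N ⬝ᵥ N) = 0 := by linarith
    rcases mul_eq_zero.mp h5 with h6 | h6
    · exact h6
    · exact absurd h6 hN0.ne'
  rw [hd2, zero_smul, add_zero] at hcr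
  have hd3 : det3 p q N = det3 N p q := by
    rw [← det3_cyc N p q]
  have hE : 0 < det3 p q N := by rw [hd3]; exact hpos
  obtain ⟨E, hEd⟩ : ∃ E : ℝ, E = det3 p q N := ⟨_, rfl⟩
  obtain ⟨x, hx⟩ : ∃ x : ℝ, x = E⁻¹ * det3 r q N := ⟨_, rfl⟩
  obtain ⟨y, hy⟩ : ∃ y : ℝ, y = E⁻¹ * det3 p r N := ⟨_, rfl⟩
  rw [← hEd] at hcr hE
  have hr2 : r = x • p + y • q := by
    have h5 : r = E⁻¹ • (E • r) := by rw [smul_smul, inv_mul_cancel₀ hE.ne', one_smul]
    rw [hx, hy, mul_smul, mul_smul, ← smul_add, ← hcr]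
    exact h5
  have hNE : det3 N p q = E := by rw [hEd, hd3]
  have hyp : 0 < y := by
    rw [hr2, det3_add3, det3_smul3, det3_smul3, det3_self, hNE] at hpos''
    have h5 : 0 < y * E := by linarith
    by_contra h6
    have h7 := mul_nonpos_of_nonpos_of_nonneg (not_lt.mp h6) hE.le
    linarith
  have hgoal : det3 N q r = -(x * E) := by
    rw [hr2, det3_add3, det3_smul3, det3_smul3, det3_self, det3_swap, hNE]
    ring
  rcases lt_trichotomy x 0 with hx0 | hx0 | hx0
  · right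
    rw [hgoal]
    have := mul_neg_of_neg_of_pos hx0 hE
    linarith
  · left
    rw [hx0, zero_smul, zero_add] at hr2
    apply Subtype.ext
    rw [← pt_spec rfl v'', ← pt_spec rfl w, ← hrd, ← hqd, hr2]
    exact sv_smul hyp q
  · exfalso
    -- a second member through `v''`
    obtain ⟨j, hj0, hj⟩ : ∃ j, v''.1 j = 0 ∧ j ≠ (n 1).1 := by
      obtain ⟨-, -, i, j, hij, hi, hj⟩ := v''.2
      by_cases h5 : i = (n 1).1
      · exact ⟨j, hj, fun h6 => hij (h5.trans h6.symm)⟩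
      · exact ⟨i, hi, h5⟩
    have hjr : a j ⬝ᵥ r = 0 := by
      rw [hrd]
      have h5 : sv a (pt a v'') j = 0 := by rw [pt_spec rfl v'']; exact hj0
      exact (sv_zero_iff _ _).mp h5
    obtain ⟨c, hc0, hc⟩ := h.comb j
    have r0 : 0 < nv a (n 0) ⬝ᵥ r := by
      rw [hr2, dotProduct_add, dotProduct_smul, dotProduct_smul, p0, smul_zero, zero_add,
        smul_eq_mul]
      exact mul_pos hyp q0
    have r1 : nv a (n 1) ⬝ᵥ r = 0 := by
      rw [hr2, dotProduct_add, dotProduct_smul, dotProduct_smul, p1, q1, smul_zero, smul_zero,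
        zero_add]
    have r2 : 0 < nv a (n 2) ⬝ᵥ r := by
      rw [hr2, dotProduct_add, dotProduct_smul, dotProduct_smul, q2, smul_zero, add_zero,
        smul_eq_mul]
      exact mul_pos hx0 p2
    have e1 : (∑ k, c k • nv a (n k)) ⬝ᵥ r = 0 := by
      rcases hc with hc | hc
      · rw [← hc]; exact hjr
      · have h5 : ∑ k, c k • nv a (n k) = - a j := by rw [hc, neg_neg]
        rw [h5, neg_dotProduct, hjr, neg_zero]
    simp only [Fin.sum_univ_three, add_dotProduct, smul_dotProduct, smul_eq_mul, r1] at e1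
    have f0 := mul_nonneg (hc0 0) r0.le
    have f2 := mul_nonneg (hc0 2) r2.le
    have g0 : c 0 = 0 := by
      have h5 : c 0 * (nv a (n 0) ⬝ᵥ r) = 0 := by linarith
      rcases mul_eq_zero.mp h5 with h6 | h6
      · exact h6
      · exact absurd h6 r0.ne'
    have g2 : c 2 = 0 := by
      have h5 : c 2 * (nv a (n 2) ⬝ᵥ r) = 0 := by linarith
      rcases mul_eq_zero.mp h5 with h6 | h6
      · exact h6
      · exact absurd h6 r2.ne'
    simp only [Fin.sum_univ_three, g0, g2, zero_smul, zero_add, add_zero] at hc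
    have h5 : ∃ d : ℝ, nv a (j, true) = d • nv a (n 1) := by
      have h6 : nv a (j, true) = a j := by simp [nv, sgn]
      rw [h6]
      rcases hc with hc | hc
      · exact ⟨c 1, hc⟩
      · exact ⟨-c 1, by rw [hc]; module⟩
    obtain ⟨d, hd⟩ := h5
    exact hj (Simp3_smul ha hd)

/-- the directions `y` close to a dart -/
theorem Simp3_dart (ha : Sys3 a) (v : VT (LL a)) (n : κ × Bool) (h : Inc v n) :
    ∃ y : R3, 0 < nv a n ⬝ᵥ y ∧ nv a (nx a v n) ⬝ᵥ y < 0 ∧ ∀ m : κ × Bool, Inc v m →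
      nv a m ⬝ᵥ y ≠ 0 ∧ (0 < nv a m ⬝ᵥ y → det3 (pt a v) (nv a n) (nv a m) ≤ 0) := by
  obtain ⟨hi', hpos, hnext⟩ := nx_spec ha v n h
  obtain ⟨n', hn'⟩ : ∃ n' : κ × Bool, n' = nx a v n := ⟨_, rfl⟩
  rw [← hn'] at hi' hpos hnext ⊢
  obtain ⟨p, hp⟩ : ∃ p : R3, p = pt a v := ⟨_, rfl⟩
  obtain ⟨y, hy⟩ : ∃ y : R3, y = crossProduct (nv a n) p + crossProduct (nv a n') p := ⟨_, rfl⟩
  have hdot : ∀ m : κ × Bool, nv a m ⬝ᵥ y = - det3 (pt a v) (nv a n) (nv a m) -
      det3 (pt a v) (nv a n') (nv a m) := by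
    intro m
    rw [hy, hp]
    simp [det3, cross_apply, dotProduct, Fin.sum_univ_three]
    ring
  have hself : ∀ m : R3, det3 (pt a v) m m = 0 := fun m => det3_self _ _
  have hsw : det3 (pt a v) (nv a n') (nv a n) = - det3 (pt a v) (nv a n) (nv a n') :=
    det3_swap _ _ _
  have hn1 : 0 < nv a n ⬝ᵥ y := by
    rw [hdot, hself, hsw]; linarith
  have hn2 : nv a n' ⬝ᵥ y < 0 := by
    rw [hdot, hself]; linarith
  have hneg : ∀ m : κ × Bool, Inc v m → 0 < det3 (pt a v) (nv a n) (nv a m) →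
      nv a m ⬝ᵥ y < 0 := by
    intro m hm hm1
    rcases hnext m hm hm1 with h1 | h1
    · rw [h1]; exact hn2
    · rw [hdot]; linarith
  refine ⟨y, hn1, hn2, fun m hm => ⟨?_, ?_⟩⟩
  · rcases lt_trichotomy (det3 (pt a v) (nv a n) (nv a m)) 0 with h1 | h1 | h1
    · have hm' : Inc v (ngN m) := hm
      have h2 := hneg (ngN m) hm' (by
        rw [nv_ngN, show -nv a m = (-1 : ℝ) • nv a m by module, det3_smul3]; linarith)
      rw [nv_ngN, neg_dotProduct] at h2
      intro h3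
      rw [h3] at h2
      linarith
    · rcases (det3_eq_zero_iff ha h hm).mp h1 with h2 | h2
      · rw [h2]; exact hn1.ne'
      · rw [h2, nv_ngN, neg_dotProduct]
        intro h3
        linarith
    · exact (hneg m hm h1).ne
  · intro h1
    by_contra h2
    push Not at h2
    have := hneg m hm h2
    linarith

/-- a generic point close to a dart -/
theorem Simp3_generic (ha : Sys3 a) (v : VT (LL a)) (y : R3)
    (hy : ∀ m : κ × Bool, Inc v m → nv a m ⬝ᵥ y ≠ 0) :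
    ∃ x : R3, (∀ i, a i ⬝ᵥ x ≠ 0) ∧
      (∀ m : κ × Bool, Inc v m → (0 < nv a m ⬝ᵥ x ↔ 0 < nv a m ⬝ᵥ y)) ∧
      (∀ m : κ × Bool, 0 < nv a m ⬝ᵥ x → 0 ≤ nv a m ⬝ᵥ pt a v) := by
  classical
  -- choose ε
  obtain ⟨ε, hε, hε2⟩ : ∃ ε : ℝ, 0 < ε ∧ ∀ i, a i ⬝ᵥ pt a v ≠ 0 →
      ε * |a i ⬝ᵥ y| < |a i ⬝ᵥ pt a v| := by
    have h1 : ∀ i, ∃ ε : ℝ, 0 < ε ∧ (a i ⬝ᵥ pt a v ≠ 0 → ∀ ε', 0 < ε' → ε' ≤ ε →
        ε' * |a i ⬝ᵥ y| < |a i ⬝ᵥ pt a v|) := by
      intro i
      by_cases h2 : a i ⬝ᵥ pt a v = 0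
      · exact ⟨1, one_pos, fun h3 => absurd h2 h3⟩
      · have h3 : 0 < |a i ⬝ᵥ pt a v| := abs_pos.mpr h2
        have h4 : 0 < |a i ⬝ᵥ y| + 1 := by positivity
        refine ⟨|a i ⬝ᵥ pt a v| / (|a i ⬝ᵥ y| + 1), div_pos h3 h4, fun _ ε' h5 h6 => ?_⟩
        have h7 : ε' * (|a i ⬝ᵥ y| + 1) ≤ |a i ⬝ᵥ pt a v| := (le_div_iff₀ h4).mp h6
        nlinarith
    choose f hf using h1
    by_cases hne : (Finset.univ : Finset κ).Nonempty
    · refine ⟨Finset.univ.inf' hne f, ?_, fun i hi => ?_⟩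
      · rw [Finset.lt_inf'_iff]
        exact fun i _ => (hf i).1
      · refine (hf i).2 hi _ ?_ (Finset.inf'_le f (Finset.mem_univ i))
        rw [Finset.lt_inf'_iff]
        exact fun i _ => (hf i).1
    · refine ⟨1, one_pos, fun i _ => ?_⟩
      exact absurd ⟨i, Finset.mem_univ i⟩ hne
  have hsgn : ∀ m : κ × Bool, nv a m ⬝ᵥ pt a v ≠ 0 → ε * |nv a m ⬝ᵥ y| < |nv a m ⬝ᵥ pt a v| := by
    intro m hm
    rcases Simp3_nv (a := a) m with h1 | h1
    · rw [h1] at hm ⊢
      exact hε2 _ hm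
    · rw [h1, neg_dotProduct] at hm
      rw [h1, neg_dotProduct, neg_dotProduct, abs_neg, abs_neg]
      exact hε2 _ (fun h2 => hm (by rw [h2, neg_zero]))
  have hx : ∀ m : κ × Bool, nv a m ⬝ᵥ (pt a v + ε • y) = nv a m ⬝ᵥ pt a v + ε * (nv a m ⬝ᵥ y) := by
    intro m
    rw [dotProduct_add, dotProduct_smul, smul_eq_mul]
  refine ⟨pt a v + ε • y, ?_, ?_, ?_⟩
  · intro i
    have h0 : nv a (i, true) = a i := by simp [nv, sgn]
    rw [← h0, hx]
    by_cases h1 : nv a (i, true) ⬝ᵥ pt a v = 0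
    · rw [h1, zero_add]
      exact mul_ne_zero hε.ne' (hy _ ((inc_iff rfl v _).mpr h1))
    · intro h2
      have h3 := hsgn _ h1
      have h4 : nv a (i, true) ⬝ᵥ pt a v = -(ε * (nv a (i, true) ⬝ᵥ y)) := by linarith
      rw [h4, abs_neg, abs_mul, abs_of_pos hε] at h3
      exact lt_irrefl _ h3
  · intro m hm
    rw [hx, Simp3_inc hm, zero_add]
    exact mul_pos_iff_of_pos_left hε
  · intro m hm
    by_contra h1
    push Not at h1
    rw [hx] at hm
    have h2 := hsgn m h1.ne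
    rw [abs_of_neg h1] at h2
    have h3 : ε * (nv a m ⬝ᵥ y) ≤ ε * |nv a m ⬝ᵥ y| := by
      exact mul_le_mul_of_nonneg_left (le_abs_self _) hε.le
    linarith

theorem Simp3_comb_pos {n : Fin 3 → κ × Bool} (h : Simple a n) {x : R3}
    (hx : ∀ k, 0 < nv a (n k) ⬝ᵥ x) (m : κ × Bool) (hm : 0 < nv a m ⬝ᵥ x) :
    ∃ c : Fin 3 → ℝ, (∀ k, 0 ≤ c k) ∧ nv a m = ∑ k, c k • nv a (n k) := by
  obtain ⟨c, hc0, hc⟩ := Simp3_comb_nv h m
  rcases hc with hc | hc
  · exact ⟨c, hc0, hc⟩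
  · exfalso
    rw [hc, neg_dotProduct, sum_dotProduct] at hm
    have h1 : 0 ≤ ∑ k, (c k • nv a (n k)) ⬝ᵥ x := by
      apply Finset.sum_nonneg
      intro k _
      rw [smul_dotProduct, smul_eq_mul]
      exact mul_nonneg (hc0 k) (hx k).le
    linarith

/-- every dart belongs to a simple triple -/
theorem exists_simple_of_dart (ha : Sys3 a) (v : VT (LL a)) (n : κ × Bool) (h : Inc v n) :
    ∃ N : Fin 3 → κ × Bool, Simple a N ∧ N 0 = n ∧ Inc v (N 1) ∧ side (N 2) v = 1 := by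
  obtain ⟨hi', hpos', -⟩ := nx_spec ha v n h
  obtain ⟨y, hy1, hy2, hy3⟩ := Simp3_dart ha v n h
  obtain ⟨x, hx1, hx2, hx3⟩ := Simp3_generic ha v y (fun m hm => (hy3 m hm).1)
  obtain ⟨N, hN, hNx⟩ := exists_simple ha x hx1
  obtain ⟨n', hn'⟩ : ∃ n' : κ × Bool, n' = ngN (nx a v n) := ⟨_, rfl⟩
  have hin' : Inc v n' := by rw [hn']; exact hi'
  have hnx : 0 < nv a n ⬝ᵥ x := (hx2 n h).mpr hy1
  have hn'x : 0 < nv a n' ⬝ᵥ x := by
    rw [hx2 n' hin', hn', nv_ngN, neg_dotProduct]; linarith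
  have hnn' : ∀ c : ℝ, nv a n ≠ c • nv a n' := by
    intro c hc
    have h1 : det3 (pt a v) (nv a n) (nv a (nx a v n)) = 0 := by
      rw [hc, hn', nv_ngN, show -nv a (nx a v n) = (-1 : ℝ) • nv a (nx a v n) by module,
        smul_smul, det3_smul2, det3_self, mul_zero]
    linarith
  -- the main step
  have key : ∀ M : Fin 3 → κ × Bool, Simple a M → (∀ k, 0 < nv a (M k) ⬝ᵥ x) →
      nv a (M 0) ⬝ᵥ pt a v = 0 → nv a (M 1) ⬝ᵥ pt a v = 0 → 0 < nv a (M 2) ⬝ᵥ pt a v →
      M 0 = n ∧ Inc v (M 1) ∧ side (M 2) v = 1 := by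
    intro M hM hMx h0 h1 h2
    have i0 : Inc v (M 0) := (inc_iff rfl v _).mpr h0
    have i1 : Inc v (M 1) := (inc_iff rfl v _).mpr h1
    have s2 : side (M 2) v = 1 := by
      rw [side_eq rfl v]; exact sign_eq_one_iff.mpr h2
    refine ⟨?_, i1, s2⟩
    have hor := Simp3_or ha hM i0 i1 s2
    obtain ⟨c, hc0, hc⟩ := Simp3_comb_pos hM hMx n hnx
    have hc2 : c 2 = 0 := by
      have e1 := Simp3_inc h
      rw [hc] at e1
      simp only [Fin.sum_univ_three, add_dotProduct, smul_dotProduct, smul_eq_mul, h0, h1] at e1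
      have e2 : c 2 * (nv a (M 2) ⬝ᵥ pt a v) = 0 := by linarith
      rcases mul_eq_zero.mp e2 with h5 | h5
      · exact h5
      · exact absurd h5 h2.ne'
    rw [Fin.sum_univ_three, hc2, zero_smul, add_zero] at hc
    have h3 := (hy3 (M 0) i0).2 ((hx2 (M 0) i0).mp (hMx 0))
    have hs1 : det3 (pt a v) (nv a (M 1)) (nv a (M 0)) =
          - det3 (pt a v) (nv a (M 0)) (nv a (M 1)) := det3_swap _ _ _
    rw [hc, det3_add2, det3_smul2, det3_smul2, det3_self, hs1] at h3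
    have hc1 : c 1 = 0 := by
      have h4 := mul_nonpos_of_nonneg_of_nonpos (hc0 1) hor.le
      have h5 : c 1 * det3 (pt a v) (nv a (M 0)) (nv a (M 1)) = 0 := by linarith
      rcases mul_eq_zero.mp h5 with h6 | h6
      · exact h6
      · exact absurd h6 hor.ne
    rw [hc1, zero_smul, add_zero] at hc
    exact (Simp3_smul_eq ha hc hnx (hMx 0)).symm
  -- which walls contain `v`
  have hge : ∀ k, 0 ≤ nv a (N k) ⬝ᵥ pt a v := fun k => hx3 _ (hNx k)
  have hcz : ∀ m : κ × Bool, Inc v m → ∀ c : Fin 3 → ℝ, (∀ k, 0 ≤ c k) →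
      nv a m = ∑ k, c k • nv a (N k) → ∀ k, 0 < nv a (N k) ⬝ᵥ pt a v → c k = 0 := by
    intro m hm c hc0 hc k hk
    have e1 := Simp3_inc hm
    rw [hc, sum_dotProduct] at e1
    have e2 := (Finset.sum_eq_zero_iff_of_nonneg (fun k _ => by
      rw [smul_dotProduct, smul_eq_mul]
      exact mul_nonneg (hc0 k) (hge k))).mp e1 k (Finset.mem_univ _)
    rw [smul_dotProduct, smul_eq_mul] at e2
    rcases mul_eq_zero.mp e2 with h5 | h5
    · exact h5
    · exact absurd h5 hk.ne'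
  obtain ⟨c, hc0, hc⟩ := Simp3_comb_pos hN hNx n hnx
  obtain ⟨c', hc0', hc'⟩ := Simp3_comb_pos hN hNx n' hn'x
  have hz := hcz n h c hc0 hc
  have hz' := hcz n' hin' c' hc0' hc'
  have hne : ∃ k, 0 < nv a (N k) ⬝ᵥ pt a v := by
    by_contra hcon
    push Not at hcon
    obtain ⟨i, hi⟩ := exists_not_inc v
    obtain ⟨d, -, hd⟩ := hN.comb i
    have hall : ∀ k, nv a (N k) ⬝ᵥ pt a v = 0 := fun k => le_antisymm (hcon k) (hge k)
    have h1 : (∑ k, d k • nv a (N k)) ⬝ᵥ pt a v = 0 := by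
      simp only [Fin.sum_univ_three, add_dotProduct, smul_dotProduct, smul_eq_mul, hall]
      ring
    have h2 : a i ⬝ᵥ pt a v = 0 := by
      rcases hd with hd | hd
      · rw [hd]; exact h1
      · rw [hd, neg_dotProduct, h1, neg_zero]
    apply hi
    rw [← pt_spec rfl v]
    exact (sv_zero_iff _ _).mpr h2
  -- two walls cannot miss `v`
  have hdep : ∀ (i j k : Fin 3), (∀ f : Fin 3 → R3, ∑ l, f l = f i + f j + f k) →
      0 < nv a (N i) ⬝ᵥ pt a v → 0 < nv a (N j) ⬝ᵥ pt a v → False := by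
    intro i j k hsum hi hj
    have e1 : nv a n = c k • nv a (N k) := by
      rw [hc, hsum, hz i hi, hz j hj, zero_smul, zero_smul, zero_add, zero_add]
    have e2 : nv a n' = c' k • nv a (N k) := by
      rw [hc', hsum, hz' i hi, hz' j hj, zero_smul, zero_smul, zero_add, zero_add]
    have hck : c' k ≠ 0 := by
      intro h0
      rw [h0, zero_smul] at e2
      exact nv_ne ha _ e2
    apply hnn' (c k * (c' k)⁻¹)
    rw [e1, e2, smul_smul, mul_assoc, inv_mul_cancel₀ hck, mul_one]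
  have hz0 : ∀ k, ¬ 0 < nv a (N k) ⬝ᵥ pt a v → nv a (N k) ⬝ᵥ pt a v = 0 := fun k hk =>
    le_antisymm (not_lt.mp hk) (hge k)
  have hrot := hN.rotate
  have hrot2 := hrot.rotate
  by_cases k0 : 0 < nv a (N 0) ⬝ᵥ pt a v
  · have k1 : ¬ 0 < nv a (N 1) ⬝ᵥ pt a v := fun h1 =>
      hdep 0 1 2 (fun f => Fin.sum_univ_three f) k0 h1
    have k2 : ¬ 0 < nv a (N 2) ⬝ᵥ pt a v := fun h1 =>
      hdep 0 2 1 (fun f => by rw [Fin.sum_univ_three]; abel) k0 h1
    exact ⟨_, hrot, key _ hrot (fun k => by fin_cases k; exacts [hNx 1, hNx 2, hNx 0])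
      (hz0 1 k1) (hz0 2 k2) k0⟩
  · by_cases k1 : 0 < nv a (N 1) ⬝ᵥ pt a v
    · have k2 : ¬ 0 < nv a (N 2) ⬝ᵥ pt a v := fun h1 =>
        hdep 1 2 0 (fun f => by rw [Fin.sum_univ_three]; abel) k1 h1
      exact ⟨_, hrot2, key _ hrot2 (fun k => by fin_cases k; exacts [hNx 2, hNx 0, hNx 1])
        (hz0 2 k2) (hz0 0 k0) k1⟩
    · obtain ⟨k, hk⟩ := hne
      have k2 : 0 < nv a (N 2) ⬝ᵥ pt a v := by
        fin_cases k
        · exact absurd hk k0
        · exact absurd hk k1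
        · exact hk
      exact ⟨N, hN, key N hN hNx (hz0 0 k0) (hz0 1 k1) k2⟩

end Pool.Agent.VeeC
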