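import Pool.Agent.VeeC.Pairs
import Pool.Agent.VeeC.Inact

set_option autoImplicit false

namespace Pool.Agent.VeeC

open Arr

variable {V N : Type*} [Fintype V] [Fintype N] {K : Arr V N} (L : Lab K)

namespace Lab

variable {L}

theorem Six_rot_ne (d : K.D) {i j : ℕ} (hij : i < j) (hj : j < 2 * K.m (src d) + i) :
    rot^[i] d ≠ rot^[j] d := by
  intro h
  have h1 : j = (j - i) + i := by omega
  rw [h1, Function.iterate_add_apply] at h
  exact rot_iter_ne (rot^[i] d) (k := j - i) (by omega) (by rw [src_rot_iter]; omega) h.symm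

theorem Six_tg_rotI_rev (d : K.D) : tg (rotI (rev d)) = tg (rot d) := by
  rw [rotI_rev, tg_F2]

theorem Six_tg_rot_rev (d : K.D) : tg (rot (rev d)) = tg (rotI d) := by
  rw [← F_rotI, ← src_F, src_F2]

theorem Six_tg_rotI_F (d : K.D) : tg (rotI (F d)) = tg (rot (rot d)) := by
  show tg (rotI (rev (rot d))) = _
  rw [Six_tg_rotI_rev]

theorem Six_tg_rot_F (d : K.D) : tg (rot (F d)) = tg d := by
  rw [← src_F, src_F2]

theorem Six_rev_F2 (d : K.D) : rev (F (F d)) = rot (F d) := by
  rw [← rot_F2, F3]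

/-- the labels of the edges at a vertex outside of `Z` -/
theorem Six_around {x : K.D} (h : ¬ L.Z (src x)) (h' : ¬ L.Z (tg x) ∨ ¬ L.Z (tg (rot x))) :
    L.e x = L.e (rot x) := by
  by_cases hz : L.Z (tg x)
  · have hz' : ¬ L.Z (tg (rot x)) := by tauto
    have h1 := s_eq_e (L := L) (d := F (F x)) (by rw [src_F2]; exact hz) (by rw [tg_F2]; exact hz')
      (by rw [rot_F2, tg_rev]; exact h)
    obtain ⟨-, h2, h3⟩ := h1
    rw [rot_F2, L.e_rev] at h2
    rw [F3, LabBasic_eF] at h3
    rw [← h2, ← h3]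
  · by_cases hz' : L.Z (tg (rot x))
    · have h1 := s_eq_e (L := L) (d := F x) hz' (by rw [tg_F]; exact h)
        (by rw [Six_tg_rot_F]; exact hz)
      obtain ⟨h2, -, h3⟩ := h1
      rw [LabBasic_eF] at h2
      rw [F3] at h3
      rw [← h2, ← h3]
    · obtain ⟨h1, h2, -⟩ := e_true (L := L) h hz hz'
      rw [h1, h2]

/-- in a good chamber the two edges to the third vertex have different labels -/
theorem Six_ne {u : V} (hu : ¬ L.Z u) {k : K.D} (hk : k ∈ L.KC (L.comp u))
    (h1 : L.chg (rot k)) (h2 : ¬ L.Z (tg (rot (rot k))))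
    (h3 : L.chg (F (F k))) (h4 : ¬ L.Z (tg (rotI (F (F k))))) :
    L.e (F (F k)) ≠ L.e (rot k) := by
  classical
  intro he
  have hk' : L.Z (src k) ∧ L.Z (tg k) ∧ src (F k) ∈ L.comp u := by
    simpa [KC] using hk
  obtain ⟨hk1, hk2, hk3⟩ := hk'
  have hc : ¬ L.Z (tg (rot k)) := not_Z_of_mem hu hk3
  have e1 := (s_eq_e (L := L) (d := rot k) hk1 hc h2).1
  have h1' : L.s (rotI (rot k)) ≠ L.s (rot k) := h1
  rw [rotI_rot, e1] at h1'
  have h3' : L.s (rotI (F (F k))) ≠ L.s (F (F k)) := h3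
  have e2 := (s_eq_e (L := L) (d := rotI (F (F k))) (by rw [src_rotI, src_F2]; exact hk2) h4
    (by rw [rot_rotI, tg_F2]; exact hc)).2.1
  rw [rot_rotI] at e2
  rw [e2] at h3'
  apply not_both (L := L) hk1 hk2 hc (t := L.e (rot k)) (Or.inl rfl)
  constructor
  · revert h1'
    cases L.s k <;> cases L.e (rot k) <;> simp
  · rw [he] at h3'
    revert h3'
    cases L.s (F (F k)) <;> cases L.e (rot k) <;> simp

variable (L)

/-- the local structure at the third vertex of a good chamber -/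
theorem six_local {u : V} (hu : ¬ L.Z u) {k : K.D} (hk : k ∈ L.KC (L.comp u))
    (hm : K.m (src (F k)) ≤ 3)
    (h1 : L.chg (rot k)) (h2 : ¬ L.Z (tg (rot (rot k))))
    (h3 : L.chg (F (F k))) (h4 : ¬ L.Z (tg (rotI (F (F k))))) :
    K.m (src (F k)) = 3 ∧
      L.Z (tg (F k)) ∧ L.Z (tg (rot (F k))) ∧ ¬ L.Z (tg (rot^[2] (F k))) ∧
      L.Z (tg (rot^[3] (F k))) ∧ L.Z (tg (rot^[4] (F k))) ∧ ¬ L.Z (tg (rot^[5] (F k))) := by
  classical
  have hne := Six_ne hu hk h1 h2 h3 h4
  have hk' : L.Z (src k) ∧ L.Z (tg k) ∧ src (F k) ∈ L.comp u := by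
    simpa [KC] using hk
  obtain ⟨hk1, hk2, hk3⟩ := hk'
  have hc : ¬ L.Z (src (F k)) := not_Z_of_mem hu hk3
  obtain ⟨f, hf⟩ : ∃ f, f = F k := ⟨_, rfl⟩
  have hcf : ∀ i, ¬ L.Z (src (rot^[i] f)) := fun i => by rw [src_rot_iter, hf]; exact hc
  have t0 : L.Z (tg f) := by rw [hf, tg_F]; exact hk1
  have t1 : L.Z (tg (rot f)) := by rw [hf, Six_tg_rot_F]; exact hk2
  have t2 : ¬ L.Z (tg (rot^[2] f)) := by
    have e : rotI (F (F k)) = F (F (rot f)) := by
      have : F (F k) = rev (rot f) := by rw [hf]; rfl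
      rw [this, rotI_rev]
    rw [e, tg_F2] at h4
    exact h4
  have tI : ¬ L.Z (tg (rotI f)) := by rw [hf, Six_tg_rotI_F]; exact h2
  have g0 : L.e f = L.e (rot k) := by rw [hf, LabBasic_eF]
  have g1 : L.e (rot f) = L.e (F (F k)) := by
    rw [hf, ← LabBasic_eF]
  have hne' : L.e (rot f) ≠ L.e f := by rw [g0, g1]; exact hne
  rw [← hf] at hm ⊢
  have hmge := K.two_le_m (src f)
  have a1 : L.e (rot f) = L.e (rot^[2] f) := Six_around (hcf 1) (Or.inr t2)
  have a2 : L.e (rot^[2] f) = L.e (rot^[3] f) := by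
    have h := Six_around (hcf 2) (Or.inl t2)
    rw [h]
    rfl
  rcases Nat.lt_or_ge (K.m (src f)) 3 with hm3 | hm3
  · -- double point
    exfalso
    have hm2 : K.m (src f) = 2 := by omega
    have h4' : rot^[4] f = f := by
      have := rot_iter_2m f
      rw [hm2] at this
      exact this
    have h3' : rotI f = rot^[3] f := by
      have h := rotI_rot (rot^[3] f)
      have h8 : rot (rot^[3] f) = f := h4'
      rw [h8] at h
      exact h
    have a3 : L.e (rot^[3] f) = L.e f := by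
      have h := Six_around (x := rot^[3] f) (hcf 3) (Or.inl (by rw [← h3']; exact tI))
      rw [h]
      exact congrArg L.e h4'
    exact hne' (by rw [a1, a2, a3])
  · have hm3' : K.m (src f) = 3 := by omega
    have h6' : rot^[6] f = f := by
      have := rot_iter_2m f
      rw [hm3'] at this
      exact this
    have h5' : rotI f = rot^[5] f := by
      have h := rotI_rot (rot^[5] f)
      have h8 : rot (rot^[5] f) = f := h6'
      rw [h8] at h
      exact h
    have t5 : ¬ L.Z (tg (rot^[5] f)) := by rw [← h5']; exact tI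
    have a4 : L.e (rot^[4] f) = L.e (rot^[5] f) := by
      have h := Six_around (x := rot^[4] f) (hcf 4) (Or.inr t5)
      rw [h]
      rfl
    have a5 : L.e (rot^[5] f) = L.e f := by
      have h := Six_around (x := rot^[5] f) (hcf 5) (Or.inl t5)
      rw [h]
      exact congrArg L.e h6'
    have key : L.e (rot^[3] f) ≠ L.e (rot^[4] f) := by
      intro h
      exact hne' (by rw [a1, a2, h, a4, a5])
    have t3 : L.Z (tg (rot^[3] f)) := by
      by_contra hz
      exact key (Six_around (x := rot^[3] f) (hcf 3) (Or.inl hz))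
    have t4 : L.Z (tg (rot^[4] f)) := by
      by_contra hz
      exact key (Six_around (x := rot^[3] f) (hcf 3) (Or.inr hz))
    exact ⟨hm3', t0, t1, t2, t3, t4, t5⟩

variable {L}

theorem Six_rotI_eq {d : K.D} (hm : K.m (src d) = 3) : rotI d = rot^[5] d := by
  have h6' : rot^[6] d = d := by
    have := rot_iter_2m d
    rw [hm] at this
    exact this
  have h7 := rotI_rot (rot^[5] d)
  have h8 : rot (rot^[5] d) = d := h6'
  rw [h8] at h7
  exact h7

theorem Six_opp_eq {d : K.D} (hm : K.m (src d) = 3) : opp d = rot^[3] d := by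
  rw [← rot_iter_m d, hm]

theorem Six_core {u : V} (hu : ¬ L.Z u) (hA : (L.AZ (L.comp u)).card ≤ 6)
    (hact : ∀ d : K.D, src d ∈ L.comp u → L.Act d) {δ : K.D} (hc : src δ ∈ L.comp u)
    (hm : K.m (src δ) = 3) (h1 : L.Z (tg (rot δ))) (h2 : L.Z (tg (rot^[2] δ)))
    (h4 : L.Z (tg (rot^[4] δ))) (h5 : L.Z (tg (rot^[5] δ))) {r : K.D} (hr : src r ∈ L.comp u)
    (hmr : K.m (src r) = 3) (hx1 : src r ≠ src δ) (hx2 : src r ≠ K.ngV (src δ))
    (hsd : sd r = K.ngN (sd δ)) (hz : L.zf r = L.zf (opp δ)) (hz' : L.zf (opp r) = L.zf δ)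
    (hy : tg (rotI r) = tg (rot δ)) (hy5 : tg (rot r) = tg (rot^[5] δ)) {j : ℕ} (hj : 0 < j)
    (hj4 : j < 4) (hrev : rev (rotI r) = rot^[j] (F (F (rot δ)))) : False := by
  classical
  obtain ⟨y, hydef⟩ : ∃ y, y = rotI r := ⟨_, rfl⟩
  have hry : r = rot y := by rw [hydef, rot_rotI]
  have hsy : src y = src r := by rw [hydef, src_rotI]
  have hmy : K.m (src y) = 3 := by rw [hsy, hmr]
  have hoy : opp y = rot^[3] y := Six_opp_eq hmy
  rw [← hydef] at hy hrev
  have hzc : ¬ L.Z (src δ) := not_Z_of_mem hu hc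
  have hzr : ¬ L.Z (src r) := not_Z_of_mem hu hr
  have hyc : src y ∈ L.comp u := by rw [hsy]; exact hr
  have hzy : ¬ L.Z (src y) := not_Z_of_mem hu hyc
  -- all vertices in `AZ` are seen from `src δ`
  have hsurj : ∃ i < 6, L.zf (rot^[i] δ) = L.zf (opp y) := by
    set S := Finset.univ.filter fun d : K.D => src d = src δ with hS
    have hScard : S.card = 6 := by
      have := card_darts (K := K) (src δ)
      rw [hm] at this
      convert this
    have hinj : Set.InjOn L.zf (S : Set K.D) := by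
      intro d hd d' hd' hdd
      have hd1 := (Finset.mem_filter.mp (Finset.mem_coe.mp hd)).2
      have hd1' := (Finset.mem_filter.mp (Finset.mem_coe.mp hd')).2
      exact L.zf_inj (by rw [hd1, hd1']) (by rw [hd1]; exact hzc) (hact d (by rw [hd1]; exact hc))
        (hact d' (by rw [hd1']; exact hc)) hdd
    have hsub : S.image L.zf ⊆ L.AZ (L.comp u) := by
      intro z hz
      obtain ⟨d, hd, rfl⟩ := Finset.mem_image.mp hz
      have hd1 := (Finset.mem_filter.mp hd).2
      exact L.zf_mem hu (by rw [hd1]; exact hc) (hact d (by rw [hd1]; exact hc))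
    have hcard : (S.image L.zf).card = 6 := by
      rw [Finset.card_image_of_injOn hinj, hScard]
    have heq := Finset.eq_of_subset_of_card_le hsub (by rw [hcard]; exact hA)
    have hmem : L.zf (opp y) ∈ L.AZ (L.comp u) :=
      L.zf_mem hu (by rw [src_opp]; exact hyc) (hact _ (by rw [src_opp]; exact hyc))
    rw [← heq] at hmem
    obtain ⟨d, hd, hd2⟩ := Finset.mem_image.mp hmem
    have hd1 := (Finset.mem_filter.mp hd).2
    obtain ⟨k, hk, hk2⟩ := rot_trans (d := δ) (d' := d) hd1.symm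
    exact ⟨k, by omega, by rw [hk2, hd2]⟩
  obtain ⟨i, hi, hi2⟩ := hsurj
  have hacty : L.Act y := hact y hyc
  have hactoy : L.Act (opp y) := hact _ (by rw [src_opp]; exact hyc)
  have hactr : L.Act r := hact r hr
  have hactor : L.Act (opp r) := hact _ (by rw [src_opp]; exact hr)
  have hactrr : L.Act (rot r) := hact _ (by rw [src_rot]; exact hr)
  have hyinc : K.Inc (L.zf (opp y)) (sd y) := (K.inc_ngN _ _).mp (L.zf_inc (opp y))
  have hzf1 : L.zf y = tg y := L.zf_tg hzy (by rw [hy]; exact h1)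
  interval_cases i
  · -- `zf δ`
    have h7 : L.zf (opp r) = L.zf (opp y) := by rw [hz']; exact hi2
    have h8 := L.zf_inj (d := opp r) (d' := opp y) (by rw [src_opp, src_opp, hsy])
      (by rw [src_opp]; exact hzr) hactor hactoy h7
    have h9 : r = y := by rw [← opp_opp r, h8, opp_opp]
    rw [hry] at h9
    exact Six_rot_ne y (i := 0) (j := 1) one_pos (by omega) h9.symm
  · have h7 : L.zf y = L.zf (opp y) := by
      rw [← hi2, hzf1, hy]
      exact (L.zf_tg (d := rot δ) hzc h1).symm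
    have h8 := L.zf_inj (d := y) (d' := opp y) rfl hzy hacty hactoy h7
    rw [hoy] at h8
    exact Six_rot_ne y (i := 0) (j := 3) (by norm_num) (by omega) h8
  · -- `t_2`
    have h7 : L.zf (opp y) = tg (rot^[2] δ) := by
      rw [← hi2]
      exact L.zf_tg (by rw [src_rot_iter]; exact hzc) h2
    rw [h7] at hyinc
    obtain ⟨w, hw⟩ : ∃ w, w = F (F (rot δ)) := ⟨_, rfl⟩
    have hsw : src w = tg (rot δ) := by rw [hw, src_F2]
    have htw : tg w = tg (rot^[2] δ) := by rw [hw, tg_F2]; rfl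
    have hsry : src w = src (rev y) := by rw [hsw, src_rev, hy]
    have hinc1 : K.Inc (src w) (sd (rev y)) := by rw [hsry]; exact inc_src _
    have hinc2 : K.Inc (tg w) (sd (rev y)) := by
      rw [htw, sd_rev, K.inc_ngN]; exact hyinc
    have h8 := line_eq (inc_src w) hinc1 (inc_tg w) hinc2 (tg_ne_src w) (tg_ne_ng w)
    have h9 := eq_or_opp_of_line hsry h8
    have hmw : 4 ≤ K.m (src w) := by rw [hsw]; exact four_le_m h1
    rw [← hw] at hrev
    rcases h9 with h9 | h9
    · rw [h9] at hrev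
      exact Six_rot_ne w (i := 0) (j := j) hj (by omega) hrev
    · rw [h9, ← rot_iter_m w] at hrev
      exact Six_rot_ne w (i := j) (j := K.m (src w)) (by omega) (by omega) hrev.symm
  · have h7 : L.zf r = L.zf (opp y) := by
      rw [hz, ← hi2, Six_opp_eq hm]
    have h8 := L.zf_inj (d := r) (d' := opp y) (by rw [src_opp, hsy]) hzr hactr hactoy h7
    rw [hry, hoy] at h8
    exact Six_rot_ne y (i := 1) (j := 3) (by norm_num) (by omega) h8
  · -- `t_4`
    have h7 : L.zf (opp y) = tg (rot^[4] δ) := by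
      rw [← hi2]
      exact L.zf_tg (by rw [src_rot_iter]; exact hzc) h4
    rw [h7] at hyinc
    obtain ⟨x, hx⟩ : ∃ x, x = rot δ := ⟨_, rfl⟩
    have hmx : K.m (src x) = 3 := by rw [hx, src_rot]; exact hm
    have hox : rot^[4] δ = opp x := by
      rw [Six_opp_eq hmx, hx]
      rfl
    rw [hox] at hyinc
    have hst : st (rev (opp x)) = x := by
      rw [st_eq, rev_rev, opp_opp]
    have hne1 : tg (opp x) ≠ tg x := by
      intro h
      have h8 := simple (d := opp x) (d' := x) rfl h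
      rw [Six_opp_eq hmx] at h8
      exact Six_rot_ne x (i := 0) (j := 3) (by norm_num) (by omega) h8.symm
    have hne2 : tg (opp x) ≠ K.ngV (tg x) := by
      intro h
      have h8 := tg_st_ne_ng (rev (opp x))
      rw [hst, src_rev, h, K.ngV_ngV] at h8
      exact h8 rfl
    have hi1 : K.Inc (tg x) (sd y) := by
      have : tg x = tg y := by rw [hx, hy]
      rw [this]
      exact inc_tg y
    have hi4 : K.Inc (tg (opp x)) (sd x) := by
      have h := inc_tg (opp x)
      rw [sd_opp, K.inc_ngN] at h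
      exact h
    have h8 := line_eq (inc_tg x) hi1 hi4 hyinc hne1 hne2
    have hcx : src x = src δ := by rw [hx, src_rot]
    have hincc : K.Inc (src δ) (sd y) := by
      have h9 : K.Inc (src δ) (sd x) := by rw [← hcx]; exact inc_src x
      rcases h8 with h8 | h8
      · rw [h8]; exact h9
      · rw [h8, K.inc_ngN]; exact h9
    have hincr : K.Inc (src δ) (sd r) := by
      rw [hsd, K.inc_ngN]; exact inc_src δ
    have hincy : K.Inc (src r) (sd y) := by rw [← hsy]; exact inc_src y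
    have h9 := line_eq hincr hincc (inc_src r) hincy hx1 hx2
    have h10 := eq_or_opp_of_line (d := r) (d' := y) hsy.symm h9
    rcases h10 with h10 | h10
    · rw [hry] at h10
      exact Six_rot_ne y (i := 0) (j := 1) one_pos (by omega) h10
    · rw [Six_opp_eq hmr, hry] at h10
      have h11 : rot^[3] (rot y) = rot^[4] y := rfl
      rw [h11] at h10
      exact Six_rot_ne y (i := 0) (j := 4) (by norm_num) (by omega) h10
  · have h7 : L.zf (rot r) = L.zf (opp y) := by
      rw [← hi2]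
      rw [L.zf_tg (d := rot r) (by rw [src_rot]; exact hzr) (by rw [hy5]; exact h5), hy5]
      exact (L.zf_tg (by rw [src_rot_iter]; exact hzc) h5).symm
    have h8 := L.zf_inj (d := rot r) (d' := opp y) (by rw [src_opp, src_rot, hsy])
      (by rw [src_rot]; exact hzr) hactrr hactoy h7
    rw [hry, hoy] at h8
    exact Six_rot_ne y (i := 2) (j := 3) (by norm_num) (by omega) h8

theorem Six_double {δ : K.D} (hm : K.m (tg δ) = 2) :
    rot (st δ) = rotI (rev δ) ∧ rotI (st δ) = rot (rev δ) := by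
  have h2 : rot (rot (rev δ)) = st δ := by
    have h := rot_iter_m (rev δ)
    rw [src_rev, hm] at h
    rw [st_eq, ← h]
    rfl
  have h4 : rot (rot (rot (rot (rev δ)))) = rev δ := by
    have h := rot_iter_2m (rev δ)
    rw [src_rev, hm] at h
    exact h
  constructor
  · have h5 : rot (rot (st δ)) = rev δ := by rw [← h2, h4]
    have h6 := rotI_rot (rot (st δ))
    rw [h5] at h6
    exact h6.symm
  · rw [← h2, rotI_rot]

variable (L)

theorem Six_act {u : V} (hZ : ∃ v, L.Z v) (hu : ¬ L.Z u) (hA : (L.AZ (L.comp u)).card ≤ 6)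
    (d : K.D) (hd : src d ∈ L.comp u) : L.Act d := by
  by_contra h
  have := L.eight_le_of_inactive hZ hu hd h
  omega

theorem Six_m_le {u : V} (hZ : ∃ v, L.Z v) (hu : ¬ L.Z u) (hA : (L.AZ (L.comp u)).card ≤ 6)
    {x : V} (hx : x ∈ L.comp u) : K.m x ≤ 3 := by
  have := L.two_m_le hu hx (fun d hd => L.Six_act hZ hu hA d (by rw [hd]; exact hx))
  omega

/-- Let `δ` be a dart from `c` to `a`, both outside of `Z`, with `m c = 3`; if the other neighbours
of `c` except the opposite one are in `Z` and few vertices are adjacent to the component, then `a`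
is a double point and the next vertex after `a` is in `Z`. -/
theorem six_next (hZ : ∃ v, L.Z v) {u : V} (hu : ¬ L.Z u) (hA : (L.AZ (L.comp u)).card ≤ 6)
    {δ : K.D} (hc : src δ ∈ L.comp u) (hm : K.m (src δ) = 3) (h0 : ¬ L.Z (tg δ))
    (h1 : L.Z (tg (rot δ))) (h2 : L.Z (tg (rot^[2] δ))) (_h3 : ¬ L.Z (tg (rot^[3] δ)))
    (h4 : L.Z (tg (rot^[4] δ))) (h5 : L.Z (tg (rot^[5] δ))) :
    K.m (tg δ) = 2 ∧ L.Z (tg (st δ)) := by
  have hact := L.Six_act hZ hu hA
  have hzc : ¬ L.Z (src δ) := not_Z_of_mem hu hc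
  have ha : tg δ ∈ L.comp u := mem_comp_of_adj hu hc h0
  have hma := L.Six_m_le hZ hu hA ha
  have hma2 := K.two_le_m (tg δ)
  have hzδ : L.zf (st δ) = L.zf δ := L.zf_st hzc (hact δ hc)
  have hzrev : L.zf (rev δ) = L.zf (opp δ) := by
    have h := L.zf_st (d := rev δ) (by rw [src_rev]; exact h0)
      (hact _ (by rw [src_rev]; exact ha))
    rw [st_eq, rev_rev] at h
    exact h.symm
  have hrotI : rotI δ = rot^[5] δ := Six_rotI_eq hm
  have hrev2 : rev (rotI (rev δ)) = rot^[2] (F (F (rot δ))) := by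
    rw [rotI_rev, Six_rev_F2]
    show _ = rot (rot (F (F (rot δ))))
    rw [rot_F2]
    rfl
  have hma3 : K.m (tg δ) ≠ 3 := by
    intro hma3
    refine Six_core hu hA hact hc hm h1 h2 h4 h5 (r := rev δ) (j := 2) ?_ ?_ ?_ ?_ ?_ hzrev ?_ ?_
      ?_ (by norm_num) (by norm_num) hrev2
    · rw [src_rev]; exact ha
    · rw [src_rev]; exact hma3
    · rw [src_rev]; exact tg_ne_src δ
    · rw [src_rev]; exact tg_ne_ng δ
    · rfl
    · rw [← st_eq]; exact hzδ
    · exact Six_tg_rotI_rev δ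
    · rw [Six_tg_rot_rev, hrotI]
  have hm2 : K.m (tg δ) = 2 := by omega
  refine ⟨hm2, ?_⟩
  by_contra hz
  obtain ⟨hd1, hd2⟩ := Six_double hm2
  have hc' : tg (st δ) ∈ L.comp u := mem_comp_of_adj hu (d := st δ) ha hz
  have hmc := L.Six_m_le hZ hu hA hc'
  have hmc2 := K.two_le_m (tg (st δ))
  have hdbl : K.m (tg (st δ)) ≠ 2 := K.dbl (src (st δ)) (sd (st δ)) (st δ).2 hm2
  have hmc3 : K.m (tg (st δ)) = 3 := by omega
  refine Six_core hu hA hact hc hm h1 h2 h4 h5 (r := rev (st δ)) (j := 3) ?_ ?_ ?_ ?_ ?_ ?_ ?_ ?_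
      ?_ (by norm_num) (by norm_num) ?_
  · rw [src_rev]; exact hc'
  · rw [src_rev]; exact hmc3
  · rw [src_rev]; exact tg_st_ne_src δ
  · rw [src_rev]; exact tg_st_ne_ng δ
  · rfl
  · have h := L.zf_st (d := rev (st δ)) (by rw [src_rev]; exact hz)
      (hact _ (by rw [src_rev]; exact hc'))
    rw [st_eq, rev_rev] at h
    have h' : opp (st δ) = rev δ := rfl
    rw [h'] at h
    rw [← h, hzrev]
  · rw [← st_eq]
    have h := L.zf_st (d := st δ) h0 (hact _ ha)
    rw [h, hzδ]
  · rw [Six_tg_rotI_rev, hd1, Six_tg_rotI_rev]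
  · rw [Six_tg_rot_rev, hd2, Six_tg_rot_rev, hrotI]
  · rw [rotI_rev, Six_rev_F2]
    have h' : F (st δ) = rev (rot (st δ)) := rfl
    rw [h', hd1, hrev2]
    rfl

theorem six (hZ : ∃ v, L.Z v) {u : V} (hu : ¬ L.Z u) (h6 : (L.KC (L.comp u)).card = 6) :
    (L.XC (L.comp u)).card ≤ 10 := by
  classical
  by_contra hcon
  push Not at hcon
  obtain ⟨k, hk, hk1, hk2, hk3, hk4⟩ := L.exists_clean hu h6 (by omega)
  have hA : (L.AZ (L.comp u)).card ≤ 6 := by
    have := L.card_AZ_le hu
    omega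
  have hk' : L.Z (src k) ∧ L.Z (tg k) ∧ src (F k) ∈ L.comp u := by
    simpa [KC] using hk
  have hfc := hk'.2.2
  obtain ⟨hm, t0, t1, t2, t3, t4, t5⟩ :=
    L.six_local hu hk (L.Six_m_le hZ hu hA hfc) hk1 hk2 hk3 hk4
  obtain ⟨f, hf⟩ : ∃ f, f = F k := ⟨_, rfl⟩
  rw [← hf] at hm t0 t1 t2 t3 t4 t5 hfc
  have h6' : rot^[6] f = f := by
    have := rot_iter_2m f
    rw [hm] at this
    exact this
  have h7' : rot^[7] f = rot f := by
    have : rot^[7] f = rot (rot^[6] f) := Function.iterate_succ_apply' rot 6 f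
    rw [this, h6']
  -- the two darts
  have e : ∀ i j, rot^[i] (rot^[j] f) = rot^[i + j] f := fun i j =>
    (Function.iterate_add_apply rot i j f).symm
  have n2 := L.six_next hZ hu hA (δ := rot^[2] f) (by rw [src_rot_iter]; exact hfc)
    (by rw [src_rot_iter]; exact hm) t2
    (by have := e 1 2; rw [Function.iterate_one] at this; rw [this]; exact t3)
    (by rw [e]; exact t4) (by rw [e]; exact t5)
    (by rw [e, h6']; exact t0) (by rw [e, h7']; exact t1)
  have h8' : ∀ i, rot^[i + 6] f = rot^[i] f := fun i => by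
    rw [Function.iterate_add_apply, h6']
  have n5 := L.six_next hZ hu hA (δ := rot^[5] f) (by rw [src_rot_iter]; exact hfc)
    (by rw [src_rot_iter]; exact hm) t5
    (by have := e 1 5; rw [Function.iterate_one] at this; rw [this, h6']; exact t0)
    (by rw [e, h7']; exact t1) (by rw [e, h8' 2]; exact t2)
    (by rw [e, h8' 3]; exact t3) (by rw [e, h8' 4]; exact t4)
  have key : ∀ δ : K.D, src δ ∈ L.comp u → K.m (src δ) = 3 → ¬ L.Z (tg δ) → K.m (tg δ) = 2 →
      L.Z (tg (st δ)) → L.Z (tg (rot δ)) → L.Z (tg (rot^[5] δ)) →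
      L.Z (src (rev (st δ))) ∧ tg (rev (st δ)) ∈ L.comp u ∧ L.Z (tg (rot (rev (st δ)))) ∧
      L.Z (tg (rotI (rev (st δ)))) := by
    intro δ hδ hδm hδz hδ2 hδst hδ1 hδ5
    obtain ⟨hd1, hd2⟩ := Six_double hδ2
    refine ⟨?_, ?_, ?_, ?_⟩
    · rw [src_rev]; exact hδst
    · rw [tg_rev]; exact mem_comp_of_adj hu hδ hδz
    · rw [Six_tg_rot_rev, hd2, Six_tg_rot_rev, Six_rotI_eq hδm]; exact hδ5
    · rw [Six_tg_rotI_rev, hd1, Six_tg_rotI_rev]; exact hδ1
  obtain ⟨p1, p2, p3, p4⟩ := key (rot^[2] f) (by rw [src_rot_iter]; exact hfc)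
    (by rw [src_rot_iter]; exact hm) t2 n2.1 n2.2
    (by have := e 1 2; rw [Function.iterate_one] at this; rw [this]; exact t3)
    (by rw [e, h7']; exact t1)
  obtain ⟨q1, q2, q3, q4⟩ := key (rot^[5] f) (by rw [src_rot_iter]; exact hfc)
    (by rw [src_rot_iter]; exact hm) t5 n5.1 n5.2
    (by have := e 1 5; rw [Function.iterate_one] at this; rw [this, h6']; exact t0)
    (by rw [e, h8' 4]; exact t4)
  have hne : rev (st (rot^[2] f)) ≠ rev (st (rot^[5] f)) := by
    intro h
    have h1 : tg (rev (st (rot^[2] f))) = tg (rev (st (rot^[5] f))) := by rw [h]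
    rw [tg_rev, tg_rev] at h1
    have h2 : rot^[2] f = rot^[5] f := simple (by rw [src_rot_iter, src_rot_iter]) h1
    exact Six_rot_ne f (i := 2) (j := 5) (by norm_num) (by omega) h2
  have := L.card_XC_le_ten hu h6 hne p1 p2 p3 p4 q1 q2 q3 q4
  omega

end Lab

end Pool.Agent.VeeC
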