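import Pool.Agent.VeeC.LabBasic

set_option autoImplicit false

namespace Pool.Agent.VeeC

open Arr

variable {V N : Type*} [Fintype V] [Fintype N] {K : Arr V N} (L : Lab K)

namespace Lab

theorem Walk_rotI_iter (d : K.D) (k : ℕ) : rotI^[k] (rot^[k] d) = d := by
  induction k with
  | zero => rfl
  | succ k ih =>
    rw [Function.iterate_succ_apply, Function.iterate_succ_apply', rotI_rot, ih]

theorem Walk_src_rotI_iter (d : K.D) (k : ℕ) : src (rotI^[k] d) = src d := by
  induction k with
  | zero => rfl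
  | succ k ih => rw [Function.iterate_succ_apply', src_rotI, ih]

/-- every vertex in `Z` adjacent to a component is the source of an edge in `KC` -/
theorem card_AZ_le {u : V} (hu : ¬ L.Z u) :
    (L.AZ (L.comp u)).card ≤ (L.KC (L.comp u)).card := by
  classical
  have hsub : L.AZ (L.comp u) ⊆ (L.KC (L.comp u)).image src := by
    intro z hz
    simp only [AZ, Finset.mem_filter, Finset.mem_univ, true_and] at hz
    obtain ⟨hzZ, d, hdz, hdC⟩ := hz
    subst hdz
    obtain ⟨d0, hd0⟩ : (Finset.univ.filter fun e : K.D => src e = src d ∧ L.Z (tg e)).Nonempty :=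
      Finset.card_pos.mp (by have := three_le_nbrs (L := L) hzZ; omega)
    simp only [Finset.mem_filter, Finset.mem_univ, true_and] at hd0
    have hex : ∃ j, L.Z (tg (rotI^[j] d)) := by
      obtain ⟨k, -, hk⟩ := rot_trans (d := d0) (d' := d) hd0.1
      refine ⟨k, ?_⟩
      rw [← hk, Walk_rotI_iter]
      exact hd0.2
    have h0 : Nat.find hex ≠ 0 := by
      intro h
      have h1 := Nat.find_spec hex
      rw [h] at h1
      exact not_Z_of_mem hu hdC h1
    have hall : ∀ i, i < Nat.find hex → tg (rotI^[i] d) ∈ L.comp u := by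
      intro i
      induction i with
      | zero => intro _; exact hdC
      | succ i ih =>
        intro hi
        have h1 := Nat.find_min hex hi
        rw [Function.iterate_succ_apply'] at h1 ⊢
        exact third_mem' hu (ih (by omega)) h1
    obtain ⟨j, hj⟩ := Nat.exists_eq_succ_of_ne_zero h0
    rw [Finset.mem_image]
    refine ⟨rotI^[Nat.find hex] d, ?_, Walk_src_rotI_iter _ _⟩
    simp only [KC, Finset.mem_filter, Finset.mem_univ, true_and]
    refine ⟨by rw [Walk_src_rotI_iter]; exact hzZ, Nat.find_spec hex, ?_⟩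
    rw [src_F, hj, Nat.succ_eq_add_one, Function.iterate_succ_apply', rot_rotI]
    exact hall j (by omega)
  exact (Finset.card_le_card hsub).trans Finset.card_image_le

open Classical in
/-- the first vertex in `Z` on the great circle of `d`, starting with the source of `d`, if there
is one -/
noncomputable def zf (d : K.D) : V :=
  if h : ∃ k, L.Z (src (st^[k] d)) then src (st^[Nat.find h] d) else src d

/-- the great circle of `d` contains a vertex in `Z` -/
def Act (d : K.D) : Prop := ∃ v, L.Z v ∧ K.Inc v (sd d)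

variable {L} in
theorem Walk_ex {d : K.D} (h : L.Act d) : ∃ k, L.Z (src (st^[k] d)) := by
  obtain ⟨v, hv, hi⟩ := h
  obtain ⟨k, -, hk⟩ := st_trans (d := d) (d' := ⟨(v, sd d), hi⟩) rfl
  refine ⟨k, ?_⟩
  rw [hk]
  exact hv

open Classical in
variable {L} in
theorem Walk_zf {d : K.D} (h : ∃ k, L.Z (src (st^[k] d))) :
    L.zf d = src (st^[Nat.find h] d) := by
  unfold zf
  rw [dif_pos h]

/-- characterization of `zf` -/
theorem Walk_zf_spec {d : K.D} (h : L.Act d) : ∃ k, L.zf d = src (st^[k] d) ∧
    L.Z (src (st^[k] d)) ∧ ∀ i < k, ¬ L.Z (src (st^[i] d)) := by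
  classical
  have hex := Walk_ex h
  exact ⟨Nat.find hex, Walk_zf hex, Nat.find_spec hex, fun i hi => Nat.find_min hex hi⟩

theorem Walk_zf_eq {d : K.D} {k : ℕ} (h1 : L.Z (src (st^[k] d)))
    (h2 : ∀ i < k, ¬ L.Z (src (st^[i] d))) : L.zf d = src (st^[k] d) := by
  classical
  have hex : ∃ k, L.Z (src (st^[k] d)) := ⟨k, h1⟩
  rw [Walk_zf hex]
  have : Nat.find hex = k := by
    rw [Nat.find_eq_iff]
    exact ⟨h1, fun n hn => h2 n hn⟩
  rw [this]

theorem zf_Z {d : K.D} (h : L.Act d) : L.Z (L.zf d) := by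
  obtain ⟨k, h1, h2, -⟩ := L.Walk_zf_spec h
  rw [h1]
  exact h2

theorem zf_inc (d : K.D) : K.Inc (L.zf d) (sd d) := by
  classical
  unfold zf
  split_ifs with h
  · have h1 := inc_src (st^[Nat.find h] d)
    rw [sd_st_iter] at h1
    exact h1
  · exact inc_src d

theorem zf_st {d : K.D} (h : ¬ L.Z (src d)) (ha : L.Act d) : L.zf (st d) = L.zf d := by
  obtain ⟨k, h1, h2, h3⟩ := L.Walk_zf_spec ha
  have hk : k ≠ 0 := by
    rintro rfl
    exact h h2
  obtain ⟨j, rfl⟩ := Nat.exists_eq_succ_of_ne_zero hk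
  rw [h1]
  apply L.Walk_zf_eq
  · exact h2
  · intro i hi
    exact h3 (i + 1) (by omega)

theorem zf_tg {d : K.D} (h : ¬ L.Z (src d)) (h' : L.Z (tg d)) : L.zf d = tg d := by
  apply L.Walk_zf_eq (k := 1)
  · exact h'
  · intro i hi
    have : i = 0 := by omega
    subst this
    exact h

theorem zf_mem {u : V} (hu : ¬ L.Z u) {d : K.D} (hd : src d ∈ L.comp u) (ha : L.Act d) :
    L.zf d ∈ L.AZ (L.comp u) := by
  classical
  obtain ⟨k, h1, h2, h3⟩ := L.Walk_zf_spec ha
  have hk : k ≠ 0 := by
    rintro rfl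
    exact not_Z_of_mem hu hd h2
  have hall : ∀ i, i < k → src (st^[i] d) ∈ L.comp u := by
    intro i
    induction i with
    | zero => intro _; exact hd
    | succ i ih =>
      intro hi
      have h4 := h3 (i + 1) hi
      rw [Function.iterate_succ_apply'] at h4 ⊢
      exact mem_comp_of_adj hu (ih (by omega)) h4
  obtain ⟨j, rfl⟩ := Nat.exists_eq_succ_of_ne_zero hk
  simp only [AZ, Finset.mem_filter, Finset.mem_univ, true_and]
  refine ⟨by rw [h1]; exact h2, rev (st^[j] d), ?_, ?_⟩
  · rw [h1, src_rev, Nat.succ_eq_add_one, Function.iterate_succ_apply', src_st]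
  · rw [tg_rev]
    exact hall j (by omega)

theorem zf_ne {d : K.D} (h : ¬ L.Z (src d)) (ha : L.Act d) :
    L.zf d ≠ src d ∧ L.zf d ≠ K.ngV (src d) := by
  have h1 := L.zf_Z ha
  refine ⟨fun h2 => h (h2 ▸ h1), fun h2 => ?_⟩
  rw [h2, L.Z_ng] at h1
  exact h h1

theorem Walk_st_opp (d : K.D) : st (opp (st d)) = opp d := by
  have h := rev_rev d
  have h1 : opp (st (opp (st d))) = d := h
  have h2 := congrArg opp h1
  rw [opp_opp] at h2
  exact h2

theorem Walk_st_opp_iter (d : K.D) (j : ℕ) : st^[j] (opp (st^[j] d)) = opp d := by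
  induction j with
  | zero => rfl
  | succ j ih =>
    rw [Function.iterate_succ_apply, Function.iterate_succ_apply', Walk_st_opp, ih]

/-- the number of steps to the first vertex in `Z` is less than a half circle -/
theorem Walk_lt {d : K.D} {k : ℕ} (h2 : L.Z (src (st^[k] d)))
    (h3 : ∀ i < k, ¬ L.Z (src (st^[i] d))) : k < K.p (sd d) := by
  by_contra hcon
  push Not at hcon
  have hp := K.three_le_p (sd d)
  have h4 : k = (K.p (sd d)) + (k - K.p (sd d)) := by omega
  rw [h4, Function.iterate_add_apply] at h2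
  have h5 := st_iter_p (st^[k - K.p (sd d)] d)
  rw [sd_st_iter] at h5
  rw [h5, Z_ant] at h2
  exact h3 _ (by omega) h2

/-- different darts with the same source lead to different vertices -/
theorem zf_inj {d d' : K.D} (h : src d = src d') (hs : ¬ L.Z (src d)) (ha : L.Act d)
    (ha' : L.Act d') (he : L.zf d = L.zf d') : d = d' := by
  have h1 := L.zf_ne hs ha
  have h2 := line_eq (K := K) (inc_src d) (h ▸ inc_src d') (L.zf_inc d) (he ▸ L.zf_inc d')
    h1.1 h1.2
  rcases eq_or_opp_of_line h h2 with h3 | h3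
  · exact h3.symm
  · exfalso
    subst h3
    obtain ⟨k, e1, e2, e3⟩ := L.Walk_zf_spec ha
    obtain ⟨k', e1', e2', e3'⟩ := L.Walk_zf_spec ha'
    have hk := L.Walk_lt e2 e3
    have hk' := L.Walk_lt e2' e3'
    rw [sd_opp, p_ngN] at hk'
    have hk0 : k ≠ 0 := by
      rintro rfl
      exact hs e2
    have hk0' : k' ≠ 0 := by
      rintro rfl
      exact hs e2'
    have e4 : st^[k'] (opp d) = opp (st^[2 * K.p (sd d) - k'] d) := by
      have h5 := Walk_st_opp_iter (st^[2 * K.p (sd d) - k'] d) k'
      rw [← Function.iterate_add_apply, show k' + (2 * K.p (sd d) - k') = 2 * K.p (sd d) by omega,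
        st_iter_2p] at h5
      exact h5
    rw [e1, e1', e4, src_opp] at he
    have h6 : 2 * K.p (sd d) - k' = (2 * K.p (sd d) - k' - k) + k := by omega
    rw [h6, Function.iterate_add_apply] at he
    exact src_st_iter_ne (st^[k] d) (k := 2 * K.p (sd d) - k' - k) (by omega)
      (by rw [sd_st_iter]; omega) he.symm

/-- all great circles through a vertex active -/
theorem two_m_le {u v : V} (hu : ¬ L.Z u) (hv : v ∈ L.comp u)
    (h : ∀ d : K.D, src d = v → L.Act d) : 2 * K.m v ≤ (L.AZ (L.comp u)).card := by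
  classical
  rw [← card_darts]
  apply Finset.card_le_card_of_injOn L.zf
  · intro d hd
    simp only [Finset.coe_filter, Finset.mem_univ, true_and, Set.mem_setOf_eq] at hd
    exact L.zf_mem hu (by rw [hd]; exact hv) (h d hd)
  · intro d hd d' hd' hdd
    simp only [Finset.coe_filter, Finset.mem_univ, true_and, Set.mem_setOf_eq] at hd hd'
    exact L.zf_inj (by rw [hd, hd']) (by rw [hd]; exact not_Z_of_mem hu hv) (h d hd) (h d' hd') hdd

end Lab

end Pool.Agent.VeeC
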