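import Pool.Agent.VeeC.GeoDefs

set_option autoImplicit false

namespace Pool.Agent.VeeC

open Matrix ComplexConjugate

theorem Zeta_dot (x y : R3) : x ⬝ᵥ y = x 0 * y 0 + x 1 * y 1 + x 2 * y 2 := by
  simp [dotProduct, Fin.sum_univ_three]

theorem Zeta_det (x y z : R3) : det3 x y z = x 0 * (y 1 * z 2 - y 2 * z 1) +
    x 1 * (y 2 * z 0 - y 0 * z 2) + x 2 * (y 0 * z 1 - y 1 * z 0) := by
  simp [det3, crossProduct, dotProduct, Fin.sum_univ_three]

/-- The algebra of `det3`. -/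
theorem det3_swap (x y z : R3) : det3 x z y = - det3 x y z := by
  simp only [Zeta_det]; ring
theorem det3_cyc (x y z : R3) : det3 y z x = det3 x y z := by
  simp only [Zeta_det]; ring
theorem det3_self (x y : R3) : det3 x y y = 0 := by
  simp only [Zeta_det]; ring
theorem det3_smul1 (c : ℝ) (x y z : R3) : det3 (c • x) y z = c * det3 x y z := by
  simp only [Zeta_det, Pi.smul_apply, smul_eq_mul]; ring
theorem det3_smul2 (c : ℝ) (x y z : R3) : det3 x (c • y) z = c * det3 x y z := by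
  simp only [Zeta_det, Pi.smul_apply, smul_eq_mul]; ring
theorem det3_smul3 (c : ℝ) (x y z : R3) : det3 x y (c • z) = c * det3 x y z := by
  simp only [Zeta_det, Pi.smul_apply, smul_eq_mul]; ring
theorem det3_add1 (x x' y z : R3) : det3 (x + x') y z = det3 x y z + det3 x' y z := by
  simp only [Zeta_det, Pi.add_apply]; ring
theorem det3_add2 (x y y' z : R3) : det3 x (y + y') z = det3 x y z + det3 x y' z := by
  simp only [Zeta_det, Pi.add_apply]; ring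
theorem det3_add3 (x y z z' : R3) : det3 x y (z + z') = det3 x y z + det3 x y z' := by
  simp only [Zeta_det, Pi.add_apply]; ring

theorem cross_dot_cross' (x y z w : R3) : crossProduct x y ⬝ᵥ crossProduct z w =
    (x ⬝ᵥ z) * (y ⬝ᵥ w) - (x ⬝ᵥ w) * (y ⬝ᵥ z) := by
  simp [crossProduct, dotProduct, Fin.sum_univ_three]; ring

theorem Zeta_pos {x : R3} (hx : x ≠ 0) : 0 < x ⬝ᵥ x := by
  rw [Zeta_dot]
  by_contra h
  apply hx
  have h0 := mul_self_nonneg (x 0)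
  have h1 := mul_self_nonneg (x 1)
  have h2 := mul_self_nonneg (x 2)
  have e0 : x 0 * x 0 = 0 := by linarith
  have e1 : x 1 * x 1 = 0 := by linarith
  have e2 : x 2 * x 2 = 0 := by linarith
  funext i
  fin_cases i
  · exact mul_self_eq_zero.mp e0
  · exact mul_self_eq_zero.mp e1
  · exact mul_self_eq_zero.mp e2

/-- a nonzero vector orthogonal to a given vector -/
theorem Zeta_exists_orth (x : R3) : ∃ y : R3, y ≠ 0 ∧ y ⬝ᵥ x = 0 := by
  by_cases h : x 0 = 0 ∧ x 1 = 0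
  · refine ⟨![1, 0, 0], fun h' => ?_, ?_⟩
    · have := congrFun h' 0
      simp at this
    · rw [Zeta_dot]; simp [h.1]
  · refine ⟨![- x 1, x 0, 0], fun h' => h ⟨?_, ?_⟩, ?_⟩
    · have := congrFun h' 1
      simpa using this
    · have := congrFun h' 0
      simpa using this
    · rw [Zeta_dot]; simp; ring

/-- The plane orthogonal to `x`, oriented by `x`, as the complex plane. -/
theorem exists_zeta {x : R3} (hx : x ≠ 0) : ∃ ζ : R3 →ₗ[ℝ] ℂ, ∀ u w : R3,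
    u ⬝ᵥ x = 0 → w ⬝ᵥ x = 0 → (conj (ζ u) * ζ w).re = u ⬝ᵥ w ∧
      Real.sqrt (x ⬝ᵥ x) * (conj (ζ u) * ζ w).im = det3 x u w := by
  obtain ⟨y, hy, hyx⟩ := Zeta_exists_orth x
  have hX := Zeta_pos hx
  have hY := Zeta_pos hy
  set X : ℝ := Real.sqrt (x ⬝ᵥ x) with hXd
  set Y : ℝ := Real.sqrt (y ⬝ᵥ y) with hYd
  have hXp : 0 < X := Real.sqrt_pos.mpr hX
  have hYp : 0 < Y := Real.sqrt_pos.mpr hY
  have hX2 : X * X = x ⬝ᵥ x := Real.mul_self_sqrt hX.le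
  have hY2 : Y * Y = y ⬝ᵥ y := Real.mul_self_sqrt hY.le
  let ζ : R3 →ₗ[ℝ] ℂ :=
    { toFun := fun u => ⟨(u ⬝ᵥ y) / Y, (det3 x y u) / (X * Y)⟩
      map_add' := fun u w => by
        apply Complex.ext
        · simp [Zeta_dot]; ring
        · simp [Zeta_det]; ring
      map_smul' := fun c u => by
        apply Complex.ext
        · simp [Zeta_dot]; ring
        · simp [Zeta_det]; ring }
  refine ⟨ζ, fun u w hu hw => ?_⟩
  have hζ : ∀ u, ζ u = ⟨(u ⬝ᵥ y) / Y, (det3 x y u) / (X * Y)⟩ := fun u => rfl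
  rw [hζ, hζ]
  have key1 : (u ⬝ᵥ y) * (w ⬝ᵥ y) * (x ⬝ᵥ x) + det3 x y u * det3 x y w =
      (u ⬝ᵥ w) * ((x ⬝ᵥ x) * (y ⬝ᵥ y)) := by
    have e1 : det3 x y u * det3 x y w =
      (x ⬝ᵥ x) * ((y ⬝ᵥ y) * (u ⬝ᵥ w) - (y ⬝ᵥ w) * (u ⬝ᵥ y)) -
      (x ⬝ᵥ y) * ((y ⬝ᵥ x) * (u ⬝ᵥ w) - (y ⬝ᵥ w) * (u ⬝ᵥ x)) +
      (x ⬝ᵥ w) * ((y ⬝ᵥ x) * (u ⬝ᵥ y) - (y ⬝ᵥ y) * (u ⬝ᵥ x)) := by
      simp only [Zeta_det, Zeta_dot]; ring
    have hxy : y ⬝ᵥ x = 0 := hyx
    have hxy' : x ⬝ᵥ y = 0 := by rw [dotProduct_comm]; exact hyx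
    have hxw' : x ⬝ᵥ w = 0 := by rw [dotProduct_comm]; exact hw
    rw [e1, hxy, hxy', hxw', dotProduct_comm y w]
    ring
  have key2 : ((u ⬝ᵥ y) * det3 x y w - det3 x y u * (w ⬝ᵥ y)) = (y ⬝ᵥ y) * det3 x u w := by
    have e1 : (u ⬝ᵥ y) * det3 x y w - det3 x y u * (w ⬝ᵥ y) - (y ⬝ᵥ y) * det3 x u w =
        - (x ⬝ᵥ y) * det3 u w y := by
      simp only [Zeta_det, Zeta_dot]; ring
    have hxy' : x ⬝ᵥ y = 0 := by rw [dotProduct_comm]; exact hyx
    rw [hxy'] at e1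
    linarith
  constructor
  · simp only [Complex.mul_re, Complex.conj_re, Complex.conj_im]
    have : (u ⬝ᵥ y / Y) * (w ⬝ᵥ y / Y) - -(det3 x y u / (X * Y)) * (det3 x y w / (X * Y)) =
        ((u ⬝ᵥ y) * (w ⬝ᵥ y) * (X * X) + det3 x y u * det3 x y w) / ((X * X) * (Y * Y)) := by
      field_simp
      ring
    rw [this, hX2, hY2, key1]
    field_simp
  · simp only [Complex.mul_im, Complex.conj_re, Complex.conj_im]
    have : X * ((u ⬝ᵥ y / Y) * (det3 x y w / (X * Y)) + -(det3 x y u / (X * Y)) * (w ⬝ᵥ y / Y)) =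
        ((u ⬝ᵥ y) * det3 x y w - det3 x y u * (w ⬝ᵥ y)) / (Y * Y) := by
      field_simp
      ring
    rw [this, hY2, key2]
    field_simp

theorem Zeta_det_of (x y z : R3) : Matrix.det (Matrix.of ![x, y, z]) = det3 x y z := by
  rw [Zeta_det, Matrix.det_fin_three]
  simp
  ring

theorem det3_ne_zero_iff (x y z : R3) : det3 x y z ≠ 0 ↔ LinearIndependent ℝ ![x, y, z] := by
  rw [← Zeta_det_of]
  have h1 : (Matrix.of ![x, y, z]).det ≠ 0 ↔ IsUnit (Matrix.of ![x, y, z]) := by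
    rw [Matrix.isUnit_iff_isUnit_det, isUnit_iff_ne_zero]
  rw [h1, ← Matrix.linearIndependent_rows_iff_isUnit]
  rfl

/-- vectors orthogonal to two independent vectors -/
theorem eq_smul_cross {x y z : R3} (h : LinearIndependent ℝ ![x, y]) (hx : x ⬝ᵥ z = 0)
    (hy : y ⬝ᵥ z = 0) : ∃ c : ℝ, z = c • crossProduct x y := by
  have hc : crossProduct x y ≠ 0 := by
    intro h0
    -- the Gram determinant vanishes
    have hx0 : x ≠ 0 := by
      have := h.ne_zero 0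
      simpa using this
    have hg : (x ⬝ᵥ x) * (y ⬝ᵥ y) - (x ⬝ᵥ y) * (y ⬝ᵥ x) = 0 := by
      rw [← cross_dot_cross' x y x y, h0]; simp
    have hz : (x ⬝ᵥ x) • y - (x ⬝ᵥ y) • x = 0 := by
      by_contra hne
      have := Zeta_pos hne
      have e : ((x ⬝ᵥ x) • y - (x ⬝ᵥ y) • x) ⬝ᵥ ((x ⬝ᵥ x) • y - (x ⬝ᵥ y) • x) =
          (x ⬝ᵥ x) * ((x ⬝ᵥ x) * (y ⬝ᵥ y) - (x ⬝ᵥ y) * (y ⬝ᵥ x)) := by
        simp only [Zeta_dot, Pi.sub_apply, Pi.smul_apply, smul_eq_mul]; ring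
      rw [e, hg] at this
      simp at this
    have hpair := (LinearIndependent.pair_iff.mp h) (-(x ⬝ᵥ y)) (x ⬝ᵥ x) (by
      rw [← hz, neg_smul]; abel)
    exact (Zeta_pos hx0).ne' hpair.2
  have hcc := Zeta_pos hc
  refine ⟨(crossProduct x y ⬝ᵥ z) / (crossProduct x y ⬝ᵥ crossProduct x y), ?_⟩
  have key : (crossProduct x y ⬝ᵥ crossProduct x y) • z = (crossProduct x y ⬝ᵥ z) •
      crossProduct x y + ((x ⬝ᵥ z) • ((y ⬝ᵥ y) • x - (x ⬝ᵥ y) • y) +
        (y ⬝ᵥ z) • ((x ⬝ᵥ x) • y - (x ⬝ᵥ y) • x)) := by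
    funext i
    fin_cases i <;>
    · simp [crossProduct, dotProduct, Fin.sum_univ_three]
      ring
  rw [hx, hy] at key
  simp only [zero_smul, add_zero] at key
  rw [div_eq_inv_mul, mul_smul, ← key, smul_smul, inv_mul_cancel₀ hcc.ne', one_smul]

/-- four vectors in a plane and two vectors orthogonal to it: determinants are proportional -/
theorem det3_mul_det3 {x y u w u' w' : R3} (hu : u ⬝ᵥ x = 0) (hw : w ⬝ᵥ x = 0)
    (hu' : u' ⬝ᵥ x = 0) (hw' : w' ⬝ᵥ x = 0) :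
    det3 x u w * det3 y u' w' = det3 y u w * det3 x u' w' := by
  by_cases hx : x = 0
  · subst hx
    simp only [Zeta_det]
    simp
  have hX := Zeta_pos hx
  have key : ∀ u w : R3, u ⬝ᵥ x = 0 → w ⬝ᵥ x = 0 →
      (x ⬝ᵥ x) * det3 y u w = (x ⬝ᵥ y) * det3 x u w := by
    intro u w hu hw
    have e : (x ⬝ᵥ x) * det3 y u w - (x ⬝ᵥ y) * det3 x u w =
        (u ⬝ᵥ x) * det3 y x w + (w ⬝ᵥ x) * det3 y u x := by
      simp only [Zeta_det, Zeta_dot]; ring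
    rw [hu, hw] at e
    linarith
  have k1 := key u w hu hw
  have k2 := key u' w' hu' hw'
  have : (x ⬝ᵥ x) * (det3 x u w * det3 y u' w') = (x ⬝ᵥ x) * (det3 y u w * det3 x u' w') := by
    calc (x ⬝ᵥ x) * (det3 x u w * det3 y u' w') = det3 x u w * ((x ⬝ᵥ x) * det3 y u' w') := by ring
      _ = det3 x u w * ((x ⬝ᵥ y) * det3 x u' w') := by rw [k2]
      _ = ((x ⬝ᵥ y) * det3 x u w) * det3 x u' w' := by ring
      _ = ((x ⬝ᵥ x) * det3 y u w) * det3 x u' w' := by rw [k1]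
      _ = _ := by ring
  exact mul_left_cancel₀ hX.ne' this

end Pool.Agent.VeeC
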